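import Pool.Agent.Lib.MP_0f5a55_nt.S.T04

open Complex MeasureTheory Set Filter Topology
open scoped ComplexConjugate

namespace LT2

open LZ (kk nS cf EE ER PP wt Sep)
open LP

theorem T04u_rpow_le {x t : ℝ} (hx : 1 ≤ x) (ht : |t| ≤ 1/500) : x ^ (-t) ≤ x ^ (501 / 500 - 1 : ℝ) := by
  refine Real.rpow_le_rpow_of_exponent_le hx ?_
  have := (abs_le.1 ht).1
  linarith

theorem T04u_rpow_le' {x t : ℝ} (hx : 1 ≤ x) (ht : |t| ≤ 1/500) :
    x ^ (-t - 1) ≤ x ^ (1 / 500 - 1 : ℝ) := by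
  refine Real.rpow_le_rpow_of_exponent_le hx ?_
  have := (abs_le.1 ht).1
  linarith

theorem T04u_rpow_small {x t : ℝ} (hx : 0 < x) (ht : |t| ≤ 1/500) :
    x ^ (-t) ≤ x ^ (-(1/500) : ℝ) + x ^ (1/500 : ℝ) := by
  have h := abs_le.1 ht
  rcases le_total x 1 with h1 | h1
  · have : x ^ (-t) ≤ x ^ (-(1/500) : ℝ) :=
      Real.rpow_le_rpow_of_exponent_ge hx h1 (by linarith)
    have : 0 ≤ x ^ (1/500 : ℝ) := by positivity
    linarith
  · have : x ^ (-t) ≤ x ^ (1/500 : ℝ) :=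
      Real.rpow_le_rpow_of_exponent_le h1 (by linarith)
    have : 0 ≤ x ^ (-(1/500) : ℝ) := by positivity
    linarith

/-- class_sum2 with exponent 1/500 -/
theorem class_sum3 (V : ℝ) (hV : 0 ≤ V) : ∃ C : ℝ, 0 < C ∧ ∀ η : ℂ, |η.re| ≤ 1/500 → |η.im| ≤ V →
    ∀ (φ φ' : ℝ → ℂ) (D : ℝ → ℝ) (A : ℝ), 0 ≤ A → (∀ y : ℝ, 0 < y → HasDerivAt φ (φ' y) y) →
    (∀ y : ℝ, 0 < y → ‖φ y‖ ≤ A * Real.exp (-y / 2)) →
    (∀ y : ℝ, 0 < y → ‖φ' y‖ ≤ D y * Real.exp (-y / 2)) →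
    (∀ y : ℝ, 0 < y → 0 ≤ D y) → IntegrableOn D (Ioi 0) → (∫ y in Ioi (0:ℝ), D y) ≤ A →
    ∀ k a : ℕ, 1 ≤ a → a ≤ k → ∀ Y : ℝ, 0 < Y → Y ≤ 1 →
    Summable (fun j : ℕ => ((a : ℂ) + j * k) ^ (-η) * φ (((a : ℝ) + j * k) * Y)) ∧
    ‖∑' j : ℕ, ((a : ℂ) + j * k) ^ (-η) * φ (((a : ℝ) + j * k) * Y) -
      (1 / (k : ℂ)) * (Y : ℂ) ^ (η - 1) * ∫ y in Ioi (0:ℝ), (y : ℂ) ^ (-η) * φ y‖ ≤
      C * A * (k : ℝ) ^ (1/500 : ℝ) * Y ^ (-(1/500) : ℝ) := by
  have hG1 : 0 < Real.Gamma (1 / 500) := Real.Gamma_pos_of_pos (by norm_num)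
  have hG2 : 0 < Real.Gamma (501 / 500) := Real.Gamma_pos_of_pos (by norm_num)
  refine ⟨(1 / 500 + V) * (2 * Real.Gamma (1 / 500)) + 1 + 3, by positivity, ?_⟩
  intro η hη1 hη2 φ φ' D A hA hφ hφb hφb' hD0 hDi hDA k a ha hak Y hY hY1
  have hηn : ‖η‖ ≤ 1 / 500 + V := (Complex.norm_le_abs_re_add_abs_im η).trans (add_le_add hη1 hη2)
  have ha1 : (1 : ℝ) ≤ a := by exact_mod_cast ha
  have hak' : (a : ℝ) ≤ k := by exact_mod_cast hak
  have hk1 : (1 : ℝ) ≤ k := ha1.trans hak'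
  have hk0 : (0 : ℝ) < k := by linarith
  set Z : ℝ := Y ^ (-(1/500) : ℝ) with hZ
  have hZ1 : 1 ≤ Z := Real.one_le_rpow_of_pos_of_le_one_of_nonpos hY hY1 (by norm_num)
  set P : ℝ := (k : ℝ) ^ (1/500 : ℝ) with hP
  have hP1 : 1 ≤ P := Real.one_le_rpow hk1 (by norm_num)
  obtain ⟨g, hg⟩ : ∃ g : ℝ → ℂ, g = fun x : ℝ => (x : ℂ) ^ (-η) * φ (x * Y) := ⟨_, rfl⟩
  obtain ⟨g', hg'⟩ : ∃ g' : ℝ → ℂ, g' = fun x : ℝ => (-η * (x : ℂ) ^ (-η - 1)) * φ (x * Y) +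
    (x : ℂ) ^ (-η) * ((Y : ℂ) * φ' (x * Y)) := ⟨_, rfl⟩
  have hder : ∀ x : ℝ, 0 < x → HasDerivAt g (g' x) x := by
    intro x hx
    have h1 : HasDerivAt (fun x : ℝ => (x : ℂ) ^ (-η)) (-η * (x : ℂ) ^ (-η - 1)) x := by
      have h2 : HasDerivAt (fun z : ℂ => z ^ (-η)) (-η * (x : ℂ) ^ (-η - 1) * 1) (x : ℂ) :=
        (hasDerivAt_id (x : ℂ)).cpow_const (Or.inl (by simpa using hx))
      rw [mul_one] at h2
      exact h2.comp_ofReal
    have h3 : HasDerivAt (fun x : ℝ => φ (x * Y)) ((Y : ℂ) * φ' (x * Y)) x := by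
      have h4 : HasDerivAt (fun x : ℝ => x * Y) (1 * Y) x := (hasDerivAt_id x).mul_const Y
      have h5 := (hφ (x * Y) (by positivity)).scomp x h4
      rw [one_mul] at h5
      exact h5
    rw [hg, hg']
    exact h1.mul h3
  have hnorm : ∀ x : ℝ, 0 < x → ‖g x‖ ≤ A * (x ^ (-η.re) * Real.exp (-(Y / 2 * x))) := by
    intro x hx
    rw [hg]
    simp only
    rw [norm_mul, norm_cpow_eq_rpow_re_of_pos hx, neg_re]
    have h1 := hφb (x * Y) (by positivity)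
    have h2 : -(x * Y) / 2 = -(Y / 2 * x) := by ring
    rw [h2] at h1
    calc x ^ (-η.re) * ‖φ (x * Y)‖ ≤ x ^ (-η.re) * (A * Real.exp (-(Y / 2 * x))) := by gcongr
      _ = _ := by ring
  -- x^(1/500) e^(-xY/2) <= Y^(-1/500)
  have hpw : ∀ x : ℝ, 0 < x → x ^ (1/500 : ℝ) * Real.exp (-(x * Y) / 2) ≤ Z := by
    intro x hx
    have hxY : 0 < x * Y := by positivity
    have h1 : x ^ (1/500 : ℝ) = (x * Y) ^ (1/500 : ℝ) * Z := by
      rw [hZ, Real.mul_rpow hx.le hY.le, mul_assoc, ← Real.rpow_add hY]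
      norm_num
    have h2 : (x * Y) ^ (1/500 : ℝ) ≤ Real.exp (x * Y / 2) := by
      have h3 : x * Y ≤ Real.exp (x * Y) := by
        have := Real.add_one_le_exp (x * Y)
        linarith
      calc (x * Y) ^ (1/500 : ℝ) ≤ (Real.exp (x * Y)) ^ (1/500 : ℝ) :=
            Real.rpow_le_rpow hxY.le h3 (by norm_num)
        _ = Real.exp (x * Y * (1/500)) := by rw [← Real.exp_mul]
        _ ≤ Real.exp (x * Y / 2) := by
            apply Real.exp_le_exp.2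
            linarith
    have h4 : Real.exp (x * Y / 2) * Real.exp (-(x * Y) / 2) = 1 := by
      rw [← Real.exp_add, ← Real.exp_zero]
      congr 1
      ring
    rw [h1]
    calc (x * Y) ^ (1/500 : ℝ) * Z * Real.exp (-(x * Y) / 2)
        ≤ Real.exp (x * Y / 2) * Z * Real.exp (-(x * Y) / 2) := by gcongr
      _ = Z * (Real.exp (x * Y / 2) * Real.exp (-(x * Y) / 2)) := by ring
      _ = Z := by rw [h4, mul_one]
  have hnorm' : ∀ x : ℝ, 1 ≤ x → ‖g' x‖ ≤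
      ((1 / 500 + V) * A) * (x ^ (1 / 500 - 1 : ℝ) * Real.exp (-(Y / 2 * x))) +
        (Y * Z) * D (x * Y) := by
    intro x hx1
    have hx : 0 < x := by linarith
    rw [hg']
    simp only
    have h1 := hφb (x * Y) (by positivity)
    have h1' := hφb' (x * Y) (by positivity)
    have hDn := hD0 (x * Y) (by positivity)
    have h2 : -(x * Y) / 2 = -(Y / 2 * x) := by ring
    rw [h2] at h1
    refine (norm_add_le _ _).trans (add_le_add ?_ ?_)
    · rw [norm_mul, norm_mul, norm_neg, norm_cpow_eq_rpow_re_of_pos hx]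
      have h3 : (-η - 1).re = -η.re - 1 := by simp
      rw [h3]
      have h4 := T04u_rpow_le' hx1 hη1
      calc ‖η‖ * x ^ (-η.re - 1) * ‖φ (x * Y)‖
          ≤ (1 / 500 + V) * x ^ (1 / 500 - 1 : ℝ) * (A * Real.exp (-(Y / 2 * x))) := by gcongr
        _ = _ := by ring
    · rw [norm_mul, norm_mul, norm_cpow_eq_rpow_re_of_pos hx, neg_re, norm_real,
        Real.norm_of_nonneg hY.le]
      have h4 : x ^ (-η.re) ≤ x ^ (1/500 : ℝ) := by
        have := T04u_rpow_le hx1 hη1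
        norm_num at this ⊢
        exact this
      calc x ^ (-η.re) * (Y * ‖φ' (x * Y)‖)
          ≤ x ^ (1/500 : ℝ) * (Y * (D (x * Y) * Real.exp (-(x * Y) / 2))) := by gcongr
        _ = (Y * (x ^ (1/500 : ℝ) * Real.exp (-(x * Y) / 2))) * D (x * Y) := by ring
        _ ≤ (Y * Z) * D (x * Y) := by
            have := hpw x hx
            gcongr
  have hY2 : 0 < Y / 2 := by positivity
  obtain ⟨i1, v1⟩ := LZ.A18_gam (b := 1 / 500) (r := Y / 2) (by norm_num) hY2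
  obtain ⟨i2, v2⟩ := LZ.A18_gam (b := 501 / 500) (r := Y / 2) (by norm_num) hY2
  have i3 : IntegrableOn (fun x : ℝ => D (x * Y)) (Ioi 0) := by
    have := (integrableOn_Ioi_comp_mul_right_iff D 0 hY)
    rw [zero_mul] at this
    exact this.2 hDi
  have v3 : ∫ x in Ioi (0 : ℝ), D (x * Y) = Y⁻¹ * ∫ y in Ioi (0:ℝ), D y := by
    have := integral_comp_mul_right_Ioi D 0 hY
    rw [zero_mul, smul_eq_mul] at this
    exact this
  have hsub : Ioi (a : ℝ) ⊆ Ioi (0 : ℝ) := Ioi_subset_Ioi (by linarith)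
  have hcont : ContinuousOn g (Ioi 0) := fun x hx => (hder x hx).continuousAt.continuousWithinAt
  have hmeas' : AEStronglyMeasurable g' (volume.restrict (Ioi (a : ℝ))) := by
    refine ((aestronglyMeasurable_deriv g _)).congr ?_
    filter_upwards [ae_restrict_mem measurableSet_Ioi] with x hx
    exact (hder x (hsub hx)).deriv
  have hgi : IntegrableOn g (Ioi (a : ℝ)) := by
    refine Integrable.mono' ((i2.mono_set hsub).const_mul A)
      ((hcont.mono hsub).aestronglyMeasurable measurableSet_Ioi) ?_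
    filter_upwards [ae_restrict_mem measurableSet_Ioi] with x hx
    have hx1 : 1 ≤ x := ha1.trans (le_of_lt hx)
    refine (hnorm x (by linarith)).trans ?_
    have := T04u_rpow_le hx1 hη1
    gcongr
  have hbd : IntegrableOn (fun x => ((1 / 500 + V) * A) * (x ^ (1 / 500 - 1 : ℝ) *
      Real.exp (-(Y / 2 * x))) + (Y * Z) * D (x * Y))
      (Ioi (0 : ℝ)) := (i1.const_mul _).add (i3.const_mul _)
  have hgi' : IntegrableOn g' (Ioi (a : ℝ)) := by
    refine Integrable.mono' (hbd.mono_set hsub) hmeas' ?_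
    filter_upwards [ae_restrict_mem measurableSet_Ioi] with x hx
    exact hnorm' x (ha1.trans (le_of_lt hx))
  obtain ⟨hs1, hs2⟩ := LZ.sum_int (g := g) (g' := g') (a := (a : ℝ)) k (ha.trans hak)
    (fun x hx => hder x (by linarith)) hgi hgi'
  have hint' : ∫ x in Ioi (a : ℝ), ‖g' x‖ ≤
      ((1 / 500 + V) * (2 * Real.Gamma (1 / 500)) + 1) * A * Z := by
    calc ∫ x in Ioi (a : ℝ), ‖g' x‖
        ≤ ∫ x in Ioi (a : ℝ), (((1 / 500 + V) * A) * (x ^ (1 / 500 - 1 : ℝ) *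
            Real.exp (-(Y / 2 * x))) + (Y * Z) * D (x * Y)) := by
          refine setIntegral_mono_on hgi'.norm (hbd.mono_set hsub) measurableSet_Ioi ?_
          intro x hx
          exact hnorm' x (ha1.trans (le_of_lt hx))
      _ ≤ ∫ x in Ioi (0 : ℝ), (((1 / 500 + V) * A) * (x ^ (1 / 500 - 1 : ℝ) *
            Real.exp (-(Y / 2 * x))) + (Y * Z) * D (x * Y)) := by
          refine setIntegral_mono_set hbd ?_ (Eventually.of_forall hsub)
          filter_upwards [ae_restrict_mem measurableSet_Ioi] with x hx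
          have hx : 0 < x := hx
          have := hD0 (x * Y) (by positivity)
          simp only [Pi.zero_apply]
          positivity
      _ = ((1 / 500 + V) * A) * ((1 / (Y / 2)) ^ (1 / 500 : ℝ) * Real.Gamma (1 / 500)) +
            Z * ∫ y in Ioi (0:ℝ), D y := by
          rw [integral_add (i1.const_mul _) (i3.const_mul _), integral_const_mul,
            integral_const_mul, v1, v3]
          field_simp
      _ ≤ ((1 / 500 + V) * A) * ((2 * Z) * Real.Gamma (1 / 500)) + Z * A := by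
          have e1 : (1 / (Y / 2)) ^ (1 / 500 : ℝ) ≤ 2 * Z := by
            have e : 1 / (Y / 2) = 2 * Y⁻¹ := by field_simp
            rw [e, Real.mul_rpow (by norm_num) (by positivity), Real.inv_rpow hY.le,
              ← Real.rpow_neg hY.le]
            have h1 : (2 : ℝ) ^ (1 / 500 : ℝ) ≤ 2 ^ (1 : ℝ) :=
              Real.rpow_le_rpow_of_exponent_le (by norm_num) (by norm_num)
            rw [Real.rpow_one] at h1
            exact mul_le_mul_of_nonneg_right h1 (by positivity)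
          gcongr
      _ = _ := by ring
  -- the missing piece
  have hj0 : IntervalIntegrable (fun x : ℝ => A * (x ^ (-(1/500) : ℝ) + x ^ (1/500 : ℝ))) volume 0 a :=
    ((intervalIntegral.intervalIntegrable_rpow' (by norm_num)).add
      (intervalIntegral.intervalIntegrable_rpow' (by norm_num))).const_mul A
  have hsm : ∀ x ∈ Ioc (0 : ℝ) a, ‖g x‖ ≤ A * (x ^ (-(1/500) : ℝ) + x ^ (1/500 : ℝ)) := by
    intro x hx
    refine (hnorm x hx.1).trans ?_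
    have h1 := T04u_rpow_small hx.1 hη1
    have h2 : Real.exp (-(Y / 2 * x)) ≤ 1 := by
      rw [Real.exp_le_one_iff]
      have := hx.1
      have : 0 < Y / 2 * x := by positivity
      linarith
    have h3 : 0 ≤ x ^ (-η.re) := Real.rpow_nonneg hx.1.le _
    calc A * (x ^ (-η.re) * Real.exp (-(Y / 2 * x))) ≤ A * (x ^ (-η.re) * 1) := by gcongr
      _ ≤ _ := by rw [mul_one]; gcongr
  have hg0a : IntegrableOn g (Ioc (0 : ℝ) a) := by
    refine Integrable.mono' ((intervalIntegrable_iff_integrableOn_Ioc_of_le (by linarith)).1 hj0)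
      ((hcont.mono Ioc_subset_Ioi_self).aestronglyMeasurable measurableSet_Ioc) ?_
    filter_upwards [ae_restrict_mem measurableSet_Ioc] with x hx
    exact hsm x hx
  have hpiece : ‖∫ x in Ioc (0 : ℝ) a, g x‖ ≤ 3 * A * (k * P) := by
    calc ‖∫ x in Ioc (0 : ℝ) a, g x‖ ≤ ∫ x in Ioc (0 : ℝ) a, A * (x ^ (-(1/500) : ℝ) +
          x ^ (1/500 : ℝ)) := by
          refine norm_integral_le_of_norm_le
            ((intervalIntegrable_iff_integrableOn_Ioc_of_le (by linarith)).1 hj0) ?_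
          filter_upwards [ae_restrict_mem measurableSet_Ioc] with x hx
          exact hsm x hx
      _ = ∫ x in (0 : ℝ)..a, A * (x ^ (-(1/500) : ℝ) + x ^ (1/500 : ℝ)) := by
          rw [intervalIntegral.integral_of_le (by linarith)]
      _ = A * (500 / 499 * (a : ℝ) ^ (499 / 500 : ℝ) + 500 / 501 * (a : ℝ) ^ (501 / 500 : ℝ)) := by
          rw [intervalIntegral.integral_const_mul, intervalIntegral.integral_add
            (intervalIntegral.intervalIntegrable_rpow' (by norm_num))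
            (intervalIntegral.intervalIntegrable_rpow' (by norm_num)),
            integral_rpow (Or.inl (by norm_num)), integral_rpow (Or.inl (by norm_num)),
            show (-(1/500) + 1 : ℝ) = 499 / 500 by norm_num, show (1/500 + 1 : ℝ) = 501 / 500 by norm_num,
            Real.zero_rpow (by norm_num), Real.zero_rpow (by norm_num)]
          ring
      _ ≤ A * (500 / 499 * (k * P) + 500 / 501 * (k * P)) := by
          have e0 : (k : ℝ) * P = (k : ℝ) ^ (501/500 : ℝ) := by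
            rw [hP]
            nth_rewrite 1 [← Real.rpow_one (k : ℝ)]
            rw [← Real.rpow_add hk0]
            norm_num
          have e1 : (a : ℝ) ^ (499 / 500 : ℝ) ≤ k * P := by
            rw [e0]
            exact (Real.rpow_le_rpow_of_exponent_le ha1 (by norm_num)).trans
              (Real.rpow_le_rpow (by linarith) hak' (by norm_num))
          have e2 : (a : ℝ) ^ (501 / 500 : ℝ) ≤ k * P := by
            rw [e0]
            exact (Real.rpow_le_rpow (by linarith) hak' (by norm_num))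
          gcongr
      _ ≤ 3 * A * (k * P) := by
          have h0 : 0 ≤ A * (k * P) := by positivity
          calc A * (500 / 499 * (k * P) + 500 / 501 * (k * P)) = 500000 / 249999 * (A * (k * P)) := by ring
            _ ≤ 3 * (A * (k * P)) := mul_le_mul_of_nonneg_right (by norm_num) h0
            _ = 3 * A * (k * P) := by ring
  -- substitution
  have hsubst : ∫ x in Ioi (0 : ℝ), g x =
      (Y : ℂ) ^ (η - 1) * ∫ y in Ioi (0:ℝ), (y : ℂ) ^ (-η) * φ y := by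
    have h1 := integral_comp_mul_right_Ioi (fun y : ℝ => (y : ℂ) ^ (-η) * φ y) 0 hY
    rw [zero_mul] at h1
    have hYc : (Y : ℂ) ≠ 0 := by exact_mod_cast hY.ne'
    have h2 : ∫ x in Ioi (0 : ℝ), ((x * Y : ℝ) : ℂ) ^ (-η) * φ (x * Y) =
        (Y : ℂ) ^ (-η) * ∫ x in Ioi (0 : ℝ), g x := by
      rw [← integral_const_mul]
      refine setIntegral_congr_fun measurableSet_Ioi fun x hx => ?_
      have hx : 0 < x := hx
      rw [hg]
      simp only
      rw [ofReal_mul, mul_cpow_ofReal_nonneg hx.le hY.le]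
      ring
    rw [h2] at h1
    have h3 : (Y : ℂ) ^ η * (Y : ℂ) ^ (-η) = 1 := by
      rw [← cpow_add _ _ hYc, add_neg_cancel, cpow_zero]
    calc ∫ x in Ioi (0 : ℝ), g x = (Y : ℂ) ^ η * ((Y : ℂ) ^ (-η) * ∫ x in Ioi (0 : ℝ), g x) := by
          rw [← mul_assoc, h3, one_mul]
      _ = _ := by
          rw [h1, cpow_sub _ _ hYc, cpow_one, real_smul, ofReal_inv]
          field_simp
  have hterm : ∀ j : ℕ, ((a : ℂ) + j * k) ^ (-η) * φ (((a : ℝ) + j * k) * Y) =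
      g ((a : ℝ) + j * k) := by
    intro j
    rw [hg]
    push_cast
    rfl
  simp only [hterm]
  refine ⟨hs1, ?_⟩
  have hsplit : ∫ x in Ioi (0 : ℝ), g x =
      (∫ x in Ioc (0 : ℝ) a, g x) + ∫ x in Ioi (a : ℝ), g x := by
    rw [← setIntegral_union Ioc_disjoint_Ioi_same measurableSet_Ioi hg0a hgi,
      Ioc_union_Ioi_eq_Ioi (by linarith)]
  rw [mul_assoc, ← hsubst, hsplit]
  have hkn : ‖(1 / (k : ℂ))‖ = (k : ℝ)⁻¹ := by
    rw [norm_div, norm_one, Complex.norm_natCast, one_div]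
  calc ‖∑' j : ℕ, g ((a : ℝ) + j * k) - 1 / (k : ℂ) * ((∫ x in Ioc (0 : ℝ) a, g x) +
        ∫ x in Ioi (a : ℝ), g x)‖
      = ‖(∑' j : ℕ, g ((a : ℝ) + j * k) - 1 / (k : ℂ) * ∫ x in Ioi (a : ℝ), g x) -
          1 / (k : ℂ) * ∫ x in Ioc (0 : ℝ) a, g x‖ := by
        congr 1
        ring
    _ ≤ ‖∑' j : ℕ, g ((a : ℝ) + j * k) - 1 / (k : ℂ) * ∫ x in Ioi (a : ℝ), g x‖ +
          ‖1 / (k : ℂ) * ∫ x in Ioc (0 : ℝ) a, g x‖ := norm_sub_le _ _
    _ ≤ ((1 / 500 + V) * (2 * Real.Gamma (1 / 500)) + 1) * A * Z + 3 * A * P := by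
        rw [norm_mul, hkn]
        refine add_le_add (hs2.trans hint') ?_
        calc (k : ℝ)⁻¹ * ‖∫ x in Ioc (0 : ℝ) a, g x‖ ≤ (k : ℝ)⁻¹ * (3 * A * (k * P)) := by gcongr
          _ = 3 * A * P := by field_simp
    _ ≤ ((1 / 500 + V) * (2 * Real.Gamma (1 / 500)) + 1) * A * (P * Z) + 3 * A * (P * Z) := by
        have e1 : Z ≤ P * Z := by nlinarith
        have e2 : P ≤ P * Z := by nlinarith
        gcongr
    _ = _ := by ring

/-- harmonic sum -/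
theorem T04u_harm (K : ℕ) (hK : 1 ≤ K) : ∑ c ∈ Finset.Ico 1 K, (1 : ℝ) / c ≤ 501 * (K : ℝ) ^ (1/500 : ℝ) := by
  have hK1 : (1 : ℝ) ≤ K := by exact_mod_cast hK
  have h1 : ∑ c ∈ Finset.Ico 1 K, (1 : ℝ) / c ≤ 1 + Real.log K := by
    have h2 := harmonic_le_one_add_log K
    have h3 : ((harmonic K : ℚ) : ℝ) = ∑ i ∈ Finset.range K, 1 / ((i : ℝ) + 1) := by
      unfold harmonic
      push_cast
      apply Finset.sum_congr rfl
      intro i _
      rw [one_div]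
    rw [h3] at h2
    refine le_trans ?_ h2
    rw [Finset.sum_Ico_eq_sum_range]
    calc ∑ i ∈ Finset.range (K - 1), (1 : ℝ) / ((1 + i : ℕ) : ℝ)
        = ∑ i ∈ Finset.range (K - 1), 1 / ((i : ℝ) + 1) := by
          apply Finset.sum_congr rfl
          intro i _
          push_cast
          rw [add_comm]
      _ ≤ _ := by
          apply Finset.sum_le_sum_of_subset_of_nonneg
          · exact Finset.range_mono (by omega)
          · intro i _ _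
            positivity
  have h4 : Real.log K ≤ (K : ℝ) ^ (1/500 : ℝ) / (1/500) := Real.log_le_rpow_div (by positivity) (by norm_num)
  have h5 : 1 ≤ (K : ℝ) ^ (1/500 : ℝ) := Real.one_le_rpow hK1 (by norm_num)
  linarith

/-- sum of the weights over a period -/
theorem T04u_sum (N : ℕ) [NeZero N] (h k b : ℕ) (hk : 1 ≤ k) (hN : 0 < N) (hc : Nat.Coprime h k) (hhN : Nat.Coprime h N) :
    ∑ a ∈ Finset.Icc 1 (k * N), wA k (k * N) (cab N h k a b) ≤
      1003 * ((k * N : ℕ) : ℝ) ^ (501/500 : ℝ) := by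
  have hK : 0 < k * N := Nat.mul_pos hk hN
  set K : ℕ := k * N with hKd
  have hkK : k ≤ K := Nat.le_mul_of_pos_right k hN
  have hK1 : (1 : ℝ) ≤ K := by exact_mod_cast hK
  have hKR : (0 : ℝ) < K := by linarith
  have hinj := T04_inj N h k b hk hN hc hhN
  have e1 : ∑ a ∈ Finset.Icc 1 K, wA k K (cab N h k a b) =
      ∑ c ∈ (Finset.Icc 1 K).image (fun a => cab N h k a b), wA k K c :=
    (Finset.sum_image hinj).symm
  rw [e1]
  have hnn : ∀ c ∈ Finset.range K, 0 ≤ wA k K c := fun c hc => wA_nonneg (Finset.mem_range.1 hc)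
  have hsub : (Finset.Icc 1 K).image (fun a => cab N h k a b) ⊆ Finset.range K := by
    intro c hc
    rw [Finset.mem_image] at hc
    obtain ⟨a, -, rfl⟩ := hc
    rw [Finset.mem_range]
    exact A20_cab_lt h k hk _ _
  refine (Finset.sum_le_sum_of_subset_of_nonneg hsub (fun c hc _ => hnn c hc)).trans ?_
  have e2 : ∑ c ∈ Finset.range K, wA k K c = wA k K 0 + ∑ c ∈ Finset.Ico 1 K, wA k K c := by
    rw [Finset.range_eq_Ico, Finset.sum_eq_sum_Ico_succ_bot hK]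
  rw [e2]
  have e3 : wA k K 0 = k := by simp [wA]
  have e4 : ∑ c ∈ Finset.Ico 1 K, wA k K c = 2 * K * ∑ c ∈ Finset.Ico 1 K, (1 : ℝ) / c := by
    have e5 : ∑ c ∈ Finset.Ico 1 K, wA k K c =
        ∑ c ∈ Finset.Ico 1 K, ((K : ℝ) * (1 / c) + (K : ℝ) * (1 / ((K - c : ℕ) : ℝ))) := by
      apply Finset.sum_congr rfl
      intro c hc
      rw [Finset.mem_Ico] at hc
      unfold wA
      rw [if_neg (by omega), Nat.cast_sub hc.2.le]
      ring
    have e6 : ∑ c ∈ Finset.Ico 1 K, (1 : ℝ) / ((K - c : ℕ) : ℝ) = ∑ c ∈ Finset.Ico 1 K, (1 : ℝ) / c := by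
      refine Finset.sum_nbij' (fun c => K - c) (fun c => K - c) ?_ ?_ ?_ ?_ ?_
      · intro c hc
        rw [Finset.mem_Ico] at hc ⊢
        omega
      · intro c hc
        rw [Finset.mem_Ico] at hc ⊢
        omega
      · intro c hc
        rw [Finset.mem_Ico] at hc
        omega
      · intro c hc
        rw [Finset.mem_Ico] at hc
        omega
      · intro c hc
        rfl
    rw [e5, Finset.sum_add_distrib, ← Finset.mul_sum, ← Finset.mul_sum, e6]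
    ring
  rw [e3, e4]
  have h1 := T04u_harm K hK
  have e7 : (K : ℝ) ^ (501/500 : ℝ) = K * (K : ℝ) ^ (1/500 : ℝ) := by
    rw [show (501/500 : ℝ) = 1 + 1/500 by norm_num, Real.rpow_add hKR, Real.rpow_one]
  have h5 : 1 ≤ (K : ℝ) ^ (1/500 : ℝ) := Real.one_le_rpow hK1 (by norm_num)
  have h6 : (k : ℝ) ≤ K := by exact_mod_cast hkK
  rw [e7]
  calc (k : ℝ) + 2 * K * ∑ c ∈ Finset.Ico 1 K, (1 : ℝ) / c
      ≤ K * (K : ℝ) ^ (1/500 : ℝ) + 2 * K * (501 * (K : ℝ) ^ (1/500 : ℝ)) := by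
        have : (K : ℝ) * 1 ≤ K * (K : ℝ) ^ (1/500 : ℝ) := by gcongr
        gcongr
        linarith
    _ = _ := by ring

variable {N : ℕ} [NeZero N]

/-- as DD_asymp, |eta.re| <= 1/500; total variation of the classes: k log k Y^(-1/500); lap_per: k^(1/2+) Y^(-1/4) -/
theorem DD_asymp3 (χ ψ : DirichletCharacter ℂ N) (V : ℝ) (hV : 0 ≤ V) : ∃ C : ℝ, 0 < C ∧ ∀ η : ℂ, |η.re| ≤ 1/500 →
    |η.im| ≤ V → η ≠ 0 → ∀ h k : ℕ, 1 ≤ h → 1 ≤ k → Nat.Coprime h k → Nat.Coprime h N → Nat.Coprime k N →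
    ∀ Y : ℝ, 0 < Y → Y ≤ 1 →
    ‖DD χ ψ η ((Y : ℂ) + 2 * Real.pi * I * h / (k * N)) -
      (χ (k : ZMod N) * ψ (h : ZMod N) * ((k : ℂ) ^ (-1 - η) * LX.Lf (χ * ψ) (1 + η) / Y) +
        χ⁻¹ (h : ZMod N) * ψ⁻¹ (k : ZMod N) *
          ((N : ℂ)⁻¹ * AC χ ψ η * (k : ℂ) ^ (η - 1) * (Y : ℂ) ^ (η - 1)))‖ ≤
      C * (1 + 1 / ‖η‖) * ((k : ℝ) ^ (101/100 : ℝ) * Y ^ (-(1/200) : ℝ) + (k : ℝ) ^ (51/100 : ℝ) * Y ^ (-(1/4) : ℝ)) := by
  obtain ⟨C0, hC0, h0⟩ := ph_bounds2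
  obtain ⟨C1, hC1, h1⟩ := class_sum3 V hV
  obtain ⟨C2, hC2, h2⟩ := lap_per (fun a : ZMod N => (χ * ψ) a) V hV
  have hN : 0 < N := Nat.pos_of_ne_zero (NeZero.ne N)
  have hNR : (0 : ℝ) < N := by exact_mod_cast hN
  refine ⟨C1 * C0 * 1003 * (N : ℝ) ^ (501/250 : ℝ) + C2, by positivity, ?_⟩
  intro η hη5 hηi hη0 h k hh hk hc hhN hkN Y hY hY1
  have hη : |η.re| ≤ 1/8 := hη5.trans (by norm_num)
  rw [DD_split χ ψ η hη h k hh hk hc hhN hkN Y hY]
  have hK : 0 < k * N := Nat.mul_pos hk hN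
  have hkK : k ≤ k * N := Nat.le_mul_of_pos_right k hN
  have hk0 : (k : ℂ) ≠ 0 := by
    have : k ≠ 0 := by omega
    exact_mod_cast this
  have hN0 : (N : ℂ) ≠ 0 := by exact_mod_cast hN.ne'
  have hkR : (0:ℝ) < k := by
    have : 0 < k := by omega
    exact_mod_cast this
  have hk1 : (1:ℝ) ≤ k := by exact_mod_cast hk
  have hY0 : (Y : ℂ) ≠ 0 := by exact_mod_cast hY.ne'
  set S : ℕ → ZMod N → ℂ := fun a b => ∑' j : ℕ, ((a : ℂ) + j * ((k * N : ℕ) : ℂ)) ^ (-η) *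
          ph k (k * N) (cab N h k a b.val) (((a : ℝ) + j * ((k * N : ℕ) : ℝ)) * Y) with hS
  set J : ℕ → ZMod N → ℂ := fun a b => ∫ y in Ioi (0:ℝ), (y : ℂ) ^ (-η) *
    ph k (k * N) (cab N h k a b.val) y with hJ
  set L : ℂ := ∑' n : ℕ, (χ * ψ) ((n + 1 : ℕ) : ZMod N) *
        ((n : ℂ) + 1) ^ (-(1 + η)) * (Real.exp (-(((n : ℝ) + 1) * ((k : ℝ) ^ 2 * Y))) : ℂ) with hL
  set Z8 : ℝ := Y ^ (-(1/500) : ℝ) with hZ8
  set Z : ℝ := Y ^ (-(1/4) : ℝ) with hZ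
  have hZ0 : 0 ≤ Z := Real.rpow_nonneg hY.le _
  have hZ80 : 0 ≤ Z8 := Real.rpow_nonneg hY.le _
  set Zs : ℝ := Y ^ (-(1/200) : ℝ) with hZs
  have hZs0 : 0 ≤ Zs := Real.rpow_nonneg hY.le _
  have hZ8Z : Z8 ≤ Zs := Real.rpow_le_rpow_of_exponent_ge hY hY1 (by norm_num)
  set K8 : ℝ := ((k * N : ℕ) : ℝ) ^ (1/500 : ℝ) with hK8
  have hK80 : 0 ≤ K8 := Real.rpow_nonneg (Nat.cast_nonneg _) _
  -- the classes
  have hcl : ∀ a ∈ Finset.Icc 1 (k * N), ∀ b : ZMod N,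
      ‖χ (a : ZMod N) * ψ b * (S a b - (1 / ((k * N : ℕ) : ℂ)) * (Y : ℂ) ^ (η - 1) * J a b)‖ ≤
      (C1 * C0 * K8 * Z8) * wA k (k * N) (cab N h k a b.val) := by
    intro a ha b
    rw [Finset.mem_Icc] at ha
    obtain ⟨φ', D, hd, hb, hb', hD0, hDi, hDA⟩ := h0 k (k * N) (cab N h k a b.val) hk hkK
      (A20_cab_lt h k hk _ _)
    have hw0 : 0 ≤ wA k (k * N) (cab N h k a b.val) := wA_nonneg (A20_cab_lt h k hk _ _)
    have h5 := (h1 η hη5 hηi (ph k (k * N) (cab N h k a b.val)) φ' D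
      (C0 * wA k (k * N) (cab N h k a b.val))
      (by positivity) hd hb hb' hD0 hDi hDA (k * N) a ha.1 ha.2 Y hY hY1).2
    rw [norm_mul, norm_mul]
    have h6 : ‖χ (a : ZMod N)‖ ≤ 1 := DirichletCharacter.norm_le_one χ _
    have h7 : ‖ψ b‖ ≤ 1 := DirichletCharacter.norm_le_one ψ _
    refine (A20_mul_le h6 h7 (norm_nonneg _) (norm_nonneg _) h5).trans (le_of_eq ?_)
    rw [hK8, hZ8]
    ring
  -- total main part
  have hmain := ph_int χ ψ h k hh hk hc hhN hkN η hη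
  have hSf : ∑ a : ZMod N, (χ * ψ) a = Sf χ ψ := by
    unfold Sf
    exact Finset.sum_congr rfl fun a _ => MulChar.mul_apply _ _ _
  have hsf2 := (ph_sum χ ψ h k hh hk hc hhN hkN 1 one_pos).2
  -- last part
  have hX : (0:ℝ) < (k : ℝ) ^ 2 * Y := by positivity
  have hlap := h2 η hη hηi hη0 ((k : ℝ) ^ 2 * Y) hX
  rw [hSf] at hlap
  have hpow : (((k : ℝ) ^ 2 * Y : ℝ) : ℂ) ^ η = (k : ℂ) ^ η * (k : ℂ) ^ η * (Y : ℂ) ^ η := by
    rw [ofReal_mul, mul_cpow_ofReal_nonneg (by positivity) hY.le]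
    congr 1
    have : (((k : ℝ) ^ 2 : ℝ) : ℂ) = ((k : ℝ) : ℂ) * ((k : ℝ) : ℂ) := by
      push_cast; ring
    rw [this, mul_cpow_ofReal_nonneg hkR.le hkR.le]
    simp
  have hkη : (k : ℂ) ^ η ≠ 0 := by
    rw [Ne, cpow_eq_zero_iff]
    exact fun h => hk0 h.1
  have e1 : (k : ℂ) ^ (-1 - η) = (k : ℂ)⁻¹ / (k : ℂ) ^ η := by
    rw [cpow_sub _ _ hk0, cpow_neg_one]
  have e2 : (k : ℂ) ^ (η - 1) = (k : ℂ) ^ η / k := by
    rw [cpow_sub _ _ hk0, cpow_one]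
  have e3 : (Y : ℂ) ^ (η - 1) = (Y : ℂ) ^ η / Y := by
    rw [cpow_sub _ _ hY0, cpow_one]
  have hLf : LX.Lf (χ * ψ) (1 + η) = ZMod.LFunction (fun a : ZMod N => (χ * ψ) a) (1 + η) := rfl
  rw [hLf]
  set LF : ℂ := ZMod.LFunction (fun a : ZMod N => (χ * ψ) a) (1 + η) with hLF
  have hid : (∑ a ∈ Finset.Icc 1 (k * N), ∑ b : ZMod N, χ (a : ZMod N) * ψ b * S a b) +
      χ (k : ZMod N) * ψ (h : ZMod N) * ((k : ℂ) ^ (-1 - η) / Y) * L -
      (χ (k : ZMod N) * ψ (h : ZMod N) * ((k : ℂ) ^ (-1 - η) * LF / Y) +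
        χ⁻¹ (h : ZMod N) * ψ⁻¹ (k : ZMod N) *
          ((N : ℂ)⁻¹ * AC χ ψ η * (k : ℂ) ^ (η - 1) * (Y : ℂ) ^ (η - 1))) =
      (∑ a ∈ Finset.Icc 1 (k * N), ∑ b : ZMod N,
        χ (a : ZMod N) * ψ b * (S a b - (1 / ((k * N : ℕ) : ℂ)) * (Y : ℂ) ^ (η - 1) * J a b)) +
      χ (k : ZMod N) * ψ (h : ZMod N) * ((k : ℂ) ^ (-1 - η) / Y) * (L - (LF -
        (Sf χ ψ) / N * (Gamma (1 - η) / η) * (((k : ℝ) ^ 2 * Y : ℝ) : ℂ) ^ η)) := by
    have hsplit : (∑ a ∈ Finset.Icc 1 (k * N), ∑ b : ZMod N,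
        χ (a : ZMod N) * ψ b * (S a b - (1 / ((k * N : ℕ) : ℂ)) * (Y : ℂ) ^ (η - 1) * J a b)) =
        (∑ a ∈ Finset.Icc 1 (k * N), ∑ b : ZMod N, χ (a : ZMod N) * ψ b * S a b) -
        (1 / ((k * N : ℕ) : ℂ)) * (Y : ℂ) ^ (η - 1) *
          (∑ a ∈ Finset.Icc 1 (k * N), ∑ b : ZMod N, χ (a : ZMod N) * ψ b * J a b) := by
      rw [Finset.mul_sum, ← Finset.sum_sub_distrib]
      apply Finset.sum_congr rfl
      intro a _
      rw [Finset.mul_sum, ← Finset.sum_sub_distrib]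
      apply Finset.sum_congr rfl
      intro b _
      ring
    rw [hsplit, hmain, hpow]
    unfold AC
    have hm3 : χ (k : ZMod N) * ψ (h : ZMod N) * ((k : ℂ) ^ (-1 - η) / Y) *
        ((Sf χ ψ) / N * (Gamma (1 - η) / η) * ((k : ℂ) ^ η * (k : ℂ) ^ η * (Y : ℂ) ^ η)) =
        (χ (k : ZMod N) * ψ (h : ZMod N) * Sf χ ψ) * ((N : ℂ)⁻¹ * (Gamma (1 - η) / η) *
          ((k : ℂ) ^ (η - 1) * (Y : ℂ) ^ (η - 1))) := by
      rw [e1, e2, e3]
      exact A20_alg1 _ _ _ _ _ _ _ _ _ hkη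
    have hm4 : (1 / ((k * N : ℕ) : ℂ)) * (Y : ℂ) ^ (η - 1) *
        (χ⁻¹ (h : ZMod N) * ψ⁻¹ (k : ZMod N) * (k : ℂ) ^ η * JF χ ψ η) =
        χ⁻¹ (h : ZMod N) * ψ⁻¹ (k : ZMod N) *
          ((N : ℂ)⁻¹ * JF χ ψ η * (k : ℂ) ^ (η - 1) * (Y : ℂ) ^ (η - 1)) := by
      rw [e2, Nat.cast_mul]
      ring
    rw [hm4]
    rw [hsf2] at hm3
    linear_combination (-1) * hm3
  rw [hid]
  have hE : 1 ≤ 1 + 1 / ‖η‖ :=
    le_add_of_nonneg_right (div_nonneg zero_le_one (norm_nonneg _))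
  set E : ℝ := 1 + 1 / ‖η‖ with hEd
  have hE0 : 0 ≤ E := by linarith
  set k54 : ℝ := (k : ℝ) ^ (101/100 : ℝ) with hk54
  have hk540 : 0 ≤ k54 := Real.rpow_nonneg hkR.le _
  set k51 : ℝ := (k : ℝ) ^ (51/100 : ℝ) with hk51
  have hk510 : 0 ≤ k51 := Real.rpow_nonneg hkR.le _
  have n1 : ‖∑ a ∈ Finset.Icc 1 (k * N), ∑ b : ZMod N,
        χ (a : ZMod N) * ψ b * (S a b - (1 / ((k * N : ℕ) : ℂ)) * (Y : ℂ) ^ (η - 1) * J a b)‖ ≤
      C1 * C0 * 1003 * (N : ℝ) ^ (501/250 : ℝ) * E * (k54 * Zs) := by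
    rw [Finset.sum_comm]
    have hin : ∀ b ∈ (Finset.univ : Finset (ZMod N)), ‖∑ a ∈ Finset.Icc 1 (k * N),
        χ (a : ZMod N) * ψ b * (S a b - (1 / ((k * N : ℕ) : ℂ)) * (Y : ℂ) ^ (η - 1) * J a b)‖ ≤
        (C1 * C0 * K8 * Z8) * (1003 * ((k * N : ℕ) : ℝ) ^ (501/500 : ℝ)) := by
      intro b _
      refine (norm_sum_le_of_le _ fun a ha => hcl a ha b).trans ?_
      rw [← Finset.mul_sum]
      apply mul_le_mul_of_nonneg_left _ (by positivity)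
      exact T04u_sum N h k b.val hk hN hc hhN
    refine (norm_sum_le_of_le _ hin).trans ?_
    rw [Finset.sum_const, Finset.card_univ, ZMod.card, nsmul_eq_mul]
    have hKpos : (0 : ℝ) < ((k * N : ℕ) : ℝ) := by exact_mod_cast hK
    have e5 : K8 * ((k * N : ℕ) : ℝ) ^ (501/500 : ℝ) =
        (k : ℝ) ^ (251/250 : ℝ) * (N : ℝ) ^ (251/250 : ℝ) := by
      rw [hK8, ← Real.rpow_add hKpos, Nat.cast_mul, ← Real.mul_rpow hkR.le hNR.le]
      norm_num
    have e5' : (k : ℝ) ^ (251/250 : ℝ) ≤ k54 := Real.rpow_le_rpow_of_exponent_le hk1 (by norm_num)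
    have e6 : (N : ℝ) * (N : ℝ) ^ (251/250 : ℝ) = (N : ℝ) ^ (501/250 : ℝ) := by
      rw [show (501/250 : ℝ) = 1 + 251/250 by norm_num, Real.rpow_add hNR, Real.rpow_one]
    calc (N : ℝ) * ((C1 * C0 * K8 * Z8) * (1003 * ((k * N : ℕ) : ℝ) ^ (501/500 : ℝ)))
        = C1 * C0 * 1003 * N * (K8 * ((k * N : ℕ) : ℝ) ^ (501/500 : ℝ)) * Z8 := by ring
      _ = C1 * C0 * 1003 * (N : ℝ) ^ (501/250 : ℝ) * 1 * ((k : ℝ) ^ (251/250 : ℝ) * Z8) := by
          rw [e5, ← e6]; ring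
      _ ≤ C1 * C0 * 1003 * (N : ℝ) ^ (501/250 : ℝ) * E * (k54 * Zs) := by gcongr
  have n3 : ‖χ (k : ZMod N) * ψ (h : ZMod N) * ((k : ℂ) ^ (-1 - η) / Y) * (L - (LF -
        (Sf χ ψ) / N * (Gamma (1 - η) / η) * (((k : ℝ) ^ 2 * Y : ℝ) : ℂ) ^ η))‖ ≤
      C2 * E * (k51 * Z) := by
    rw [norm_mul, norm_mul, norm_mul, norm_div, norm_real, Real.norm_eq_abs, abs_of_pos hY]
    have h6 : ‖χ (k : ZMod N)‖ ≤ 1 := DirichletCharacter.norm_le_one χ _
    have h7 : ‖ψ (h : ZMod N)‖ ≤ 1 := DirichletCharacter.norm_le_one ψ _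
    have hkn : ‖(k : ℂ) ^ (-1 - η)‖ ≤ (k : ℝ) ^ (-(499/500) : ℝ) := by
      have : (k : ℂ) = ((k : ℝ) : ℂ) := by simp
      rw [this, norm_cpow_eq_rpow_re_of_pos hkR]
      apply Real.rpow_le_rpow_of_exponent_le hk1
      simp only [sub_re, neg_re, one_re]
      have := (abs_le.1 hη5).1
      linarith
    have hk34 : ((k : ℝ) ^ 2 * Y) ^ (3/4 : ℝ) = (k : ℝ) ^ (3/2 : ℝ) * Y ^ (3/4 : ℝ) := by
      rw [Real.mul_rpow (by positivity) hY.le, ← Real.rpow_natCast, ← Real.rpow_mul hkR.le]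
      norm_num
    have hZY : Y ^ (3/4 : ℝ) / Y = Z := by
      rw [hZ]
      have : Y ^ (3/4 : ℝ) / Y = Y ^ (3/4 : ℝ) / Y ^ (1 : ℝ) := by rw [Real.rpow_one]
      rw [this, ← Real.rpow_sub hY]
      norm_num
    have hkk : (k : ℝ) ^ (-(499/500) : ℝ) * (k : ℝ) ^ (3/2 : ℝ) ≤ k51 := by
      rw [← Real.rpow_add hkR, hk51]
      exact Real.rpow_le_rpow_of_exponent_le hk1 (by norm_num)
    rw [hk34] at hlap
    calc ‖χ (k : ZMod N)‖ * ‖ψ (h : ZMod N)‖ * (‖(k : ℂ) ^ (-1 - η)‖ / Y) * ‖L - (LF -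
        (Sf χ ψ) / N * (Gamma (1 - η) / η) * (((k : ℝ) ^ 2 * Y : ℝ) : ℂ) ^ η)‖
        ≤ 1 * 1 * ((k : ℝ) ^ (-(499/500) : ℝ) / Y) * (C2 * E * ((k : ℝ) ^ (3/2 : ℝ) * Y ^ (3/4 : ℝ))) := by
          gcongr
      _ = C2 * E * ((k : ℝ) ^ (-(499/500) : ℝ) * (k : ℝ) ^ (3/2 : ℝ)) * (Y ^ (3/4 : ℝ) / Y) := by ring
      _ ≤ C2 * E * (k51 * Z) := by
          rw [hZY]
          calc _ ≤ C2 * E * k51 * Z := by gcongr
            _ = _ := by ring
  refine (norm_add_le _ _).trans ?_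
  have q1 : 0 ≤ k54 * Zs := by positivity
  have q2 : 0 ≤ k51 * Z := by positivity
  have q3 : 0 ≤ C1 * C0 * 1003 * (N : ℝ) ^ (501/250 : ℝ) * E := by positivity
  have q4 : 0 ≤ C2 * E := by positivity
  calc _ ≤ C1 * C0 * 1003 * (N : ℝ) ^ (501/250 : ℝ) * E * (k54 * Zs) +
        C2 * E * (k51 * Z) := add_le_add n1 n3
    _ ≤ (C1 * C0 * 1003 * (N : ℝ) ^ (501/250 : ℝ) * E + C2 * E) * (k54 * Zs) +
        (C1 * C0 * 1003 * (N : ℝ) ^ (501/250 : ℝ) * E + C2 * E) * (k51 * Z) := by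
        refine add_le_add (mul_le_mul_of_nonneg_right (by linarith) q1)
          (mul_le_mul_of_nonneg_right (by linarith) q2)
    _ = (C1 * C0 * 1003 * (N : ℝ) ^ (501/250 : ℝ) + C2) * E * (k54 * Zs + k51 * Z) := by ring

end LT2
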