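import Pool.Agent.Lib.MP_0f5a55_nt.S.T05
import Pool.Agent.Lib.MP_0f5a55_nt.U.T04

/-! # Twisted second moment with error `(hk)^(101/200) T^(-199/200) + (h+k)^(51/100) T^(-3/4)` -/

open Complex MeasureTheory Set Filter Topology
open scoped ComplexConjugate

namespace LT2

open LZ (kk nS cf EE ER PP wt Sep)
open LP

variable {N : ℕ} [NeZero N]

/-- elementary: the powers for `k ≤ h` -/
theorem T05U_pow {h k : ℝ} (hk : 1 ≤ k) (hkh : k ≤ h) :
    (h / k) ^ (501/1000 : ℝ) ≤ (h * k) ^ (101/200 : ℝ) ∧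
    k ^ (101/100 : ℝ) * (k / h) ^ (1/200 : ℝ) * (h / k) ^ (501/1000 : ℝ) ≤ (h * k) ^ (101/200 : ℝ) ∧
    k ^ (51/100 : ℝ) * (k / h) ^ (1/4 : ℝ) * (h / k) ^ (501/1000 : ℝ) ≤ (h + k) ^ (51/100 : ℝ) := by
  have hh : 1 ≤ h := hk.trans hkh
  have hk0 : 0 < k := by linarith
  have hh0 : 0 < h := by linarith
  have a2 : (h / k) ^ (501/1000 : ℝ) = h ^ (501/1000 : ℝ) * k ^ (-(501/1000) : ℝ) := by
    rw [Real.div_rpow hh0.le hk0.le, Real.rpow_neg hk0.le, ← div_eq_mul_inv]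
  have a1 : ∀ a : ℝ, (k / h) ^ a = k ^ a * h ^ (-a) := fun a => by
    rw [Real.div_rpow hk0.le hh0.le, Real.rpow_neg hh0.le, ← div_eq_mul_inv]
  refine ⟨?_, ?_, ?_⟩
  · calc (h / k) ^ (501/1000 : ℝ) ≤ (h * k) ^ (501/1000 : ℝ) := by
          refine Real.rpow_le_rpow (by positivity) ?_ (by norm_num)
          rw [div_le_iff₀ hk0]
          nlinarith [mul_le_mul hk hk zero_le_one hk0.le]
      _ ≤ (h * k) ^ (101/200 : ℝ) :=
          Real.rpow_le_rpow_of_exponent_le (one_le_mul_of_one_le_of_one_le hh hk) (by norm_num)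
  · have e1 : k ^ (101/100 : ℝ) * (k / h) ^ (1/200 : ℝ) * (h / k) ^ (501/1000 : ℝ) =
        k ^ (101/200 : ℝ) * h ^ (62/125 : ℝ) * k ^ (9/1000 : ℝ) := by
      rw [a1, a2]
      have : k ^ (101/100 : ℝ) * (k ^ (1/200 : ℝ) * h ^ (-(1/200) : ℝ)) *
          (h ^ (501/1000 : ℝ) * k ^ (-(501/1000) : ℝ)) =
          (k ^ (101/100 : ℝ) * k ^ (1/200 : ℝ) * k ^ (-(501/1000) : ℝ)) *
            (h ^ (-(1/200) : ℝ) * h ^ (501/1000 : ℝ)) := by
        ring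
      rw [this, ← Real.rpow_add hk0, ← Real.rpow_add hk0, ← Real.rpow_add hh0,
        mul_right_comm, ← Real.rpow_add hk0]
      norm_num
    have e2 : (h * k) ^ (101/200 : ℝ) = k ^ (101/200 : ℝ) * h ^ (62/125 : ℝ) * h ^ (9/1000 : ℝ) := by
      rw [Real.mul_rpow hh0.le hk0.le, mul_assoc, ← Real.rpow_add hh0]
      norm_num
      ring
    rw [e1, e2]
    have : k ^ (9/1000 : ℝ) ≤ h ^ (9/1000 : ℝ) := Real.rpow_le_rpow hk0.le hkh (by norm_num)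
    gcongr
  · have e1 : k ^ (51/100 : ℝ) * (k / h) ^ (1/4 : ℝ) * (h / k) ^ (501/1000 : ℝ) =
        k ^ (259/1000 : ℝ) * h ^ (251/1000 : ℝ) := by
      rw [a1, a2]
      have : k ^ (51/100 : ℝ) * (k ^ (1/4 : ℝ) * h ^ (-(1/4) : ℝ)) *
          (h ^ (501/1000 : ℝ) * k ^ (-(501/1000) : ℝ)) =
          (k ^ (51/100 : ℝ) * k ^ (1/4 : ℝ) * k ^ (-(501/1000) : ℝ)) *
            (h ^ (-(1/4) : ℝ) * h ^ (501/1000 : ℝ)) := by
        ring
      rw [this, ← Real.rpow_add hk0, ← Real.rpow_add hk0, ← Real.rpow_add hh0]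
      norm_num
    have e3 : k ^ (259/1000 : ℝ) ≤ h ^ (259/1000 : ℝ) := Real.rpow_le_rpow hk0.le hkh (by norm_num)
    have e4 : h ^ (259/1000 : ℝ) * h ^ (251/1000 : ℝ) = h ^ (51/100 : ℝ) := by
      rw [← Real.rpow_add hh0]
      norm_num
    rw [e1]
    calc k ^ (259/1000 : ℝ) * h ^ (251/1000 : ℝ) ≤ h ^ (259/1000 : ℝ) * h ^ (251/1000 : ℝ) := by gcongr
      _ = h ^ (51/100 : ℝ) := e4
      _ ≤ _ := Real.rpow_le_rpow hh0.le (by linarith) (by norm_num)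

/-- `DD_asymp3` in the range `Y ≤ 7` -/
theorem T05U_asymp (χ ψ : DirichletCharacter ℂ N) (V : ℝ) (hV : 0 ≤ V) : ∃ C : ℝ, 0 < C ∧ ∀ η : ℂ, |η.re| ≤ 1/500 →
    |η.im| ≤ V → η ≠ 0 → ∀ h k : ℕ, 1 ≤ h → 1 ≤ k → Nat.Coprime h k → Nat.Coprime h N → Nat.Coprime k N →
    ∀ Y : ℝ, 0 < Y → Y ≤ 7 →
    ‖DD χ ψ η ((Y : ℂ) + 2 * Real.pi * I * h / (k * N)) -
      (χ (k : ZMod N) * ψ (h : ZMod N) * ((k : ℂ) ^ (-1 - η) * LX.Lf (χ * ψ) (1 + η) / Y) +
        χ⁻¹ (h : ZMod N) * ψ⁻¹ (k : ZMod N) *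
          ((N : ℂ)⁻¹ * AC χ ψ η * (k : ℂ) ^ (η - 1) * (Y : ℂ) ^ (η - 1)))‖ ≤
      C * (1 + 1 / ‖η‖) * ((k : ℝ) ^ (101/100 : ℝ) * Y ^ (-(1/200) : ℝ) + (k : ℝ) ^ (51/100 : ℝ) * Y ^ (-(1/4) : ℝ)) := by
  obtain ⟨C1, hC1, h1⟩ := LT2.DD_asymp3 (N := N) χ ψ V hV
  obtain ⟨C2, hC2, h2⟩ := T05_DDbig (N := N) χ ψ
  obtain ⟨C3, hC3, h3⟩ := AC_bounds.1 χ ψ V hV
  have hN1 : (1:ℝ) ≤ N := by exact_mod_cast Nat.one_le_iff_ne_zero.2 (NeZero.ne N)
  refine ⟨C1 + 7 * (C2 + 2 * C3), by positivity, fun η hη hηi hη0 h k hh hk hc hhN hkN Y hY0 hY7 => ?_⟩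
  have hk1 : (1:ℝ) ≤ k := by exact_mod_cast hk
  set X : ℝ := 1 + 1 / ‖η‖ with hX
  have hX1 : 1 ≤ X := by
    have : 0 ≤ 1 / ‖η‖ := by positivity
    linarith only [hX, this]
  have hX0 : 0 ≤ X := zero_le_one.trans hX1
  have hK1 : 1 ≤ (k : ℝ) ^ (101/100 : ℝ) := Real.one_le_rpow hk1 (by norm_num)
  have hη8 : |η.re| ≤ 1/8 := hη.trans (by norm_num)
  have hQ1 : Y ^ (-(1/200) : ℝ) ≤ (k : ℝ) ^ (101/100 : ℝ) * Y ^ (-(1/200) : ℝ) +
      (k : ℝ) ^ (51/100 : ℝ) * Y ^ (-(1/4) : ℝ) := by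
    have a1 : 1 * Y ^ (-(1/200) : ℝ) ≤ (k : ℝ) ^ (101/100 : ℝ) * Y ^ (-(1/200) : ℝ) := by gcongr
    have a2 : 0 ≤ (k : ℝ) ^ (51/100 : ℝ) * Y ^ (-(1/4) : ℝ) := by positivity
    linarith only [a1, a2]
  set Q : ℝ := (k : ℝ) ^ (101/100 : ℝ) * Y ^ (-(1/200) : ℝ) +
      (k : ℝ) ^ (51/100 : ℝ) * Y ^ (-(1/4) : ℝ) with hQ
  have hQ0 : 0 ≤ Q := by positivity
  rcases le_or_gt Y 1 with hY1 | hY1
  · refine (h1 η hη hηi hη0 h k hh hk hc hhN hkN Y hY0 hY1).trans ?_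
    have e : 0 ≤ 7 * (C2 + 2 * C3) * (X * Q) := by positivity
    linarith only [e]
  · have hη' := abs_le.1 hη
    have b1 : ‖DD χ ψ η ((Y : ℂ) + 2 * Real.pi * I * h / (k * N))‖ ≤ C2 := by
      refine h2 η hη8 _ ?_
      have e2 : (2 * Real.pi * I * h / (k * N) : ℂ) = ((2 * Real.pi * h / (k * N) : ℝ) : ℂ) * I := by
        push_cast; ring
      rw [e2, Complex.add_re, Complex.re_ofReal_mul, Complex.I_re, mul_zero, add_zero,
        Complex.ofReal_re]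
      exact hY1.le
    obtain ⟨d1, d2⟩ := h3 η hη8 hηi hη0
    rw [← hX] at d1 d2
    have hcc : ∀ (ρ σ : DirichletCharacter ℂ N) (a b : ZMod N) (z : ℂ), ‖ρ a * σ b * z‖ ≤ ‖z‖ := by
      intro ρ σ a b z
      rw [norm_mul, norm_mul]
      have h1 : ‖ρ a‖ * ‖σ b‖ ≤ 1 := by
        calc ‖ρ a‖ * ‖σ b‖ ≤ 1 * 1 :=
              mul_le_mul (ρ.norm_le_one a) (σ.norm_le_one b) (norm_nonneg _) zero_le_one
          _ = 1 := one_mul 1
      exact mul_le_of_le_one_left (norm_nonneg _) h1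
    have hpow : ∀ a : ℂ, a.re ≤ 0 → ‖(k : ℂ) ^ a‖ ≤ 1 := by
      intro a ha
      rw [norm_natCast_cpow_of_pos hk]
      exact Real.rpow_le_one_of_one_le_of_nonpos hk1 ha
    have b2 : ‖χ (k : ZMod N) * ψ (h : ZMod N) * ((k : ℂ) ^ (-1 - η) * LX.Lf (χ * ψ) (1 + η) / Y)‖ ≤
        C3 * X := by
      refine (hcc _ _ _ _ _).trans ?_
      rw [norm_div, norm_mul, Complex.norm_real, Real.norm_of_nonneg hY0.le]
      have p1 := hpow (-1 - η) (by simp; linarith only [hη'.1])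
      calc _ ≤ (1 * (C3 * X)) / 1 := by gcongr
        _ = _ := by ring
    have b3 : ‖χ⁻¹ (h : ZMod N) * ψ⁻¹ (k : ZMod N) *
          ((N : ℂ)⁻¹ * AC χ ψ η * (k : ℂ) ^ (η - 1) * (Y : ℂ) ^ (η - 1))‖ ≤ C3 * X := by
      refine (hcc _ _ _ _ _).trans ?_
      rw [norm_mul, norm_mul, norm_mul, norm_inv, Complex.norm_natCast,
        norm_cpow_eq_rpow_re_of_pos hY0]
      have p1 := hpow (η - 1) (by simp; linarith only [hη'.2])
      have p2 : Y ^ (η - 1).re ≤ 1 := by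
        refine Real.rpow_le_one_of_one_le_of_nonpos hY1.le ?_
        simp
        linarith only [hη'.2]
      have p3 : (N : ℝ)⁻¹ ≤ 1 := inv_le_one_of_one_le₀ hN1
      calc _ ≤ 1 * (C3 * X) * 1 * 1 := by gcongr
        _ = _ := by ring
    have hY' : 1 ≤ 7 * Q := by
      have : (7 : ℝ) ^ (-(1/200) : ℝ) ≤ Y ^ (-(1/200) : ℝ) :=
        Real.rpow_le_rpow_of_nonpos hY0 hY7 (by norm_num)
      have h7 : (7 : ℝ) ^ (-1 : ℝ) ≤ (7 : ℝ) ^ (-(1/200) : ℝ) :=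
        Real.rpow_le_rpow_of_exponent_le (by norm_num) (by norm_num)
      rw [Real.rpow_neg_one] at h7
      linarith
    calc _ ≤ C2 + (C3 * X + C3 * X) := (norm_sub_le _ _).trans (add_le_add b1 ((norm_add_le _ _).trans (add_le_add b2 b3)))
      _ ≤ C2 * X + (C3 * X + C3 * X) := by
          have := le_mul_of_one_le_right hC2.le hX1
          linarith only [this]
      _ = (C2 + 2 * C3) * X * 1 := by ring
      _ ≤ (C2 + 2 * C3) * X * (7 * Q) := by gcongr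
      _ ≤ _ := by
          have e : 0 ≤ C1 * (X * Q) := by positivity
          linarith only [e]

theorem T05U_coprime (χ ψ : DirichletCharacter ℂ N) (U : ℝ) (hU : 0 ≤ U) : ∃ C T0 : ℝ, 0 < C ∧ 7 ≤ T0 ∧
    ∀ T : ℝ, T0 ≤ T → ∀ h k : ℕ, 1 ≤ h → 1 ≤ k → k ≤ h → Nat.Coprime h k → Nat.Coprime h N →
    Nat.Coprime k N → (h : ℝ) ≤ T →
    ∀ α β : ℂ, |α.re| ≤ 1/1000 → |β.re| ≤ 1/1000 → |α.im| ≤ U → |β.im| ≤ U → α + β ≠ 0 →
    ‖EE T (fun t => LX.Lf χ (1/2 + α + t * I) * LX.Lf ψ (1/2 + β - t * I) *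
        ((h : ℂ) ^ (-(t * I)) * (k : ℂ) ^ (t * I))) - mainT χ ψ T α β h k‖ ≤
      C * (1 + 1 / ‖α + β‖) * (((h : ℝ) * k) ^ (101/200 : ℝ) * T ^ (-(199/200) : ℝ) +
        ((h : ℝ) + k) ^ (51/100 : ℝ) * T ^ (-(3/4) : ℝ)) := by
  have hN1 : (1:ℝ) ≤ N := by exact_mod_cast Nat.one_le_iff_ne_zero.2 (NeZero.ne N)
  have hN0 : (0:ℝ) < N := by linarith only [hN1]
  obtain ⟨C1, hC1, h1⟩ := LT2.tsm_exact (N := N) χ ψ U hU
  obtain ⟨C2, hC2, h2⟩ := LT2.DD_real (N := N) χ ψ (1/500) (by norm_num) (by norm_num)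
  obtain ⟨C3, hC3, h3⟩ := T05U_asymp (N := N) χ ψ (2 * U) (by linarith only [hU])
  obtain ⟨C4, hC4, h4⟩ := LP.A21_main_bound χ ψ U hU
  refine ⟨Real.exp U * (C1 + 7 * C2 + 7 * C3 * N) + C4 * ((1 + U) * Real.exp (1 + U)), 7, by positivity,
    le_rfl, fun T hT h k hh hk hkh hc hhN hkN h7 α β ha hb ha' hb' hne => ?_⟩
  have hT0 : (0:ℝ) < T := by linarith only [hT]
  have hT1 : (1:ℝ) ≤ T := by linarith only [hT]
  have hh1 : (1:ℝ) ≤ h := by exact_mod_cast hh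
  have hk1 : (1:ℝ) ≤ k := by exact_mod_cast hk
  have hh0 : (0:ℝ) < h := by linarith only [hh1]
  have hk0 : (0:ℝ) < k := by linarith only [hk1]
  have hkhR : (k : ℝ) ≤ h := by exact_mod_cast hkh
  have hpi0 := Real.pi_pos
  have hpi : Real.pi < 3.15 := Real.pi_lt_d2
  set X : ℝ := 1 + 1 / ‖α + β‖ with hX
  have hX1 : 1 ≤ X := by
    have : 0 ≤ 1 / ‖α + β‖ := by positivity
    linarith only [hX, this]
  have hX0 : 0 ≤ X := zero_le_one.trans hX1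
  have ha16 : |α.re| ≤ 1/16 := ha.trans (by norm_num)
  have hb16 : |β.re| ≤ 1/16 := hb.trans (by norm_num)
  set S : ℝ := T ^ (-(199/200) : ℝ) with hS
  have hS0 : 0 < S := Real.rpow_pos_of_pos hT0 _
  set S2 : ℝ := T ^ (-(3/4) : ℝ) with hS2
  have hS20 : 0 < S2 := Real.rpow_pos_of_pos hT0 _
  set M : ℝ := ((h : ℝ) * k) ^ (101/200 : ℝ) with hM
  have hM1 : 1 ≤ M := Real.one_le_rpow (one_le_mul_of_one_le_of_one_le hh1 hk1) (by norm_num)
  set M2 : ℝ := ((h : ℝ) + k) ^ (51/100 : ℝ) with hM2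
  have hM21 : 1 ≤ M2 := Real.one_le_rpow (by linarith only [hh1, hk1]) (by norm_num)
  set R : ℝ := ((h : ℝ) / k) ^ (501/1000 : ℝ) with hR
  have hR0 : 0 ≤ R := by positivity
  obtain ⟨hp1, hp2, hp3⟩ := T05U_pow hk1 hkhR
  rw [← hR, ← hM] at hp1 hp2
  rw [← hR, ← hM2] at hp3
  have hre : |(α + β).re| ≤ 1/500 := by
    rw [add_re]
    refine (abs_add_le _ _).trans ?_
    linarith only [ha, hb]
  have him : |(α + β).im| ≤ 2 * U := by
    rw [add_im]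
    refine (abs_add_le _ _).trans ?_
    linarith only [ha', hb']
  have hmain := h4 T (by linarith only [hT]) h k hh hk hc α β ha16 hb16 ha' hb' hne
  set P : ℂ := EE T (fun t => LX.Lf χ (1/2 + α + t * I) * LX.Lf ψ (1/2 + β - t * I) *
        ((h : ℂ) ^ (-(t * I)) * (k : ℂ) ^ (t * I))) with hP
  have hE1 : 0 < Real.exp U := Real.exp_pos _
  have hE2 : 0 < (1 + U) * Real.exp (1 + U) := by positivity
  set ε : ℝ := 1 / T with hε
  have hε0 : 0 < ε := by positivity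
  have hε1 : ε ≤ 1 / 2 := by
    rw [hε]
    gcongr
    linarith only [hT]
  set Y : ℝ := 2 * Real.pi * ε * h / (k * N) with hYd
  have hY0 : 0 < Y := by positivity
  have hY : Y ≤ 7 := by
    rw [hYd, div_le_iff₀ (by positivity)]
    have e1 : 2 * Real.pi * ε * h ≤ 7 := by
      have e2 : 2 * Real.pi * ε * h = (2 * Real.pi * h) / T := by rw [hε]; ring
      rw [e2, div_le_iff₀ hT0]
      refine mul_le_mul ?_ h7 hh0.le (by norm_num)
      linarith only [hpi]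
    have e3 : 1 ≤ (k : ℝ) * N := one_le_mul_of_one_le_of_one_le hk1 hN1
    linarith only [e1, e3]
  have t1 := h1 ε hε0 hε1 h k hh hk hkh α β ha16 hb16 ha' hb'
  have t2 := h2 ε hε0 hε1 h k hh hk hkh (α + β) hre
  have t3 := h3 (α + β) hre him hne h k hh hk hc hhN hkN Y hY0 hY
  have hid := LP.A21_ident χ ψ hT0 hh hk hc α β
  rw [← hε, ← hYd] at hid
  rw [← hYd] at t2
  set J : ℂ := ∫ t in Ioi (0:ℝ), LX.Lf χ (1/2 + α + t * I) * LX.Lf ψ (1/2 + β - t * I) *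
          ((h : ℂ) ^ (-(t * I)) * (k : ℂ) ^ (t * I)) * (Real.exp (-(ε * t)) : ℂ) with hJ
  have hPJ : P = (T : ℂ)⁻¹ * J := by
    rw [hP, EE, hJ]
    congr 1
    refine setIntegral_congr_fun measurableSet_Ioi fun t _ => ?_
    have : -t / T = -(ε * t) := by
      rw [hε]
      ring
    rw [this]
  set D : ℂ := DD χ ψ (α + β) (WW N ε h k)
  set D' : ℂ := DD χ ψ (α + β) ((Y : ℂ) + 2 * Real.pi * I * h / (k * N))
  set m' : ℂ := χ (k : ZMod N) * ψ (h : ZMod N) * ((k : ℂ) ^ (-1 - (α + β)) *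
          LX.Lf (χ * ψ) (1 + (α + β)) / (Y : ℂ)) +
        χ⁻¹ (h : ZMod N) * ψ⁻¹ (k : ZMod N) *
          ((N : ℂ)⁻¹ * AC χ ψ (α + β) * (k : ℂ) ^ ((α + β) - 1) * (Y : ℂ) ^ ((α + β) - 1)) with hm'
  set mT : ℂ := mainT χ ψ T α β h k
  set G : ℂ := (h : ℂ) ^ (-(1/2 - β)) * (k : ℂ) ^ (1/2 - β) with hG
  set z : ℂ := ε * (1/2 - β) * I with hz
  have hG0 : G ≠ 0 := by
    refine mul_ne_zero ?_ ?_
    · rw [A21_cpow_nat hh]
      exact exp_ne_zero _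
    · rw [A21_cpow_nat hk]
      exact exp_ne_zero _
  have hez : exp z ≠ 0 := exp_ne_zero _
  have hb2 := abs_le.mp hb
  have hb3 := abs_le.mp hb'
  have hGinv : ‖G⁻¹‖ ≤ R := by
    rw [hG, mul_inv, norm_mul, norm_inv, norm_inv, norm_natCast_cpow_of_pos hh,
      norm_natCast_cpow_of_pos hk, ← Real.rpow_neg (by positivity)]
    have r1 : (-(1/2 - β) : ℂ).re = -(1/2 - β.re) := by simp
    have r2 : (1/2 - β : ℂ).re = 1/2 - β.re := by simp
    rw [r1, r2, neg_neg, ← div_eq_mul_inv, ← Real.div_rpow hh0.le hk0.le, hR]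
    refine Real.rpow_le_rpow_of_exponent_le ?_ (by linarith only [hb2.1])
    rw [le_div_iff₀ hk0]
    linarith only [hkhR]
  have hzre : z.re = ε * β.im := by
    rw [hz]
    simp
  have hEinv : ‖(exp z)⁻¹‖ ≤ Real.exp U := by
    rw [norm_inv, norm_exp, ← Real.exp_neg, hzre]
    refine Real.exp_le_exp.mpr ?_
    have e1 : -(ε * β.im) ≤ ε * U := by
      have := mul_le_mul_of_nonneg_left hb3.1 hε0.le
      linarith only [this]
    have e2 : ε * U ≤ 1 * U := mul_le_mul_of_nonneg_right (by linarith only [hε1]) hU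
    linarith only [e1, e2]
  have hzn : ‖z‖ ≤ ε * (1 + U) := by
    rw [hz, norm_mul, norm_mul, norm_I, mul_one, Complex.norm_real, Real.norm_of_nonneg hε0.le]
    gcongr
    have := Complex.norm_le_abs_re_add_abs_im (1/2 - β)
    have r2 : (1/2 - β : ℂ).re = 1/2 - β.re := by simp
    have r3 : (1/2 - β : ℂ).im = -β.im := by simp
    rw [r2, r3, abs_neg, abs_of_pos (by linarith only [hb2.2])] at this
    linarith only [this, hb2.1, hb']
  have hE1' : ‖(exp z)⁻¹ - 1‖ ≤ ε * ((1 + U) * Real.exp (1 + U)) := by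
    rw [← exp_neg]
    have h := Complex.norm_exp_sub_sum_le_norm_mul_exp (-z) 1
    have h' : ‖exp (-z) - 1‖ ≤ ‖z‖ * Real.exp ‖z‖ := by simpa using h
    refine h'.trans ?_
    have h6 : ‖z‖ ≤ 1 + U := hzn.trans (mul_le_of_le_one_left (by linarith only [hU]) (by linarith only [hε1]))
    calc ‖z‖ * Real.exp ‖z‖ ≤ (ε * (1 + U)) * Real.exp (1 + U) :=
          mul_le_mul hzn (Real.exp_le_exp.mpr h6) (Real.exp_pos _).le
            (mul_nonneg hε0.le (by linarith only [hU]))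
      _ = _ := by ring
  -- powers of `T`
  have hTinv : T⁻¹ ≤ S := by
    rw [hS, ← Real.rpow_neg_one]
    exact Real.rpow_le_rpow_of_exponent_le hT1 (by norm_num)
  have hεp : ε ^ (-(2 * (1/500)) : ℝ) = T ^ (1/250 : ℝ) := by
    rw [hε, one_div, Real.inv_rpow hT0.le, ← Real.rpow_neg hT0.le]
    norm_num
  have hT34 : T⁻¹ * T ^ (1/4 : ℝ) = S2 := by
    rw [hS2, ← Real.rpow_neg_one, ← Real.rpow_add hT0]
    norm_num
  have hT200 : T⁻¹ * T ^ (1/200 : ℝ) = S := by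
    rw [hS, ← Real.rpow_neg_one, ← Real.rpow_add hT0]
    norm_num
  have hT250 : T⁻¹ * T ^ (1/250 : ℝ) ≤ S := by
    rw [hS, ← Real.rpow_neg_one, ← Real.rpow_add hT0]
    exact Real.rpow_le_rpow_of_exponent_le hT1 (by norm_num)
  have hT18 : T⁻¹ * T ^ (1/8 : ℝ) ≤ S2 := by
    rw [hS2, ← Real.rpow_neg_one, ← Real.rpow_add hT0]
    exact Real.rpow_le_rpow_of_exponent_le hT1 (by norm_num)
  have hYp : ∀ a : ℝ, 0 ≤ a → a ≤ 1 → Y ^ (-a) ≤ T ^ a * (N * ((k : ℝ) / h) ^ a) := by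
    intro a ha0 ha1
    have q0 : ε * (h / k) / N ≤ Y := by
      rw [hYd]
      have e : 2 * Real.pi * ε * h / (k * N) = 2 * Real.pi * (ε * (h / k) / N) := by
        field_simp
      rw [e]
      have e3 : 1 ≤ 2 * Real.pi := by linarith only [Real.pi_gt_three]
      exact le_mul_of_one_le_left (by positivity) e3
    calc Y ^ (-a) ≤ (ε * (h / k) / N) ^ (-a) :=
          Real.rpow_le_rpow_of_nonpos (by positivity) q0 (by linarith only [ha0])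
      _ = T ^ a * ((N : ℝ) ^ a * ((k : ℝ) / h) ^ a) := by
          have e : ε * (h / k) / N = (T * (N * (k / h)))⁻¹ := by
            rw [hε]
            field_simp
          rw [e, Real.inv_rpow (by positivity), ← Real.rpow_neg (by positivity), neg_neg,
            Real.mul_rpow hT0.le (by positivity), Real.mul_rpow hN0.le (by positivity)]
      _ ≤ _ := by
          have : (N : ℝ) ^ a ≤ N := by
            calc (N : ℝ) ^ a ≤ (N : ℝ) ^ (1 : ℝ) :=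
                  Real.rpow_le_rpow_of_exponent_le hN1 ha1
              _ = N := Real.rpow_one _
          gcongr
  have hYp1 := hYp (1/200) (by norm_num) (by norm_num)
  have hYp2 := hYp (1/4) (by norm_num) (by norm_num)
  -- the error
  have hn2pi : ‖(2 * Real.pi / N : ℂ)‖ ≤ 7 := by
    rw [norm_div, norm_mul, Complex.norm_real, Real.norm_of_nonneg hpi0.le, Complex.norm_natCast]
    simp only [Complex.norm_ofNat]
    rw [div_le_iff₀ hN0]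
    linarith only [hpi, hN1]
  have herr : ‖P * (G * exp z) - mT * G‖ ≤
      T⁻¹ * (C1 + 7 * (C2 * T ^ (1/250 : ℝ)) +
        7 * (C3 * X * ((k : ℝ) ^ (101/100 : ℝ) * Y ^ (-(1/200) : ℝ) +
          (k : ℝ) ^ (51/100 : ℝ) * Y ^ (-(1/4) : ℝ)))) := by
    have e1 : P * (G * exp z) - mT * G = (T : ℂ)⁻¹ * ((J * (G * exp z) - 2 * Real.pi / N * D) +
        2 * Real.pi / N * (D - D') + 2 * Real.pi / N * (D' - m')) := by
      rw [← hid, hPJ]
      ring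
    rw [e1, norm_mul, norm_inv, Complex.norm_real, Real.norm_of_nonneg hT0.le]
    refine mul_le_mul_of_nonneg_left ?_ (inv_pos.2 hT0).le
    rw [mul_one] at t1
    rw [hεp] at t2
    refine (norm_add_le _ _).trans (add_le_add ((norm_add_le _ _).trans (add_le_add t1 ?_)) ?_)
    · rw [norm_mul]
      exact mul_le_mul hn2pi t2 (norm_nonneg _) (by norm_num)
    · rw [norm_mul]
      exact mul_le_mul hn2pi t3 (norm_nonneg _) (by norm_num)
  have hdiff : P - mT = (P * (G * exp z) - mT * G) * (G⁻¹ * (exp z)⁻¹) + mT * ((exp z)⁻¹ - 1) := by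
    field_simp
    ring
  have hMS : 0 ≤ M * S := by positivity
  have hMS2 : 0 ≤ M2 * S2 := by positivity
  set B : ℝ := M * S + M2 * S2 with hB
  have hB1 : M * S ≤ B := by linarith only [hB, hMS2]
  have hB2 : M2 * S2 ≤ B := by linarith only [hB, hMS]
  have hB0 : 0 ≤ B := by linarith only [hB1, hMS]
  have hBX : B ≤ X * B := le_mul_of_one_le_left hB0 hX1
  have b1 : ‖(P * (G * exp z) - mT * G) * (G⁻¹ * (exp z)⁻¹)‖ ≤
      Real.exp U * (C1 + 7 * C2 + 7 * C3 * N) * (X * B) := by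
    rw [norm_mul, norm_mul]
    have c1 : T⁻¹ * R ≤ X * B := by
      calc T⁻¹ * R ≤ S * M := mul_le_mul hTinv hp1 hR0 hS0.le
        _ = M * S := mul_comm _ _
        _ ≤ X * B := hB1.trans hBX
    have c2 : T⁻¹ * T ^ (1/250 : ℝ) * R ≤ X * B := by
      calc T⁻¹ * T ^ (1/250 : ℝ) * R ≤ S * M := mul_le_mul hT250 hp1 hR0 hS0.le
        _ = M * S := mul_comm _ _
        _ ≤ X * B := hB1.trans hBX
    have c3 : T⁻¹ * (X * ((k : ℝ) ^ (101/100 : ℝ) * Y ^ (-(1/200) : ℝ) +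
          (k : ℝ) ^ (51/100 : ℝ) * Y ^ (-(1/4) : ℝ))) * R ≤ N * (X * B) := by
      calc T⁻¹ * (X * ((k : ℝ) ^ (101/100 : ℝ) * Y ^ (-(1/200) : ℝ) +
            (k : ℝ) ^ (51/100 : ℝ) * Y ^ (-(1/4) : ℝ))) * R ≤
            T⁻¹ * (X * ((k : ℝ) ^ (101/100 : ℝ) * (T ^ (1/200 : ℝ) * (N * ((k : ℝ) / h) ^ (1/200 : ℝ))) +
              (k : ℝ) ^ (51/100 : ℝ) * (T ^ (1/4 : ℝ) * (N * ((k : ℝ) / h) ^ (1/4 : ℝ))))) * R := by
            gcongr
        _ = (T⁻¹ * T ^ (1/200 : ℝ)) * N * X *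
            ((k : ℝ) ^ (101/100 : ℝ) * ((k : ℝ) / h) ^ (1/200 : ℝ) * R) +
            (T⁻¹ * T ^ (1/4 : ℝ)) * N * X *
            ((k : ℝ) ^ (51/100 : ℝ) * ((k : ℝ) / h) ^ (1/4 : ℝ) * R) := by ring
        _ ≤ S * N * X * M + S2 * N * X * M2 := by
            rw [hT34, hT200]
            gcongr
        _ = _ := by
            rw [hB]
            ring
    calc ‖P * (G * exp z) - mT * G‖ * (‖G⁻¹‖ * ‖(exp z)⁻¹‖) ≤
          (T⁻¹ * (C1 + 7 * (C2 * T ^ (1/250 : ℝ)) +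
            7 * (C3 * X * ((k : ℝ) ^ (101/100 : ℝ) * Y ^ (-(1/200) : ℝ) +
          (k : ℝ) ^ (51/100 : ℝ) * Y ^ (-(1/4) : ℝ))))) * (R * Real.exp U) := by
          gcongr
      _ = Real.exp U * (C1 * (T⁻¹ * R) + 7 * C2 * (T⁻¹ * T ^ (1/250 : ℝ) * R) +
            7 * C3 * (T⁻¹ * (X * ((k : ℝ) ^ (101/100 : ℝ) * Y ^ (-(1/200) : ℝ) +
          (k : ℝ) ^ (51/100 : ℝ) * Y ^ (-(1/4) : ℝ))) * R)) := by ring
      _ ≤ Real.exp U * (C1 * (X * B) + 7 * C2 * (X * B) +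
            7 * C3 * (N * (X * B))) := by gcongr
      _ = _ := by ring
  have b2 : ‖mT * ((exp z)⁻¹ - 1)‖ ≤ C4 * ((1 + U) * Real.exp (1 + U)) * (X * B) := by
    rw [norm_mul]
    calc _ ≤ (C4 * X * T ^ (1/8 : ℝ)) * (ε * ((1 + U) * Real.exp (1 + U))) := by gcongr
      _ = C4 * ((1 + U) * Real.exp (1 + U)) * (X * (T⁻¹ * T ^ (1/8 : ℝ))) := by
          rw [hε]
          ring
      _ ≤ C4 * ((1 + U) * Real.exp (1 + U)) * (X * B) := by
          have : T⁻¹ * T ^ (1/8 : ℝ) ≤ B :=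
            (hT18.trans (le_mul_of_one_le_left hS20.le hM21)).trans hB2
          gcongr
  rw [hdiff]
  calc _ ≤ Real.exp U * (C1 + 7 * C2 + 7 * C3 * N) * (X * B) +
        C4 * ((1 + U) * Real.exp (1 + U)) * (X * B) := (norm_add_le _ _).trans (add_le_add b1 b2)
    _ = _ := by ring

/-- the twisted second moment, `(h, k) = 1` -/
theorem T05U_coprime2 (χ ψ : DirichletCharacter ℂ N) (U : ℝ) (hU : 0 ≤ U) : ∃ C T0 : ℝ, 0 < C ∧ 7 ≤ T0 ∧
    ∀ T : ℝ, T0 ≤ T → ∀ h k : ℕ, 1 ≤ h → 1 ≤ k → Nat.Coprime h k → Nat.Coprime h N →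
    Nat.Coprime k N → (h : ℝ) ≤ T → (k : ℝ) ≤ T →
    ∀ α β : ℂ, |α.re| ≤ 1/1000 → |β.re| ≤ 1/1000 → |α.im| ≤ U → |β.im| ≤ U → α + β ≠ 0 →
    ‖EE T (fun t => LX.Lf χ (1/2 + α + t * I) * LX.Lf ψ (1/2 + β - t * I) *
        ((h : ℂ) ^ (-(t * I)) * (k : ℂ) ^ (t * I))) - mainT χ ψ T α β h k‖ ≤
      C * (1 + 1 / ‖α + β‖) * (((h : ℝ) * k) ^ (101/200 : ℝ) * T ^ (-(199/200) : ℝ) +
        ((h : ℝ) + k) ^ (51/100 : ℝ) * T ^ (-(3/4) : ℝ)) := by
  obtain ⟨C, T0, hC, hT0, H⟩ := T05U_coprime χ ψ U hU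
  obtain ⟨C', T0', hC', hT0', H'⟩ := T05U_coprime ψ⁻¹ χ⁻¹ U hU
  refine ⟨C + C', max T0 T0', by positivity, hT0.trans (le_max_left _ _),
    fun T hT h k hh hk hc hhN hkN h7 k7 α β ha hb ha' hb' hne => ?_⟩
  have hT00 : (0:ℝ) < T := by linarith only [hT0.trans ((le_max_left _ _).trans hT)]
  have hX : 0 ≤ 1 + 1 / ‖α + β‖ := by positivity
  have hB : 0 ≤ (1 + 1 / ‖α + β‖) * (((h : ℝ) * k) ^ (101/200 : ℝ) * T ^ (-(199/200) : ℝ) +
        ((h : ℝ) + k) ^ (51/100 : ℝ) * T ^ (-(3/4) : ℝ)) := by positivity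
  rcases le_total k h with hkh | hkh
  · refine (H T ((le_max_left _ _).trans hT) h k hh hk hkh hc hhN hkN h7 α β ha hb ha' hb' hne).trans ?_
    have := mul_nonneg hC'.le hB
    calc _ = C * ((1 + 1 / ‖α + β‖) * (((h : ℝ) * k) ^ (101/200 : ℝ) * T ^ (-(199/200) : ℝ) +
        ((h : ℝ) + k) ^ (51/100 : ℝ) * T ^ (-(3/4) : ℝ))) := by ring
      _ ≤ C * ((1 + 1 / ‖α + β‖) * (((h : ℝ) * k) ^ (101/200 : ℝ) * T ^ (-(199/200) : ℝ) +
        ((h : ℝ) + k) ^ (51/100 : ℝ) * T ^ (-(3/4) : ℝ))) +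
          C' * ((1 + 1 / ‖α + β‖) * (((h : ℝ) * k) ^ (101/200 : ℝ) * T ^ (-(199/200) : ℝ) +
        ((h : ℝ) + k) ^ (51/100 : ℝ) * T ^ (-(3/4) : ℝ))) := by
        linarith only [this]
      _ = _ := by ring
  · have hne' : conj β + conj α ≠ 0 := by
      rw [← map_add, add_comm]
      exact (map_ne_zero _).2 hne
    have h1 := H' T ((le_max_right _ _).trans hT) k h hk hh hkh hc.symm hkN hhN k7 (conj β) (conj α)
      (by simpa using hb) (by simpa using ha) (by simpa using hb') (by simpa using ha') hne'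
    have hn : ‖conj β + conj α‖ = ‖α + β‖ := by
      rw [← map_add, add_comm β, Complex.norm_conj]
    rw [T05_mainT χ ψ hT00 α β hne h k, hn] at h1
    have hf : (fun t : ℝ => LX.Lf ψ⁻¹ (1/2 + conj β + t * I) * LX.Lf χ⁻¹ (1/2 + conj α - t * I) *
        ((k : ℂ) ^ (-(t * I)) * (h : ℂ) ^ (t * I))) = fun t : ℝ =>
        conj (LX.Lf χ (1/2 + α + t * I) * LX.Lf ψ (1/2 + β - t * I) *
          ((h : ℂ) ^ (-(t * I)) * (k : ℂ) ^ (t * I))) := by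
      funext t
      have ne1 : ∀ (a : ℂ) (s : ℝ), |a.re| ≤ 1/1000 → (1/2 + a + s * I : ℂ) ≠ 1 := by
        intro a s ha h
        have h4 := congrArg Complex.re h
        have h5 : (1/2 + a + s * I : ℂ).re = 1/2 + a.re := by simp
        rw [h5, one_re] at h4
        linarith only [h4, (abs_le.mp ha).2]
      have c0 : conj (1/2 : ℂ) = 1/2 := by
        rw [map_div₀, map_one, Complex.conj_ofNat]
      have e1 : (1/2 + conj α - t * I : ℂ) = conj (1/2 + α + t * I) := by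
        simp only [map_add, map_mul, c0, conj_ofReal, conj_I]
        ring
      have e2 : (1/2 + conj β + t * I : ℂ) = conj (1/2 + β - t * I) := by
        simp only [map_add, map_sub, map_mul, c0, conj_ofReal, conj_I]
        ring
      have e3 : (-(t * I) : ℂ) = conj (t * I) := by
        simp only [map_mul, conj_ofReal, conj_I]
        ring
      have e4 : (t * I : ℂ) = conj (-(t * I)) := by
        simp only [map_mul, map_neg, conj_ofReal, conj_I]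
        ring
      have ne2 : (1/2 + β - t * I : ℂ) ≠ 1 := by
        have := ne1 β (-t) hb
        push_cast at this
        intro h1
        exact this (by linear_combination h1)
      have k1 : (k : ℂ) ^ (-(t * I)) = conj ((k : ℂ) ^ (t * I)) := by
        rw [e3, T05_nat_cpow]
      have k2 : (h : ℂ) ^ (t * I) = conj ((h : ℂ) ^ (-(t * I))) := by
        rw [← T05_nat_cpow, ← e4]
      rw [e1, e2, (conj_facts χ χ).1 _ (ne1 α t ha), (conj_facts ψ ψ).1 _ ne2, k1, k2]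
      simp only [map_mul]
      ring
    rw [hf, T05_EE_conj, ← map_sub, Complex.norm_conj] at h1
    refine h1.trans ?_
    have := mul_nonneg hC.le hB
    calc _ = C' * ((1 + 1 / ‖α + β‖) * (((h : ℝ) * k) ^ (101/200 : ℝ) * T ^ (-(199/200) : ℝ) +
        ((h : ℝ) + k) ^ (51/100 : ℝ) * T ^ (-(3/4) : ℝ))) := by
          rw [mul_comm (k : ℝ) h, add_comm (k : ℝ) h]
          ring
      _ ≤ C * ((1 + 1 / ‖α + β‖) * (((h : ℝ) * k) ^ (101/200 : ℝ) * T ^ (-(199/200) : ℝ) +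
        ((h : ℝ) + k) ^ (51/100 : ℝ) * T ^ (-(3/4) : ℝ))) +
          C' * ((1 + 1 / ‖α + β‖) * (((h : ℝ) * k) ^ (101/200 : ℝ) * T ^ (-(199/200) : ℝ) +
        ((h : ℝ) + k) ^ (51/100 : ℝ) * T ^ (-(3/4) : ℝ))) := by
        linarith only [this]
      _ = _ := by ring

/-- helper90: as tsm2, with DD_asymp3, T03 for d = 1/500, T02 -/
theorem tsm3 (χ ψ : DirichletCharacter ℂ N) (U : ℝ) (hU : 0 ≤ U) : ∃ C T0 : ℝ, 0 < C ∧ 2 ≤ T0 ∧
    ∀ T : ℝ, T0 ≤ T → ∀ h k : ℕ, 1 ≤ h → 1 ≤ k → (h : ℝ) ≤ T → (k : ℝ) ≤ T →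
    Nat.Coprime h N → Nat.Coprime k N →
    ∀ α β : ℂ, |α.re| ≤ 1/1000 → |β.re| ≤ 1/1000 → |α.im| ≤ U → |β.im| ≤ U → α + β ≠ 0 →
    ‖EE T (fun t => LX.Lf χ (1/2 + α + t * I) * LX.Lf ψ (1/2 + β - t * I) *
        ((h : ℂ) ^ (-(t * I)) * (k : ℂ) ^ (t * I))) - mainT χ ψ T α β h k‖ ≤
      C * (1 + 1 / ‖α + β‖) * (((h : ℝ) * k) ^ (101/200 : ℝ) * T ^ (-(199/200) : ℝ) +
        ((h : ℝ) + k) ^ (51/100 : ℝ) * T ^ (-(3/4) : ℝ)) := by
  obtain ⟨C, T0, hC, hT0, H⟩ := T05U_coprime2 χ ψ U hU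
  refine ⟨C, T0, hC, by linarith only [hT0], fun T hT h k hh hk h7 k7 hhN hkN α β h1 h2 h3 h4 h5 => ?_⟩
  obtain ⟨g, h', k', hg0, hcop, rfl, rfl⟩ : ∃ g h' k' : ℕ, 0 < g ∧ Nat.Coprime h' k' ∧
      h = h' * g ∧ k = k' * g :=
    ⟨Nat.gcd h k, h / Nat.gcd h k, k / Nat.gcd h k, Nat.gcd_pos_of_pos_left _ hh,
      Nat.coprime_div_gcd_div_gcd (Nat.gcd_pos_of_pos_left _ hh),
      (Nat.div_mul_cancel (Nat.gcd_dvd_left h k)).symm,
      (Nat.div_mul_cancel (Nat.gcd_dvd_right h k)).symm⟩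
  have hh' : 1 ≤ h' := Nat.pos_of_mul_pos_right hh
  have hk' : 1 ≤ k' := Nat.pos_of_mul_pos_right hk
  have hhN' : Nat.Coprime h' N := Nat.Coprime.coprime_dvd_left (Dvd.intro _ rfl) hhN
  have hkN' : Nat.Coprime k' N := Nat.Coprime.coprime_dvd_left (Dvd.intro _ rfl) hkN
  have hgcd : Nat.gcd (h' * g) (k' * g) = g := by
    rw [Nat.gcd_mul_right, hcop, one_mul]
  have hmain : mainT χ ψ T α β (h' * g) (k' * g) = mainT χ ψ T α β h' k' := by
    unfold mainT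
    rw [hgcd, hcop, Nat.mul_div_cancel _ hg0, Nat.mul_div_cancel _ hg0, Nat.div_one, Nat.div_one]
  have hf : (fun t : ℝ => LX.Lf χ (1/2 + α + t * I) * LX.Lf ψ (1/2 + β - t * I) *
        (((h' * g : ℕ) : ℂ) ^ (-(t * I)) * ((k' * g : ℕ) : ℂ) ^ (t * I))) =
      fun t : ℝ => LX.Lf χ (1/2 + α + t * I) * LX.Lf ψ (1/2 + β - t * I) *
        ((h' : ℂ) ^ (-(t * I)) * (k' : ℂ) ^ (t * I)) := by
    funext t
    have hgc : (g : ℂ) ≠ 0 := by exact_mod_cast hg0.ne'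
    have e1 : ((h' * g : ℕ) : ℂ) ^ (-(t * I)) = (h' : ℂ) ^ (-(t * I)) * (g : ℂ) ^ (-(t * I)) := by
      rw [Nat.cast_mul, natCast_mul_natCast_cpow]
    have e2 : ((k' * g : ℕ) : ℂ) ^ (t * I) = (k' : ℂ) ^ (t * I) * (g : ℂ) ^ (t * I) := by
      rw [Nat.cast_mul, natCast_mul_natCast_cpow]
    have e3 : (g : ℂ) ^ (-(t * I)) * (g : ℂ) ^ (t * I) = 1 := by
      rw [← cpow_add _ _ hgc, neg_add_cancel, cpow_zero]
    rw [e1, e2]
    linear_combination (LX.Lf χ (1/2 + α + t * I) * LX.Lf ψ (1/2 + β - t * I) *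
      (h' : ℂ) ^ (-(t * I)) * (k' : ℂ) ^ (t * I)) * e3
  rw [hf, hmain]
  have hg1 : (1 : ℝ) ≤ g := by exact_mod_cast hg0
  have a1 : (h' : ℝ) ≤ ((h' * g : ℕ) : ℝ) := by
    push_cast
    exact le_mul_of_one_le_right (by positivity) hg1
  have a2 : (k' : ℝ) ≤ ((k' * g : ℕ) : ℝ) := by
    push_cast
    exact le_mul_of_one_le_right (by positivity) hg1
  refine (H T hT h' k' hh' hk' hcop hhN' hkN' (by linarith only [a1, h7]) (by linarith only [a2, k7])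
    α β h1 h2 h3 h4 h5).trans ?_
  have hT0' : 0 < T := by linarith
  have hle : ((h' : ℝ) * k') ^ (101/200 : ℝ) ≤
      (((h' * g : ℕ) : ℝ) * ((k' * g : ℕ) : ℝ)) ^ (101/200 : ℝ) :=
    Real.rpow_le_rpow (by positivity) (mul_le_mul a1 a2 (by positivity) (by positivity)) (by norm_num)
  have hle2 : ((h' : ℝ) + k') ^ (51/100 : ℝ) ≤
      (((h' * g : ℕ) : ℝ) + ((k' * g : ℕ) : ℝ)) ^ (51/100 : ℝ) :=
    Real.rpow_le_rpow (by positivity) (add_le_add a1 a2) (by norm_num)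
  have hn : 0 ≤ 1 / ‖α + β‖ := by positivity
  have hp : 0 ≤ T ^ (-(3/4) : ℝ) := Real.rpow_nonneg hT0'.le _
  have hp' : 0 ≤ T ^ (-(199/200) : ℝ) := Real.rpow_nonneg hT0'.le _
  gcongr

end LT2
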