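import Pool.Agent.Lib.MP_0f5a55_nt.V.V05
import Pool.Agent.Lib.MP_0f5a55_nt.S.S00

open Complex MeasureTheory Set Filter Topology

namespace LU

open LZ (nS EE ER)

/-- mollifier coefficient, weight exponent i -/
noncomputable def cf (i : ℕ) (l : ℝ) (S : Finset ℕ) : ℝ := (-1) ^ S.card * LS.wn i (Real.log (nS S) / l)

/-- mollifier with weight (1-x)_+^i and character, length exp l -/
noncomputable def Mo {N : ℕ} (χ : DirichletCharacter ℂ N) (i : ℕ) (l : ℝ) (s : ℂ) : ℂ :=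
  ∑ S ∈ (LX.PQ N ⌊Real.exp l⌋₊).powerset, (cf i l S : ℂ) * (χ (nS S : ℕ) * (nS S : ℂ) ^ (-s))

/-- coefficients of P(u) = u (1 - (1-u)^8) -/
noncomputable def cP (j : ℕ) : ℝ := if 2 ≤ j ∧ j ≤ 9 then (-1) ^ j * (Nat.choose 8 (j - 1) : ℝ) else 0

/-- the mollifier with P(u) = u (1 - (1-u)^8) -/
noncomputable def MP {N : ℕ} (χ : DirichletCharacter ℂ N) (l : ℝ) (s : ℂ) : ℂ :=
  ∑ j ∈ Finset.Icc 2 9, (cP j : ℂ) * Mo χ j l s

/-- mollified gcd sum with characters -/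
noncomputable def SS {N : ℕ} [NeZero N] (ρ κ : DirichletCharacter ℂ N) (i j z : ℕ) (l : ℝ) (a b : ℂ) : ℂ :=
  ∑ S ∈ (LX.PQ N z).powerset ×ˢ (LX.PQ N z).powerset, (cf i l S.1 : ℂ) * (cf j l S.2 : ℂ) *
    (ρ (nS S.1 : ℕ) * ρ (nS S.2 : ℕ) * κ (Nat.gcd (nS S.1) (nS S.2) : ℕ)) *
    ((nS S.1 : ℂ) ^ (-1 - a) * (nS S.2 : ℂ) ^ (-1 - b) *
      ((Nat.gcd (nS S.1) (nS S.2) : ℕ) : ℂ) ^ (1 + (a + b)))

/-- integrand of the mollified shifted second moment -/
noncomputable def XI {N : ℕ} [NeZero N] (χ ψ : DirichletCharacter ℂ N) (i j : ℕ) (l : ℝ) (α β : ℂ) (t : ℝ) : ℂ :=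
  LX.Lf χ (1/2 + α + t * I) * LX.Lf ψ (1/2 + β - t * I) * (Mo χ i l (1/2 + t * I) * Mo ψ j l (1/2 - t * I))

/-- integral over (0,1) of (x t^i + i t^(i-1)) (y t^j + j t^(j-1)) -/
noncomputable def JJ (i j : ℕ) (x y : ℂ) : ℂ :=
  x * y / (i + j + 1) + (x * j + y * i) / (i + j) + (i * j : ℂ) / (i + j - 1)

/-- limit of the diagonal moment, mollifier of length T^(49/100) -/
noncomputable def XL (i j : ℕ) (a b : ℂ) : ℂ :=
  100/49 / (a + b) * (JJ i j (49/100 * b) (49/100 * a) - exp (-(a + b)) * JJ i j (-(49/100 * a)) (-(49/100 * b)))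

/-- integral of P'^2 and of P^2 -/
noncomputable def cC : ℝ := 263/255
noncomputable def cA : ℝ := 5856/17765

/-- sum of cP i cP j XL i j -/
noncomputable def XP (a b : ℂ) : ℂ :=
  100/49 / (a + b) * ((cA * (49/100)^2 * (a * b) + 49/200 * (a + b) + cC) -
    exp (-(a + b)) * (cA * (49/100)^2 * (a * b) - 49/200 * (a + b) + cC))

/-- limit of the mollified second moment of V on Re s = 1/2 - (13/10)/log T, lam = 26/25 (2.396...) -/
noncomputable def D1 : ℝ := -269649909037/212180718750 + 1444798177379/5304517968750 * Real.exp (13/5)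

/-- limit of the mollified second moment of L on Re s = 1/2 - (3/4)/log T (7.837...) -/
noncomputable def c1 : ℝ := -377537557/391718250 + 769255807/391718250 * Real.exp (3/2)

end LU
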