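import Pool.Agent.Lib.MP_0f5a55_nt.S.B3
import Pool.Agent.Lib.MP_0f5a55_nt.U.U00

open Complex MeasureTheory Set Filter Topology
open scoped ComplexConjugate

namespace LU

open LZ (nS EE ER)

variable {N : ℕ} [NeZero N]

private theorem U01_abs (i : ℕ) (l : ℝ) (hl : 0 < l) (S : Finset ℕ) : |cf i l S| ≤ 1 := by
  unfold cf LS.wn
  rw [abs_mul, abs_pow, abs_neg, abs_one, one_pow, one_mul]
  have h2 : 0 ≤ max 0 (1 - Real.log (nS S) / l) := le_max_left _ _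
  rw [abs_of_nonneg (pow_nonneg h2 i)]
  have h3 : max 0 (1 - Real.log (nS S) / l) ≤ 1 := by
    apply max_le zero_le_one
    have : 0 ≤ Real.log (nS S) / l := div_nonneg (Real.log_natCast_nonneg _) hl.le
    linarith
  exact pow_le_one₀ h2 h3

private theorem U01_prime {M z : ℕ} {S : Finset ℕ} (hS : S ⊆ LX.PQ M z) : ∀ p ∈ S, p.Prime := by
  intro p hp
  have h := hS hp
  unfold LX.PQ LZ.PP at h
  rw [Finset.mem_filter, Finset.mem_filter] at h
  exact h.1.2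

private theorem U01_pos {M z : ℕ} {S : Finset ℕ} (hS : S ⊆ LX.PQ M z) : 0 < nS S := by
  unfold nS
  exact Finset.prod_pos fun p hp => (U01_prime hS p hp).pos

private theorem U01_zero {i : ℕ} (hi : 1 ≤ i) {l : ℝ} (hl : 0 < l) {S : Finset ℕ} (hpos : 0 < nS S)
    (h : Real.exp l ≤ nS S) : cf i l S = 0 := by
  have h3 : l ≤ Real.log (nS S) := by
    rw [Real.le_log_iff_exp_le (by exact_mod_cast hpos)]
    exact h
  have h4 : 1 ≤ Real.log (nS S) / l := by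
    rw [le_div_iff₀ hl]
    linarith
  unfold cf LS.wn
  rw [max_eq_left (by linarith), zero_pow (by omega), mul_zero]

private theorem U01_supp {i : ℕ} (hi : 1 ≤ i) (l : ℝ) (hl : 0 < l) (M z : ℕ) (S : Finset ℕ)
    (hS : S ∈ (LX.PQ M z).powerset) (hcf : cf i l S ≠ 0) : 1 ≤ nS S ∧ (nS S : ℝ) ≤ Real.exp l := by
  rw [Finset.mem_powerset] at hS
  refine ⟨U01_pos hS, ?_⟩
  by_contra hcon
  push Not at hcon
  exact hcf (U01_zero hi hl (U01_pos hS) hcon.le)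

private theorem U01_inj {M z : ℕ} {S S' : Finset ℕ} (hS : S ⊆ LX.PQ M z) (hS' : S' ⊆ LX.PQ M z)
    (h : nS S = nS S') : S = S' := by
  have hp : ∀ S : Finset ℕ, S ⊆ LX.PQ M z → (nS S).primeFactors = S := by
    intro S hS
    unfold nS
    exact Nat.primeFactors_prod (U01_prime hS)
  rw [← hp S hS, ← hp S' hS', h]

/-- general comparison with the sum over integers up to exp l -/
private theorem U01_sum {i : ℕ} (hi : 1 ≤ i) (l : ℝ) (hl : 0 < l) (M z : ℕ) (g : ℕ → ℝ) (hg : ∀ n, 0 ≤ g n) :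
    ∑ S ∈ (LX.PQ M z).powerset, |cf i l S| * g (nS S) ≤ ∑ n ∈ Finset.Icc 1 ⌊Real.exp l⌋₊, g n := by
  classical
  set T := (LX.PQ M z).powerset.filter (fun S => cf i l S ≠ 0) with hT
  have h2 : ∑ S ∈ (LX.PQ M z).powerset, |cf i l S| * g (nS S) = ∑ S ∈ T, |cf i l S| * g (nS S) := by
    rw [hT, Finset.sum_filter]
    apply Finset.sum_congr rfl
    intro S _
    split_ifs with h
    · rfl
    · push Not at h
      rw [h, abs_zero, zero_mul]
  rw [h2]
  have h3 : ∑ S ∈ T, |cf i l S| * g (nS S) ≤ ∑ S ∈ T, g (nS S) := by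
    refine Finset.sum_le_sum fun S _ => ?_
    calc |cf i l S| * g (nS S) ≤ 1 * g (nS S) :=
          mul_le_mul_of_nonneg_right (U01_abs i l hl S) (hg _)
      _ = g (nS S) := one_mul _
  refine h3.trans ?_
  have hinj : Set.InjOn nS (T : Set (Finset ℕ)) := by
    intro S hS S' hS' hSS
    rw [Finset.mem_coe, hT, Finset.mem_filter, Finset.mem_powerset] at hS hS'
    exact U01_inj hS.1 hS'.1 hSS
  have h4 : ∑ S ∈ T, g (nS S) = ∑ n ∈ T.image nS, g n := by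
    rw [Finset.sum_image hinj]
  rw [h4]
  apply Finset.sum_le_sum_of_subset_of_nonneg
  · intro n hn
    rw [Finset.mem_image] at hn
    obtain ⟨S, hS, rfl⟩ := hn
    rw [hT, Finset.mem_filter] at hS
    obtain ⟨h5, h6⟩ := U01_supp hi l hl M z S hS.1 hS.2
    rw [Finset.mem_Icc]
    exact ⟨h5, Nat.le_floor h6⟩
  · intro n _ _
    exact hg n

private theorem U01_half (m : ℕ) : ∑ n ∈ Finset.Icc 1 m, (n : ℝ) ^ (-(1/2) : ℝ) ≤ 2 * Real.sqrt m := by
  induction m with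
  | zero => simp
  | succ m ih =>
    rw [Finset.sum_Icc_succ_top (by omega)]
    have h1 : ((m + 1 : ℕ) : ℝ) ^ (-(1/2) : ℝ) = 1 / Real.sqrt ((m + 1 : ℕ) : ℝ) := by
      rw [Real.rpow_neg (by positivity), ← Real.sqrt_eq_rpow, one_div]
    rw [h1]
    have hs : 0 < Real.sqrt ((m + 1 : ℕ) : ℝ) := Real.sqrt_pos.mpr (by positivity)
    have hs2 : Real.sqrt ((m + 1 : ℕ) : ℝ) ^ 2 = (m : ℝ) + 1 := by
      rw [Real.sq_sqrt (by positivity)]
      push_cast
      ring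
    have ht2 : Real.sqrt (m : ℝ) ^ 2 = m := Real.sq_sqrt (by positivity)
    have ht : 0 ≤ Real.sqrt (m : ℝ) := Real.sqrt_nonneg _
    have h2 : 2 * Real.sqrt (m : ℝ) + 1 / Real.sqrt ((m + 1 : ℕ) : ℝ) ≤ 2 * Real.sqrt ((m + 1 : ℕ) : ℝ) := by
      rw [← sub_nonneg]
      have h3 : 2 * Real.sqrt ((m + 1 : ℕ) : ℝ) - (2 * Real.sqrt (m : ℝ) + 1 / Real.sqrt ((m + 1 : ℕ) : ℝ)) =
          (Real.sqrt ((m + 1 : ℕ) : ℝ) - Real.sqrt (m : ℝ)) ^ 2 / Real.sqrt ((m + 1 : ℕ) : ℝ) := by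
        rw [eq_div_iff hs.ne']
        field_simp
        nlinarith
      rw [h3]
      positivity
    linarith

/-- as LS.cf_facts, any exponent i, sums over subsets of PQ N z; the last part with exponent -1/2 -/
theorem cf_facts (i : ℕ) (l : ℝ) (hl : 0 < l) : (∀ S : Finset ℕ, |cf i l S| ≤ 1) ∧
    (∀ M z : ℕ, 1 ≤ i → ∀ S ∈ (LX.PQ M z).powerset, cf i l S ≠ 0 → 1 ≤ nS S ∧ (nS S : ℝ) ≤ Real.exp l) ∧
    (∀ M : ℕ, 1 ≤ i → ∀ e : ℝ, 0 ≤ e → ∀ z : ℕ,
      ∑ S ∈ (LX.PQ M z).powerset, |cf i l S| * (nS S : ℝ) ^ e ≤ Real.exp ((1 + e) * l)) ∧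
    (∀ M : ℕ, 1 ≤ i → ∀ z : ℕ,
      ∑ S ∈ (LX.PQ M z).powerset, |cf i l S| * (nS S : ℝ) ^ (-(1/2) : ℝ) ≤ 2 * Real.exp (l / 2)) := by
  refine ⟨U01_abs i l hl, fun M z hi S hS hcf => U01_supp hi l hl M z S hS hcf, ?_, ?_⟩
  · intro M hi e he z
    refine (U01_sum hi l hl M z (fun n => (n : ℝ) ^ e) (fun n => by positivity)).trans ?_
    have h1 : ∀ n ∈ Finset.Icc 1 ⌊Real.exp l⌋₊, (n : ℝ) ^ e ≤ Real.exp (e * l) := by
      intro n hn
      rw [Finset.mem_Icc] at hn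
      have h6 : (n : ℝ) ≤ Real.exp l := (Nat.le_floor_iff (Real.exp_pos l).le).1 hn.2
      have h8 : Real.exp (e * l) = (Real.exp l) ^ e := by
        rw [← Real.exp_mul, mul_comm]
      rw [h8]
      exact Real.rpow_le_rpow (by positivity) h6 he
    refine (Finset.sum_le_sum h1).trans ?_
    rw [Finset.sum_const, nsmul_eq_mul, Nat.card_Icc, Nat.add_sub_cancel]
    calc (⌊Real.exp l⌋₊ : ℝ) * Real.exp (e * l) ≤ Real.exp l * Real.exp (e * l) :=
          mul_le_mul_of_nonneg_right (Nat.floor_le (Real.exp_pos l).le) (Real.exp_pos _).le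
      _ = Real.exp ((1 + e) * l) := by
          rw [← Real.exp_add]
          ring_nf
  · intro M hi z
    refine (U01_sum hi l hl M z (fun n => (n : ℝ) ^ (-(1/2) : ℝ)) (fun n => by positivity)).trans ?_
    refine (U01_half _).trans ?_
    have h1 : Real.sqrt (⌊Real.exp l⌋₊ : ℝ) ≤ Real.sqrt (Real.exp l) :=
      Real.sqrt_le_sqrt (Nat.floor_le (Real.exp_pos l).le)
    have h2 : Real.sqrt (Real.exp l) = Real.exp (l / 2) := (Real.exp_half l).symm
    rw [h2] at h1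
    linarith

private theorem U01_big {i : ℕ} (hi : 1 ≤ i) (l : ℝ) (hl : 0 < l) (M z : ℕ) (S : Finset ℕ) (hS : S ⊆ LX.PQ M z)
    (hnS : S ∉ (LX.PQ M ⌊Real.exp l⌋₊).powerset) : cf i l S = 0 := by
  rw [Finset.mem_powerset, Finset.not_subset] at hnS
  obtain ⟨p, hp1, hp2⟩ := hnS
  have hpz := hS hp1
  have hpl : Real.exp l ≤ p := by
    by_contra h
    push Not at h
    apply hp2
    unfold LX.PQ LZ.PP at hpz ⊢
    rw [Finset.mem_filter, Finset.mem_filter, Finset.mem_range] at hpz ⊢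
    exact ⟨⟨Nat.lt_succ_of_le (Nat.le_floor h.le), hpz.1.2⟩, hpz.2⟩
  have hpos : 0 < nS S := U01_pos hS
  have h1 : p ≤ nS S := Nat.le_of_dvd hpos (Finset.dvd_prod_of_mem _ hp1)
  exact U01_zero hi hl hpos (hpl.trans (by exact_mod_cast h1))

/-- as LS.SS_stable -/
theorem SS_stable (ρ κ : DirichletCharacter ℂ N) (i j : ℕ) (hi : 1 ≤ i) (hj : 1 ≤ j) (z : ℕ) (l : ℝ) (hl : 0 < l)
    (a b : ℂ) (hz : ⌊Real.exp l⌋₊ ≤ z) : SS ρ κ i j z l a b = SS ρ κ i j ⌊Real.exp l⌋₊ l a b := by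
  have hPP : LX.PQ N ⌊Real.exp l⌋₊ ⊆ LX.PQ N z := by
    intro p hp
    unfold LX.PQ LZ.PP at hp ⊢
    rw [Finset.mem_filter, Finset.mem_filter, Finset.mem_range] at hp ⊢
    exact ⟨⟨by omega, hp.1.2⟩, hp.2⟩
  unfold SS
  symm
  apply Finset.sum_subset
  · exact Finset.product_subset_product (Finset.powerset_mono.mpr hPP)
      (Finset.powerset_mono.mpr hPP)
  · intro S hS hnS
    rw [Finset.mem_product] at hS hnS
    have h1 := Finset.mem_powerset.mp hS.1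
    have h2 := Finset.mem_powerset.mp hS.2
    by_cases h : S.1 ∈ (LX.PQ N ⌊Real.exp l⌋₊).powerset
    · have h3 : S.2 ∉ (LX.PQ N ⌊Real.exp l⌋₊).powerset := fun h' => hnS ⟨h, h'⟩
      rw [U01_big hj l hl N z S.2 h2 h3]
      simp
    · rw [U01_big hi l hl N z S.1 h1 h]
      simp

end LU
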