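import Pool.Agent.Lib.MP_0f5a55_nt.V.V45
import Pool.Agent.Lib.MP_0f5a55_nt.S.B1
import Pool.Agent.Lib.MP_0f5a55_nt.U.U00

open Complex MeasureTheory Set Filter Topology
open scoped ComplexConjugate

namespace LU

open LZ (nS EE ER)

variable {N : ℕ} [NeZero N]

private theorem U02_kn_int (i : ℕ) (hi : 1 ≤ i) : Integrable (LS.kn i) := by
  obtain ⟨h1, C, hC, h2⟩ := LS.kn_facts i
  have h3 : Integrable (fun u : ℝ => C * (1 + ‖u‖) ^ (-((i : ℝ) + 1))) :=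
    (integrable_one_add_norm (by
      have : (1 : ℝ) ≤ i := by exact_mod_cast hi
      simp
      linarith)).const_mul C
  refine h3.mono' h1.aestronglyMeasurable (Eventually.of_forall fun u => ?_)
  rw [Real.norm_eq_abs]
  exact h2 u

private theorem U02_phi_int (i : ℕ) (hi : 1 ≤ i) (n : ℕ) (hn : 0 < n) (l : ℝ) (e c : ℂ) :
    Integrable (fun u : ℝ => c * (LS.kn i u * (n : ℂ) ^ (-(1 + e + (1 + u * I) / l)))) := by
  apply Integrable.const_mul
  have hn0 : (n : ℂ) ≠ 0 := by exact_mod_cast hn.ne'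
  have hcont : Continuous (fun u : ℝ => (n : ℂ) ^ (-(1 + e + (1 + u * I) / l))) := by
    refine Continuous.const_cpow ?_ (Or.inl hn0)
    fun_prop
  refine (U02_kn_int i hi).mul_bdd (c := (n : ℝ) ^ (-(1 + e.re + 1 / l))) hcont.aestronglyMeasurable
    (Eventually.of_forall fun u => ?_)
  rw [Complex.norm_natCast_cpow_of_pos hn]
  apply le_of_eq
  congr 1
  have : ((1 + (u : ℂ) * I) / (l : ℂ)).re = 1 / l := by
    rw [Complex.div_ofReal_re]
    simp
  simp only [neg_re, add_re, one_re, this]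

private theorem U02_phi_val (i : ℕ) (hi : 1 ≤ i) (n : ℕ) (hn : 0 < n) (l : ℝ) (e : ℂ) :
    (LS.wn i (Real.log n / l) : ℂ) * (n : ℂ) ^ (-1 - e) =
      ∫ u : ℝ, LS.kn i u * (n : ℂ) ^ (-(1 + e + (1 + u * I) / l)) := by
  have hn0 : (n : ℂ) ≠ 0 := by exact_mod_cast hn.ne'
  rw [LS.wn_eq i hi, ← integral_mul_const]
  refine integral_congr_ae (Eventually.of_forall fun u => ?_)
  simp only
  rw [mul_assoc]
  congr 1
  rw [Complex.cpow_def_of_ne_zero hn0, Complex.cpow_def_of_ne_zero hn0, ← Complex.exp_add]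
  congr 1
  have hlog : Complex.log (n : ℂ) = (Real.log n : ℂ) := (Complex.natCast_log).symm
  rw [hlog]
  push_cast
  ring

/-- as LS.SS_integral / V45 Q2_integral -/
theorem SS_integral (ρ κ : DirichletCharacter ℂ N) (i j : ℕ) (hi : 1 ≤ i) (hj : 1 ≤ j) (z : ℕ) (l : ℝ) (hl : 0 < l)
    (a b : ℂ) : SS ρ κ i j z l a b = ∫ u : ℝ × ℝ, LS.kn i u.1 * LS.kn j u.2 *
    ∏ p ∈ LX.PQ N z, LP.loc ρ (ρ ^ 2 * κ) (1 + a + (1 + u.1 * I) / l) (1 + b + (1 + u.2 * I) / l)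
      (1 + (2 + (u.1 + u.2) * I) / l) p := by
  have hP : ∀ p ∈ LX.PQ N z, p.Prime := fun p hp =>
    (Finset.mem_filter.1 (Finset.mem_filter.1 hp).1).2
  have hpos : ∀ S ∈ (LX.PQ N z).powerset, 0 < nS S := by
    intro S hS
    rw [Finset.mem_powerset] at hS
    exact Finset.prod_pos fun p hp => (hP p (hS hp)).pos
  set φ : ℕ → ℂ → Finset ℕ → ℝ → ℂ := fun k e S u =>
    (((-1) ^ S.card : ℝ) : ℂ) * (LS.kn k u * (nS S : ℂ) ^ (-(1 + e + (1 + u * I) / l))) with hφ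
  have hint : ∀ k, 1 ≤ k → ∀ e, ∀ S ∈ (LX.PQ N z).powerset, Integrable (φ k e S) := fun k hk e S hS =>
    U02_phi_int k hk _ (hpos S hS) l e _
  have hval : ∀ k, 1 ≤ k → ∀ e, ∀ S ∈ (LX.PQ N z).powerset,
      (cf k l S : ℂ) * (nS S : ℂ) ^ (-1 - e) = ∫ u : ℝ, φ k e S u := by
    intro k hk e S hS
    rw [hφ]
    simp only
    rw [integral_const_mul, ← U02_phi_val k hk _ (hpos S hS) l e]
    unfold cf
    push_cast
    ring
  unfold SS
  have h1 : ∀ S ∈ (LX.PQ N z).powerset ×ˢ (LX.PQ N z).powerset,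
      (cf i l S.1 : ℂ) * (cf j l S.2 : ℂ) *
      (ρ (nS S.1 : ℕ) * ρ (nS S.2 : ℕ) * κ (Nat.gcd (nS S.1) (nS S.2) : ℕ)) *
      ((nS S.1 : ℂ) ^ (-1 - a) * (nS S.2 : ℂ) ^ (-1 - b) *
        ((Nat.gcd (nS S.1) (nS S.2) : ℕ) : ℂ) ^ (1 + (a + b))) =
      ∫ u : ℝ × ℝ, (φ i a S.1 u.1 * φ j b S.2 u.2) *
        ((ρ (nS S.1 : ℕ) * ρ (nS S.2 : ℕ) * κ (Nat.gcd (nS S.1) (nS S.2) : ℕ)) *
        ((Nat.gcd (nS S.1) (nS S.2) : ℕ) : ℂ) ^ (1 + (a + b))) := by
    intro S hS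
    rw [Finset.mem_product] at hS
    rw [integral_mul_const, Measure.volume_eq_prod, integral_prod_mul (φ i a S.1) (φ j b S.2),
      ← hval i hi a S.1 hS.1, ← hval j hj b S.2 hS.2]
    ring
  rw [Finset.sum_congr rfl h1, ← integral_finsetSum]
  · refine integral_congr_ae (Eventually.of_forall fun u => ?_)
    simp only
    have h2 := LP.euler2 (LX.PQ N z) hP ρ κ (1 + a + (1 + u.1 * I) / l) (1 + b + (1 + u.2 * I) / l)
      (1 + (a + b))
    have h3 : 1 + a + (1 + (u.1 : ℂ) * I) / l + (1 + b + (1 + (u.2 : ℂ) * I) / l) - (1 + (a + b)) =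
        1 + (2 + ((u.1 : ℂ) + u.2) * I) / l := by
      ring
    rw [h3] at h2
    rw [← h2, Finset.mul_sum]
    refine Finset.sum_congr rfl fun S _ => ?_
    rw [hφ]
    simp only
    ring
  · intro S hS
    rw [Finset.mem_product] at hS
    apply Integrable.mul_const
    rw [Measure.volume_eq_prod]
    exact (hint i hi a S.1 hS.1).mul_prod (hint j hj b S.2 hS.2)

end LU
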