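import Pool.Agent.Lib.MP_0f5a55_nt.V.V45
import Pool.Agent.Lib.MP_0f5a55_nt.U.U01
import Pool.Agent.Lib.MP_0f5a55_nt.U.U02

open Complex MeasureTheory Set Filter Topology
open scoped ComplexConjugate

namespace LU

open LZ (nS EE ER)

variable {N : ℕ} [NeZero N]

private lemma U03_term (χ : DirichletCharacter ℂ N) {p : ℕ} (hp : p.Prime) (s : ℂ) :
    ‖χ (p : ZMod N) * (p : ℂ) ^ (-s)‖ ≤ (p : ℝ) ^ (-s.re) := by
  rw [norm_mul, Complex.norm_natCast_cpow_of_pos hp.pos, Complex.neg_re]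
  have h1 := LX.norm_char_le χ (p : ZMod N)
  have h2 : (0:ℝ) ≤ (p : ℝ) ^ (-s.re) := Real.rpow_nonneg (Nat.cast_nonneg _) _
  calc ‖χ (p : ZMod N)‖ * (p : ℝ) ^ (-s.re) ≤ 1 * (p : ℝ) ^ (-s.re) := by gcongr
    _ = _ := one_mul _

private lemma U03_sum (z : ℕ) {a : ℝ} (ha : 1 < a) :
    ∑ p ∈ LX.PQ N z, (p : ℝ) ^ (-a) ≤ ∑' n : ℕ, (n : ℝ) ^ (-a) := by
  have hs : Summable (fun n : ℕ => (n : ℝ) ^ (-a)) := Real.summable_nat_rpow.mpr (by linarith)
  exact hs.sum_le_tsum _ (fun n _ => Real.rpow_nonneg (Nat.cast_nonneg _) _)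

private lemma U03_bound (ρ om : DirichletCharacter ℂ N) (z : ℕ) (A B D : ℂ) (hA : 1 < A.re)
    (hB : 1 < B.re) (hD : 1 < D.re) :
    ‖∏ p ∈ LX.PQ N z, LP.loc ρ om A B D p‖ ≤
      Real.exp ((∑' n : ℕ, (n : ℝ) ^ (-A.re)) + (∑' n : ℕ, (n : ℝ) ^ (-B.re)) +
        (∑' n : ℕ, (n : ℝ) ^ (-D.re))) := by
  rw [norm_prod]
  have h1 : ∀ p ∈ LX.PQ N z, ‖LP.loc ρ om A B D p‖ ≤
      Real.exp ((p : ℝ) ^ (-A.re) + (p : ℝ) ^ (-B.re) + (p : ℝ) ^ (-D.re)) := by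
    intro p hp
    have hp' : p.Prime := (Finset.mem_filter.mp (LX.PQ_sub N z hp)).2
    have a1 := U03_term ρ hp' A
    have a2 := U03_term ρ hp' B
    have a3 := U03_term om hp' D
    have h2 : ‖LP.loc ρ om A B D p‖ ≤
        1 + (p : ℝ) ^ (-A.re) + (p : ℝ) ^ (-B.re) + (p : ℝ) ^ (-D.re) := by
      unfold LP.loc
      refine (norm_add_le _ _).trans ?_
      refine add_le_add ?_ a3
      refine (norm_sub_le _ _).trans ?_
      refine add_le_add ?_ a2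
      refine (norm_sub_le _ _).trans ?_
      refine add_le_add ?_ a1
      simp
    have h3 := Real.add_one_le_exp ((p : ℝ) ^ (-A.re) + (p : ℝ) ^ (-B.re) + (p : ℝ) ^ (-D.re))
    linarith
  refine (Finset.prod_le_prod (fun p _ => norm_nonneg _) h1).trans ?_
  rw [← Real.exp_sum]
  refine Real.exp_le_exp.mpr ?_
  rw [Finset.sum_add_distrib, Finset.sum_add_distrib]
  have b1 := U03_sum (N := N) z hA
  have b2 := U03_sum (N := N) z hB
  have b3 := U03_sum (N := N) z hD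
  linarith

private lemma U03_kn_int (i : ℕ) (hi : 1 ≤ i) :
    Continuous (LS.kn i) ∧ Integrable (fun u : ℝ => ‖LS.kn i u‖) := by
  obtain ⟨hc, C, hC, hb⟩ := LS.kn_facts i
  refine ⟨hc, ?_⟩
  have h1 : Integrable (fun u : ℝ => C * (1 + ‖u‖) ^ (-((i : ℝ) + 1))) :=
    (integrable_one_add_norm (by
      have : (1 : ℝ) ≤ i := by exact_mod_cast hi
      simp
      linarith)).const_mul C
  refine h1.mono' hc.norm.aestronglyMeasurable (Eventually.of_forall (fun u => ?_))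
  rw [norm_norm, Real.norm_eq_abs]
  exact hb u

/-- as LS.SS_mu_integral / V45 Q2_mu_integral, LP.mu_prod -/
theorem SS_mu_integral (ρ κ : DirichletCharacter ℂ N) (i j : ℕ) (hi : 1 ≤ i) (hj : 1 ≤ j) (l : ℝ) (hl : 1 ≤ l)
    (a b : ℂ) (ha : |a.re| ≤ 3 / (4 * l)) (hb : |b.re| ≤ 3 / (4 * l)) :
    SS ρ κ i j ⌊Real.exp l⌋₊ l a b = ∫ u : ℝ × ℝ, LS.kn i u.1 * LS.kn j u.2 *
      (LX.Lf (ρ ^ 2 * κ) (1 + (2 + (u.1 + u.2) * I) / l) /
        (LX.Lf ρ (1 + a + (1 + u.1 * I) / l) * LX.Lf ρ (1 + b + (1 + u.2 * I) / l)) *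
        LP.R1 ρ (ρ ^ 2 * κ) (1 + a + (1 + u.1 * I) / l) (1 + b + (1 + u.2 * I) / l)
          (1 + (2 + (u.1 + u.2) * I) / l)) := by
  obtain ⟨hkc, hki2⟩ := U03_kn_int i hi
  obtain ⟨hkc', hki2'⟩ := U03_kn_int j hj
  have hl0 : 0 < l := by linarith
  have ha' := abs_le.mp ha
  have hb' := abs_le.mp hb
  have h8 : 3 / (4 * l) = 3 / 4 * (1 / l) := by field_simp
  have hl1 : 0 < 1 / l := by positivity
  rw [h8] at ha' hb'
  have h2l : 2 / l = 2 * (1 / l) := by ring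
  have hAre : ∀ (e : ℂ) (x : ℝ), (1 + e + (1 + (x : ℂ) * I) / l).re = 1 + e.re + 1 / l := by
    intro e x
    rw [add_re, add_re, one_re, div_ofReal_re, add_re, one_re, re_ofReal_mul, I_re]
    ring
  have hDre : ∀ x y : ℝ, (1 + (2 + ((x : ℂ) + y) * I) / l).re = 1 + 2 / l := by
    intro x y
    rw [add_re, one_re, div_ofReal_re]
    simp
  set F : ℕ → (ℝ × ℝ) → ℂ := fun z u => LS.kn i u.1 * LS.kn j u.2 *
    ∏ p ∈ LX.PQ N z, LP.loc ρ (ρ ^ 2 * κ) (1 + a + (1 + u.1 * I) / l) (1 + b + (1 + u.2 * I) / l)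
        (1 + (2 + (u.1 + u.2) * I) / l) p with hF
  have hFQ : ∀ z : ℕ, SS ρ κ i j z l a b = ∫ u, F z u := by
    intro z
    rw [SS_integral ρ κ i j hi hj z l hl0 a b]
  have hFc : ∀ z : ℕ, Continuous (F z) := by
    intro z
    have h1 : Continuous (fun u : ℝ × ℝ => LS.kn i u.1 * LS.kn j u.2) :=
      (hkc.comp continuous_fst).mul (hkc'.comp continuous_snd)
    refine h1.mul (continuous_finsetProd _ (fun p hp => ?_))
    have hp0 : (p : ℂ) ≠ 0 := by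
      exact_mod_cast (Finset.mem_filter.mp (LX.PQ_sub N z hp)).2.ne_zero
    have c1 : Continuous (fun u : ℝ × ℝ => (p : ℂ) ^ (-(1 + a + (1 + (u.1 : ℂ) * I) / l))) :=
      Continuous.const_cpow (by fun_prop) (Or.inl hp0)
    have c2 : Continuous (fun u : ℝ × ℝ => (p : ℂ) ^ (-(1 + b + (1 + (u.2 : ℂ) * I) / l))) :=
      Continuous.const_cpow (by fun_prop) (Or.inl hp0)
    have c3 : Continuous (fun u : ℝ × ℝ =>
        (p : ℂ) ^ (-(1 + (2 + ((u.1 : ℂ) + u.2) * I) / l))) :=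
      Continuous.const_cpow (by fun_prop) (Or.inl hp0)
    unfold LP.loc
    exact ((continuous_const.sub (continuous_const.mul c1)).sub (continuous_const.mul c2)).add
      (continuous_const.mul c3)
  set M : ℝ := Real.exp ((∑' n : ℕ, (n : ℝ) ^ (-(1 + a.re + 1 / l))) +
    (∑' n : ℕ, (n : ℝ) ^ (-(1 + b.re + 1 / l))) +
        (∑' n : ℕ, (n : ℝ) ^ (-(1 + 2 / l)))) with hM
  have hbi : Integrable (fun u : ℝ × ℝ => (‖LS.kn i u.1‖ * ‖LS.kn j u.2‖) * M) :=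
    (hki2.mul_prod hki2').mul_const M
  have hA1 : 1 < 1 + a.re + 1 / l := by linarith
  have hB1 : 1 < 1 + b.re + 1 / l := by linarith
  have hD1 : 1 < 1 + 2 / l := by rw [h2l]; linarith
  have hFb : ∀ z : ℕ, ∀ u : ℝ × ℝ, ‖F z u‖ ≤ (‖LS.kn i u.1‖ * ‖LS.kn j u.2‖) * M := by
    intro z u
    simp only [hF]
    rw [norm_mul, norm_mul]
    refine mul_le_mul_of_nonneg_left ?_ (mul_nonneg (norm_nonneg _) (norm_nonneg _))
    have h5 := U03_bound ρ (ρ ^ 2 * κ) z (1 + a + (1 + u.1 * I) / l) (1 + b + (1 + u.2 * I) / l)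
        (1 + (2 + (u.1 + u.2) * I) / l) (by rw [hAre]; exact hA1)
        (by rw [hAre]; exact hB1) (by rw [hDre]; exact hD1)
    rw [hAre, hAre, hDre] at h5
    exact h5
  have hlim : ∀ u : ℝ × ℝ, Tendsto (fun z => F z u) atTop (𝓝 (LS.kn i u.1 * LS.kn j u.2 *
      (LX.Lf (ρ ^ 2 * κ) (1 + (2 + (u.1 + u.2) * I) / l) /
        (LX.Lf ρ (1 + a + (1 + u.1 * I) / l) * LX.Lf ρ (1 + b + (1 + u.2 * I) / l)) *
        LP.R1 ρ (ρ ^ 2 * κ) (1 + a + (1 + u.1 * I) / l) (1 + b + (1 + u.2 * I) / l)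
          (1 + (2 + (u.1 + u.2) * I) / l)))) := by
    intro u
    exact (LP.mu_prod ρ (ρ ^ 2 * κ) (1 + a + (1 + u.1 * I) / l) (1 + b + (1 + u.2 * I) / l)
        (1 + (2 + (u.1 + u.2) * I) / l) (by rw [hAre]; exact hA1)
        (by rw [hAre]; exact hB1) (by rw [hDre]; exact hD1)).const_mul _
  have key := tendsto_integral_of_dominated_convergence _ (fun z => (hFc z).aestronglyMeasurable) hbi
    (fun z => Eventually.of_forall (hFb z)) (Eventually.of_forall hlim)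
  have hconst : Tendsto (fun z => ∫ u, F z u) atTop (𝓝 (SS ρ κ i j ⌊Real.exp l⌋₊ l a b)) := by
    refine tendsto_const_nhds.congr' ?_
    filter_upwards [eventually_ge_atTop ⌊Real.exp l⌋₊] with z hz
    rw [← hFQ z]
    exact (SS_stable ρ κ i j hi hj z l hl0 a b hz).symm
  exact tendsto_nhds_unique hconst key

end LU
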