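import Pool.Agent.Lib.MP_0f5a55_nt.V.V07
import Pool.Agent.Lib.MP_0f5a55_nt.V.V18
import Pool.Agent.Lib.MP_0f5a55_nt.U.U00

open Complex MeasureTheory Set Filter Topology
open scoped ComplexConjugate

namespace LU

open LZ (nS EE ER)

variable {N : ℕ} [NeZero N]

private theorem U04_diff (ξ : DirichletCharacter ℂ N) (hξ : ξ ≠ 1) : Differentiable ℂ (LX.Lf ξ) :=
  DirichletCharacter.differentiable_LFunction hξ

private theorem U04_ne (ξ : DirichletCharacter ℂ N) (hξ : ξ ≠ 1) {s : ℂ} (hs : 1 ≤ s.re) : LX.Lf ξ s ≠ 0 :=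
  DirichletCharacter.LFunction_ne_zero_of_one_le_re ξ (.inl hξ) hs

/-- linear growth for a non-principal character -/
private theorem U04_lin (ξ : DirichletCharacter ℂ N) (hξ : ξ ≠ 1) : ∃ C : ℝ, 0 < C ∧ ∀ s : ℂ, 1 ≤ s.re →
    ‖LX.Lf ξ s‖ ≤ C * ‖s‖ := by
  obtain ⟨C, hC, -, h⟩ := LP.per_mean (N := N) (fun a => ξ a) (MulChar.sum_eq_zero_of_ne_one hξ)
  refine ⟨C, hC, fun s hs => ?_⟩
  have h1 := h s (by linarith)
  refine h1.trans ?_
  have h0 : 0 ≤ C * ‖s‖ := by positivity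
  rw [div_le_iff₀ (by linarith)]
  nlinarith

/-- non-principal characters near the line Re s = 1; |u| <= M l: compactness and non-vanishing on Re s >= 1,
|u| > M l: trivial bound C l (V07 L_trivial) -/
theorem Lf_inv (ξ : DirichletCharacter ℂ N) (hξ : ξ ≠ 1) : ∃ C l0 : ℝ, 0 < C ∧ 1 ≤ l0 ∧ ∀ l : ℝ, l0 ≤ l →
    ∀ x : ℂ, ‖x‖ ≤ 3/4 → ∀ u : ℝ, ‖LX.Lf ξ (1 + (1 + x + u * I) / l)‖⁻¹ ≤ C * (1 + |u|) := by
  obtain ⟨C1, hC1, h1⟩ := LP.L_trivial
  -- compact set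
  have hK : IsCompact ({s : ℂ | 1 ≤ s.re} ∩ Metric.closedBall 0 4) :=
    (isCompact_closedBall (0 : ℂ) 4).inter_left (isClosed_le continuous_const continuous_re)
  have hc : ContinuousOn (fun s : ℂ => ‖LX.Lf ξ s‖⁻¹) ({s : ℂ | 1 ≤ s.re} ∩ Metric.closedBall 0 4) := by
    apply ContinuousOn.inv₀
    · exact (U04_diff ξ hξ).continuous.norm.continuousOn
    · intro s hs
      exact norm_ne_zero_iff.2 (U04_ne ξ hξ hs.1)
  obtain ⟨C2, hC2⟩ := hK.exists_bound_of_continuousOn hc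
  refine ⟨|C2| + 4 * C1, 2, by positivity, by norm_num, ?_⟩
  intro l hl x hx u
  have hl0 : 0 < l := by linarith
  obtain ⟨ha, hb⟩ := abs_le.1 ((abs_re_le_norm x).trans hx)
  have hu0 : 0 ≤ |u| := abs_nonneg u
  set w : ℂ := (1 + x + u * I) / l with hw
  have hwre : w.re = (1 + x.re) / l := by
    rw [hw, div_ofReal_re]
    simp
  have hsre : (1 + w).re = 1 + (1 + x.re) / l := by rw [add_re, one_re, hwre]
  have hσ : 1 / (4 * l) ≤ (1 + x.re) / l := by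
    rw [div_le_div_iff₀ (by positivity) hl0]
    nlinarith
  have hσ0 : 0 < (1 + x.re) / l := lt_of_lt_of_le (by positivity) hσ
  have hσ1 : (1 + x.re) / l ≤ 1 := by
    rw [div_le_iff₀ hl0]
    linarith
  rcases le_or_gt |u| l with hle | hgt
  · have hmem : (1 + w) ∈ ({s : ℂ | 1 ≤ s.re} ∩ Metric.closedBall 0 4) := by
      refine ⟨?_, ?_⟩
      · show 1 ≤ (1 + w).re
        rw [hsre]; linarith
      · rw [mem_closedBall_zero_iff]
        have e1 : ‖(1 + x + u * I : ℂ)‖ ≤ 1 + ‖x‖ + |u| := by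
          refine (norm_add_le _ _).trans (add_le_add ((norm_add_le _ _).trans ?_) ?_)
          · rw [norm_one]
          · rw [norm_mul, norm_I, norm_real, Real.norm_eq_abs, mul_one]
        have e2 : ‖w‖ ≤ 3 := by
          rw [hw, norm_div, norm_real, Real.norm_eq_abs, abs_of_pos hl0, div_le_iff₀ hl0]
          linarith
        refine (norm_add_le _ _).trans ?_
        rw [norm_one]; linarith
    have h3 := hC2 _ hmem
    rw [Real.norm_eq_abs, abs_of_nonneg (inv_nonneg.2 (norm_nonneg _))] at h3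
    refine h3.trans ((le_abs_self C2).trans ?_)
    have : 0 ≤ |C2| := abs_nonneg _
    nlinarith
  · have h3 := (h1 N ξ (1 + w) (by rw [hsre]; linarith) (by rw [hsre]; linarith)).2
    refine h3.trans ?_
    rw [hsre]
    have e : 1 + (1 + x.re) / l - 1 = (1 + x.re) / l := by ring
    rw [e]
    have h4 : C1 / ((1 + x.re) / l) ≤ C1 / (1 / (4 * l)) := by
      apply div_le_div_of_nonneg_left hC1.le (by positivity) hσ
    refine h4.trans ?_
    have e5 : C1 / (1 / (4 * l)) = 4 * C1 * l := by field_simp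
    rw [e5]
    have : 0 ≤ |C2| := abs_nonneg _
    nlinarith

/-- minimum of the trivial bound C l and of V18 per_pol C (1 + |w|/l) -/
theorem Lf_grow (ξ : DirichletCharacter ℂ N) (hξ : ξ ≠ 1) : ∃ C l0 : ℝ, 0 < C ∧ 1 ≤ l0 ∧ ∀ l : ℝ, l0 ≤ l →
    ∀ w : ℝ, ‖LX.Lf ξ (1 + (2 + w * I) / l)‖ ≤ C * (1 + |w|) ^ (1/2 : ℝ) := by
  obtain ⟨C1, hC1, h1⟩ := LP.L_trivial
  obtain ⟨C2, hC2, h2⟩ := U04_lin ξ hξ
  refine ⟨C1 + 4 * C2, 2, by positivity, by norm_num, ?_⟩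
  intro l hl w
  have hl0 : 0 < l := by linarith
  have hw0 : 0 ≤ |w| := abs_nonneg w
  have hre : (1 + (2 + w * I) / l : ℂ).re = 1 + 2 / l := by
    rw [add_re, one_re, div_ofReal_re]
    simp
  have h2l : 0 < 2 / l := by positivity
  have h2l1 : 2 / l ≤ 1 := by rw [div_le_iff₀ hl0]; linarith
  have b1 : ‖LX.Lf ξ (1 + (2 + w * I) / l)‖ ≤ C1 * l := by
    have h3 := (h1 N ξ (1 + (2 + w * I) / l) (by rw [hre]; linarith) (by rw [hre]; linarith)).1
    refine h3.trans ?_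
    rw [hre]
    have e : 1 + 2 / l - 1 = 2 / l := by ring
    rw [e]
    have e2 : C1 / (2 / l) = C1 * l / 2 := by field_simp
    rw [e2]
    nlinarith [mul_pos hC1 hl0]
  have b2 : ‖LX.Lf ξ (1 + (2 + w * I) / l)‖ ≤ 2 * C2 * (1 + |w| / l) := by
    have h3 := h2 (1 + (2 + w * I) / l) (by rw [hre]; linarith)
    refine h3.trans ?_
    have e1 : ‖(1 + (2 + w * I) / l : ℂ)‖ ≤ 1 + (2 + |w|) / l := by
      refine (norm_add_le _ _).trans ?_
      rw [norm_one, norm_div, norm_real, Real.norm_eq_abs, abs_of_pos hl0]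
      gcongr
      refine (norm_add_le _ _).trans ?_
      rw [norm_mul, norm_I, norm_real, Real.norm_eq_abs, mul_one]
      gcongr
      exact le_of_eq (by norm_num)
    have e3 : (2 + |w|) / l = 2 / l + |w| / l := by rw [add_div]
    have h0 : 0 ≤ |w| / l := by positivity
    have e4 : ‖(1 + (2 + w * I) / l : ℂ)‖ ≤ 2 * (1 + |w| / l) := by
      rw [e3] at e1
      linarith
    calc C2 * ‖(1 + (2 + w * I) / l : ℂ)‖ ≤ C2 * (2 * (1 + |w| / l)) :=
          mul_le_mul_of_nonneg_left e4 hC2.le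
      _ = _ := by ring
  have hA : 1 ≤ 1 + |w| := by linarith
  have hP1 : 1 ≤ (1 + |w|) ^ (1/2 : ℝ) := Real.one_le_rpow hA (by norm_num)
  have hPsq : (1 + |w|) ^ (1/2 : ℝ) * (1 + |w|) ^ (1/2 : ℝ) = 1 + |w| := by
    rw [← Real.rpow_add (by linarith)]
    norm_num
  rcases le_or_gt |w| l with hle | hgt
  · have h0 : |w| / l ≤ 1 := by rw [div_le_iff₀ hl0]; linarith
    refine b2.trans ?_
    have h5 : 2 * C2 * (1 + |w| / l) ≤ 4 * C2 := by nlinarith
    nlinarith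
  · -- product of the two bounds
    have h0 : 0 ≤ |w| / l := by positivity
    have hlw : l * (1 + |w| / l) ≤ 2 * (1 + |w|) := by
      have : l * (1 + |w| / l) = l + |w| := by field_simp
      rw [this]; linarith
    have hn : 0 ≤ ‖LX.Lf ξ (1 + (2 + w * I) / l)‖ := norm_nonneg _
    have hsq : ‖LX.Lf ξ (1 + (2 + w * I) / l)‖ ^ 2 ≤ ((C1 + 4 * C2) * (1 + |w|) ^ (1/2 : ℝ)) ^ 2 := by
      calc ‖LX.Lf ξ (1 + (2 + w * I) / l)‖ ^ 2
          = ‖LX.Lf ξ (1 + (2 + w * I) / l)‖ * ‖LX.Lf ξ (1 + (2 + w * I) / l)‖ := sq _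
        _ ≤ (C1 * l) * (2 * C2 * (1 + |w| / l)) := mul_le_mul b1 b2 hn (by positivity)
        _ = 2 * (C1 * C2) * (l * (1 + |w| / l)) := by ring
        _ ≤ 2 * (C1 * C2) * (2 * (1 + |w|)) := mul_le_mul_of_nonneg_left hlw (by positivity)
        _ ≤ (C1 + 4 * C2) ^ 2 * (1 + |w|) := by nlinarith [mul_pos hC1 hC2, sq_nonneg C1, sq_nonneg C2]
        _ = ((C1 + 4 * C2) * (1 + |w|) ^ (1/2 : ℝ)) ^ 2 := by
          rw [mul_pow, sq ((1 + |w|) ^ (1/2 : ℝ)), hPsq]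
    exact (sq_le_sq₀ hn (by positivity)).1 hsq

theorem Lf_lim (ξ : DirichletCharacter ℂ N) (hξ : ξ ≠ 1) : LX.Lf ξ 1 ≠ 0 ∧
    ∀ w : ℂ, Tendsto (fun l : ℝ => LX.Lf ξ (1 + w / l)) atTop (𝓝 (LX.Lf ξ 1)) := by
  refine ⟨U04_ne ξ hξ (by simp), fun w => ?_⟩
  have h1 : Tendsto (fun l : ℝ => (1 : ℂ) + w / l) atTop (𝓝 1) := by
    have h2 : Tendsto (fun l : ℝ => w / (l : ℂ)) atTop (𝓝 0) := by
      have h3 : Tendsto (fun l : ℝ => w * ((l⁻¹ : ℝ) : ℂ)) atTop (𝓝 (w * ((0 : ℝ) : ℂ))) :=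
        tendsto_const_nhds.mul ((continuous_ofReal.tendsto 0).comp tendsto_inv_atTop_zero)
      rw [ofReal_zero, mul_zero] at h3
      refine h3.congr (fun l => ?_)
      rw [ofReal_inv, div_eq_mul_inv]
    simpa using tendsto_const_nhds.add h2
  exact ((U04_diff ξ hξ).continuous.tendsto 1).comp h1

end LU
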