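import Pool.Agent.Lib.MP_0f5a55_nt.S.B5
import Pool.Agent.Lib.MP_0f5a55_nt.V.V07
import Pool.Agent.Lib.MP_0f5a55_nt.U.U00

open Complex MeasureTheory Set Filter Topology
open scoped ComplexConjugate

namespace LU

open LZ (nS EE ER)

private theorem U05_eq {N : ℕ} [NeZero N] {s : ℂ} (hs : s ≠ 1) :
    LX.Lf (1 : DirichletCharacter ℂ N) s =
      (∏ p ∈ N.primeFactors, (1 - (p : ℂ) ^ (-s))) * riemannZeta s :=
  DirichletCharacter.LFunctionTrivChar_eq_mul_riemannZeta hs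

private theorem U05_norm {s : ℂ} (hs : 1 ≤ s.re) {p : ℕ} (hp : p.Prime) :
    ‖(p : ℂ) ^ (-s)‖ ≤ 1/2 := by
  rw [Complex.norm_natCast_cpow_of_pos hp.pos, neg_re]
  calc (p:ℝ) ^ (-s.re) ≤ (p:ℝ) ^ (-1:ℝ) :=
        Real.rpow_le_rpow_of_exponent_le (by exact_mod_cast hp.one_le) (by linarith)
    _ = (p:ℝ)⁻¹ := Real.rpow_neg_one _
    _ ≤ (2:ℝ)⁻¹ := inv_anti₀ (by norm_num) (by exact_mod_cast hp.two_le)
    _ = 1/2 := by norm_num

private theorem U05_lo (N : ℕ) {s : ℂ} (hs : 1 ≤ s.re) :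
    ‖∏ p ∈ N.primeFactors, (1 - (p : ℂ) ^ (-s))‖⁻¹ ≤ 2 ^ N.primeFactors.card := by
  rw [norm_prod, ← Finset.prod_inv_distrib]
  refine (Finset.prod_le_prod (fun _ _ => by positivity) (g := fun _ => (2:ℝ)) ?_).trans (by simp)
  intro p hp
  have h1 := U05_norm hs (Nat.prime_of_mem_primeFactors hp)
  have h2 : 1/2 ≤ ‖1 - (p:ℂ) ^ (-s)‖ := by
    have h3 := norm_sub_norm_le (1:ℂ) ((p:ℂ) ^ (-s))
    rw [norm_one] at h3
    linarith
  calc ‖1 - (p:ℂ) ^ (-s)‖⁻¹ ≤ (1/2)⁻¹ := inv_anti₀ (by norm_num) h2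
    _ = 2 := by norm_num

private theorem U05_hi (N : ℕ) {s : ℂ} (hs : 1 ≤ s.re) :
    ‖∏ p ∈ N.primeFactors, (1 - (p : ℂ) ^ (-s))‖ ≤ 2 ^ N.primeFactors.card := by
  rw [norm_prod]
  refine (Finset.prod_le_prod (fun _ _ => by positivity) (g := fun _ => (2:ℝ)) ?_).trans (by simp)
  intro p hp
  have h1 := U05_norm hs (Nat.prime_of_mem_primeFactors hp)
  have h3 := norm_sub_le (1:ℂ) ((p:ℂ) ^ (-s))
  rw [norm_one] at h3
  linarith

private theorem U05_tend {w : ℂ} :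
    Tendsto (fun l : ℝ => (1 : ℂ) + w / l) atTop (𝓝 1) := by
  have h3 : Tendsto (fun l : ℝ => (l : ℂ)⁻¹) atTop (𝓝 0) := by
    have h := (continuous_ofReal.tendsto 0).comp (tendsto_inv_atTop_zero (𝕜 := ℝ))
    rw [ofReal_zero] at h
    refine h.congr fun l => ?_
    simp
  have h4 : Tendsto (fun l : ℝ => (1 : ℂ) + w * (l : ℂ)⁻¹) atTop (𝓝 (1 + w * 0)) :=
    tendsto_const_nhds.add (tendsto_const_nhds.mul h3)
  simpa [div_eq_mul_inv] using h4

/-- principal character mod N: zeta times a finite Euler product; from LS.inv_zeta_bound, LS.zeta_le_l, LS.zeta_lim -/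
theorem P_inv (N : ℕ) [NeZero N] : ∃ C l0 : ℝ, 0 < C ∧ 1 ≤ l0 ∧ ∀ l : ℝ, l0 ≤ l → ∀ x : ℂ, ‖x‖ ≤ 3/4 → ∀ u : ℝ,
    ‖LX.Lf (1 : DirichletCharacter ℂ N) (1 + (1 + x + u * I) / l)‖⁻¹ ≤ C / l * (1 + |u|) ^ (7/4 : ℝ) := by
  obtain ⟨C, l0, hC, hl0, h⟩ := LS.inv_zeta_bound
  refine ⟨2 ^ N.primeFactors.card * C, l0, by positivity, hl0, ?_⟩
  intro l hl x hx u
  have hl1 : 0 < l := by linarith
  have hxre : |x.re| ≤ 3/4 := (abs_re_le_norm x).trans hx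
  obtain ⟨ha, hb⟩ := abs_le.1 hxre
  have hre : (1 + (1 + x + u * I) / l : ℂ).re = 1 + (1 + x.re) / l := by
    rw [add_re, one_re, div_ofReal_re]
    simp
  have hp : 0 < (1 + x.re) / l := div_pos (by linarith) hl1
  have hs1 : 1 ≤ (1 + (1 + x + u * I) / l : ℂ).re := by rw [hre]; linarith
  have hne : (1 + (1 + x + u * I) / l : ℂ) ≠ 1 := by
    intro h1
    have h2 := congrArg Complex.re h1
    rw [hre, one_re] at h2
    linarith
  rw [U05_eq hne, norm_mul, mul_inv]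
  calc ‖∏ p ∈ N.primeFactors, (1 - (p : ℂ) ^ (-(1 + (1 + x + u * I) / l : ℂ)))‖⁻¹ *
        ‖riemannZeta (1 + (1 + x + u * I) / l)‖⁻¹
      ≤ 2 ^ N.primeFactors.card * (C / l * (1 + |u|) ^ (7/4 : ℝ)) :=
        mul_le_mul (U05_lo N hs1) (h l hl x hx u) (by positivity) (by positivity)
    _ = _ := by ring

theorem P_up (N : ℕ) [NeZero N] : ∃ C l0 : ℝ, 0 < C ∧ 1 ≤ l0 ∧ ∀ l : ℝ, l0 ≤ l → ∀ w : ℝ,
    ‖LX.Lf (1 : DirichletCharacter ℂ N) (1 + (2 + w * I) / l)‖ ≤ C * l := by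
  obtain ⟨C, l0, hC, hl0, h⟩ := LS.zeta_le_l
  refine ⟨2 ^ N.primeFactors.card * C, l0, by positivity, hl0, ?_⟩
  intro l hl w
  have hl1 : 0 < l := by linarith
  have hre : (1 + (2 + w * I) / l : ℂ).re = 1 + 2 / l := by
    rw [add_re, one_re, div_ofReal_re]
    simp
  have hp : 0 < 2 / l := div_pos (by norm_num) hl1
  have hs1 : 1 ≤ (1 + (2 + w * I) / l : ℂ).re := by rw [hre]; linarith
  have hne : (1 + (2 + w * I) / l : ℂ) ≠ 1 := by
    intro h1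
    have h2 := congrArg Complex.re h1
    rw [hre, one_re] at h2
    linarith
  rw [U05_eq hne, norm_mul]
  calc ‖∏ p ∈ N.primeFactors, (1 - (p : ℂ) ^ (-(1 + (2 + w * I) / l : ℂ)))‖ *
        ‖riemannZeta (1 + (2 + w * I) / l)‖
      ≤ 2 ^ N.primeFactors.card * (C * l) :=
        mul_le_mul (U05_hi N hs1) (h l hl w) (by positivity) (by positivity)
    _ = _ := by ring

theorem P_lim (N : ℕ) [NeZero N] (w : ℂ) (hw : w ≠ 0) :
    Tendsto (fun l : ℝ => LX.Lf (1 : DirichletCharacter ℂ N) (1 + w / l) / l) atTop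
      (𝓝 ((Nat.totient N : ℂ) / N / w)) := by
  have hN : (N : ℂ) ≠ 0 := Nat.cast_ne_zero.2 (NeZero.ne N)
  have h1 : Tendsto (fun s : ℂ => ∏ p ∈ N.primeFactors, (1 - (p : ℂ) ^ (-s))) (𝓝 1)
      (𝓝 (∏ p ∈ N.primeFactors, (1 - (p : ℂ) ^ (-(1:ℂ))))) := by
    refine Continuous.tendsto ?_ 1
    exact continuous_finsetProd _ fun p hp => by
      have : NeZero p := ⟨(Nat.prime_of_mem_primeFactors hp).ne_zero⟩
      fun_prop
  have h2 : (∏ p ∈ N.primeFactors, (1 - (p : ℂ) ^ (-(1:ℂ)))) = (Nat.totient N : ℂ) / N := by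
    have h3 := Nat.totient_eq_mul_prod_factors N
    have h4 : (Nat.totient N : ℂ) = N * ∏ p ∈ N.primeFactors, (1 - (p : ℂ)⁻¹) := by
      have h5 := congrArg (fun q : ℚ => (q : ℂ)) h3
      simpa using h5
    rw [h4, mul_comm, mul_div_assoc, div_self hN, mul_one]
    exact Finset.prod_congr rfl fun p _ => by rw [cpow_neg_one]
  have h6 := (h1.comp (U05_tend (w := w))).mul (LS.zeta_lim w hw)
  rw [h2, mul_one_div] at h6
  refine h6.congr' ?_
  filter_upwards [eventually_gt_atTop 0] with l hl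
  have hne : (1 + w / l : ℂ) ≠ 1 := by
    intro h7
    have h8 : w / (l : ℂ) = 0 := add_eq_left.1 h7
    rcases div_eq_zero_iff.1 h8 with h9 | h9
    · exact hw h9
    · exact hl.ne' (ofReal_eq_zero.1 h9)
  simp only [Function.comp]
  rw [U05_eq hne, mul_div_assoc]

end LU
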