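import Pool.Agent.Lib.MP_0f5a55_nt.V.V26
import Pool.Agent.Lib.MP_0f5a55_nt.U.U03
import Pool.Agent.Lib.MP_0f5a55_nt.U.U05

open Complex MeasureTheory Set Filter Topology
open scoped ComplexConjugate

namespace LU

open LZ (nS EE ER)

private lemma U06_alg (l a b c : ℂ) (hl : l ≠ 0) :
    a / l / (b / l * (c / l)) = l * (a / (b * c)) := by
  rw [div_mul_div_comm, div_div_eq_mul_div]
  have h : a / l * (l * l) = l * a := by field_simp
  rw [h, mul_div_assoc]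

private noncomputable def U06_F (N : ℕ) [NeZero N] (i j : ℕ) (l : ℝ) (x y : ℂ) (u : ℝ × ℝ) : ℂ :=
  LS.kn i u.1 * LS.kn j u.2 * ((l : ℂ) * (LX.Lf (1 : DirichletCharacter ℂ N) (1 + (2 + (u.1 + u.2) * I) / l) /
    (LX.Lf (1 : DirichletCharacter ℂ N) (1 + x / l + (1 + u.1 * I) / l) *
      LX.Lf (1 : DirichletCharacter ℂ N) (1 + y / l + (1 + u.2 * I) / l)) *
    LP.R1 (1 : DirichletCharacter ℂ N) 1 (1 + x / l + (1 + u.1 * I) / l) (1 + y / l + (1 + u.2 * I) / l)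
      (1 + (2 + (u.1 + u.2) * I) / l)))

private lemma U06_re (l : ℝ) (x : ℂ) (v : ℝ) :
    (1 + x / l + (1 + v * I) / l : ℂ).re = 1 + (1 + x.re) / l := by
  simp [Complex.div_ofReal_re]
  ring

private lemma U06_reD (l : ℝ) (v w : ℝ) :
    (1 + (2 + (v + w) * I) / l : ℂ).re = 1 + 2 / l := by
  simp [Complex.div_ofReal_re]

private lemma U06_xre {x : ℂ} (hx : ‖x‖ ≤ 3/4) : 1/4 ≤ 1 + x.re := by
  have := (abs_le.1 ((Complex.abs_re_le_norm x).trans hx)).1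
  linarith

private lemma U06_Lf_cont (N : ℕ) [NeZero N] {g : ℝ × ℝ → ℂ} (hg : Continuous g) (h : ∀ u, 1 < (g u).re) :
    Continuous fun u => LX.Lf (1 : DirichletCharacter ℂ N) (g u) := by
  rw [continuous_iff_continuousAt]
  intro u
  have h1 : g u ≠ 1 := by
    intro h2
    have := h u
    rw [h2] at this
    simp at this
  exact (DirichletCharacter.differentiableAt_LFunction _ _ (Or.inl h1)).continuousAt.comp hg.continuousAt

private lemma U06_meas (N : ℕ) [NeZero N] (i j : ℕ) (l : ℝ) (hl : 0 < l) (x y : ℂ) (hx : ‖x‖ ≤ 3/4) (hy : ‖y‖ ≤ 3/4) :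
    AEStronglyMeasurable (U06_F N i j l x y) := by
  obtain ⟨K, hK, hfacts⟩ := LP.R1_facts
  obtain ⟨hRb, hRt, hRl⟩ := hfacts N
  have hx' := U06_xre hx
  have hy' := U06_xre hy
  have hl' : 0 < 2 / l := by positivity
  have ax : 0 < (1 + x.re) / l := div_pos (by linarith) hl
  have ay : 0 < (1 + y.re) / l := div_pos (by linarith) hl
  have cA : Continuous fun u : ℝ × ℝ => (1 + x / l + (1 + u.1 * I) / l : ℂ) := by fun_prop
  have cB : Continuous fun u : ℝ × ℝ => (1 + y / l + (1 + u.2 * I) / l : ℂ) := by fun_prop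
  have cD : Continuous fun u : ℝ × ℝ => (1 + (2 + (u.1 + u.2) * I) / l : ℂ) := by fun_prop
  have hA : ∀ u : ℝ × ℝ, 1 < (1 + x / l + (1 + u.1 * I) / l : ℂ).re := fun u => by
    rw [U06_re]; linarith
  have hB : ∀ u : ℝ × ℝ, 1 < (1 + y / l + (1 + u.2 * I) / l : ℂ).re := fun u => by
    rw [U06_re]; linarith
  have hD : ∀ u : ℝ × ℝ, 1 < (1 + (2 + (u.1 + u.2) * I) / l : ℂ).re := fun u => by
    rw [U06_reD]; linarith
  have hk := (LS.kn_facts i).1
  have hk' := (LS.kn_facts j).1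
  have mR : Measurable fun u : ℝ × ℝ => LP.R1 (1 : DirichletCharacter ℂ N) 1 (1 + x / l + (1 + u.1 * I) / l)
      (1 + y / l + (1 + u.2 * I) / l) (1 + (2 + (u.1 + u.2) * I) / l) := by
    refine measurable_of_tendsto_metrizable (f := fun (z : ℕ) (u : ℝ × ℝ) =>
      ∏ p ∈ LZ.PP z, LP.cor (1 : DirichletCharacter ℂ N) 1 (1 + x / l + (1 + u.1 * I) / l)
      (1 + y / l + (1 + u.2 * I) / l) (1 + (2 + (u.1 + u.2) * I) / l) p) ?_ ?_
    · intro z
      refine Finset.measurable_prod _ fun p hp => ?_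
      have mp : ∀ g : ℝ × ℝ → ℂ, Continuous g →
          Measurable fun u => (1 : DirichletCharacter ℂ N) (p : ZMod N) * (p : ℂ) ^ (-(g u)) := by
        intro g hg
        exact measurable_const.mul (Measurable.const_pow hg.neg.measurable _)
      have m1 := mp _ cA
      have m2 := mp _ cB
      have m3 := mp _ cD
      unfold LP.cor LP.loc
      exact ((((measurable_const.sub m1).sub m2).add m3).mul (measurable_const.sub m3)).div
        ((measurable_const.sub m1).mul (measurable_const.sub m2))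
    · rw [tendsto_pi_nhds]
      intro u
      exact hRt _ _ _ _ _ (hA u).le (hB u).le (hD u).le
  have m1 := (U06_Lf_cont N cA hA).measurable
  have m2 := (U06_Lf_cont N cB hB).measurable
  have m3 := (U06_Lf_cont N cD hD).measurable
  have mk1 : Measurable fun u : ℝ × ℝ => LS.kn i u.1 := (hk.comp continuous_fst).measurable
  have mk2 : Measurable fun u : ℝ × ℝ => LS.kn j u.2 := (hk'.comp continuous_snd).measurable
  exact ((mk1.mul mk2).mul (measurable_const.mul ((m3.div (m1.mul m2)).mul mR))).aestronglyMeasurable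

private lemma U06_h_int : Integrable fun u : ℝ => (1 + |u|) ^ (-(5/4) : ℝ) := by
  have h := integrable_one_add_norm (E := ℝ) (μ := volume) (r := 5/4) (by simp; norm_num)
  simpa [Real.norm_eq_abs] using h

private lemma U06_kn (i : ℕ) (hi : 2 ≤ i) : ∃ C : ℝ, 0 < C ∧ ∀ u : ℝ, ‖LS.kn i u‖ ≤ C * (1 + |u|) ^ (-3 : ℝ) := by
  obtain ⟨-, C, hC, hk⟩ := LS.kn_facts i
  refine ⟨C, hC, fun u => (hk u).trans ?_⟩
  apply mul_le_mul_of_nonneg_left _ hC.le
  have h1 : (1:ℝ) ≤ 1 + |u| := by linarith [abs_nonneg u]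
  have h2 : (2:ℝ) ≤ i := by exact_mod_cast hi
  exact Real.rpow_le_rpow_of_exponent_le h1 (by linarith)

private lemma U06_bound (N : ℕ) [NeZero N] (i j : ℕ) (hi : 2 ≤ i) (hj : 2 ≤ j) :
    ∃ M l0 : ℝ, 0 < M ∧ 1 ≤ l0 ∧ ∀ l : ℝ, l0 ≤ l → ∀ x y : ℂ, ‖x‖ ≤ 3/4 → ‖y‖ ≤ 3/4 →
    ∀ u : ℝ × ℝ, ‖U06_F N i j l x y u‖ ≤ M * ((1 + |u.1|) ^ (-(5/4) : ℝ) * (1 + |u.2|) ^ (-(5/4) : ℝ)) := by
  obtain ⟨K, hK, hfacts⟩ := LP.R1_facts
  obtain ⟨hRb, hRt, hRl⟩ := hfacts N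
  obtain ⟨Ck, hCk, hk⟩ := U06_kn i hi
  obtain ⟨Cj, hCj, hkj⟩ := U06_kn j hj
  obtain ⟨Ci, l1, hCi, hl1, hinv⟩ := P_inv N
  obtain ⟨Cz, l2, hCz, hl2, hz⟩ := P_up N
  refine ⟨Ck * Cj * (Cz * Ci * Ci * K), max l1 l2, by positivity, hl1.trans (le_max_left _ _), ?_⟩
  intro l hl x y hx hy u
  have hll1 : l1 ≤ l := (le_max_left _ _).trans hl
  have hll2 : l2 ≤ l := (le_max_right _ _).trans hl
  have hl0 : 0 < l := by linarith
  have hx' := U06_xre hx
  have hy' := U06_xre hy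
  have ax : 0 ≤ (1 + x.re) / l := div_nonneg (by linarith) hl0.le
  have ay : 0 ≤ (1 + y.re) / l := div_nonneg (by linarith) hl0.le
  have a1 := hinv l hll1 x hx u.1
  have a2 := hinv l hll1 y hy u.2
  have e1 : (1 + (1 + x + u.1 * I) / l : ℂ) = 1 + x / l + (1 + u.1 * I) / l := by ring
  have e2 : (1 + (1 + y + u.2 * I) / l : ℂ) = 1 + y / l + (1 + u.2 * I) / l := by ring
  rw [e1] at a1
  rw [e2] at a2
  have a3 := hz l hll2 (u.1 + u.2)
  push_cast at a3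
  have a4 := hRb 1 1 (1 + x / l + (1 + u.1 * I) / l) (1 + y / l + (1 + u.2 * I) / l)
    (1 + (2 + (u.1 + u.2) * I) / l) (by rw [U06_re]; linarith) (by rw [U06_re]; linarith)
    (by rw [U06_reD]; have : 0 ≤ 2 / l := by positivity
        linarith)
  have k1 := hk u.1
  have k2 := hkj u.2
  have p1 : 0 < 1 + |u.1| := by positivity
  have p2 : 0 < 1 + |u.2| := by positivity
  have q1 : (1 + |u.1|) ^ (-3 : ℝ) * (1 + |u.1|) ^ (7/4 : ℝ) = (1 + |u.1|) ^ (-(5/4) : ℝ) := by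
    rw [← Real.rpow_add p1]; norm_num
  have q2 : (1 + |u.2|) ^ (-3 : ℝ) * (1 + |u.2|) ^ (7/4 : ℝ) = (1 + |u.2|) ^ (-(5/4) : ℝ) := by
    rw [← Real.rpow_add p2]; norm_num
  have hn : ‖U06_F N i j l x y u‖ = ‖LS.kn i u.1‖ * ‖LS.kn j u.2‖ *
      (l * (‖LX.Lf (1 : DirichletCharacter ℂ N) (1 + (2 + (u.1 + u.2) * I) / l)‖ *
      (‖LX.Lf (1 : DirichletCharacter ℂ N) (1 + x / l + (1 + u.1 * I) / l)‖⁻¹ *
        ‖LX.Lf (1 : DirichletCharacter ℂ N) (1 + y / l + (1 + u.2 * I) / l)‖⁻¹) *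
      ‖LP.R1 (1 : DirichletCharacter ℂ N) 1 (1 + x / l + (1 + u.1 * I) / l) (1 + y / l + (1 + u.2 * I) / l)
        (1 + (2 + (u.1 + u.2) * I) / l)‖)) := by
    unfold U06_F
    rw [norm_mul, norm_mul, norm_mul, norm_mul, norm_div, norm_mul, Complex.norm_real, Real.norm_of_nonneg hl0.le,
      div_eq_mul_inv, mul_inv]
  rw [hn, ← q1, ← q2]
  calc ‖LS.kn i u.1‖ * ‖LS.kn j u.2‖ *
      (l * (‖LX.Lf (1 : DirichletCharacter ℂ N) (1 + (2 + (u.1 + u.2) * I) / l)‖ *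
      (‖LX.Lf (1 : DirichletCharacter ℂ N) (1 + x / l + (1 + u.1 * I) / l)‖⁻¹ *
        ‖LX.Lf (1 : DirichletCharacter ℂ N) (1 + y / l + (1 + u.2 * I) / l)‖⁻¹) *
      ‖LP.R1 (1 : DirichletCharacter ℂ N) 1 (1 + x / l + (1 + u.1 * I) / l) (1 + y / l + (1 + u.2 * I) / l)
        (1 + (2 + (u.1 + u.2) * I) / l)‖))
      ≤ (Ck * (1 + |u.1|) ^ (-3 : ℝ)) * (Cj * (1 + |u.2|) ^ (-3 : ℝ)) *
        (l * ((Cz * l) * ((Ci / l * (1 + |u.1|) ^ (7/4 : ℝ)) * (Ci / l * (1 + |u.2|) ^ (7/4 : ℝ))) * K)) := by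
        gcongr
    _ = Ck * Cj * (Cz * Ci * Ci * K) * ((1 + |u.1|) ^ (-3 : ℝ) * (1 + |u.1|) ^ (7/4 : ℝ) *
        ((1 + |u.2|) ^ (-3 : ℝ) * (1 + |u.2|) ^ (7/4 : ℝ))) := by
        field_simp

private lemma U06_G_int (M : ℝ) : Integrable fun u : ℝ × ℝ =>
    M * ((1 + |u.1|) ^ (-(5/4) : ℝ) * (1 + |u.2|) ^ (-(5/4) : ℝ)) :=
  (Integrable.mul_prod U06_h_int U06_h_int).const_mul _

private lemma U06_eq (N : ℕ) [NeZero N] (i j : ℕ) (hi : 2 ≤ i) (hj : 2 ≤ j) (l : ℝ) (hl : 1 ≤ l) (x y : ℂ)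
    (hx : ‖x‖ ≤ 3/4) (hy : ‖y‖ ≤ 3/4) :
    (l : ℂ) * SS (1 : DirichletCharacter ℂ N) 1 i j ⌊Real.exp l⌋₊ l (x / l) (y / l) = ∫ u : ℝ × ℝ, U06_F N i j l x y u := by
  have hl0 : 0 < l := by linarith
  have key : ∀ w : ℂ, ‖w‖ ≤ 3/4 → |(w / l : ℂ).re| ≤ 3 / (4 * l) := by
    intro w hw
    rw [Complex.div_ofReal_re, abs_div, abs_of_pos hl0]
    have h1 := (Complex.abs_re_le_norm w).trans hw
    rw [div_le_div_iff₀ hl0 (by positivity)]
    nlinarith
  rw [SS_mu_integral (1 : DirichletCharacter ℂ N) 1 i j (by omega) (by omega) l hl _ _ (key x hx) (key y hy),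
    ← integral_const_mul]
  have h11 : (1 : DirichletCharacter ℂ N) ^ 2 * 1 = 1 := by rw [one_pow, one_mul]
  rw [h11]
  refine integral_congr_ae (Eventually.of_forall fun u => ?_)
  simp only [U06_F]
  ring

/-- as LS.SS_lim: dominated convergence, diagonal case -/
theorem SS_lim_diag (N : ℕ) [NeZero N] (i j : ℕ) (hi : 2 ≤ i) (hj : 2 ≤ j) (x y : ℂ) (hx : ‖x‖ ≤ 3/4) (hy : ‖y‖ ≤ 3/4) :
    Tendsto (fun l : ℝ => (l : ℂ) * SS (1 : DirichletCharacter ℂ N) 1 i j ⌊Real.exp l⌋₊ l (x / l) (y / l)) atTop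
      (𝓝 ((N : ℂ) / Nat.totient N * ∫ u : ℝ × ℝ, LS.kn i u.1 * LS.kn j u.2 *
        ((1 + x + u.1 * I) * (1 + y + u.2 * I) / (2 + (u.1 + u.2) * I)))) := by
  obtain ⟨M, l0, hM, hl0, hb⟩ := U06_bound N i j hi hj
  obtain ⟨K, hK, hfacts⟩ := LP.R1_facts
  obtain ⟨hRb, hRt, hRl⟩ := hfacts N
  have hx' := U06_xre hx
  have hy' := U06_xre hy
  have h1 : (fun l : ℝ => ∫ u : ℝ × ℝ, U06_F N i j l x y u) =ᶠ[atTop]
      fun l : ℝ => (l : ℂ) * SS (1 : DirichletCharacter ℂ N) 1 i j ⌊Real.exp l⌋₊ l (x / l) (y / l) := by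
    filter_upwards [eventually_ge_atTop (1 : ℝ)] with l hl
    exact (U06_eq N i j hi hj l hl x y hx hy).symm
  rw [← integral_const_mul]
  refine Tendsto.congr' h1 ?_
  refine tendsto_integral_filter_of_dominated_convergence
    (fun u : ℝ × ℝ => M * ((1 + |u.1|) ^ (-(5/4) : ℝ) * (1 + |u.2|) ^ (-(5/4) : ℝ))) ?_ ?_ (U06_G_int M) ?_
  · filter_upwards [eventually_ge_atTop (1 : ℝ)] with l hl
    exact U06_meas N i j l (by linarith) x y hx hy
  · filter_upwards [eventually_ge_atTop l0] with l hl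
    exact Eventually.of_forall fun u => hb l hl x y hx hy u
  · refine Eventually.of_forall fun u => ?_
    have wA : (1 + x + u.1 * I : ℂ) ≠ 0 := by
      intro h
      have := congrArg Complex.re h
      simp at this
      linarith
    have wB : (1 + y + u.2 * I : ℂ) ≠ 0 := by
      intro h
      have := congrArg Complex.re h
      simp at this
      linarith
    have wD : (2 + (u.1 + u.2) * I : ℂ) ≠ 0 := by
      intro h
      have := congrArg Complex.re h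
      simp at this
    have hNc : (N : ℂ) ≠ 0 := Nat.cast_ne_zero.2 (NeZero.ne N)
    have hphi : (Nat.totient N : ℂ) ≠ 0 :=
      Nat.cast_ne_zero.2 (Nat.totient_pos.2 (Nat.pos_of_ne_zero (NeZero.ne N))).ne'
    have hq : (Nat.totient N : ℂ) / N ≠ 0 := div_ne_zero hphi hNc
    have tA := P_lim N _ wA
    have tB := P_lim N _ wB
    have tD := P_lim N _ wD
    have hinv : Tendsto (fun l : ℝ => (l : ℂ)⁻¹) atTop (𝓝 0) := by
      have := (tendsto_inv_atTop_zero (𝕜 := ℝ))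
      have h2 := (Complex.continuous_ofReal.tendsto 0).comp this
      simpa [Function.comp_def] using h2
    have lim1 : ∀ w : ℂ, Tendsto (fun l : ℝ => (1 + w / l : ℂ)) atTop (𝓝 1) := by
      intro w
      have := (hinv.const_mul w).const_add 1
      simpa [div_eq_mul_inv] using this
    have tR : Tendsto (fun l : ℝ => LP.R1 (1 : DirichletCharacter ℂ N) 1 (1 + x / l + (1 + u.1 * I) / l)
        (1 + y / l + (1 + u.2 * I) / l) (1 + (2 + (u.1 + u.2) * I) / l)) atTop (𝓝 1) := by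
      rw [Metric.tendsto_nhds]
      intro ε hε
      obtain ⟨ρ, hρ, hR⟩ := hRl 1 1 (by simp) (ε / 2) (by positivity)
      have n1 := (Metric.tendsto_nhds.1 (lim1 (1 + x + u.1 * I))) ρ hρ
      have n2 := (Metric.tendsto_nhds.1 (lim1 (1 + y + u.2 * I))) ρ hρ
      have n3 := (Metric.tendsto_nhds.1 (lim1 (2 + (u.1 + u.2) * I))) ρ hρ
      filter_upwards [n1, n2, n3, eventually_gt_atTop (0 : ℝ)] with l d1 d2 d3 hl
      have e1 : (1 + (1 + x + u.1 * I) / l : ℂ) = 1 + x / l + (1 + u.1 * I) / l := by ring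
      have e2 : (1 + (1 + y + u.2 * I) / l : ℂ) = 1 + y / l + (1 + u.2 * I) / l := by ring
      rw [e1, dist_eq_norm] at d1
      rw [e2, dist_eq_norm] at d2
      rw [dist_eq_norm] at d3
      have ax : 0 ≤ (1 + x.re) / l := div_nonneg (by linarith) hl.le
      have ay : 0 ≤ (1 + y.re) / l := div_nonneg (by linarith) hl.le
      have := hR _ _ _ (by rw [U06_re]; linarith) (by rw [U06_re]; linarith)
        (by rw [U06_reD]; have : 0 ≤ 2 / l := by positivity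
            linarith) d1.le d2.le d3.le
      rw [dist_eq_norm]
      linarith
    have tt := (tD.div (tA.mul tB) (mul_ne_zero (div_ne_zero hq wA) (div_ne_zero hq wB))).mul tR
    have tt2 := tt.const_mul (LS.kn i u.1 * LS.kn j u.2)
    have ev : (fun l : ℝ => LS.kn i u.1 * LS.kn j u.2 *
        (LX.Lf (1 : DirichletCharacter ℂ N) (1 + (2 + (u.1 + u.2) * I) / l) / l /
        (LX.Lf (1 : DirichletCharacter ℂ N) (1 + (1 + x + u.1 * I) / l) / l *
          (LX.Lf (1 : DirichletCharacter ℂ N) (1 + (1 + y + u.2 * I) / l) / l)) *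
        LP.R1 (1 : DirichletCharacter ℂ N) 1 (1 + x / l + (1 + u.1 * I) / l)
        (1 + y / l + (1 + u.2 * I) / l) (1 + (2 + (u.1 + u.2) * I) / l))) =ᶠ[atTop] fun l => U06_F N i j l x y u := by
      filter_upwards [eventually_gt_atTop (0 : ℝ)] with l hl
      have e1 : (1 + (1 + x + u.1 * I) / l : ℂ) = 1 + x / l + (1 + u.1 * I) / l := by ring
      have e2 : (1 + (1 + y + u.2 * I) / l : ℂ) = 1 + y / l + (1 + u.2 * I) / l := by ring
      rw [e1, e2]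
      unfold U06_F
      have hlc : (l : ℂ) ≠ 0 := by exact_mod_cast hl.ne'
      congr 1
      rw [← mul_assoc]
      congr 1
      exact U06_alg _ _ _ _ hlc
    refine Tendsto.congr' ev ?_
    have tt3 : Tendsto (fun l : ℝ => LS.kn i u.1 * LS.kn j u.2 *
        (LX.Lf (1 : DirichletCharacter ℂ N) (1 + (2 + (u.1 + u.2) * I) / l) / l /
        (LX.Lf (1 : DirichletCharacter ℂ N) (1 + (1 + x + u.1 * I) / l) / l *
          (LX.Lf (1 : DirichletCharacter ℂ N) (1 + (1 + y + u.2 * I) / l) / l)) *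
        LP.R1 (1 : DirichletCharacter ℂ N) 1 (1 + x / l + (1 + u.1 * I) / l)
        (1 + y / l + (1 + u.2 * I) / l) (1 + (2 + (u.1 + u.2) * I) / l))) atTop
        (𝓝 (LS.kn i u.1 * LS.kn j u.2 * ((Nat.totient N : ℂ) / N / (2 + (u.1 + u.2) * I) /
          ((Nat.totient N : ℂ) / N / (1 + x + u.1 * I) * ((Nat.totient N : ℂ) / N / (1 + y + u.2 * I))) * 1))) := tt2
    convert tt3 using 2
    rw [mul_one]
    field_simp

theorem SS_bdd_diag (N : ℕ) [NeZero N] (i j : ℕ) (hi : 2 ≤ i) (hj : 2 ≤ j) : ∃ C l0 : ℝ, 0 < C ∧ 1 ≤ l0 ∧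
    ∀ l : ℝ, l0 ≤ l → ∀ x y : ℂ, ‖x‖ ≤ 3/4 → ‖y‖ ≤ 3/4 →
    ‖(l : ℂ) * SS (1 : DirichletCharacter ℂ N) 1 i j ⌊Real.exp l⌋₊ l (x / l) (y / l)‖ ≤ C := by
  obtain ⟨M, l0, hM, hl0, hb⟩ := U06_bound N i j hi hj
  refine ⟨(∫ u : ℝ × ℝ, M * ((1 + |u.1|) ^ (-(5/4) : ℝ) * (1 + |u.2|) ^ (-(5/4) : ℝ))) + 1, l0, ?_, hl0, ?_⟩
  · have : 0 ≤ ∫ u : ℝ × ℝ, M * ((1 + |u.1|) ^ (-(5/4) : ℝ) * (1 + |u.2|) ^ (-(5/4) : ℝ)) :=
      integral_nonneg fun u => by positivity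
    linarith
  · intro l hl x y hx hy
    rw [U06_eq N i j hi hj l (hl0.trans hl) x y hx hy]
    have := norm_integral_le_of_norm_le (U06_G_int M) (Eventually.of_forall fun u => hb l hl x y hx hy u)
    linarith

end LU
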