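import Pool.Agent.Lib.MP_0f5a55_nt.V.V26
import Pool.Agent.Lib.MP_0f5a55_nt.S.B1
import Pool.Agent.Lib.MP_0f5a55_nt.U.U03
import Pool.Agent.Lib.MP_0f5a55_nt.U.U04

open Complex MeasureTheory Set Filter Topology
open scoped ComplexConjugate

namespace LU

open LZ (nS EE ER)

variable {N : ℕ} [NeZero N]

/-- the integrand of SS_mu_integral for rho = xi, kappa = xi^-1 -/
private noncomputable def U07_F (ξ : DirichletCharacter ℂ N) (i j : ℕ) (l : ℝ) (x y : ℂ) (u : ℝ × ℝ) : ℂ :=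
  LS.kn i u.1 * LS.kn j u.2 * (LX.Lf ξ (1 + (2 + (u.1 + u.2) * I) / l) /
    (LX.Lf ξ (1 + x / l + (1 + u.1 * I) / l) * LX.Lf ξ (1 + y / l + (1 + u.2 * I) / l)) *
    LP.R1 ξ ξ (1 + x / l + (1 + u.1 * I) / l) (1 + y / l + (1 + u.2 * I) / l)
      (1 + (2 + (u.1 + u.2) * I) / l))

private lemma U07_re (l : ℝ) (x : ℂ) (v : ℝ) :
    (1 + x / l + (1 + v * I) / l : ℂ).re = 1 + (1 + x.re) / l := by
  simp [Complex.div_ofReal_re]
  ring

private lemma U07_reD (l : ℝ) (v w : ℝ) :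
    (1 + (2 + (v + w) * I) / l : ℂ).re = 1 + 2 / l := by
  simp [Complex.div_ofReal_re]

private lemma U07_xre {x : ℂ} (hx : ‖x‖ ≤ 3/4) : 1/4 ≤ 1 + x.re := by
  have := (abs_le.1 ((Complex.abs_re_le_norm x).trans hx)).1
  linarith

private lemma U07_Lf_cont (ξ : DirichletCharacter ℂ N) (hξ : ξ ≠ 1) : Continuous (LX.Lf ξ) :=
  (DirichletCharacter.differentiable_LFunction hξ).continuous

private lemma U07_meas (ξ : DirichletCharacter ℂ N) (hξ : ξ ≠ 1) (i j : ℕ) (l : ℝ) (hl : 0 < l) (x y : ℂ)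
    (hx : ‖x‖ ≤ 3/4) (hy : ‖y‖ ≤ 3/4) :
    AEStronglyMeasurable (U07_F ξ i j l x y) := by
  obtain ⟨K, hK, hR⟩ := LP.R1_facts
  obtain ⟨hRb, hRt, hRl⟩ := hR N
  have hx' := U07_xre hx
  have hy' := U07_xre hy
  have hl' : 0 < 2 / l := by positivity
  have ax : 0 < (1 + x.re) / l := div_pos (by linarith) hl
  have ay : 0 < (1 + y.re) / l := div_pos (by linarith) hl
  have cA : Continuous fun u : ℝ × ℝ => (1 + x / l + (1 + u.1 * I) / l : ℂ) := by fun_prop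
  have cB : Continuous fun u : ℝ × ℝ => (1 + y / l + (1 + u.2 * I) / l : ℂ) := by fun_prop
  have cD : Continuous fun u : ℝ × ℝ => (1 + (2 + (u.1 + u.2) * I) / l : ℂ) := by fun_prop
  have hA : ∀ u : ℝ × ℝ, 1 < (1 + x / l + (1 + u.1 * I) / l : ℂ).re := fun u => by
    rw [U07_re]; linarith
  have hB : ∀ u : ℝ × ℝ, 1 < (1 + y / l + (1 + u.2 * I) / l : ℂ).re := fun u => by
    rw [U07_re]; linarith
  have hD : ∀ u : ℝ × ℝ, 1 < (1 + (2 + (u.1 + u.2) * I) / l : ℂ).re := fun u => by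
    rw [U07_reD]; linarith
  have mR : Measurable fun u : ℝ × ℝ => LP.R1 ξ ξ (1 + x / l + (1 + u.1 * I) / l)
      (1 + y / l + (1 + u.2 * I) / l) (1 + (2 + (u.1 + u.2) * I) / l) := by
    refine measurable_of_tendsto_metrizable (f := fun (z : ℕ) (u : ℝ × ℝ) =>
      ∏ p ∈ LZ.PP z, LP.cor ξ ξ (1 + x / l + (1 + u.1 * I) / l : ℂ)
        (1 + y / l + (1 + u.2 * I) / l : ℂ) (1 + (2 + (u.1 + u.2) * I) / l : ℂ) p) ?_ ?_
    · intro z
      refine Finset.measurable_prod _ fun p hp => ?_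
      have mp : ∀ g : ℝ × ℝ → ℂ, Continuous g → Measurable fun u => ξ (p : ZMod N) * (p : ℂ) ^ (-(g u)) := by
        intro g hg
        exact measurable_const.mul (Measurable.const_pow hg.neg.measurable _)
      have m1 := mp _ cA
      have m2 := mp _ cB
      have m3 := mp _ cD
      unfold LP.cor LP.loc
      exact ((((measurable_const.sub m1).sub m2).add m3).mul (measurable_const.sub m3)).div
        ((measurable_const.sub m1).mul (measurable_const.sub m2))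
    · rw [tendsto_pi_nhds]
      intro u
      exact hRt ξ ξ _ _ _ (hA u).le (hB u).le (hD u).le
  have hc := U07_Lf_cont ξ hξ
  have m1 := (hc.comp cA).measurable
  have m2 := (hc.comp cB).measurable
  have m3 := (hc.comp cD).measurable
  have mk1 : Measurable fun u : ℝ × ℝ => LS.kn i u.1 := ((LS.kn_facts i).1.comp continuous_fst).measurable
  have mk2 : Measurable fun u : ℝ × ℝ => LS.kn j u.2 := ((LS.kn_facts j).1.comp continuous_snd).measurable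
  exact ((mk1.mul mk2).mul ((m3.div (m1.mul m2)).mul mR)).aestronglyMeasurable

private lemma U07_h_int : Integrable fun u : ℝ => (1 + |u|) ^ (-(3/2) : ℝ) := by
  have h := integrable_one_add_norm (E := ℝ) (μ := volume) (r := 3/2) (by simp; norm_num)
  simpa [Real.norm_eq_abs] using h

private lemma U07_G_int (M : ℝ) : Integrable fun u : ℝ × ℝ =>
    M * ((1 + |u.1|) ^ (-(3/2) : ℝ) * (1 + |u.2|) ^ (-(3/2) : ℝ)) :=
  (Integrable.mul_prod U07_h_int U07_h_int).const_mul _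

private lemma U07_kn (i : ℕ) (hi : 2 ≤ i) : ∃ C : ℝ, 0 < C ∧ ∀ u : ℝ, ‖LS.kn i u‖ ≤ C * (1 + |u|) ^ (-3 : ℝ) := by
  obtain ⟨-, C, hC, hk⟩ := LS.kn_facts i
  refine ⟨C, hC, fun u => (hk u).trans (mul_le_mul_of_nonneg_left ?_ hC.le)⟩
  have h1 : (1 : ℝ) ≤ 1 + |u| := by linarith [abs_nonneg u]
  have h2 : (2 : ℝ) ≤ i := by exact_mod_cast hi
  exact Real.rpow_le_rpow_of_exponent_le h1 (by linarith)

private lemma U07_bound (ξ : DirichletCharacter ℂ N) (hξ : ξ ≠ 1) (i j : ℕ) (hi : 2 ≤ i) (hj : 2 ≤ j) :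
    ∃ M l0 : ℝ, 0 < M ∧ 1 ≤ l0 ∧ ∀ l : ℝ, l0 ≤ l → ∀ x y : ℂ, ‖x‖ ≤ 3/4 → ‖y‖ ≤ 3/4 →
    ∀ u : ℝ × ℝ, ‖U07_F ξ i j l x y u‖ ≤ M * ((1 + |u.1|) ^ (-(3/2) : ℝ) * (1 + |u.2|) ^ (-(3/2) : ℝ)) := by
  obtain ⟨K, hK, hR⟩ := LP.R1_facts
  obtain ⟨hRb, hRt, hRl⟩ := hR N
  obtain ⟨Ca, hCa, hka⟩ := U07_kn i hi
  obtain ⟨Cb, hCb, hkb⟩ := U07_kn j hj
  obtain ⟨Ci, l1, hCi, hl1, hinv⟩ := Lf_inv ξ hξ
  obtain ⟨Cz, l2, hCz, hl2, hz⟩ := Lf_grow ξ hξ
  refine ⟨Ca * Cb * (Cz * Ci * Ci * K), max l1 l2, by positivity, hl1.trans (le_max_left _ _), ?_⟩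
  intro l hl x y hx hy u
  have hll1 : l1 ≤ l := (le_max_left _ _).trans hl
  have hll2 : l2 ≤ l := (le_max_right _ _).trans hl
  have hl0 : 0 < l := by linarith
  have hx' := U07_xre hx
  have hy' := U07_xre hy
  have ax : 0 ≤ (1 + x.re) / l := div_nonneg (by linarith) hl0.le
  have ay : 0 ≤ (1 + y.re) / l := div_nonneg (by linarith) hl0.le
  have a1 := hinv l hll1 x hx u.1
  have a2 := hinv l hll1 y hy u.2
  have e1 : (1 + (1 + x + u.1 * I) / l : ℂ) = 1 + x / l + (1 + u.1 * I) / l := by ring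
  have e2 : (1 + (1 + y + u.2 * I) / l : ℂ) = 1 + y / l + (1 + u.2 * I) / l := by ring
  rw [e1] at a1
  rw [e2] at a2
  have a3 := hz l hll2 (u.1 + u.2)
  push_cast at a3
  have p1 : 0 < 1 + |u.1| := by positivity
  have p2 : 0 < 1 + |u.2| := by positivity
  have a3' : ‖LX.Lf ξ (1 + (2 + (u.1 + u.2) * I) / l)‖ ≤
      Cz * ((1 + |u.1|) ^ (1/2 : ℝ) * (1 + |u.2|) ^ (1/2 : ℝ)) := by
    refine a3.trans (mul_le_mul_of_nonneg_left ?_ hCz.le)
    rw [← Real.mul_rpow p1.le p2.le]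
    refine Real.rpow_le_rpow (by positivity) ?_ (by norm_num)
    have h1 := abs_add_le u.1 u.2
    have h2 : 0 ≤ |u.1| * |u.2| := by positivity
    nlinarith
  have a4 := hRb ξ ξ (1 + x / l + (1 + u.1 * I) / l) (1 + y / l + (1 + u.2 * I) / l)
    (1 + (2 + (u.1 + u.2) * I) / l) (by rw [U07_re]; linarith) (by rw [U07_re]; linarith)
    (by rw [U07_reD]; have : 0 ≤ 2 / l := by positivity
        linarith)
  have k1 := hka u.1
  have k2 := hkb u.2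
  have q : ∀ t : ℝ, 0 < t → t ^ (-3 : ℝ) * t * t ^ (1/2 : ℝ) = t ^ (-(3/2) : ℝ) := by
    intro t ht
    nth_rewrite 2 [← Real.rpow_one t]
    rw [← Real.rpow_add ht, ← Real.rpow_add ht]; norm_num
  have hn : ‖U07_F ξ i j l x y u‖ = ‖LS.kn i u.1‖ * ‖LS.kn j u.2‖ *
      (‖LX.Lf ξ (1 + (2 + (u.1 + u.2) * I) / l)‖ *
      (‖LX.Lf ξ (1 + x / l + (1 + u.1 * I) / l)‖⁻¹ * ‖LX.Lf ξ (1 + y / l + (1 + u.2 * I) / l)‖⁻¹) *
      ‖LP.R1 ξ ξ (1 + x / l + (1 + u.1 * I) / l) (1 + y / l + (1 + u.2 * I) / l)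
        (1 + (2 + (u.1 + u.2) * I) / l)‖) := by
    unfold U07_F
    rw [norm_mul, norm_mul, norm_mul, norm_div, norm_mul, div_eq_mul_inv, mul_inv]
  rw [hn, ← q _ p1, ← q _ p2]
  calc ‖LS.kn i u.1‖ * ‖LS.kn j u.2‖ * (‖LX.Lf ξ (1 + (2 + (u.1 + u.2) * I) / l)‖ *
      (‖LX.Lf ξ (1 + x / l + (1 + u.1 * I) / l)‖⁻¹ * ‖LX.Lf ξ (1 + y / l + (1 + u.2 * I) / l)‖⁻¹) *
      ‖LP.R1 ξ ξ (1 + x / l + (1 + u.1 * I) / l) (1 + y / l + (1 + u.2 * I) / l)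
        (1 + (2 + (u.1 + u.2) * I) / l)‖)
      ≤ (Ca * (1 + |u.1|) ^ (-3 : ℝ)) * (Cb * (1 + |u.2|) ^ (-3 : ℝ)) *
        ((Cz * ((1 + |u.1|) ^ (1/2 : ℝ) * (1 + |u.2|) ^ (1/2 : ℝ))) *
          ((Ci * (1 + |u.1|)) * (Ci * (1 + |u.2|))) * K) := by
        gcongr
    _ = _ := by ring

private lemma U07_eq (ξ : DirichletCharacter ℂ N) (i j : ℕ) (hi : 2 ≤ i) (hj : 2 ≤ j) (l : ℝ) (hl : 1 ≤ l)
    (x y : ℂ) (hx : ‖x‖ ≤ 3/4) (hy : ‖y‖ ≤ 3/4) :
    SS ξ ξ⁻¹ i j ⌊Real.exp l⌋₊ l (x / l) (y / l) = ∫ u : ℝ × ℝ, U07_F ξ i j l x y u := by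
  have hl0 : 0 < l := by linarith
  have key : ∀ w : ℂ, ‖w‖ ≤ 3/4 → |(w / l : ℂ).re| ≤ 3 / (4 * l) := by
    intro w hw
    rw [Complex.div_ofReal_re, abs_div, abs_of_pos hl0]
    have h1 := (Complex.abs_re_le_norm w).trans hw
    rw [div_le_div_iff₀ hl0 (by positivity)]
    nlinarith
  have hs : ξ ^ 2 * ξ⁻¹ = ξ := by rw [pow_two, mul_assoc, mul_inv_cancel, mul_one]
  rw [SS_mu_integral ξ ξ⁻¹ i j (by omega) (by omega) l hl _ _ (key x hx) (key y hy), hs]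
  rfl

private lemma U07_kn_one (i : ℕ) (hi : 1 ≤ i) : ∫ u : ℝ, LS.kn i u = 1 := by
  have h := LS.wn_eq i hi 0
  have h2 : ∀ u : ℝ, LS.kn i u * exp (-((1 + u * I) * ((0 : ℝ) : ℂ))) = LS.kn i u := by
    intro u; simp
  simp_rw [h2] at h
  rw [← h]
  simp [LS.wn]

/-- off-diagonal main sum: Lf xi D/(Lf xi A Lf xi B) -> 1/Lf xi 1, R1 xi xi -> 1, integral of kn i = wn i 0 = 1;
domination (1+|u|)^(-3+1+1/2) (1+|v|)^(-3+1+1/2) -/
theorem SS_lim_off (ξ : DirichletCharacter ℂ N) (hξ : ξ ≠ 1) (i j : ℕ) (hi : 2 ≤ i) (hj : 2 ≤ j) (x y : ℂ)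
    (hx : ‖x‖ ≤ 3/4) (hy : ‖y‖ ≤ 3/4) :
    Tendsto (fun l : ℝ => SS ξ ξ⁻¹ i j ⌊Real.exp l⌋₊ l (x / l) (y / l)) atTop (𝓝 (LX.Lf ξ 1)⁻¹) := by
  obtain ⟨M, l0, hM, hl0, hb⟩ := U07_bound ξ hξ i j hi hj
  obtain ⟨K, hK, hR⟩ := LP.R1_facts
  obtain ⟨hRb, hRt, hRl⟩ := hR N
  obtain ⟨hL1, hLl⟩ := Lf_lim ξ hξ
  have hx' := U07_xre hx
  have hy' := U07_xre hy
  have h1 : (fun l : ℝ => ∫ u : ℝ × ℝ, U07_F ξ i j l x y u) =ᶠ[atTop]
      fun l : ℝ => SS ξ ξ⁻¹ i j ⌊Real.exp l⌋₊ l (x / l) (y / l) := by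
    filter_upwards [eventually_ge_atTop (1 : ℝ)] with l hl
    exact (U07_eq ξ i j hi hj l hl x y hx hy).symm
  refine Tendsto.congr' h1 ?_
  have hval : (LX.Lf ξ 1)⁻¹ = ∫ u : ℝ × ℝ, LS.kn i u.1 * LS.kn j u.2 * (LX.Lf ξ 1)⁻¹ := by
    rw [integral_mul_const]
    have h2 := integral_prod_mul (μ := volume) (ν := volume) (LS.kn i) (LS.kn j)
    rw [U07_kn_one i (by omega), U07_kn_one j (by omega)] at h2
    have h3 : (∫ u : ℝ × ℝ, LS.kn i u.1 * LS.kn j u.2) = 1 := by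
      rw [Measure.volume_eq_prod, h2, mul_one]
    rw [h3, one_mul]
  rw [hval]
  refine tendsto_integral_filter_of_dominated_convergence
    (fun u : ℝ × ℝ => M * ((1 + |u.1|) ^ (-(3/2) : ℝ) * (1 + |u.2|) ^ (-(3/2) : ℝ))) ?_ ?_ (U07_G_int M) ?_
  · filter_upwards [eventually_ge_atTop (1 : ℝ)] with l hl
    exact U07_meas ξ hξ i j l (by linarith) x y hx hy
  · filter_upwards [eventually_ge_atTop l0] with l hl
    exact Eventually.of_forall fun u => hb l hl x y hx hy u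
  · refine Eventually.of_forall fun u => ?_
    have tA := hLl (1 + x + u.1 * I)
    have tB := hLl (1 + y + u.2 * I)
    have tD := hLl (2 + (u.1 + u.2) * I)
    have hinv : Tendsto (fun l : ℝ => (l : ℂ)⁻¹) atTop (𝓝 0) := by
      have := (tendsto_inv_atTop_zero (𝕜 := ℝ))
      have h2 := (Complex.continuous_ofReal.tendsto 0).comp this
      simpa [Function.comp_def] using h2
    have lim1 : ∀ w : ℂ, Tendsto (fun l : ℝ => (1 + w / l : ℂ)) atTop (𝓝 1) := by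
      intro w
      have := (hinv.const_mul w).const_add 1
      simpa [div_eq_mul_inv] using this
    have tR : Tendsto (fun l : ℝ => LP.R1 ξ ξ (1 + x / l + (1 + u.1 * I) / l)
        (1 + y / l + (1 + u.2 * I) / l) (1 + (2 + (u.1 + u.2) * I) / l)) atTop (𝓝 1) := by
      rw [Metric.tendsto_nhds]
      intro ε hε
      obtain ⟨ρ, hρ, hR⟩ := hRl ξ 1 (by simp) (ε / 2) (by positivity)
      have n1 := (Metric.tendsto_nhds.1 (lim1 (1 + x + u.1 * I))) ρ hρ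
      have n2 := (Metric.tendsto_nhds.1 (lim1 (1 + y + u.2 * I))) ρ hρ
      have n3 := (Metric.tendsto_nhds.1 (lim1 (2 + (u.1 + u.2) * I))) ρ hρ
      filter_upwards [n1, n2, n3, eventually_gt_atTop (0 : ℝ)] with l d1 d2 d3 hl
      have e1 : (1 + (1 + x + u.1 * I) / l : ℂ) = 1 + x / l + (1 + u.1 * I) / l := by ring
      have e2 : (1 + (1 + y + u.2 * I) / l : ℂ) = 1 + y / l + (1 + u.2 * I) / l := by ring
      rw [e1, dist_eq_norm] at d1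
      rw [e2, dist_eq_norm] at d2
      rw [dist_eq_norm] at d3
      have ax : 0 ≤ (1 + x.re) / l := div_nonneg (by linarith) hl.le
      have ay : 0 ≤ (1 + y.re) / l := div_nonneg (by linarith) hl.le
      have := hR _ _ _ (by rw [U07_re]; linarith) (by rw [U07_re]; linarith)
        (by rw [U07_reD]; have : 0 ≤ 2 / l := by positivity
            linarith) d1.le d2.le d3.le
      rw [dist_eq_norm]
      linarith
    have tt := (tD.div (tA.mul tB) (mul_ne_zero hL1 hL1)).mul tR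
    have tt2 := tt.const_mul (LS.kn i u.1 * LS.kn j u.2)
    have ev : (fun l : ℝ => LS.kn i u.1 * LS.kn j u.2 * (LX.Lf ξ (1 + (2 + (u.1 + u.2) * I) / l) /
        (LX.Lf ξ (1 + (1 + x + u.1 * I) / l) * (LX.Lf ξ (1 + (1 + y + u.2 * I) / l))) *
        LP.R1 ξ ξ (1 + x / l + (1 + u.1 * I) / l)
        (1 + y / l + (1 + u.2 * I) / l) (1 + (2 + (u.1 + u.2) * I) / l))) =ᶠ[atTop]
        fun l => U07_F ξ i j l x y u := by
      refine Eventually.of_forall fun l => ?_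
      have e1 : (1 + (1 + x + u.1 * I) / l : ℂ) = 1 + x / l + (1 + u.1 * I) / l := by ring
      have e2 : (1 + (1 + y + u.2 * I) / l : ℂ) = 1 + y / l + (1 + u.2 * I) / l := by ring
      simp only [e1, e2]
      rfl
    refine Tendsto.congr' ev ?_
    have hlim : LS.kn i u.1 * LS.kn j u.2 * (LX.Lf ξ 1)⁻¹ =
        LS.kn i u.1 * LS.kn j u.2 * (LX.Lf ξ 1 / (LX.Lf ξ 1 * LX.Lf ξ 1) * 1) := by
      rw [mul_one, div_mul_cancel_left₀ hL1]
    rw [hlim]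
    exact tt2

end LU
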