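import Pool.Agent.Lib.MP_0f5a55_nt.V.V26
import Pool.Agent.Lib.MP_0f5a55_nt.U.U03
import Pool.Agent.Lib.MP_0f5a55_nt.U.U04
import Pool.Agent.Lib.MP_0f5a55_nt.U.U05

open Complex MeasureTheory Set Filter Topology
open scoped ComplexConjugate

namespace LU

open LZ (nS EE ER)

variable {N : ℕ} [NeZero N]

private lemma U08_re (l : ℝ) (x : ℂ) (v : ℝ) :
    (1 + x / l + (1 + v * I) / l : ℂ).re = 1 + (1 + x.re) / l := by
  simp [Complex.div_ofReal_re]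
  ring

private lemma U08_reD (l : ℝ) (v w : ℝ) :
    (1 + (2 + (v + w) * I) / l : ℂ).re = 1 + 2 / l := by
  simp [Complex.div_ofReal_re]

private lemma U08_xre {x : ℂ} (hx : ‖x‖ ≤ 3/4) : 1/4 ≤ 1 + x.re ∧ 1 + x.re ≤ 7/4 := by
  have := abs_le.1 ((Complex.abs_re_le_norm x).trans hx)
  constructor <;> linarith [this.1, this.2]

private lemma U08_h_int : Integrable fun u : ℝ => (1 + |u|) ^ (-(11/10) : ℝ) := by
  have h := integrable_one_add_norm (E := ℝ) (μ := volume) (r := 11/10) (by simp; norm_num)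
  simpa [Real.norm_eq_abs] using h

/-- interpolation: t <= a and t <= b give t <= a^(1/5) b^(4/5) -/
private lemma U08_interp {t a b : ℝ} (ht : 0 ≤ t) (ha : t ≤ a) (hb : t ≤ b) :
    t ≤ a ^ (1/5 : ℝ) * b ^ (4/5 : ℝ) := by
  have ha0 : 0 ≤ a := ht.trans ha
  have hb0 : 0 ≤ b := ht.trans hb
  calc t = t ^ (1/5 : ℝ) * t ^ (4/5 : ℝ) := by
        rcases ht.eq_or_lt with h | h
        · rw [← h, Real.zero_rpow (by norm_num)]; simp
        · rw [← Real.rpow_add h]; norm_num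
    _ ≤ _ := mul_le_mul (Real.rpow_le_rpow ht ha (by norm_num)) (Real.rpow_le_rpow ht hb (by norm_num))
        (by positivity) (by positivity)

private lemma U08_inv (N : ℕ) [NeZero N] : ∃ C l0 : ℝ, 0 < C ∧ 1 ≤ l0 ∧ ∀ l : ℝ, l0 ≤ l → ∀ x : ℂ, ‖x‖ ≤ 3/4 → ∀ u : ℝ,
    ‖LX.Lf (1 : DirichletCharacter ℂ N) (1 + x / l + (1 + u * I) / l)‖⁻¹ ≤ C * l ^ (-(3/5) : ℝ) * (1 + |u|) ^ (7/5 : ℝ) := by
  obtain ⟨C1, l1, hC1, hl1, h1⟩ := P_inv N
  obtain ⟨C2, hC2, h2⟩ := LP.L_trivial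
  refine ⟨(4 * C2) ^ (1/5 : ℝ) * C1 ^ (4/5 : ℝ), max l1 2, by positivity, le_trans hl1 (le_max_left _ _), ?_⟩
  intro l hl x hx u
  have hll1 : l1 ≤ l := (le_max_left _ _).trans hl
  have hll2 : 2 ≤ l := (le_max_right _ _).trans hl
  have hl0 : 0 < l := by linarith
  have hu : 0 < 1 + |u| := by positivity
  obtain ⟨hx1, hx2⟩ := U08_xre hx
  have e1 : (1 + (1 + x + u * I) / l : ℂ) = 1 + x / l + (1 + u * I) / l := by ring
  have a1 := h1 l hll1 x hx u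
  rw [e1] at a1
  have hre := U08_re l x u
  have hpos : 0 < (1 + x.re) / l := div_pos (by linarith) hl0
  have hle : (1 + x.re) / l ≤ 1 := by
    rw [div_le_one hl0]; linarith
  have a2 := (h2 N (1 : DirichletCharacter ℂ N) (1 + x / l + (1 + u * I) / l) (by rw [hre]; linarith)
    (by rw [hre]; linarith)).2
  rw [hre] at a2
  have a3 : C2 / (1 + (1 + x.re) / l - 1) ≤ 4 * C2 * l := by
    rw [add_sub_cancel_left, div_div_eq_mul_div, div_le_iff₀ (by linarith)]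
    have : 0 < C2 * l := by positivity
    nlinarith
  have a4 := U08_interp (inv_nonneg.2 (norm_nonneg _)) (a2.trans a3) a1
  refine a4.trans (le_of_eq ?_)
  have b1 : (4 * C2 * l) ^ (1/5 : ℝ) = (4 * C2) ^ (1/5 : ℝ) * l ^ (1/5 : ℝ) :=
    Real.mul_rpow (by positivity) hl0.le
  have b2 : (C1 / l * (1 + |u|) ^ (7/4 : ℝ)) ^ (4/5 : ℝ) = C1 ^ (4/5 : ℝ) / l ^ (4/5 : ℝ) * (1 + |u|) ^ (7/5 : ℝ) := by
    rw [Real.mul_rpow (by positivity) (by positivity), Real.div_rpow hC1.le hl0.le, ← Real.rpow_mul hu.le]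
    norm_num
  have e2 : l ^ (-(3/5) : ℝ) = l ^ (1/5 : ℝ) / l ^ (4/5 : ℝ) := by
    rw [← Real.rpow_sub hl0]; norm_num
  rw [b1, b2, e2]
  ring

/-- dual off-diagonal sum; 1/|Lf 1 A| <= min (C l) (C/l (1+|u|)^(7/4)) <= C l^(-3/5) (1+|u|)^(7/5) -/
theorem SS_dual_off (ξ : DirichletCharacter ℂ N) (hξ : ξ ≠ 1) (i j : ℕ) (hi : 2 ≤ i) (hj : 2 ≤ j) :
    ∃ C l0 : ℝ, 0 < C ∧ 1 ≤ l0 ∧ ∀ l : ℝ, l0 ≤ l → ∀ x y : ℂ, ‖x‖ ≤ 3/4 → ‖y‖ ≤ 3/4 →
    ‖SS 1 ξ i j ⌊Real.exp l⌋₊ l (x / l) (y / l)‖ ≤ C * l ^ (-(1/4) : ℝ) := by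
  obtain ⟨Ci, l1, hCi, hl1, hinv⟩ := U08_inv N
  obtain ⟨Cg, l2, hCg, hl2, hg⟩ := Lf_grow ξ hξ
  obtain ⟨K, hK, hR⟩ := LP.R1_facts
  obtain ⟨-, Ck, hCk, hk⟩ := LS.kn_facts i
  obtain ⟨-, Cj, hCj, hj'⟩ := LS.kn_facts j
  set G : ℝ := ∫ u : ℝ × ℝ, (1 + |u.1|) ^ (-(11/10) : ℝ) * (1 + |u.2|) ^ (-(11/10) : ℝ) with hG
  have hG0 : 0 ≤ G := integral_nonneg fun u => by positivity
  refine ⟨Ck * Cj * (Cg * (Ci * Ci) * K) * G + 1, max l1 l2, by positivity, hl1.trans (le_max_left _ _), ?_⟩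
  intro l hl x y hx hy
  have hll1 : l1 ≤ l := (le_max_left _ _).trans hl
  have hll2 : l2 ≤ l := (le_max_right _ _).trans hl
  have hl1' : 1 ≤ l := hl1.trans hll1
  have hl0 : 0 < l := by linarith
  have key : ∀ w : ℂ, ‖w‖ ≤ 3/4 → |(w / l : ℂ).re| ≤ 3 / (4 * l) := by
    intro w hw
    rw [Complex.div_ofReal_re, abs_div, abs_of_pos hl0]
    have h1 := (Complex.abs_re_le_norm w).trans hw
    rw [div_le_div_iff₀ hl0 (by positivity)]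
    nlinarith
  rw [SS_mu_integral 1 ξ i j (by omega) (by omega) l hl1' _ _ (key x hx) (key y hy)]
  have hint : Integrable fun u : ℝ × ℝ => Ck * Cj * (Cg * (Ci * Ci) * K) * l ^ (-(6/5) : ℝ) *
      ((1 + |u.1|) ^ (-(11/10) : ℝ) * (1 + |u.2|) ^ (-(11/10) : ℝ)) :=
    (Integrable.mul_prod U08_h_int U08_h_int).const_mul _
  have hbd := norm_integral_le_of_norm_le hint (f := fun u : ℝ × ℝ => LS.kn i u.1 * LS.kn j u.2 *
      (LX.Lf ((1 : DirichletCharacter ℂ N) ^ 2 * ξ) (1 + (2 + (u.1 + u.2) * I) / l) /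
        (LX.Lf (1 : DirichletCharacter ℂ N) (1 + x / l + (1 + u.1 * I) / l) *
          LX.Lf (1 : DirichletCharacter ℂ N) (1 + y / l + (1 + u.2 * I) / l)) *
        LP.R1 1 ((1 : DirichletCharacter ℂ N) ^ 2 * ξ) (1 + x / l + (1 + u.1 * I) / l) (1 + y / l + (1 + u.2 * I) / l)
          (1 + (2 + (u.1 + u.2) * I) / l))) (Eventually.of_forall ?_)
  · refine hbd.trans ?_
    rw [integral_const_mul, ← hG]
    have h6 : l ^ (-(6/5) : ℝ) ≤ l ^ (-(1/4) : ℝ) := Real.rpow_le_rpow_of_exponent_le hl1' (by norm_num)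
    have h7 : 0 ≤ l ^ (-(1/4) : ℝ) := by positivity
    have h8 : 0 ≤ Ck * Cj * (Cg * (Ci * Ci) * K) * G := by positivity
    calc Ck * Cj * (Cg * (Ci * Ci) * K) * l ^ (-(6/5) : ℝ) * G
        = (Ck * Cj * (Cg * (Ci * Ci) * K) * G) * l ^ (-(6/5) : ℝ) := by ring
      _ ≤ (Ck * Cj * (Cg * (Ci * Ci) * K) * G) * l ^ (-(1/4) : ℝ) := mul_le_mul_of_nonneg_left h6 h8
      _ ≤ _ := by nlinarith
  · intro u
    have hx' := U08_xre hx
    have hy' := U08_xre hy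
    have ax : 0 ≤ (1 + x.re) / l := div_nonneg (by linarith) hl0.le
    have ay : 0 ≤ (1 + y.re) / l := div_nonneg (by linarith) hl0.le
    have a1 := hinv l hll1 x hx u.1
    have a2 := hinv l hll1 y hy u.2
    have a3 := hg l hll2 (u.1 + u.2)
    push_cast at a3
    have a4 := (hR N).1 1 ξ (1 + x / l + (1 + u.1 * I) / l) (1 + y / l + (1 + u.2 * I) / l)
      (1 + (2 + (u.1 + u.2) * I) / l) (by rw [U08_re]; linarith) (by rw [U08_re]; linarith)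
      (by rw [U08_reD]; have : 0 ≤ 2 / l := by positivity
          linarith)
    have p1 : 0 < 1 + |u.1| := by positivity
    have p2 : 0 < 1 + |u.2| := by positivity
    have q1 : (1 : ℝ) ≤ 1 + |u.1| := by linarith [abs_nonneg u.1]
    have q2 : (1 : ℝ) ≤ 1 + |u.2| := by linarith [abs_nonneg u.2]
    have hi' : (2 : ℝ) ≤ i := by exact_mod_cast hi
    have hj'' : (2 : ℝ) ≤ j := by exact_mod_cast hj
    have k1 : ‖LS.kn i u.1‖ ≤ Ck * (1 + |u.1|) ^ (-3 : ℝ) :=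
      (hk u.1).trans (mul_le_mul_of_nonneg_left (Real.rpow_le_rpow_of_exponent_le q1 (by linarith)) hCk.le)
    have k2 : ‖LS.kn j u.2‖ ≤ Cj * (1 + |u.2|) ^ (-3 : ℝ) :=
      (hj' u.2).trans (mul_le_mul_of_nonneg_left (Real.rpow_le_rpow_of_exponent_le q2 (by linarith)) hCj.le)
    have w1 : (1 + |u.1 + u.2|) ^ (1/2 : ℝ) ≤ (1 + |u.1|) ^ (1/2 : ℝ) * (1 + |u.2|) ^ (1/2 : ℝ) := by
      rw [← Real.mul_rpow p1.le p2.le]
      apply Real.rpow_le_rpow (by positivity) _ (by norm_num)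
      have := abs_add_le u.1 u.2
      have := mul_nonneg (abs_nonneg u.1) (abs_nonneg u.2)
      nlinarith
    have a3' := a3.trans (mul_le_mul_of_nonneg_left w1 hCg.le)
    have e1 : (1 + |u.1|) ^ (-(11/10) : ℝ) = (1 + |u.1|) ^ (-3 : ℝ) * ((1 + |u.1|) ^ (1/2 : ℝ) * (1 + |u.1|) ^ (7/5 : ℝ)) := by
      rw [← Real.rpow_add p1, ← Real.rpow_add p1]; norm_num
    have e2 : (1 + |u.2|) ^ (-(11/10) : ℝ) = (1 + |u.2|) ^ (-3 : ℝ) * ((1 + |u.2|) ^ (1/2 : ℝ) * (1 + |u.2|) ^ (7/5 : ℝ)) := by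
      rw [← Real.rpow_add p2, ← Real.rpow_add p2]; norm_num
    have e3 : l ^ (-(6/5) : ℝ) = l ^ (-(3/5) : ℝ) * l ^ (-(3/5) : ℝ) := by
      rw [← Real.rpow_add hl0]; norm_num
    rw [one_pow, one_mul, norm_mul, norm_mul, norm_mul, norm_div, norm_mul, div_eq_mul_inv, mul_inv, e1, e2, e3]
    calc ‖LS.kn i u.1‖ * ‖LS.kn j u.2‖ *
        (‖LX.Lf ξ (1 + (2 + (u.1 + u.2) * I) / l)‖ *
          (‖LX.Lf (1 : DirichletCharacter ℂ N) (1 + x / l + (1 + u.1 * I) / l)‖⁻¹ *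
            ‖LX.Lf (1 : DirichletCharacter ℂ N) (1 + y / l + (1 + u.2 * I) / l)‖⁻¹) *
          ‖LP.R1 1 ξ (1 + x / l + (1 + u.1 * I) / l) (1 + y / l + (1 + u.2 * I) / l) (1 + (2 + (u.1 + u.2) * I) / l)‖)
        ≤ (Ck * (1 + |u.1|) ^ (-3 : ℝ)) * (Cj * (1 + |u.2|) ^ (-3 : ℝ)) *
          ((Cg * ((1 + |u.1|) ^ (1/2 : ℝ) * (1 + |u.2|) ^ (1/2 : ℝ))) *
            ((Ci * l ^ (-(3/5) : ℝ) * (1 + |u.1|) ^ (7/5 : ℝ)) * (Ci * l ^ (-(3/5) : ℝ) * (1 + |u.2|) ^ (7/5 : ℝ))) * K) := by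
          gcongr
      _ = _ := by ring

end LU
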