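import Pool.Agent.Lib.MP_0f5a55_nt.S.B1
import Pool.Agent.Lib.MP_0f5a55_nt.U.U00

open Complex MeasureTheory Set Filter Topology
open scoped ComplexConjugate

namespace LU

private theorem U09_ne (u : ℝ) : (1 : ℂ) + u * I ≠ 0 := by
  intro h
  have := congrArg Complex.re h
  simp at this

private theorem U09_kn (k : ℕ) (u : ℝ) : LS.kn (k + 1) u * (1 + u * I) = ((k + 1 : ℕ) : ℂ) * LS.kn k u := by
  unfold LS.kn
  have h := U09_ne u
  have hpi : (Real.pi : ℂ) ≠ 0 := by exact_mod_cast Real.pi_ne_zero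
  rw [Nat.factorial_succ]
  push_cast
  have h2 : ((1 : ℂ) + u * I) ^ (k + 1 + 1) = (1 + u * I) ^ (k + 1) * (1 + u * I) := pow_succ _ _
  rw [h2, mul_inv]
  have h3 : ((1 : ℂ) + u * I)⁻¹ * (1 + u * I) = 1 := inv_mul_cancel₀ h
  calc _ = (((k : ℂ) + 1) * (k.factorial : ℂ) / (2 * Real.pi) * exp (1 + u * I) *
        ((1 + u * I) ^ (k + 1))⁻¹) * (((1 : ℂ) + u * I)⁻¹ * (1 + u * I)) := by ring
    _ = _ := by rw [h3]; ring

private theorem U09_int {n : ℕ} (hn : 1 ≤ n) : Integrable (LS.kn n) := by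
  obtain ⟨hc, C, hC, hb⟩ := LS.kn_facts n
  have h1 : Integrable (fun u : ℝ => C * (1 + ‖u‖) ^ (-((n : ℝ) + 1))) := by
    refine (integrable_one_add_norm (r := (n : ℝ) + 1) ?_).const_mul C
    have : (1 : ℝ) ≤ n := by exact_mod_cast hn
    simp only [Module.finrank_self, Nat.cast_one]
    linarith
  exact h1.mono' hc.aestronglyMeasurable (Filter.Eventually.of_forall fun u => hb u)

private theorem U09_g (k : ℕ) (x : ℂ) (u : ℝ) :
    LS.kn (k + 1) u * (1 + x + u * I) = x * LS.kn (k + 1) u + ((k + 1 : ℕ) : ℂ) * LS.kn k u := by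
  rw [← U09_kn]
  ring

private theorem U09_gint {k : ℕ} (hk : 1 ≤ k) (x : ℂ) :
    Integrable (fun u : ℝ => LS.kn (k + 1) u * (1 + x + u * I)) := by
  simp only [U09_g]
  exact ((U09_int (by omega)).const_mul x).add ((U09_int hk).const_mul _)

private theorem U09_expint {n : ℕ} (hn : 1 ≤ n) (t : ℝ) :
    Integrable (fun u : ℝ => LS.kn n u * exp (-((1 + u * I) * t))) := by
  refine (U09_int hn).mul_bdd (c := Real.exp (-t)) ?_ ?_
  · exact Continuous.aestronglyMeasurable (by fun_prop)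
  · refine Filter.Eventually.of_forall fun u => ?_
    rw [Complex.norm_exp]
    simp

private theorem U09_transform {k : ℕ} (hk : 1 ≤ k) (x : ℂ) (t : ℝ) :
    ∫ u : ℝ, LS.kn (k + 1) u * (1 + x + u * I) * exp (-((1 + u * I) * t)) =
      x * LS.wn (k + 1) t + ((k + 1 : ℕ) : ℂ) * LS.wn k t := by
  have h1 : ∀ u : ℝ, LS.kn (k + 1) u * (1 + x + u * I) * exp (-((1 + u * I) * t)) =
      x * (LS.kn (k + 1) u * exp (-((1 + u * I) * t))) +
        ((k + 1 : ℕ) : ℂ) * (LS.kn k u * exp (-((1 + u * I) * t))) := by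
    intro u
    rw [U09_g]
    ring
  simp only [h1]
  rw [integral_add ((U09_expint (by omega) t).const_mul x) ((U09_expint hk t).const_mul _),
    integral_const_mul, integral_const_mul, ← LS.wn_eq (k + 1) (by omega) t, ← LS.wn_eq k hk t]

private theorem U09_final {k m : ℕ} (hk : 1 ≤ k) (hm : 1 ≤ m) (x y : ℂ) :
    ∫ t in Ioi (0 : ℝ), (x * LS.wn (k + 1) t + ((k + 1 : ℕ) : ℂ) * LS.wn k t) *
      (y * LS.wn (m + 1) t + ((m + 1 : ℕ) : ℂ) * LS.wn m t) = JJ (k + 1) (m + 1) x y := by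
  have h1 : ∫ t in Ioi (0 : ℝ), (x * (LS.wn (k + 1) t : ℂ) + ((k + 1 : ℕ) : ℂ) * LS.wn k t) *
      (y * LS.wn (m + 1) t + ((m + 1 : ℕ) : ℂ) * LS.wn m t) =
      ∫ t in Ioc (0 : ℝ) 1, (x * (LS.wn (k + 1) t : ℂ) + ((k + 1 : ℕ) : ℂ) * LS.wn k t) *
      (y * LS.wn (m + 1) t + ((m + 1 : ℕ) : ℂ) * LS.wn m t) := by
    refine setIntegral_eq_of_subset_of_forall_sdiff_eq_zero measurableSet_Ioi
      Ioc_subset_Ioi_self ?_
    intro t ht
    have ht1 : 1 < t := by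
      by_contra hc
      exact ht.2 ⟨ht.1, not_lt.mp hc⟩
    have h0 : max 0 (1 - t) = 0 := max_eq_left (by linarith)
    have hk0 : k ≠ 0 := by omega
    simp [LS.wn, h0, hk0]
  have h2 : ∫ t in Ioc (0 : ℝ) 1, (x * (LS.wn (k + 1) t : ℂ) + ((k + 1 : ℕ) : ℂ) * LS.wn k t) *
      (y * LS.wn (m + 1) t + ((m + 1 : ℕ) : ℂ) * LS.wn m t) =
      ∫ t in Ioc (0 : ℝ) 1, (x * ((1 - t : ℝ) : ℂ) ^ (k + 1) + ((k + 1 : ℕ) : ℂ) * ((1 - t : ℝ) : ℂ) ^ k) *
        (y * ((1 - t : ℝ) : ℂ) ^ (m + 1) + ((m + 1 : ℕ) : ℂ) * ((1 - t : ℝ) : ℂ) ^ m) := by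
    refine setIntegral_congr_fun measurableSet_Ioc fun t ht => ?_
    have h0 : max 0 (1 - t) = 1 - t := max_eq_right (by linarith [ht.2])
    simp only [LS.wn, h0]
    push_cast
    ring
  rw [h1, h2, ← intervalIntegral.integral_of_le zero_le_one]
  have h3 := intervalIntegral.integral_comp_sub_left
    (f := fun s : ℝ => (x * (s : ℂ) ^ (k + 1) + ((k + 1 : ℕ) : ℂ) * (s : ℂ) ^ k) *
      (y * (s : ℂ) ^ (m + 1) + ((m + 1 : ℕ) : ℂ) * (s : ℂ) ^ m))
    (a := 0) (b := 1) 1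
  rw [h3]
  simp only [sub_self, sub_zero]
  have ha : ((k : ℂ) + m + 3) ≠ 0 := by
    have : ((k + m + 3 : ℕ) : ℂ) ≠ 0 := by exact_mod_cast (by omega : k + m + 3 ≠ 0)
    push_cast at this
    exact this
  have hb : ((k : ℂ) + m + 2) ≠ 0 := by
    have : ((k + m + 2 : ℕ) : ℂ) ≠ 0 := by exact_mod_cast (by omega : k + m + 2 ≠ 0)
    push_cast at this
    exact this
  have hc : ((k : ℂ) + m + 1) ≠ 0 := by
    have : ((k + m + 1 : ℕ) : ℂ) ≠ 0 := by exact_mod_cast (by omega : k + m + 1 ≠ 0)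
    push_cast at this
    exact this
  have h4 : ∀ s ∈ uIcc (0 : ℝ) 1, HasDerivAt
      (fun s : ℝ => x * y / (k + m + 3) * (s : ℂ) ^ (k + m + 3) +
        (x * (m + 1) + y * (k + 1)) / (k + m + 2) * (s : ℂ) ^ (k + m + 2) +
        ((k + 1) * (m + 1)) / (k + m + 1) * (s : ℂ) ^ (k + m + 1))
      ((x * (s : ℂ) ^ (k + 1) + ((k + 1 : ℕ) : ℂ) * (s : ℂ) ^ k) *
      (y * (s : ℂ) ^ (m + 1) + ((m + 1 : ℕ) : ℂ) * (s : ℂ) ^ m)) s := by
    intro s _
    have h5 : HasDerivAt (fun z : ℂ => x * y / (k + m + 3) * z ^ (k + m + 3) +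
        (x * (m + 1) + y * (k + 1)) / (k + m + 2) * z ^ (k + m + 2) +
        ((k + 1) * (m + 1)) / (k + m + 1) * z ^ (k + m + 1))
        ((x * (s : ℂ) ^ (k + 1) + ((k + 1 : ℕ) : ℂ) * (s : ℂ) ^ k) *
      (y * (s : ℂ) ^ (m + 1) + ((m + 1 : ℕ) : ℂ) * (s : ℂ) ^ m))
        (s : ℂ) := by
      have e5 := hasDerivAt_pow (k + m + 3) (s : ℂ)
      have e4 := hasDerivAt_pow (k + m + 2) (s : ℂ)
      have e3 := hasDerivAt_pow (k + m + 1) (s : ℂ)
      have := ((e5.const_mul (x * y / (k + m + 3))).add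
        (e4.const_mul ((x * (m + 1) + y * (k + 1)) / (k + m + 2)))).add
        (e3.const_mul (((k + 1) * (m + 1)) / (k + m + 1) : ℂ))
      refine this.congr_deriv ?_
      have p1 : k + m + 3 - 1 = k + m + 2 := by omega
      have p2 : k + m + 2 - 1 = k + m + 1 := by omega
      have p3 : k + m + 1 - 1 = k + m := by omega
      rw [p1, p2, p3]
      push_cast
      have q1 : x * y / ((k : ℂ) + m + 3) * (((k : ℂ) + m + 3) * (s : ℂ) ^ (k + m + 2)) =
          x * y * (s : ℂ) ^ (k + m + 2) := by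
        field_simp
      have q2 : (x * (m + 1) + y * (k + 1)) / ((k : ℂ) + m + 2) * (((k : ℂ) + m + 2) * (s : ℂ) ^ (k + m + 1)) =
          (x * (m + 1) + y * (k + 1)) * (s : ℂ) ^ (k + m + 1) := by
        field_simp
      have q3 : (((k : ℂ) + 1) * (m + 1)) / ((k : ℂ) + m + 1) * (((k : ℂ) + m + 1) * (s : ℂ) ^ (k + m)) =
          (((k : ℂ) + 1) * (m + 1)) * (s : ℂ) ^ (k + m) := by
        field_simp
      rw [q1, q2, q3]
      ring
    exact h5.comp_ofReal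
  rw [intervalIntegral.integral_eq_sub_of_hasDerivAt h4
    (Continuous.intervalIntegrable (by fun_prop) _ _)]
  unfold JJ
  push_cast
  have z1 : (0 : ℂ) ^ (k + m + 3) = 0 := zero_pow (by omega)
  have z2 : (0 : ℂ) ^ (k + m + 2) = 0 := zero_pow (by omega)
  have z3 : (0 : ℂ) ^ (k + m + 1) = 0 := zero_pow (by omega)
  rw [z1, z2, z3]
  have r1 : (k : ℂ) + 1 + (m + 1) + 1 = k + m + 3 := by ring
  have r2 : (k : ℂ) + 1 + (m + 1) = k + m + 2 := by ring
  have r3 : (k : ℂ) + m + 2 - 1 = k + m + 1 := by ring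
  rw [r1, r2, r3]
  simp only [one_pow]
  ring

private theorem U09_main {k m : ℕ} (hk : 1 ≤ k) (hm : 1 ≤ m) (x y : ℂ) :
    ∫ u : ℝ × ℝ, LS.kn (k + 1) u.1 * LS.kn (m + 1) u.2 *
    ((1 + x + u.1 * I) * (1 + y + u.2 * I) / (2 + (u.1 + u.2) * I)) = JJ (k + 1) (m + 1) x y := by
  have hF : Integrable (fun p : (ℝ × ℝ) × ℝ =>
      (LS.kn (k + 1) p.1.1 * (1 + x + p.1.1 * I)) * (LS.kn (m + 1) p.1.2 * (1 + y + p.1.2 * I)) *
        exp (-((2 + (p.1.1 + p.1.2) * I) * p.2)))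
      ((volume : Measure (ℝ × ℝ)).prod (volume.restrict (Ioi (0 : ℝ)))) := by
    have h1 : Integrable (fun t : ℝ => Real.exp (-2 * t)) (volume.restrict (Ioi (0 : ℝ))) :=
      integrableOn_exp_mul_Ioi (by norm_num) 0
    have h2 : Integrable (fun u : ℝ × ℝ => ‖LS.kn (k + 1) u.1 * (1 + x + u.1 * I)‖ *
        ‖LS.kn (m + 1) u.2 * (1 + y + u.2 * I)‖) :=
      (U09_gint hk x).norm.mul_prod (U09_gint hm y).norm
    have h3 := h2.mul_prod h1
    refine h3.mono' ?_ (Filter.Eventually.of_forall fun p => ?_)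
    · have hk1 := (LS.kn_facts (k + 1)).1
      have hk2 := (LS.kn_facts (m + 1)).1
      exact Continuous.aestronglyMeasurable (by fun_prop)
    · rw [norm_mul, norm_mul, Complex.norm_exp]
      refine le_of_eq ?_
      congr 2
      simp
  have hinner : ∀ u : ℝ × ℝ, LS.kn (k + 1) u.1 * LS.kn (m + 1) u.2 *
      ((1 + x + u.1 * I) * (1 + y + u.2 * I) / (2 + (u.1 + u.2) * I)) =
      ∫ t in Ioi (0 : ℝ), (LS.kn (k + 1) u.1 * (1 + x + u.1 * I)) *
        (LS.kn (m + 1) u.2 * (1 + y + u.2 * I)) *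
        exp (-((2 + (u.1 + u.2) * I) * t)) := by
    intro u
    rw [integral_const_mul]
    have ha : (-(2 + ((u.1 : ℂ) + u.2) * I)).re < 0 := by simp
    have h1 := integral_exp_mul_complex_Ioi ha 0
    have h2 : ∫ t in Ioi (0 : ℝ), exp (-((2 + ((u.1 : ℂ) + u.2) * I) * t)) =
        1 / (2 + (u.1 + u.2) * I) := by
      simp only [neg_mul, ofReal_zero, mul_zero, neg_zero, exp_zero] at h1
      rw [h1]
      rw [neg_div_neg_eq]
    rw [h2]
    ring
  calc ∫ u : ℝ × ℝ, LS.kn (k + 1) u.1 * LS.kn (m + 1) u.2 *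
      ((1 + x + u.1 * I) * (1 + y + u.2 * I) / (2 + (u.1 + u.2) * I))
      = ∫ u : ℝ × ℝ, ∫ t in Ioi (0 : ℝ), (LS.kn (k + 1) u.1 * (1 + x + u.1 * I)) *
        (LS.kn (m + 1) u.2 * (1 + y + u.2 * I)) * exp (-((2 + (u.1 + u.2) * I) * t)) :=
        integral_congr_ae (Filter.Eventually.of_forall hinner)
    _ = ∫ t in Ioi (0 : ℝ), ∫ u : ℝ × ℝ, (LS.kn (k + 1) u.1 * (1 + x + u.1 * I)) *
        (LS.kn (m + 1) u.2 * (1 + y + u.2 * I)) * exp (-((2 + (u.1 + u.2) * I) * t)) :=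
        integral_integral_swap hF
    _ = ∫ t in Ioi (0 : ℝ), (x * LS.wn (k + 1) t + ((k + 1 : ℕ) : ℂ) * LS.wn k t) *
      (y * LS.wn (m + 1) t + ((m + 1 : ℕ) : ℂ) * LS.wn m t) := by
        refine integral_congr_ae (Filter.Eventually.of_forall fun t => ?_)
        have h1 : ∀ u : ℝ × ℝ, (LS.kn (k + 1) u.1 * (1 + x + u.1 * I)) *
            (LS.kn (m + 1) u.2 * (1 + y + u.2 * I)) * exp (-((2 + (u.1 + u.2) * I) * t)) =
            (LS.kn (k + 1) u.1 * (1 + x + u.1 * I) * exp (-((1 + u.1 * I) * t))) *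
            (LS.kn (m + 1) u.2 * (1 + y + u.2 * I) * exp (-((1 + u.2 * I) * t))) := by
          intro u
          have : exp (-((2 + ((u.1 : ℂ) + u.2) * I) * t)) =
              exp (-((1 + u.1 * I) * t)) * exp (-((1 + u.2 * I) * t)) := by
            rw [← Complex.exp_add]
            congr 1
            ring
          rw [this]
          ring
        simp only [h1]
        rw [← U09_transform hk x t, ← U09_transform hm y t]
        exact integral_prod_mul (μ := volume) (ν := volume)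
          (fun u : ℝ => LS.kn (k + 1) u * (1 + x + u * I) * exp (-((1 + u * I) * t)))
          (fun u : ℝ => LS.kn (m + 1) u * (1 + y + u * I) * exp (-((1 + u * I) * t)))
    _ = JJ (k + 1) (m + 1) x y := U09_final hk hm x y

/-- as LS.J_eval: kn i u (1+iu) = i kn (i-1) u -/
theorem J_eval (i j : ℕ) (hi : 2 ≤ i) (hj : 2 ≤ j) (x y : ℂ) : ∫ u : ℝ × ℝ, LS.kn i u.1 * LS.kn j u.2 *
    ((1 + x + u.1 * I) * (1 + y + u.2 * I) / (2 + (u.1 + u.2) * I)) = JJ i j x y := by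
  obtain ⟨k, rfl⟩ : ∃ k, i = k + 1 := ⟨i - 1, by omega⟩
  obtain ⟨m, rfl⟩ : ∃ m, j = m + 1 := ⟨j - 1, by omega⟩
  exact U09_main (by omega) (by omega) x y

end LU
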