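import Pool.Agent.Lib.MP_0f5a55_nt.V.V26
import Pool.Agent.Lib.MP_0f5a55_nt.V.V40
import Pool.Agent.Lib.MP_0f5a55_nt.V.V46
import Pool.Agent.Lib.MP_0f5a55_nt.U.T05
import Pool.Agent.Lib.MP_0f5a55_nt.U.U01

open Complex MeasureTheory Set Filter Topology
open scoped ComplexConjugate

namespace LU

open LZ (nS EE ER)

variable {N : ℕ} [NeZero N]

private lemma U10_cpow {n : ℕ} (hn : 0 < n) (a : ℂ) : (n : ℂ) ^ a = exp ((Real.log n : ℂ) * a) := by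
  have hx : (0 : ℝ) < (n : ℝ) := by exact_mod_cast hn
  have h : ((n : ℝ) : ℂ) ^ a = exp ((Real.log n : ℂ) * a) := by
    rw [cpow_def_of_ne_zero (by exact_mod_cast hx.ne'), ofReal_log hx.le]
  simpa using h

/-- the character values -/
private lemma U10_char (χ ψ : DirichletCharacter ℂ N) {h k : ℕ} (hh : h.Coprime N)
    (hk : k.Coprime N) :
    χ (h : ZMod N) * ψ (k : ZMod N) * (χ ((k / Nat.gcd h k : ℕ) : ZMod N) *
        ψ ((h / Nat.gcd h k : ℕ) : ZMod N)) =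
      (χ * ψ) (h : ZMod N) * (χ * ψ) (k : ZMod N) * (χ * ψ)⁻¹ ((Nat.gcd h k : ℕ) : ZMod N) ∧
    χ (h : ZMod N) * ψ (k : ZMod N) * (χ⁻¹ ((h / Nat.gcd h k : ℕ) : ZMod N) *
        ψ⁻¹ ((k / Nat.gcd h k : ℕ) : ZMod N)) =
      (1 : DirichletCharacter ℂ N) (h : ZMod N) * (1 : DirichletCharacter ℂ N) (k : ZMod N) *
        (χ * ψ) ((Nat.gcd h k : ℕ) : ZMod N) := by
  set g := Nat.gcd h k with hg
  have hgh : g ∣ h := Nat.gcd_dvd_left h k
  have hgk : g ∣ k := Nat.gcd_dvd_right h k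
  have h1 : h = g * (h / g) := (Nat.mul_div_cancel' hgh).symm
  have k1 : k = g * (k / g) := (Nat.mul_div_cancel' hgk).symm
  have hgq : g.Coprime N := Nat.Coprime.coprime_dvd_left hgh hh
  have hh' : (h / g).Coprime N := Nat.Coprime.coprime_dvd_left (Nat.div_dvd_of_dvd hgh) hh
  have hk' : (k / g).Coprime N := Nat.Coprime.coprime_dvd_left (Nat.div_dvd_of_dvd hgk) hk
  have e : ∀ θ : DirichletCharacter ℂ N, θ (h : ZMod N) = θ (g : ZMod N) * θ ((h / g : ℕ) : ZMod N) := by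
    intro θ
    conv_lhs => rw [h1]
    rw [Nat.cast_mul, map_mul]
  have e' : ∀ θ : DirichletCharacter ℂ N, θ (k : ZMod N) = θ (g : ZMod N) * θ ((k / g : ℕ) : ZMod N) := by
    intro θ
    conv_lhs => rw [k1]
    rw [Nat.cast_mul, map_mul]
  have c1 := LX.char_mul_inv (χ * ψ) hgq
  have c2 := LX.char_mul_inv χ hh'
  have c3 := LX.char_mul_inv ψ hk'
  have u1 : (1 : DirichletCharacter ℂ N) (h : ZMod N) = 1 :=
    MulChar.one_apply ((ZMod.isUnit_iff_coprime h N).mpr hh)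
  have u2 : (1 : DirichletCharacter ℂ N) (k : ZMod N) = 1 :=
    MulChar.one_apply ((ZMod.isUnit_iff_coprime k N).mpr hk)
  have m : ∀ x : ZMod N, (χ * ψ) x = χ x * ψ x := fun x => MulChar.mul_apply χ ψ x
  constructor
  · rw [e (χ * ψ), e' (χ * ψ), e χ, e' ψ]
    calc χ (g : ZMod N) * χ ((h / g : ℕ) : ZMod N) * (ψ (g : ZMod N) * ψ ((k / g : ℕ) : ZMod N)) *
          (χ ((k / g : ℕ) : ZMod N) * ψ ((h / g : ℕ) : ZMod N)) =
        (χ (g : ZMod N) * ψ (g : ZMod N)) * (χ ((h / g : ℕ) : ZMod N) * ψ ((h / g : ℕ) : ZMod N)) *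
          (χ ((k / g : ℕ) : ZMod N) * ψ ((k / g : ℕ) : ZMod N)) := by ring
      _ = (χ * ψ) (g : ZMod N) * (χ * ψ) ((h / g : ℕ) : ZMod N) * (χ * ψ) ((k / g : ℕ) : ZMod N) *
          ((χ * ψ) (g : ZMod N) * (χ * ψ)⁻¹ (g : ZMod N)) := by rw [c1, m, m, m, mul_one]
      _ = _ := by ring
  · rw [u1, u2, e χ, e' ψ, m]
    calc χ (g : ZMod N) * χ ((h / g : ℕ) : ZMod N) * (ψ (g : ZMod N) * ψ ((k / g : ℕ) : ZMod N)) *
          (χ⁻¹ ((h / g : ℕ) : ZMod N) * ψ⁻¹ ((k / g : ℕ) : ZMod N)) =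
        (χ (g : ZMod N) * ψ (g : ZMod N)) * (χ ((h / g : ℕ) : ZMod N) * χ⁻¹ ((h / g : ℕ) : ZMod N)) *
          (ψ ((k / g : ℕ) : ZMod N) * ψ⁻¹ ((k / g : ℕ) : ZMod N)) := by ring
      _ = _ := by rw [c2, c3]; ring

/-- the term of one pair -/
private lemma U10_term (χ ψ : DirichletCharacter ℂ N) (T : ℝ) (c₁ c₂ : ℂ) {h k : ℕ} (hh0 : 0 < h)
    (hk0 : 0 < k) (hh : h.Coprime N) (hk : k.Coprime N) (α β : ℂ) :
    (c₁ * c₂ * (χ (h : ZMod N) * ψ (k : ZMod N)) * ((h : ℂ) ^ (-(1/2) : ℂ) * (k : ℂ) ^ (-(1/2) : ℂ))) *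
        LP.mainT χ ψ T α β h k =
      LX.Lf (χ * ψ) (1 + (α + β)) * (c₁ * c₂ * ((χ * ψ) (h : ZMod N) * (χ * ψ) (k : ZMod N) *
        (χ * ψ)⁻¹ ((Nat.gcd h k : ℕ) : ZMod N)) * ((h : ℂ) ^ (-1 - β) *
        (k : ℂ) ^ (-1 - α) * ((Nat.gcd h k : ℕ) : ℂ) ^ (1 + (β + α)))) +
      (N : ℂ)⁻¹ * ((2 * Real.pi / (N * T) : ℝ) : ℂ) ^ (α + β) * LP.AC χ ψ (α + β) *
        (c₁ * c₂ * ((1 : DirichletCharacter ℂ N) (h : ZMod N) * (1 : DirichletCharacter ℂ N) (k : ZMod N) *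
        (χ * ψ) ((Nat.gcd h k : ℕ) : ZMod N)) * ((h : ℂ) ^ (-1 - (-α)) * (k : ℂ) ^ (-1 - (-β)) *
        ((Nat.gcd h k : ℕ) : ℂ) ^ (1 + (-α + -β)))) := by
  obtain ⟨hc1, hc2⟩ := U10_char χ ψ hh hk
  rw [← hc1, ← hc2]
  unfold LP.mainT
  set g := Nat.gcd h k with hg
  have hg0 : 0 < g := Nat.gcd_pos_of_pos_left _ hh0
  have hgh : g ∣ h := Nat.gcd_dvd_left _ _
  have hgk : g ∣ k := Nat.gcd_dvd_right _ _
  have hhg : 0 < h / g := Nat.div_pos (Nat.le_of_dvd hh0 hgh) hg0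
  have hkg : 0 < k / g := Nat.div_pos (Nat.le_of_dvd hk0 hgk) hg0
  have hgR : (g : ℝ) ≠ 0 := by exact_mod_cast hg0.ne'
  have l1 : Real.log ((h / g : ℕ) : ℝ) = Real.log h - Real.log g := by
    rw [Nat.cast_div hgh hgR, Real.log_div (by exact_mod_cast hh0.ne') hgR]
  have l2 : Real.log ((k / g : ℕ) : ℝ) = Real.log k - Real.log g := by
    rw [Nat.cast_div hgk hgR, Real.log_div (by exact_mod_cast hk0.ne') hgR]
  simp only [U10_cpow hh0, U10_cpow hk0, U10_cpow hg0, U10_cpow hhg, U10_cpow hkg, l1, l2, ofReal_sub]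
  set L0 : ℂ := (Real.log h : ℂ)
  set L1 : ℂ := (Real.log k : ℂ)
  set G : ℂ := (Real.log g : ℂ)
  have i1 : exp (L0 * (-(1/2))) * exp (L1 * (-(1/2))) * (exp ((L0 - G) * (-1/2 - β)) *
        exp ((L1 - G) * (-1/2 - α))) =
      exp (L0 * (-1 - β)) * exp (L1 * (-1 - α)) * exp (G * (1 + (β + α))) := by
    simp only [← exp_add]
    congr 1
    ring
  have i2 : exp (L0 * (-(1/2))) * exp (L1 * (-(1/2))) * (exp ((L0 - G) * (-1/2 + α)) *
        exp ((L1 - G) * (-1/2 + β))) =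
      exp (L0 * (-1 - (-α))) * exp (L1 * (-1 - (-β))) * exp (G * (1 + (-α + -β))) := by
    simp only [← exp_add]
    congr 1
    ring
  linear_combination (LX.Lf (χ * ψ) (1 + (α + β)) * (c₁ * c₂ * (χ (h : ZMod N) * ψ (k : ZMod N) *
      (χ ((k / g : ℕ) : ZMod N) * ψ ((h / g : ℕ) : ZMod N))))) * i1 +
    ((N : ℂ)⁻¹ * ((2 * Real.pi / (N * T) : ℝ) : ℂ) ^ (α + β) * LP.AC χ ψ (α + β) *
      (c₁ * c₂ * (χ (h : ZMod N) * ψ (k : ZMod N) * (χ⁻¹ ((h / g : ℕ) : ZMod N) *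
        ψ⁻¹ ((k / g : ℕ) : ZMod N))))) * i2

/-- as LS.mean_main, V26 main_alg; sum of the errors <= exp(201 l/100) T^(-199/200) + 8 exp(151 l/100) T^(-3/4) -/
theorem mean_main (χ ψ : DirichletCharacter ℂ N) (i j : ℕ) (hi : 1 ≤ i) (hj : 1 ≤ j) (U B : ℝ) (hU : 0 ≤ U) (hB : 0 ≤ B) :
    ∃ C T0 : ℝ, 0 < C ∧ 2 ≤ T0 ∧ ∀ T : ℝ, T0 ≤ T → ∀ l : ℝ, 0 < l → l ≤ 49/100 * Real.log T + B →
    ∀ α β : ℂ, |α.re| ≤ 1/1000 → |β.re| ≤ 1/1000 → |α.im| ≤ U → |β.im| ≤ U → α + β ≠ 0 →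
    ‖EE T (XI χ ψ i j l α β) -
      (LX.Lf (χ * ψ) (1 + (α + β)) * SS (χ * ψ) (χ * ψ)⁻¹ i j ⌊Real.exp l⌋₊ l β α +
        (N : ℂ)⁻¹ * ((2 * Real.pi / (N * T) : ℝ) : ℂ) ^ (α + β) * LP.AC χ ψ (α + β) *
          SS 1 (χ * ψ) i j ⌊Real.exp l⌋₊ l (-α) (-β))‖ ≤
      C * (1 + 1 / ‖α + β‖) * T ^ (-(1/200) : ℝ) := by
  obtain ⟨C, T1, hC, hT1, htsm⟩ := LT2.tsm3 χ ψ U hU
  obtain ⟨C1, hC10, hC1⟩ := LP.per_pol (fun a : ZMod N => χ a)
  obtain ⟨C2, hC20, hC2⟩ := LP.per_pol (fun a : ZMod N => ψ a)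
  have hCz1 : ∀ s : ℂ, 5/16 ≤ s.re → 1/4 ≤ ‖s - 1‖ → ‖LX.Lf χ s‖ ≤ (C1 + C2) * (1 + |s.im|) := by
    intro s h1 h2
    refine (hC1 s h1 h2).trans ?_
    exact mul_le_mul_of_nonneg_right (by linarith) (by positivity)
  have hCz2 : ∀ s : ℂ, 5/16 ≤ s.re → 1/4 ≤ ‖s - 1‖ → ‖LX.Lf ψ s‖ ≤ (C1 + C2) * (1 + |s.im|) := by
    intro s h1 h2
    refine (hC2 s h1 h2).trans ?_
    exact mul_le_mul_of_nonneg_right (by linarith) (by positivity)
  refine ⟨C * (Real.exp (201/100 * B) + 8 * Real.exp (151/100 * B)), max T1 (Real.exp (2 * B)), by positivity,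
    hT1.trans (le_max_left _ _), ?_⟩
  intro T hT l hl hlT α β hα hβ hαi hβi hαβ
  have hTT1 : T1 ≤ T := (le_max_left _ _).trans hT
  have hTpos : 0 < T := by linarith
  have hlogB : 2 * B ≤ Real.log T := by
    rw [Real.le_log_iff_exp_le hTpos]
    exact (le_max_right _ _).trans hT
  have hlog0 : 0 ≤ Real.log T := by linarith
  obtain ⟨_, hfi2, hfi3, hfi4⟩ := cf_facts i l hl
  obtain ⟨_, hfj2, hfj3, hfj4⟩ := cf_facts j l hl
  set z : ℕ := ⌊Real.exp l⌋₊ with hz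
  set P := (LX.PQ N z).powerset ×ˢ (LX.PQ N z).powerset with hP
  set a : Finset ℕ × Finset ℕ → ℂ := fun S =>
    (cf i l S.1 : ℂ) * (cf j l S.2 : ℂ) * (χ (nS S.1 : ℕ) * ψ (nS S.2 : ℕ)) *
      ((nS S.1 : ℂ) ^ (-(1/2) : ℂ) * (nS S.2 : ℂ) ^ (-(1/2) : ℂ)) with ha
  set f : Finset ℕ × Finset ℕ → ℝ → ℂ := fun S t =>
    LX.Lf χ (1/2 + α + t * I) * LX.Lf ψ (1/2 + β - t * I) *
      ((nS S.1 : ℂ) ^ (-(t * I)) * (nS S.2 : ℂ) ^ (t * I)) with hf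
  have hmem : ∀ S ∈ P, S.1 ∈ (LX.PQ N z).powerset ∧ S.2 ∈ (LX.PQ N z).powerset := by
    intro S hS
    exact Finset.mem_product.mp hS
  have hnpos : ∀ S ∈ P, 1 ≤ nS S.1 ∧ 1 ≤ nS S.2 := fun S hS =>
    ⟨LX.nS_pos' (hmem S hS).1, LX.nS_pos' (hmem S hS).2⟩
  have hX : XI χ ψ i j l α β = fun t => ∑ S ∈ P, a S * f S t := by
    funext t
    unfold XI Mo
    rw [Finset.sum_mul_sum, ← Finset.sum_product', Finset.mul_sum]
    refine Finset.sum_congr rfl fun S hS => ?_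
    have h1 := (hnpos S hS).1
    have h2 := (hnpos S hS).2
    have n1 : (nS S.1 : ℂ) ≠ 0 := by exact_mod_cast (by omega : nS S.1 ≠ 0)
    have n2 : (nS S.2 : ℂ) ≠ 0 := by exact_mod_cast (by omega : nS S.2 ≠ 0)
    have e1 : (nS S.1 : ℂ) ^ (-(1/2 + t * I : ℂ)) = (nS S.1 : ℂ) ^ (-(1/2) : ℂ) * (nS S.1 : ℂ) ^ (-(t * I) : ℂ) := by
      rw [← Complex.cpow_add _ _ n1]
      congr 1
      ring
    have e2 : (nS S.2 : ℂ) ^ (-(1/2 - t * I : ℂ)) = (nS S.2 : ℂ) ^ (-(1/2) : ℂ) * (nS S.2 : ℂ) ^ (t * I : ℂ) := by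
      rw [← Complex.cpow_add _ _ n2]
      congr 1
      ring
    simp only [ha, hf]
    rw [e1, e2]
    ring
  have hint : ∀ S ∈ P, IntegrableOn (fun t : ℝ => f S t * (Real.exp (-t / T) : ℂ)) (Ioi (0:ℝ)) := by
    intro S hS
    exact LP.C04_integrable χ ψ (C1 + C2) hCz1 hCz2 (by linarith) U hU α β (hα.trans (by norm_num))
      (hβ.trans (by norm_num)) hαi hβi _ _ (hnpos S hS).1 (hnpos S hS).2 T hTpos
  have hEE : EE T (XI χ ψ i j l α β) = ∑ S ∈ P, a S * EE T (f S) := by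
    rw [hX]
    unfold EE
    have h1 : ∀ t : ℝ, (∑ S ∈ P, a S * f S t) * (Real.exp (-t / T) : ℂ) =
        ∑ S ∈ P, a S * (f S t * (Real.exp (-t / T) : ℂ)) := by
      intro t
      rw [Finset.sum_mul]
      refine Finset.sum_congr rfl fun S _ => by ring
    simp_rw [h1]
    rw [integral_finsetSum]
    · rw [Finset.mul_sum]
      refine Finset.sum_congr rfl fun S _ => ?_
      rw [integral_const_mul]
      ring
    · intro S hS
      exact (hint S hS).const_mul _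
  have hmain : ∑ S ∈ P, a S * LP.mainT χ ψ T α β (nS S.1) (nS S.2) =
      LX.Lf (χ * ψ) (1 + (α + β)) * SS (χ * ψ) (χ * ψ)⁻¹ i j z l β α +
        (N : ℂ)⁻¹ * ((2 * Real.pi / (N * T) : ℝ) : ℂ) ^ (α + β) * LP.AC χ ψ (α + β) *
          SS 1 (χ * ψ) i j z l (-α) (-β) := by
    unfold SS
    rw [Finset.mul_sum, Finset.mul_sum, ← Finset.sum_add_distrib]
    refine Finset.sum_congr rfl fun S hS => ?_
    exact U10_term χ ψ T (cf i l S.1) (cf j l S.2) (LX.nS_pos' (hmem S hS).1) (LX.nS_pos' (hmem S hS).2)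
      (LX.nS_coprime (hmem S hS).1) (LX.nS_coprime (hmem S hS).2) α β
  rw [hEE, ← hmain, ← Finset.sum_sub_distrib]
  have hD0 : 0 ≤ C * (1 + 1 / ‖α + β‖) := by positivity
  have hK1 : 0 ≤ T ^ (-(199/200) : ℝ) := Real.rpow_nonneg hTpos.le _
  have hK2 : 0 ≤ T ^ (-(3/4) : ℝ) := Real.rpow_nonneg hTpos.le _
  have hterm : ∀ S ∈ P, ‖a S * EE T (f S) - a S * LP.mainT χ ψ T α β (nS S.1) (nS S.2)‖ ≤
      C * (1 + 1 / ‖α + β‖) * ((|cf i l S.1| * (nS S.1 : ℝ) ^ (1/200 : ℝ) * (|cf j l S.2| * (nS S.2 : ℝ) ^ (1/200 : ℝ))) *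
          T ^ (-(199/200) : ℝ) +
        (|cf i l S.1| * (nS S.1 : ℝ) ^ (-(1/2) : ℝ) * (|cf j l S.2| * (nS S.2 : ℝ) ^ (-(1/2) : ℝ))) *
          (2 * Real.exp (51/100 * l) * T ^ (-(3/4) : ℝ))) := by
    intro S hS
    obtain ⟨h1, h2⟩ := hnpos S hS
    obtain ⟨hm1, hm2⟩ := hmem S hS
    have r1 : (0 : ℝ) < nS S.1 := by exact_mod_cast h1
    have r2 : (0 : ℝ) < nS S.2 := by exact_mod_cast h2
    rw [← mul_sub, norm_mul]
    have hna : ‖a S‖ ≤ |cf i l S.1| * |cf j l S.2| * ((nS S.1 : ℝ) ^ (-(1/2) : ℝ) * (nS S.2 : ℝ) ^ (-(1/2) : ℝ)) := by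
      simp only [ha]
      rw [norm_mul, norm_mul, norm_mul, norm_mul, norm_mul, Complex.norm_real, Complex.norm_real, Real.norm_eq_abs,
        Real.norm_eq_abs, Complex.norm_natCast_cpow_of_pos (by omega), Complex.norm_natCast_cpow_of_pos (by omega)]
      have t3 : ‖χ (nS S.1 : ℕ)‖ ≤ 1 := χ.norm_le_one _
      have t4 : ‖ψ (nS S.2 : ℕ)‖ ≤ 1 := ψ.norm_le_one _
      have t5 : ‖χ (nS S.1 : ℕ)‖ * ‖ψ (nS S.2 : ℕ)‖ ≤ 1 := mul_le_one₀ t3 (norm_nonneg _) t4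
      have t7 : 0 ≤ |cf i l S.1| * |cf j l S.2| := by positivity
      have e0 : (-(1/2) : ℂ).re = (-(1/2) : ℝ) := by simp
      rw [e0]
      refine mul_le_mul_of_nonneg_right ?_ (by positivity)
      calc |cf i l S.1| * |cf j l S.2| * (‖χ (nS S.1 : ℕ)‖ * ‖ψ (nS S.2 : ℕ)‖)
          ≤ |cf i l S.1| * |cf j l S.2| * 1 := mul_le_mul_of_nonneg_left t5 t7
        _ = _ := mul_one _
    by_cases hzero : |cf i l S.1| * |cf j l S.2| = 0
    · have h0 : ‖a S‖ = 0 := le_antisymm (hna.trans (by rw [hzero, zero_mul])) (norm_nonneg _)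
      rw [h0, zero_mul]
      have := Real.exp_pos (51/100 * l)
      positivity
    · have hne1 : cf i l S.1 ≠ 0 := fun h => hzero (by rw [h]; simp)
      have hne2 : cf j l S.2 ≠ 0 := fun h => hzero (by rw [h]; simp)
      have hle1 := (hfi2 N z hi S.1 hm1 hne1).2
      have hle2 := (hfj2 N z hj S.2 hm2 hne2).2
      have hexpT : Real.exp l ≤ T := by
        calc Real.exp l ≤ Real.exp (Real.log T) := by
              apply Real.exp_le_exp.mpr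
              linarith
          _ = T := Real.exp_log hTpos
      have ht := htsm T hTT1 (nS S.1) (nS S.2) h1 h2 (hle1.trans hexpT) (hle2.trans hexpT)
        (LX.nS_coprime hm1) (LX.nS_coprime hm2) α β hα hβ hαi hβi hαβ
      have hsplit : ((nS S.1 : ℝ) * (nS S.2 : ℝ)) ^ (101/200 : ℝ) =
          (nS S.1 : ℝ) ^ (101/200 : ℝ) * (nS S.2 : ℝ) ^ (101/200 : ℝ) := Real.mul_rpow r1.le r2.le
      have hp1 : (nS S.1 : ℝ) ^ (-(1/2) : ℝ) * (nS S.1 : ℝ) ^ (101/200 : ℝ) = (nS S.1 : ℝ) ^ (1/200 : ℝ) := by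
        rw [← Real.rpow_add r1]; norm_num
      have hp2 : (nS S.2 : ℝ) ^ (-(1/2) : ℝ) * (nS S.2 : ℝ) ^ (101/200 : ℝ) = (nS S.2 : ℝ) ^ (1/200 : ℝ) := by
        rw [← Real.rpow_add r2]; norm_num
      have hsum : ((nS S.1 : ℝ) + (nS S.2 : ℝ)) ^ (51/100 : ℝ) ≤ 2 * Real.exp (51/100 * l) := by
        have q1 : (nS S.1 : ℝ) + (nS S.2 : ℝ) ≤ 2 * Real.exp l := by linarith
        calc ((nS S.1 : ℝ) + (nS S.2 : ℝ)) ^ (51/100 : ℝ) ≤ (2 * Real.exp l) ^ (51/100 : ℝ) :=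
              Real.rpow_le_rpow (by positivity) q1 (by norm_num)
          _ = 2 ^ (51/100 : ℝ) * (Real.exp l) ^ (51/100 : ℝ) := Real.mul_rpow (by norm_num) (Real.exp_pos l).le
          _ ≤ 2 * Real.exp (51/100 * l) := by
              have q2 : (2 : ℝ) ^ (51/100 : ℝ) ≤ 2 := by
                calc (2 : ℝ) ^ (51/100 : ℝ) ≤ 2 ^ (1 : ℝ) :=
                      Real.rpow_le_rpow_of_exponent_le (by norm_num) (by norm_num)
                  _ = 2 := Real.rpow_one 2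
              have q3 : (Real.exp l) ^ (51/100 : ℝ) = Real.exp (51/100 * l) := by
                rw [← Real.exp_mul]; congr 1; ring
              rw [q3]
              exact mul_le_mul_of_nonneg_right q2 (Real.exp_pos _).le
      have hfS : ‖EE T (f S) - LP.mainT χ ψ T α β (nS S.1) (nS S.2)‖ ≤
          C * (1 + 1 / ‖α + β‖) * ((nS S.1 : ℝ) ^ (101/200 : ℝ) * (nS S.2 : ℝ) ^ (101/200 : ℝ) * T ^ (-(199/200) : ℝ) +
            2 * Real.exp (51/100 * l) * T ^ (-(3/4) : ℝ)) := by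
        refine ht.trans (mul_le_mul_of_nonneg_left ?_ hD0)
        rw [hsplit]
        have := mul_le_mul_of_nonneg_right hsum hK2
        linarith
      have hc0 : 0 ≤ |cf i l S.1| * |cf j l S.2| * ((nS S.1 : ℝ) ^ (-(1/2) : ℝ) * (nS S.2 : ℝ) ^ (-(1/2) : ℝ)) := by
        positivity
      calc _ ≤ |cf i l S.1| * |cf j l S.2| * ((nS S.1 : ℝ) ^ (-(1/2) : ℝ) * (nS S.2 : ℝ) ^ (-(1/2) : ℝ)) *
            (C * (1 + 1 / ‖α + β‖) * ((nS S.1 : ℝ) ^ (101/200 : ℝ) * (nS S.2 : ℝ) ^ (101/200 : ℝ) * T ^ (-(199/200) : ℝ) +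
            2 * Real.exp (51/100 * l) * T ^ (-(3/4) : ℝ))) :=
            mul_le_mul hna hfS (norm_nonneg _) hc0
        _ = _ := by
            rw [← hp1, ← hp2]
            ring
  refine (norm_sum_le _ _).trans ((Finset.sum_le_sum hterm).trans ?_)
  rw [← Finset.mul_sum, Finset.sum_add_distrib, ← Finset.sum_mul, ← Finset.sum_mul]
  have hsum1 : ∑ S ∈ P, |cf i l S.1| * (nS S.1 : ℝ) ^ (1/200 : ℝ) * (|cf j l S.2| * (nS S.2 : ℝ) ^ (1/200 : ℝ)) ≤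
      Real.exp (201/100 * l) := by
    rw [hP, Finset.sum_product]
    simp only
    rw [← Finset.sum_mul_sum]
    have h1 := hfi3 N hi (1/200) (by norm_num) z
    have h2 := hfj3 N hj (1/200) (by norm_num) z
    have h0 : 0 ≤ ∑ S ∈ (LX.PQ N z).powerset, |cf j l S| * (nS S : ℝ) ^ (1/200 : ℝ) :=
      Finset.sum_nonneg fun S _ => by positivity
    calc _ ≤ Real.exp ((1 + 1/200) * l) * Real.exp ((1 + 1/200) * l) := mul_le_mul h1 h2 h0 (Real.exp_pos _).le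
      _ = _ := by rw [← Real.exp_add]; congr 1; ring
  have hsum2 : ∑ S ∈ P, |cf i l S.1| * (nS S.1 : ℝ) ^ (-(1/2) : ℝ) * (|cf j l S.2| * (nS S.2 : ℝ) ^ (-(1/2) : ℝ)) ≤
      4 * Real.exp l := by
    rw [hP, Finset.sum_product]
    simp only
    rw [← Finset.sum_mul_sum]
    have h1 := hfi4 N hi z
    have h2 := hfj4 N hj z
    have h0 : 0 ≤ ∑ S ∈ (LX.PQ N z).powerset, |cf j l S| * (nS S : ℝ) ^ (-(1/2) : ℝ) :=
      Finset.sum_nonneg fun S _ => by positivity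
    calc _ ≤ (2 * Real.exp (l / 2)) * (2 * Real.exp (l / 2)) :=
          mul_le_mul h1 h2 h0 (by have := Real.exp_pos (l / 2); positivity)
      _ = 4 * (Real.exp (l / 2) * Real.exp (l / 2)) := by ring
      _ = _ := by rw [← Real.exp_add]; congr 2; ring
  have hfin1 : Real.exp (201/100 * l) * T ^ (-(199/200) : ℝ) ≤ Real.exp (201/100 * B) * T ^ (-(1/200) : ℝ) := by
    rw [Real.rpow_def_of_pos hTpos, Real.rpow_def_of_pos hTpos, ← Real.exp_add, ← Real.exp_add]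
    apply Real.exp_le_exp.mpr
    nlinarith
  have hfin2 : Real.exp (151/100 * l) * T ^ (-(3/4) : ℝ) ≤ Real.exp (151/100 * B) * T ^ (-(1/200) : ℝ) := by
    rw [Real.rpow_def_of_pos hTpos, Real.rpow_def_of_pos hTpos, ← Real.exp_add, ← Real.exp_add]
    apply Real.exp_le_exp.mpr
    nlinarith
  have hE : 4 * Real.exp l * (2 * Real.exp (51/100 * l) * T ^ (-(3/4) : ℝ)) =
      8 * (Real.exp (151/100 * l) * T ^ (-(3/4) : ℝ)) := by
    have : Real.exp l * Real.exp (51/100 * l) = Real.exp (151/100 * l) := by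
      rw [← Real.exp_add]; congr 1; ring
    rw [← this]; ring
  have hlast : (∑ S ∈ P, |cf i l S.1| * (nS S.1 : ℝ) ^ (1/200 : ℝ) * (|cf j l S.2| * (nS S.2 : ℝ) ^ (1/200 : ℝ))) *
          T ^ (-(199/200) : ℝ) +
        (∑ S ∈ P, |cf i l S.1| * (nS S.1 : ℝ) ^ (-(1/2) : ℝ) * (|cf j l S.2| * (nS S.2 : ℝ) ^ (-(1/2) : ℝ))) *
          (2 * Real.exp (51/100 * l) * T ^ (-(3/4) : ℝ)) ≤
      (Real.exp (201/100 * B) + 8 * Real.exp (151/100 * B)) * T ^ (-(1/200) : ℝ) := by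
    have q1 := mul_le_mul_of_nonneg_right hsum1 hK1
    have q2 : (∑ S ∈ P, |cf i l S.1| * (nS S.1 : ℝ) ^ (-(1/2) : ℝ) * (|cf j l S.2| * (nS S.2 : ℝ) ^ (-(1/2) : ℝ))) *
          (2 * Real.exp (51/100 * l) * T ^ (-(3/4) : ℝ)) ≤
          4 * Real.exp l * (2 * Real.exp (51/100 * l) * T ^ (-(3/4) : ℝ)) :=
      mul_le_mul_of_nonneg_right hsum2 (by have := Real.exp_pos (51/100 * l); positivity)
    rw [hE] at q2
    linarith
  calc C * (1 + 1 / ‖α + β‖) * _ ≤ C * (1 + 1 / ‖α + β‖) *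
        ((Real.exp (201/100 * B) + 8 * Real.exp (151/100 * B)) * T ^ (-(1/200) : ℝ)) :=
        mul_le_mul_of_nonneg_left hlast hD0
    _ = _ := by ring

end LU
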