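import Pool.Agent.Lib.MP_0f5a55_nt.V.V07
import Pool.Agent.Lib.MP_0f5a55_nt.U.U00

open Complex MeasureTheory Set Filter Topology
open scoped ComplexConjugate

namespace LU

open LZ (nS EE ER)

variable {N : ℕ} [NeZero N]

private theorem U11_Sf (χ ψ : DirichletCharacter ℂ N) (h : χ * ψ = 1) :
    LP.Sf χ ψ = (Nat.totient N : ℂ) := by
  unfold LP.Sf
  calc ∑ a : ZMod N, χ a * ψ a = ∑ a : ZMod N, (1 : DirichletCharacter ℂ N) a := by
        refine Finset.sum_congr rfl fun a _ => ?_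
        rw [← h, MulChar.mul_apply]
    _ = (Fintype.card (ZMod N)ˣ : ℂ) := MulChar.sum_one_eq_card_units
    _ = _ := by rw [ZMod.card_units_eq_totient]

/-- AC chi chi^-1 eta = -(phi(N) Gamma(1-eta))/eta + JF, JF bounded (V07 JF_bound) -/
theorem AC_lim (χ ψ : DirichletCharacter ℂ N) (h : χ * ψ = 1) :
    Tendsto (fun η : ℂ => η * ((N : ℂ)⁻¹ * LP.AC χ ψ η)) (𝓝[≠] 0) (𝓝 (-((Nat.totient N : ℂ) / N))) := by
  obtain ⟨C, hC, hJ⟩ := LP.JF_bound (fun a : ZMod N => χ a) (fun a : ZMod N => ψ a)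
  have h1 : Tendsto (fun η : ℂ => Gamma (1 - η)) (𝓝[≠] 0) (𝓝 1) := by
    have h2 : ContinuousAt (fun η : ℂ => Gamma (1 - η)) 0 := by
      have h3 : ContinuousAt Gamma (1 - 0 : ℂ) := by
        rw [sub_zero]
        exact (differentiableAt_Gamma 1 (fun m => by
          intro h4
          have h5 := congrArg Complex.re h4
          simp at h5
          have : (0:ℝ) ≤ m := Nat.cast_nonneg m
          linarith)).continuousAt
      exact ContinuousAt.comp (f := fun η : ℂ => 1 - η) (g := Gamma) h3 (by fun_prop)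
    have h6 := h2.tendsto
    simp only [sub_zero, Gamma_one] at h6
    exact h6.mono_left nhdsWithin_le_nhds
  have h2 : Tendsto (fun η : ℂ => η * LP.JF (fun a : ZMod N => χ a) (fun a : ZMod N => ψ a) η) (𝓝[≠] 0) (𝓝 0) := by
    rw [tendsto_zero_iff_norm_tendsto_zero]
    have h3 : Tendsto (fun η : ℂ => ‖η‖ * C) (𝓝[≠] 0) (𝓝 0) := by
      have h4 : Tendsto (fun η : ℂ => ‖η‖ * C) (𝓝 0) (𝓝 (‖(0:ℂ)‖ * C)) :=
        Continuous.tendsto (by fun_prop) 0
      rw [norm_zero, zero_mul] at h4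
      exact h4.mono_left nhdsWithin_le_nhds
    refine squeeze_zero' (Filter.Eventually.of_forall fun _ => norm_nonneg _) ?_ h3
    have h5 : ∀ᶠ η : ℂ in 𝓝[≠] 0, ‖η‖ < 1/8 := by
      apply nhdsWithin_le_nhds
      have : Metric.ball (0:ℂ) (1/8) ∈ 𝓝 (0:ℂ) := Metric.ball_mem_nhds 0 (by norm_num)
      filter_upwards [this] with η hη
      simpa using hη
    filter_upwards [h5] with η hη
    rw [norm_mul]
    exact mul_le_mul_of_nonneg_left (hJ.2 η ((abs_re_le_norm η).trans hη.le)) (norm_nonneg _)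
  have h3 : Tendsto (fun η : ℂ => (N : ℂ)⁻¹ * (-((Nat.totient N : ℂ) * Gamma (1 - η)) +
      η * LP.JF (fun a : ZMod N => χ a) (fun a : ZMod N => ψ a) η)) (𝓝[≠] 0)
      (𝓝 ((N : ℂ)⁻¹ * (-((Nat.totient N : ℂ) * 1) + 0))) :=
    ((h1.const_mul _).neg.add h2).const_mul _
  have h4 : (N : ℂ)⁻¹ * (-((Nat.totient N : ℂ) * 1) + 0) = -((Nat.totient N : ℂ) / N) := by
    rw [div_eq_mul_inv]; ring
  rw [h4] at h3
  refine h3.congr' ?_
  filter_upwards [self_mem_nhdsWithin] with η hη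
  have hη0 : η ≠ 0 := hη
  rw [LP.AC, U11_Sf χ ψ h]
  field_simp

end LU
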