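import Pool.Agent.Lib.MP_0f5a55_nt.V.V40
import Pool.Agent.Lib.MP_0f5a55_nt.U.U06
import Pool.Agent.Lib.MP_0f5a55_nt.U.U09
import Pool.Agent.Lib.MP_0f5a55_nt.U.U10
import Pool.Agent.Lib.MP_0f5a55_nt.U.U11

open Complex MeasureTheory Set Filter Topology
open scoped ComplexConjugate

namespace LU

open LZ (nS EE ER)

variable {N : ℕ} [NeZero N]

private lemma U12_x {a : ℂ} (ha : ‖a‖ ≤ 3/2) : ‖49/100 * a‖ ≤ 3/4 := by
  have h1 : ‖(49/100 : ℂ)‖ = 49/100 := by norm_num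
  rw [norm_mul, h1]
  linarith

private lemma U12_nx {a : ℂ} (ha : ‖a‖ ≤ 3/2) : ‖-(49/100 * a)‖ ≤ 3/4 := by
  rw [norm_neg]; exact U12_x ha

/-- scaling of the arguments -/
private lemma U12_sc (L : ℝ) (hL : 0 < L) (a : ℂ) : a / (L : ℂ) = (49/100 * a) / ((49/100 * L : ℝ) : ℂ) := by
  have h : (L : ℂ) ≠ 0 := ofReal_ne_zero.2 hL.ne'
  push_cast
  field_simp

private lemma U12_nsc (L : ℝ) (hL : 0 < L) (a : ℂ) : -(a / (L : ℂ)) = (-(49/100 * a)) / ((49/100 * L : ℝ) : ℂ) := by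
  rw [U12_sc L hL, neg_div]

private lemma U12_M1 (ρ κ : DirichletCharacter ℂ N) (i j : ℕ) (L : ℝ) (hL : 0 < L) (a b : ℂ) :
    LX.Lf ρ (1 + (a / L + b / L)) * SS ρ κ i j ⌊Real.exp (49/100 * L)⌋₊ (49/100 * L) (b / L) (a / L) =
      LX.Lf ρ (1 + (a + b) / L) / L * (100/49 * (((49/100 * L : ℝ) : ℂ) *
        SS ρ κ i j ⌊Real.exp (49/100 * L)⌋₊ (49/100 * L) ((49/100 * b) / ((49/100 * L : ℝ) : ℂ))
          ((49/100 * a) / ((49/100 * L : ℝ) : ℂ)))) := by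
  have h : (L : ℂ) ≠ 0 := ofReal_ne_zero.2 hL.ne'
  rw [← U12_sc L hL, ← U12_sc L hL, ← add_div]
  generalize LX.Lf ρ (1 + (a + b) / L) = Z
  generalize SS ρ κ i j ⌊Real.exp (49/100 * L)⌋₊ (49/100 * L) (b / L) (a / L) = W
  push_cast
  field_simp

private lemma U12_M2 (χ ψ ρ κ : DirichletCharacter ℂ N) (i j : ℕ) (L x : ℝ) (hL : 0 < L) (a b : ℂ) (hab : a + b ≠ 0) :
    (N : ℂ)⁻¹ * (x : ℂ) ^ (a / L + b / L) * LP.AC χ ψ (a / L + b / L) *
        SS ρ κ i j ⌊Real.exp (49/100 * L)⌋₊ (49/100 * L) (-(a / L)) (-(b / L)) =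
      (x : ℂ) ^ ((a + b) / L) * ((a + b) / L * ((N : ℂ)⁻¹ * LP.AC χ ψ ((a + b) / L))) *
        (100/49 / (a + b) * (((49/100 * L : ℝ) : ℂ) *
        SS ρ κ i j ⌊Real.exp (49/100 * L)⌋₊ (49/100 * L) ((-(49/100 * a)) / ((49/100 * L : ℝ) : ℂ))
          ((-(49/100 * b)) / ((49/100 * L : ℝ) : ℂ)))) := by
  have h : (L : ℂ) ≠ 0 := ofReal_ne_zero.2 hL.ne'
  rw [← U12_nsc L hL, ← U12_nsc L hL, ← add_div]
  generalize (x : ℂ) ^ ((a + b) / L) = Z
  generalize SS ρ κ i j ⌊Real.exp (49/100 * L)⌋₊ (49/100 * L) (-(a / L)) (-(b / L)) = W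
  generalize LP.AC χ ψ ((a + b) / L) = V
  push_cast
  field_simp

/-- mean_main at T/kap -/
private lemma U12_err (χ ψ : DirichletCharacter ℂ N) (h : χ * ψ = 1) (i j : ℕ) (hi : 2 ≤ i) (hj : 2 ≤ j)
    (κ : ℝ) (hκ : 1 ≤ κ) (δ : ℝ) (hδ : 0 < δ) : ∃ C T0 : ℝ, 0 < C ∧ 2 ≤ T0 ∧ ∀ T : ℝ, T0 ≤ T → ∀ a b : ℂ,
    ‖a‖ ≤ 3/2 → ‖b‖ ≤ 3/2 → δ ≤ ‖a + b‖ →
    ‖EE (T / κ) (XI χ ψ i j (49/100 * Real.log T) (a / Real.log T) (b / Real.log T)) -
      (LX.Lf (1 : DirichletCharacter ℂ N) (1 + (a / Real.log T + b / Real.log T)) *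
        SS (1 : DirichletCharacter ℂ N) 1 i j ⌊Real.exp (49/100 * Real.log T)⌋₊ (49/100 * Real.log T)
          (b / Real.log T) (a / Real.log T) +
      (N : ℂ)⁻¹ * ((2 * Real.pi / (N * (T / κ)) : ℝ) : ℂ) ^ (a / Real.log T + b / Real.log T) *
        LP.AC χ ψ (a / Real.log T + b / Real.log T) *
        SS (1 : DirichletCharacter ℂ N) 1 i j ⌊Real.exp (49/100 * Real.log T)⌋₊ (49/100 * Real.log T)
          (-(a / Real.log T)) (-(b / Real.log T)))‖ ≤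
      C * (1 + Real.log T) * (T / κ) ^ (-(1/200) : ℝ) := by
  have hk0 : 0 < κ := by linarith
  have hlk : 0 ≤ Real.log κ := Real.log_nonneg hκ
  obtain ⟨C, T1, hC, hT1, hmm⟩ := mean_main χ ψ i j (by omega) (by omega) 1 (49/100 * Real.log κ)
    (by norm_num) (by positivity)
  refine ⟨C * (1 + 1 / δ), max 2 (max (κ * T1) (Real.exp 1500)), by positivity, le_max_left _ _, ?_⟩
  intro T hT a b ha hb hd
  have hT2 : 2 ≤ T := (le_max_left _ _).trans hT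
  have hTk : κ * T1 ≤ T := ((le_max_left _ _).trans (le_max_right _ _)).trans hT
  have hTe : Real.exp 1500 ≤ T := ((le_max_right _ _).trans (le_max_right _ _)).trans hT
  have hT0 : 0 < T := by linarith
  have hL : 1500 ≤ Real.log T := by
    rw [← Real.log_exp 1500]
    exact Real.log_le_log (Real.exp_pos _) hTe
  have hL0 : 0 < Real.log T := by linarith
  have hT1' : T1 ≤ T / κ := by
    rw [le_div_iff₀ hk0]
    linarith
  have hl : 49/100 * Real.log T ≤ 49/100 * Real.log (T / κ) + 49/100 * Real.log κ := by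
    rw [Real.log_div hT0.ne' hk0.ne']
    linarith
  have hsmall : ∀ c : ℂ, ‖c‖ ≤ 3/2 → ‖c / (Real.log T : ℂ)‖ ≤ 1/1000 := by
    intro c hc
    rw [norm_div, Complex.norm_real, Real.norm_of_nonneg hL0.le, div_le_iff₀ hL0]
    linarith
  have hab : a + b ≠ 0 := by
    intro h
    rw [h, norm_zero] at hd
    linarith
  have hab0 : 0 < ‖a + b‖ := by linarith
  have hLc : (Real.log T : ℂ) ≠ 0 := ofReal_ne_zero.2 hL0.ne'
  have hne : a / (Real.log T : ℂ) + b / (Real.log T : ℂ) ≠ 0 := by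
    rw [← add_div]
    exact div_ne_zero hab hLc
  have hm := hmm (T / κ) hT1' (49/100 * Real.log T) (by positivity) hl (a / Real.log T) (b / Real.log T)
    ((abs_re_le_norm _).trans (hsmall a ha)) ((abs_re_le_norm _).trans (hsmall b hb))
    ((abs_im_le_norm _).trans ((hsmall a ha).trans (by norm_num)))
    ((abs_im_le_norm _).trans ((hsmall b hb).trans (by norm_num))) hne
  rw [h, inv_one] at hm
  refine hm.trans ?_
  have h1 : 1 + 1 / ‖a / (Real.log T : ℂ) + b / (Real.log T : ℂ)‖ ≤ (1 + 1 / δ) * (1 + Real.log T) := by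
    rw [← add_div, norm_div, Complex.norm_real, Real.norm_of_nonneg hL0.le, one_div_div]
    have h2 : Real.log T / ‖a + b‖ ≤ 1 / δ * Real.log T := by
      rw [div_eq_mul_one_div, mul_comm]
      gcongr
    have h3 : 0 < 1 / δ := by positivity
    nlinarith
  have h2 : 0 ≤ (T / κ) ^ (-(1/200) : ℝ) := by positivity
  calc C * (1 + 1 / ‖a / (Real.log T : ℂ) + b / (Real.log T : ℂ)‖) * (T / κ) ^ (-(1/200) : ℝ)
      ≤ C * ((1 + 1 / δ) * (1 + Real.log T)) * (T / κ) ^ (-(1/200) : ℝ) := by gcongr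
    _ = _ := by ring

private lemma U12_errlim (κ C : ℝ) (hκ : 1 ≤ κ) :
    Tendsto (fun T : ℝ => C * (1 + Real.log T) * (T / κ) ^ (-(1/200) : ℝ)) atTop (𝓝 0) := by
  have hk0 : 0 < κ := by linarith
  have h1 : Tendsto (fun T : ℝ => T ^ (-(1/200) : ℝ)) atTop (𝓝 0) :=
    tendsto_rpow_neg_atTop (by norm_num)
  have h2 : Tendsto (fun T : ℝ => Real.log T * T ^ (-(1/200) : ℝ)) atTop (𝓝 0) := by
    have h3 := (isLittleO_log_rpow_atTop (r := 1/200) (by norm_num)).tendsto_div_nhds_zero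
    refine h3.congr' ?_
    filter_upwards [eventually_gt_atTop 0] with T hT
    rw [Real.rpow_neg hT.le, div_eq_mul_inv]
  have h4 : Tendsto (fun T : ℝ => C * κ ^ ((1/200) : ℝ) * (T ^ (-(1/200) : ℝ) + Real.log T * T ^ (-(1/200) : ℝ)))
      atTop (𝓝 (C * κ ^ ((1/200) : ℝ) * (0 + 0))) := (h1.add h2).const_mul _
  rw [add_zero, mul_zero] at h4
  refine h4.congr' ?_
  filter_upwards [eventually_gt_atTop 0] with T hT
  rw [Real.div_rpow hT.le hk0.le, Real.rpow_neg hk0.le, div_inv_eq_mul]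
  ring

private lemma U12_log (κ : ℝ) (hκ : 1 ≤ κ) (T : ℝ) (hT : 0 < T) :
    0 < 2 * Real.pi / (N * (T / κ)) ∧
    Real.log (2 * Real.pi / (N * (T / κ))) = Real.log (2 * Real.pi * κ / N) - Real.log T := by
  have hk0 : 0 < κ := by linarith
  have hpi := Real.pi_pos
  have hN : (0 : ℝ) < N := by exact_mod_cast Nat.pos_of_ne_zero (NeZero.ne N)
  refine ⟨by positivity, ?_⟩
  rw [show 2 * Real.pi / (N * (T / κ)) = 2 * Real.pi * κ / N / T by field_simp, Real.log_div (by positivity) hT.ne']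

private lemma U12_pow (κ : ℝ) (hκ : 1 ≤ κ) (c : ℂ) :
    Tendsto (fun T : ℝ => ((2 * Real.pi / (N * (T / κ)) : ℝ) : ℂ) ^ (c / Real.log T)) atTop (𝓝 (exp (-c))) := by
  have h1 : Tendsto (fun T : ℝ => (Real.log (2 * Real.pi * κ / N) : ℝ) * (Real.log T)⁻¹ - 1) atTop
      (𝓝 (Real.log (2 * Real.pi * κ / N) * 0 - 1)) :=
    ((tendsto_inv_atTop_zero.comp Real.tendsto_log_atTop).const_mul _).sub tendsto_const_nhds
  rw [mul_zero, zero_sub] at h1
  have h2 : Tendsto (fun T : ℝ => (((Real.log (2 * Real.pi * κ / N) : ℝ) * (Real.log T)⁻¹ - 1 : ℝ) : ℂ)) atTop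
      (𝓝 ((-1 : ℝ) : ℂ)) := (continuous_ofReal.tendsto _).comp h1
  have h3 : Tendsto (fun T : ℝ => exp ((((Real.log (2 * Real.pi * κ / N) : ℝ) * (Real.log T)⁻¹ - 1 : ℝ) : ℂ) * c))
      atTop (𝓝 (exp (((-1 : ℝ) : ℂ) * c))) := (continuous_exp.tendsto _).comp (h2.mul_const c)
  have h4 : ((-1 : ℝ) : ℂ) * c = -c := by push_cast; ring
  rw [h4] at h3
  refine h3.congr' ?_
  filter_upwards [eventually_gt_atTop 1] with T hT
  have hT0 : 0 < T := by linarith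
  have hL0 : 0 < Real.log T := Real.log_pos hT
  have hLc : (Real.log T : ℂ) ≠ 0 := ofReal_ne_zero.2 hL0.ne'
  obtain ⟨hx, h5⟩ := U12_log (N := N) κ hκ T hT0
  rw [cpow_def_of_ne_zero (ofReal_ne_zero.2 hx.ne'), ← ofReal_log hx.le]
  congr 1
  rw [h5]
  push_cast
  field_simp

/-- as LS.mean_lim -/
theorem mean_lim_diag (χ ψ : DirichletCharacter ℂ N) (h : χ * ψ = 1) (i j : ℕ) (hi : 2 ≤ i) (hj : 2 ≤ j)
    (κ : ℝ) (hκ : 1 ≤ κ) (a b : ℂ) (ha : ‖a‖ ≤ 3/2) (hb : ‖b‖ ≤ 3/2) (hab : a + b ≠ 0) :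
    Tendsto (fun T : ℝ => EE (T / κ) (XI χ ψ i j (49/100 * Real.log T) (a / Real.log T) (b / Real.log T))) atTop
      (𝓝 (XL i j a b)) := by
  obtain ⟨C, T0, hC, hT0, herr⟩ := U12_err χ ψ h i j hi hj κ hκ ‖a + b‖ (norm_pos_iff.2 hab)
  have hlog := Real.tendsto_log_atTop
  have hl : Tendsto (fun T : ℝ => 49/100 * Real.log T) atTop atTop :=
    hlog.const_mul_atTop (by norm_num)
  have hNc : (N : ℂ) ≠ 0 := by exact_mod_cast NeZero.ne N
  have hφ : (Nat.totient N : ℂ) ≠ 0 := by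
    have := Nat.totient_pos.2 (Nat.pos_of_ne_zero (NeZero.ne N))
    exact_mod_cast this.ne'
  have e1 : Tendsto (fun T : ℝ => LX.Lf (1 : DirichletCharacter ℂ N) (1 + (a + b) / Real.log T) / Real.log T) atTop
      (𝓝 ((Nat.totient N : ℂ) / N / (a + b))) :=
    (P_lim N (a + b) hab).comp hlog
  have e2 : Tendsto (fun T : ℝ => ((49/100 * Real.log T : ℝ) : ℂ) *
        SS (1 : DirichletCharacter ℂ N) 1 i j ⌊Real.exp (49/100 * Real.log T)⌋₊ (49/100 * Real.log T)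
          ((49/100 * b) / ((49/100 * Real.log T : ℝ) : ℂ))
          ((49/100 * a) / ((49/100 * Real.log T : ℝ) : ℂ))) atTop
          (𝓝 ((N : ℂ) / Nat.totient N * JJ i j (49/100 * b) (49/100 * a))) := by
    have h := (SS_lim_diag N i j hi hj (49/100 * b) (49/100 * a) (U12_x hb) (U12_x ha)).comp hl
    rw [J_eval i j hi hj] at h
    exact h
  have e3 : Tendsto (fun T : ℝ => ((49/100 * Real.log T : ℝ) : ℂ) *
        SS (1 : DirichletCharacter ℂ N) 1 i j ⌊Real.exp (49/100 * Real.log T)⌋₊ (49/100 * Real.log T)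
          ((-(49/100 * a)) / ((49/100 * Real.log T : ℝ) : ℂ))
          ((-(49/100 * b)) / ((49/100 * Real.log T : ℝ) : ℂ))) atTop
          (𝓝 ((N : ℂ) / Nat.totient N * JJ i j (-(49/100 * a)) (-(49/100 * b)))) := by
    have h := (SS_lim_diag N i j hi hj (-(49/100 * a)) (-(49/100 * b)) (U12_nx ha) (U12_nx hb)).comp hl
    rw [J_eval i j hi hj] at h
    exact h
  have e4 : Tendsto (fun T : ℝ => (a + b) / (Real.log T : ℂ) * ((N : ℂ)⁻¹ * LP.AC χ ψ ((a + b) / Real.log T)))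
      atTop (𝓝 (-((Nat.totient N : ℂ) / N))) := by
    refine (AC_lim χ ψ h).comp (g := fun η : ℂ => η * ((N : ℂ)⁻¹ * LP.AC χ ψ η))
      (f := fun T : ℝ => (a + b) / (Real.log T : ℂ)) ?_
    refine tendsto_nhdsWithin_iff.2 ⟨?_, ?_⟩
    · have h3 : Tendsto (fun T : ℝ => ((Real.log T)⁻¹ : ℝ)) atTop (𝓝 0) := tendsto_inv_atTop_zero.comp hlog
      have h5 : Tendsto (fun T : ℝ => (((Real.log T)⁻¹ : ℝ) : ℂ)) atTop (𝓝 ((0 : ℝ) : ℂ)) :=
        (continuous_ofReal.tendsto _).comp h3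
      have h4 : Tendsto (fun T : ℝ => (a + b) * (((Real.log T)⁻¹ : ℝ) : ℂ)) atTop (𝓝 ((a + b) * ((0 : ℝ) : ℂ))) :=
        h5.const_mul _
      rw [ofReal_zero, mul_zero] at h4
      refine h4.congr fun T => ?_
      rw [ofReal_inv, div_eq_mul_inv]
    · filter_upwards [eventually_gt_atTop 1] with T hT
      exact div_ne_zero hab (ofReal_ne_zero.2 (Real.log_pos hT).ne')
  have e5 := U12_pow (N := N) κ hκ (a + b)
  have m1 := e1.mul (e2.const_mul (100/49 : ℂ))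
  have m2 := (e5.mul e4).mul (e3.const_mul (100/49 / (a + b) : ℂ))
  have m := m1.add m2
  have hXL : (Nat.totient N : ℂ) / N / (a + b) *
        (100/49 * ((N : ℂ) / Nat.totient N * JJ i j (49/100 * b) (49/100 * a))) +
      exp (-(a + b)) * -((Nat.totient N : ℂ) / N) *
        (100/49 / (a + b) * ((N : ℂ) / Nat.totient N * JJ i j (-(49/100 * a)) (-(49/100 * b)))) = XL i j a b := by
    unfold XL
    generalize JJ i j (49/100 * b) (49/100 * a) = J1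
    generalize JJ i j (-(49/100 * a)) (-(49/100 * b)) = J2
    generalize exp (-(a + b)) = E
    field_simp
    ring
  rw [hXL] at m
  have hd : Tendsto (fun T : ℝ => EE (T / κ) (XI χ ψ i j (49/100 * Real.log T) (a / Real.log T) (b / Real.log T)) -
      (LX.Lf (1 : DirichletCharacter ℂ N) (1 + (a / Real.log T + b / Real.log T)) *
        SS (1 : DirichletCharacter ℂ N) 1 i j ⌊Real.exp (49/100 * Real.log T)⌋₊ (49/100 * Real.log T)
          (b / Real.log T) (a / Real.log T) +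
      (N : ℂ)⁻¹ * ((2 * Real.pi / (N * (T / κ)) : ℝ) : ℂ) ^ (a / Real.log T + b / Real.log T) *
        LP.AC χ ψ (a / Real.log T + b / Real.log T) *
        SS (1 : DirichletCharacter ℂ N) 1 i j ⌊Real.exp (49/100 * Real.log T)⌋₊ (49/100 * Real.log T)
          (-(a / Real.log T)) (-(b / Real.log T)))) atTop
      (𝓝 0) := by
    refine squeeze_zero_norm' ?_ (U12_errlim κ C hκ)
    filter_upwards [eventually_ge_atTop T0] with T hT
    exact herr T hT a b ha hb le_rfl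
  have hs := hd.add m
  rw [zero_add] at hs
  refine hs.congr' ?_
  filter_upwards [eventually_gt_atTop 1] with T hT
  have hL0 : 0 < Real.log T := Real.log_pos hT
  rw [U12_M1 1 1 i j _ hL0 a b, U12_M2 χ ψ 1 1 i j _ _ hL0 a b hab]
  ring

/-- as LS.mean_bdd -/
theorem mean_bdd_diag (χ ψ : DirichletCharacter ℂ N) (h : χ * ψ = 1) (i j : ℕ) (hi : 2 ≤ i) (hj : 2 ≤ j)
    (κ : ℝ) (hκ : 1 ≤ κ) (δ : ℝ) (hδ : 0 < δ) : ∃ C T0 : ℝ, 0 < C ∧ 2 ≤ T0 ∧ ∀ T : ℝ, T0 ≤ T → ∀ a b : ℂ,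
    ‖a‖ ≤ 3/2 → ‖b‖ ≤ 3/2 → δ ≤ ‖a + b‖ →
    ‖EE (T / κ) (XI χ ψ i j (49/100 * Real.log T) (a / Real.log T) (b / Real.log T))‖ ≤ C := by
  have hk0 : 0 < κ := by linarith
  obtain ⟨C, T1, hC, hT1, herr⟩ := U12_err χ ψ h i j hi hj κ hκ δ hδ
  obtain ⟨Cs, l0, hCs, hl0, hSS⟩ := SS_bdd_diag N i j hi hj
  obtain ⟨Cz, hCz, hzA⟩ := (LP.AC_bounds (N := N)).1 χ ψ 1 zero_le_one
  obtain ⟨T2, hT2⟩ := eventually_atTop.1 ((U12_errlim κ C hκ).eventually (eventually_le_nhds (zero_lt_one)))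
  have hN1 : ‖(N : ℂ)⁻¹‖ ≤ 1 := by
    rw [norm_inv, Complex.norm_natCast]
    refine inv_le_one_of_one_le₀ ?_
    exact_mod_cast Nat.pos_of_ne_zero (NeZero.ne N)
  set P : ℝ := Real.exp (3 * |Real.log (2 * Real.pi * κ / N)| + 3) with hP
  have hP0 : 0 < P := Real.exp_pos _
  set D : ℝ := 1 + 1 / δ with hD
  have hD0 : 0 < D := by positivity
  refine ⟨1 + Cz * D * (100/49 * Cs) + P * (Cz * D) * (100/49 * Cs),
    max (max T1 T2) (max (Real.exp 1500) (Real.exp (100/49 * l0))), by positivity,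
    hT1.trans ((le_max_left _ _).trans (le_max_left _ _)), ?_⟩
  intro T hT a b ha hb hd
  have hTT1 : T1 ≤ T := ((le_max_left _ _).trans (le_max_left _ _)).trans hT
  have hTT2 : T2 ≤ T := ((le_max_right _ _).trans (le_max_left _ _)).trans hT
  have hTe : Real.exp 1500 ≤ T := ((le_max_left _ _).trans (le_max_right _ _)).trans hT
  have hTl : Real.exp (100/49 * l0) ≤ T := ((le_max_right _ _).trans (le_max_right _ _)).trans hT
  have hT0 : 0 < T := by linarith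
  have he := herr T hTT1 a b ha hb hd
  have he1 : C * (1 + Real.log T) * (T / κ) ^ (-(1/200) : ℝ) ≤ 1 := hT2 T hTT2
  obtain ⟨hx, h5⟩ := U12_log (N := N) κ hκ T hT0
  have hL : 1500 ≤ Real.log T := by
    rw [← Real.log_exp 1500]
    exact Real.log_le_log (Real.exp_pos _) hTe
  have hLl' : 100/49 * l0 ≤ Real.log T := by
    rw [← Real.log_exp (100/49 * l0)]
    exact Real.log_le_log (Real.exp_pos _) hTl
  generalize hLdef : Real.log T = L at *
  have hL0 : 0 < L := by linarith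
  have hLl : l0 ≤ 49/100 * L := by linarith
  have hab0 : 0 < ‖a + b‖ := by linarith
  have hab : a + b ≠ 0 := norm_pos_iff.1 hab0
  have hab5 : ‖a + b‖ ≤ 3 := (norm_add_le _ _).trans (by linarith)
  have hLc : (L : ℂ) ≠ 0 := ofReal_ne_zero.2 hL0.ne'
  have hne : (a + b) / (L : ℂ) ≠ 0 := div_ne_zero hab hLc
  have hnorm : ‖(a + b) / (L : ℂ)‖ = ‖a + b‖ / L := by
    rw [norm_div, Complex.norm_real, Real.norm_of_nonneg hL0.le]
  have hsm : ‖(a + b) / (L : ℂ)‖ ≤ 1/8 := by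
    rw [hnorm, div_le_iff₀ hL0]
    linarith
  obtain ⟨hz, hA⟩ := hzA ((a + b) / L) ((abs_re_le_norm _).trans hsm)
    ((abs_im_le_norm _).trans (hsm.trans (by norm_num))) hne
  rw [h] at hz
  have h1 : 1 + 1 / ‖(a + b) / (L : ℂ)‖ ≤ D * L := by
    rw [hnorm, one_div_div, hD]
    have h2 : L / ‖a + b‖ ≤ 1 / δ * L := by
      rw [div_eq_mul_one_div, mul_comm]
      gcongr
    linarith
  have hz' : ‖LX.Lf (1 : DirichletCharacter ℂ N) (1 + (a + b) / L) / L‖ ≤ Cz * D := by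
    rw [norm_div, Complex.norm_real, Real.norm_of_nonneg hL0.le, div_le_iff₀ hL0]
    calc _ ≤ Cz * (1 + 1 / ‖(a + b) / (L : ℂ)‖) := hz
      _ ≤ Cz * (D * L) := by gcongr
      _ = _ := by ring
  have hA' : ‖(a + b) / (L : ℂ) * ((N : ℂ)⁻¹ * LP.AC χ ψ ((a + b) / L)) * (1 / (a + b))‖ ≤ Cz * D := by
    rw [norm_mul, norm_mul, norm_mul, hnorm, norm_div, norm_one]
    have h6 : ‖LP.AC χ ψ ((a + b) / L)‖ / L ≤ Cz * D := by
      rw [div_le_iff₀ hL0]
      calc _ ≤ Cz * (1 + 1 / ‖(a + b) / (L : ℂ)‖) := hA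
        _ ≤ Cz * (D * L) := by gcongr
        _ = _ := by ring
    calc ‖a + b‖ / L * (‖(N : ℂ)⁻¹‖ * ‖LP.AC χ ψ ((a + b) / L)‖) * (1 / ‖a + b‖)
        = ‖(N : ℂ)⁻¹‖ * (‖LP.AC χ ψ ((a + b) / L)‖ / L) := by field_simp
      _ ≤ 1 * (Cz * D) := by gcongr
      _ = Cz * D := one_mul _
  have hS1 := hSS (49/100 * L) hLl (49/100 * b) (49/100 * a) (U12_x hb) (U12_x ha)
  have hS2 := hSS (49/100 * L) hLl (-(49/100 * a)) (-(49/100 * b)) (U12_nx ha) (U12_nx hb)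
  have hpow : ‖((2 * Real.pi / (N * (T / κ)) : ℝ) : ℂ) ^ ((a + b) / (L : ℂ))‖ ≤ P := by
    rw [Complex.norm_cpow_eq_rpow_re_of_pos hx, Real.rpow_def_of_pos hx, hP]
    apply Real.exp_le_exp.mpr
    rw [h5, div_ofReal_re]
    have h6 : |(a + b).re| ≤ 3 := (abs_re_le_norm _).trans hab5
    have h7 : (Real.log (2 * Real.pi * κ / N) - L) * ((a + b).re / L) ≤
        |Real.log (2 * Real.pi * κ / N) - L| * (3 / L) := by
      refine (le_abs_self _).trans ?_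
      rw [abs_mul, abs_div, abs_of_pos hL0]
      gcongr
    have h8 : |Real.log (2 * Real.pi * κ / N) - L| ≤ |Real.log (2 * Real.pi * κ / N)| + L := by
      refine (abs_sub _ _).trans ?_
      rw [abs_of_pos hL0]
    have h9 : (|Real.log (2 * Real.pi * κ / N)| + L) * (3 / L) ≤ 3 * |Real.log (2 * Real.pi * κ / N)| + 3 := by
      rw [mul_div_assoc', div_le_iff₀ hL0]
      have := abs_nonneg (Real.log (2 * Real.pi * κ / N))
      nlinarith
    refine h7.trans (le_trans ?_ h9)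
    gcongr
  rw [U12_M1 1 1 i j L hL0 a b, U12_M2 χ ψ 1 1 i j L _ hL0 a b hab] at he
  set E := EE (T / κ) (XI χ ψ i j (49/100 * L) (a / L) (b / L)) with hE
  set S1 := (((49/100 * L : ℝ) : ℂ) * SS (1 : DirichletCharacter ℂ N) 1 i j ⌊Real.exp (49/100 * L)⌋₊ (49/100 * L)
          ((49/100 * b) / ((49/100 * L : ℝ) : ℂ))
          ((49/100 * a) / ((49/100 * L : ℝ) : ℂ))) with hS1d
  set S2 := (((49/100 * L : ℝ) : ℂ) * SS (1 : DirichletCharacter ℂ N) 1 i j ⌊Real.exp (49/100 * L)⌋₊ (49/100 * L)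
          ((-(49/100 * a)) / ((49/100 * L : ℝ) : ℂ))
          ((-(49/100 * b)) / ((49/100 * L : ℝ) : ℂ))) with hS2d
  have hc : ‖(100/49 : ℂ)‖ = 100/49 := by norm_num
  have hM1 : ‖LX.Lf (1 : DirichletCharacter ℂ N) (1 + (a + b) / L) / L * (100/49 * S1)‖ ≤
      Cz * D * (100/49 * Cs) := by
    rw [norm_mul, norm_mul, hc]
    gcongr
  have hM2 : ‖((2 * Real.pi / (N * (T / κ)) : ℝ) : ℂ) ^ ((a + b) / (L : ℂ)) *
      ((a + b) / L * ((N : ℂ)⁻¹ * LP.AC χ ψ ((a + b) / L))) * (100/49 / (a + b) * S2)‖ ≤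
      P * (Cz * D) * (100/49 * Cs) := by
    have hrw : ((2 * Real.pi / (N * (T / κ)) : ℝ) : ℂ) ^ ((a + b) / (L : ℂ)) *
      ((a + b) / L * ((N : ℂ)⁻¹ * LP.AC χ ψ ((a + b) / L))) * (100/49 / (a + b) * S2) =
      ((2 * Real.pi / (N * (T / κ)) : ℝ) : ℂ) ^ ((a + b) / (L : ℂ)) *
      ((a + b) / L * ((N : ℂ)⁻¹ * LP.AC χ ψ ((a + b) / L)) * (1 / (a + b))) * (100/49 * S2) := by ring
    rw [hrw, norm_mul, norm_mul, norm_mul (100/49 : ℂ), hc]
    gcongr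
  have hfin := norm_add_le (E - (LX.Lf (1 : DirichletCharacter ℂ N) (1 + (a + b) / L) / L * (100/49 * S1) +
    ((2 * Real.pi / (N * (T / κ)) : ℝ) : ℂ) ^ ((a + b) / (L : ℂ)) *
      ((a + b) / L * ((N : ℂ)⁻¹ * LP.AC χ ψ ((a + b) / L))) * (100/49 / (a + b) * S2)))
    (LX.Lf (1 : DirichletCharacter ℂ N) (1 + (a + b) / L) / L * (100/49 * S1) +
    ((2 * Real.pi / (N * (T / κ)) : ℝ) : ℂ) ^ ((a + b) / (L : ℂ)) *
      ((a + b) / L * ((N : ℂ)⁻¹ * LP.AC χ ψ ((a + b) / L))) * (100/49 / (a + b) * S2))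
  rw [sub_add_cancel] at hfin
  have h12 := norm_add_le (LX.Lf (1 : DirichletCharacter ℂ N) (1 + (a + b) / L) / L * (100/49 * S1))
    (((2 * Real.pi / (N * (T / κ)) : ℝ) : ℂ) ^ ((a + b) / (L : ℂ)) *
      ((a + b) / L * ((N : ℂ)⁻¹ * LP.AC χ ψ ((a + b) / L))) * (100/49 / (a + b) * S2))
  linarith

end LU
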