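import Pool.Agent.Lib.MP_0f5a55_nt.V.V40
import Pool.Agent.Lib.MP_0f5a55_nt.U.U07
import Pool.Agent.Lib.MP_0f5a55_nt.U.U08
import Pool.Agent.Lib.MP_0f5a55_nt.U.U10

open Complex MeasureTheory Set Filter Topology
open scoped ComplexConjugate

namespace LU

open LZ (nS EE ER)

variable {N : ℕ} [NeZero N]

private theorem U13_x {a : ℂ} (ha : ‖a‖ ≤ 3/2) : ‖(49/100 * a : ℂ)‖ ≤ 3/4 := by
  rw [norm_mul]
  norm_num
  linarith

private theorem U13_div (a : ℂ) {L : ℝ} (hL : 0 < L) :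
    (49/100 * a : ℂ) / ((49/100 * L : ℝ) : ℂ) = a / L := by
  have : (L : ℂ) ≠ 0 := by exact_mod_cast hL.ne'
  push_cast
  field_simp

/-- the base power is bounded -/
private theorem U13_pow (N : ℕ) [NeZero N] {κ : ℝ} (hκ : 1 ≤ κ) : ∃ C : ℝ, 0 < C ∧ ∀ T : ℝ, 3 ≤ T → ∀ η : ℂ,
    |η.re| ≤ 3 / Real.log T → ‖((2 * Real.pi / (N * (T / κ)) : ℝ) : ℂ) ^ η‖ ≤ C := by
  have hN : (0:ℝ) < N := by exact_mod_cast Nat.pos_of_ne_zero (NeZero.ne N)
  have hκ0 : 0 < κ := by linarith
  set D : ℝ := |Real.log (2 * Real.pi)| + |Real.log N| + |Real.log κ| with hD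
  have hD0 : 0 ≤ D := by positivity
  refine ⟨Real.exp (3 + 3 * D), Real.exp_pos _, fun T hT η hη => ?_⟩
  have hT0 : 0 < T := by linarith
  have hL1 : 1 ≤ Real.log T := by
    rw [Real.le_log_iff_exp_le hT0]
    have := Real.exp_one_lt_d9
    linarith
  have hL0 : 0 < Real.log T := by linarith
  have hb : 0 < 2 * Real.pi / (N * (T / κ)) := by positivity
  rw [norm_cpow_eq_rpow_re_of_pos hb, Real.rpow_def_of_pos hb]
  apply Real.exp_le_exp.2
  have h1 : Real.log (2 * Real.pi / (N * (T / κ))) = Real.log (2 * Real.pi) - (Real.log N + (Real.log T - Real.log κ)) := by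
    have e1 : Real.log (N * (T / κ)) = Real.log N + Real.log (T / κ) := Real.log_mul hN.ne' (by positivity)
    have e2 : Real.log (T / κ) = Real.log T - Real.log κ := Real.log_div hT0.ne' hκ0.ne'
    rw [Real.log_div (by positivity) (by positivity), e1, e2]
  have h2 : |Real.log (2 * Real.pi / (N * (T / κ)))| ≤ Real.log T + D := by
    rw [h1, hD]
    have e1 := abs_le.mp (le_refl |Real.log (2 * Real.pi)|)
    have e2 := abs_le.mp (le_refl |Real.log N|)
    have e3 := abs_le.mp (le_refl |Real.log κ|)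
    rw [abs_le]
    constructor <;> linarith
  have h3 : Real.log (2 * Real.pi / (N * (T / κ))) * η.re ≤ (Real.log T + D) * (3 / Real.log T) := by
    refine (le_abs_self _).trans ?_
    rw [abs_mul]
    exact mul_le_mul h2 hη (abs_nonneg _) (by positivity)
  refine h3.trans ?_
  have h4 : (Real.log T + D) * (3 / Real.log T) = 3 + 3 * D / Real.log T := by
    field_simp
  rw [h4]
  have h5 : 3 * D / Real.log T ≤ 3 * D := div_le_self (by positivity) hL1
  linarith

private theorem U13_err {κ : ℝ} (hκ : 1 ≤ κ) (δ C : ℝ) :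
    Tendsto (fun T : ℝ => C * (1 + Real.log T / δ) * (T / κ) ^ (-(1/200) : ℝ)) atTop (𝓝 0) := by
  have hκ0 : 0 < κ := by linarith
  have h1 : Tendsto (fun T : ℝ => T ^ (-(1/200) : ℝ)) atTop (𝓝 0) := tendsto_rpow_neg_atTop (by norm_num)
  have h2 : Tendsto (fun T : ℝ => Real.log T * T ^ (-(1/200) : ℝ)) atTop (𝓝 0) := by
    have h3 := (isLittleO_log_rpow_atTop (r := 1/200) (by norm_num)).tendsto_div_nhds_zero
    refine h3.congr' ?_
    filter_upwards [eventually_gt_atTop 0] with T hT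
    rw [Real.rpow_neg hT.le, div_eq_mul_inv]
  have h4 : Tendsto (fun T : ℝ => C * κ ^ (1/200 : ℝ) * (T ^ (-(1/200) : ℝ) + δ⁻¹ * (Real.log T * T ^ (-(1/200) : ℝ))))
      atTop (𝓝 (C * κ ^ (1/200 : ℝ) * (0 + δ⁻¹ * 0))) :=
    (h1.add (h2.const_mul _)).const_mul _
  have e : C * κ ^ (1/200 : ℝ) * (0 + δ⁻¹ * 0) = 0 := by ring
  rw [e] at h4
  refine h4.congr' ?_
  filter_upwards [eventually_gt_atTop 0] with T hT
  rw [Real.div_rpow hT.le hκ0.le, Real.rpow_neg hκ0.le (1/200), div_inv_eq_mul]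
  ring

/-- off-diagonal: L(1,xi)/L(1,xi) = 1, dual term -> 0 (AC bounded: V40 AC_bounds) -/
theorem mean_lim_off (χ ψ : DirichletCharacter ℂ N) (h : χ * ψ ≠ 1) (i j : ℕ) (hi : 2 ≤ i) (hj : 2 ≤ j)
    (κ : ℝ) (hκ : 1 ≤ κ) (a b : ℂ) (ha : ‖a‖ ≤ 3/2) (hb : ‖b‖ ≤ 3/2) (hab : a + b ≠ 0) :
    Tendsto (fun T : ℝ => EE (T / κ) (XI χ ψ i j (49/100 * Real.log T) (a / Real.log T) (b / Real.log T))) atTop
      (𝓝 1) := by
  have hκ0 : 0 < κ := by linarith
  set ξ := χ * ψ with hξ
  obtain ⟨hL1, hLl⟩ := Lf_lim ξ h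
  obtain ⟨C, T0, hC, hT0, hmain⟩ := mean_main χ ψ i j (by omega) (by omega) 1 (49/100 * Real.log κ) zero_le_one
    (by have := Real.log_nonneg hκ; positivity)
  obtain ⟨CA, hCA, hAC⟩ := LP.AC_bounds.2.1 χ ψ 3 h (by norm_num)
  obtain ⟨CD, l0, hCD, hl0, hD⟩ := SS_dual_off ξ h i j hi hj
  obtain ⟨CP, hCP, hP⟩ := U13_pow N hκ
  have hlog : Tendsto Real.log atTop atTop := Real.tendsto_log_atTop
  have hlog2 : Tendsto (fun T : ℝ => 49/100 * Real.log T) atTop atTop := hlog.const_mul_atTop (by norm_num)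
  have hTk : Tendsto (fun T : ℝ => T / κ) atTop atTop := tendsto_id.atTop_div_const hκ0
  -- main L factor
  have h1 : Tendsto (fun T : ℝ => LX.Lf ξ (1 + (a / Real.log T + b / Real.log T))) atTop (𝓝 (LX.Lf ξ 1)) := by
    refine ((hLl (a + b)).comp hlog).congr fun T => ?_
    simp only [Function.comp, add_div]
  have h2 : Tendsto (fun T : ℝ => SS ξ ξ⁻¹ i j ⌊Real.exp (49/100 * Real.log T)⌋₊ (49/100 * Real.log T)
      (b / Real.log T) (a / Real.log T)) atTop (𝓝 (LX.Lf ξ 1)⁻¹) := by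
    refine ((SS_lim_off ξ h i j hi hj (49/100 * b) (49/100 * a) (U13_x hb) (U13_x ha)).comp hlog2).congr' ?_
    filter_upwards [hlog.eventually_gt_atTop 0] with T hT
    simp only [Function.comp]
    rw [U13_div b hT, U13_div a hT]
  have h12 := h1.mul h2
  rw [mul_inv_cancel₀ hL1] at h12
  -- dual term
  set Du : ℝ → ℂ := fun T => (N : ℂ)⁻¹ * ((2 * Real.pi / (N * (T / κ)) : ℝ) : ℂ) ^ (a / Real.log T + b / Real.log T : ℂ) *
    LP.AC (fun x => χ x) (fun x => ψ x) (a / Real.log T + b / Real.log T) *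
      SS 1 ξ i j ⌊Real.exp (49/100 * Real.log T)⌋₊ (49/100 * Real.log T) (-(a / Real.log T)) (-(b / Real.log T)) with hDu
  have hre : ∀ T : ℝ, 0 < Real.log T → |(a / Real.log T + b / Real.log T : ℂ).re| ≤ 3 / Real.log T ∧
      |(a / Real.log T + b / Real.log T : ℂ).im| ≤ 3 / Real.log T := by
    intro T hT
    have e1 : ‖(a / Real.log T + b / Real.log T : ℂ)‖ ≤ 3 / Real.log T := by
      rw [← add_div, norm_div, norm_real, Real.norm_eq_abs, abs_of_pos hT]
      gcongr
      exact (norm_add_le _ _).trans (by linarith)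
    exact ⟨(abs_re_le_norm _).trans e1, (abs_im_le_norm _).trans e1⟩
  have h3 : Tendsto Du atTop (𝓝 0) := by
    have hb0 : Tendsto (fun T : ℝ => CP * CA * (CD * (49/100 * Real.log T) ^ (-(1/4) : ℝ))) atTop (𝓝 0) := by
      have := (((tendsto_rpow_neg_atTop (y := 1/4) (by norm_num)).comp hlog2).const_mul CD).const_mul (CP * CA)
      simpa using this
    refine squeeze_zero_norm' ?_ hb0
    filter_upwards [eventually_ge_atTop 3, hlog.eventually_ge_atTop 24, hlog2.eventually_ge_atTop l0] with T hT3 hT24 hTl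
    have hLp : 0 < Real.log T := by linarith
    obtain ⟨hr1, hr2⟩ := hre T hLp
    have e3 : 3 / Real.log T ≤ 1/8 := by
      rw [div_le_iff₀ hLp]
      linarith
    have e4 := hP T hT3 _ hr1
    have e5 := hAC (a / Real.log T + b / Real.log T) (hr1.trans e3) (hr2.trans (e3.trans (by norm_num)))
    have e6 := hD (49/100 * Real.log T) hTl (49/100 * (-a)) (49/100 * (-b)) (U13_x (by rwa [norm_neg]))
      (U13_x (by rwa [norm_neg]))
    rw [U13_div (-a) hLp, U13_div (-b) hLp, neg_div, neg_div] at e6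
    have e7 : ‖(N : ℂ)⁻¹‖ ≤ 1 := by
      rw [norm_inv, norm_natCast]
      apply inv_le_one_of_one_le₀
      exact_mod_cast Nat.pos_of_ne_zero (NeZero.ne N)
    rw [hDu]
    simp only
    rw [norm_mul, norm_mul, norm_mul]
    calc _ ≤ 1 * CP * CA * (CD * (49/100 * Real.log T) ^ (-(1/4) : ℝ)) := by
          gcongr
      _ = _ := by ring
  -- error
  have h4 : Tendsto (fun T : ℝ => EE (T / κ) (XI χ ψ i j (49/100 * Real.log T) (a / Real.log T) (b / Real.log T)) -
      (LX.Lf ξ (1 + (a / Real.log T + b / Real.log T)) * SS ξ ξ⁻¹ i j ⌊Real.exp (49/100 * Real.log T)⌋₊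
        (49/100 * Real.log T) (b / Real.log T) (a / Real.log T) + Du T)) atTop (𝓝 0) := by
    refine squeeze_zero_norm' ?_ (U13_err hκ ‖a + b‖ C)
    filter_upwards [hTk.eventually_ge_atTop T0, hlog.eventually_ge_atTop 1500, eventually_gt_atTop 0] with T hT1 hT2 hT3
    have hLp : 0 < Real.log T := by linarith
    have hsm : ∀ c : ℂ, ‖c‖ ≤ 3/2 → ‖(c / Real.log T : ℂ)‖ ≤ 1/1000 := by
      intro c hc
      rw [norm_div, norm_real, Real.norm_eq_abs, abs_of_pos hLp, div_le_iff₀ hLp]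
      linarith
    have e1 := hsm a ha
    have e2 := hsm b hb
    have e3 := hmain (T / κ) hT1 (49/100 * Real.log T) (by positivity)
      (by
        rw [Real.log_div hT3.ne' hκ0.ne']
        linarith) (a / Real.log T) (b / Real.log T)
      ((abs_re_le_norm _).trans e1) ((abs_re_le_norm _).trans e2)
      ((abs_im_le_norm _).trans (e1.trans (by norm_num))) ((abs_im_le_norm _).trans (e2.trans (by norm_num)))
      (by
        rw [← add_div]
        exact div_ne_zero hab (by exact_mod_cast hLp.ne'))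
    have e4 : 1 / ‖(a / Real.log T + b / Real.log T : ℂ)‖ = Real.log T / ‖a + b‖ := by
      rw [← add_div, norm_div, norm_real, Real.norm_eq_abs, abs_of_pos hLp, one_div_div]
    rw [e4] at e3
    exact e3
  have h5 := h4.add (h12.add h3)
  rw [zero_add, add_zero] at h5
  refine h5.congr fun T => ?_
  ring

end LU
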