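import Pool.Agent.Lib.MP_0f5a55_nt.U.U00

open Complex MeasureTheory Set Filter Topology
open scoped ComplexConjugate

namespace LU

theorem U14_cP (j : ℕ) (hj : j ∈ Finset.Icc 2 9) : cP j = (-1) ^ j * (Nat.choose 8 (j - 1) : ℝ) := by
  rw [Finset.mem_Icc] at hj
  unfold cP
  rw [if_pos hj]

theorem U14_icc : Finset.Icc 2 9 = ({2, 3, 4, 5, 6, 7, 8, 9} : Finset ℕ) := by decide

theorem U14_sum (x y : ℂ) : ∑ i ∈ Finset.Icc 2 9, ∑ j ∈ Finset.Icc 2 9, (cP i : ℂ) * (cP j : ℂ) * JJ i j x y =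
    cA * (x * y) + (x + y) / 2 + cC := by
  have v2 : (cP 2 : ℂ) = 8 := by norm_num [cP, Nat.choose]
  have v3 : (cP 3 : ℂ) = -28 := by norm_num [cP, Nat.choose]
  have v4 : (cP 4 : ℂ) = 56 := by norm_num [cP, Nat.choose]
  have v5 : (cP 5 : ℂ) = -70 := by norm_num [cP, Nat.choose]
  have v6 : (cP 6 : ℂ) = 56 := by norm_num [cP, Nat.choose]
  have v7 : (cP 7 : ℂ) = -28 := by norm_num [cP, Nat.choose]
  have v8 : (cP 8 : ℂ) = 8 := by norm_num [cP, Nat.choose]
  have v9 : (cP 9 : ℂ) = -1 := by norm_num [cP, Nat.choose]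
  have key : ∀ f : ℕ → ℂ, ∑ j ∈ Finset.Icc 2 9, (cP j : ℂ) * f j =
      8 * f 2 - 28 * f 3 + 56 * f 4 - 70 * f 5 + 56 * f 6 - 28 * f 7 + 8 * f 8 - f 9 := by
    intro f
    rw [U14_icc]
    rw [Finset.sum_insert (by decide), Finset.sum_insert (by decide), Finset.sum_insert (by decide),
      Finset.sum_insert (by decide), Finset.sum_insert (by decide), Finset.sum_insert (by decide),
      Finset.sum_insert (by decide), Finset.sum_singleton, v2, v3, v4, v5, v6, v7, v8, v9]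
    ring
  have e : ∑ i ∈ Finset.Icc 2 9, ∑ j ∈ Finset.Icc 2 9, (cP i : ℂ) * (cP j : ℂ) * JJ i j x y =
      ∑ i ∈ Finset.Icc 2 9, (cP i : ℂ) * ∑ j ∈ Finset.Icc 2 9, (cP j : ℂ) * JJ i j x y := by
    refine Finset.sum_congr rfl fun i _ => ?_
    rw [Finset.mul_sum]
    exact Finset.sum_congr rfl fun j _ => by ring
  rw [e, key]
  simp only [key]
  simp only [JJ, cA, cC]
  push_cast
  norm_num
  ring

theorem XL_sum (a b : ℂ) (hab : a + b ≠ 0) :
    ∑ i ∈ Finset.Icc 2 9, ∑ j ∈ Finset.Icc 2 9, (cP i : ℂ) * (cP j : ℂ) * XL i j a b = XP a b := by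
  have e : ∑ i ∈ Finset.Icc 2 9, ∑ j ∈ Finset.Icc 2 9, (cP i : ℂ) * (cP j : ℂ) * XL i j a b =
      100/49 / (a + b) * ((∑ i ∈ Finset.Icc 2 9, ∑ j ∈ Finset.Icc 2 9, (cP i : ℂ) * (cP j : ℂ) *
        JJ i j (49/100 * b) (49/100 * a)) - exp (-(a + b)) * ∑ i ∈ Finset.Icc 2 9, ∑ j ∈ Finset.Icc 2 9,
        (cP i : ℂ) * (cP j : ℂ) * JJ i j (-(49/100 * a)) (-(49/100 * b))) := by
    rw [Finset.mul_sum (s := Finset.Icc 2 9) (a := exp (-(a + b))), ← Finset.sum_sub_distrib, Finset.mul_sum]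
    refine Finset.sum_congr rfl fun i _ => ?_
    rw [Finset.mul_sum (a := exp (-(a + b))), ← Finset.sum_sub_distrib, Finset.mul_sum]
    refine Finset.sum_congr rfl fun j _ => ?_
    unfold XL
    ring
  rw [e, U14_sum, U14_sum]
  unfold XP
  congr 1
  ring

theorem cP_sum : ∑ j ∈ Finset.Icc 2 9, cP j = 1 := by
  rw [U14_icc, Finset.sum_insert (by decide), Finset.sum_insert (by decide), Finset.sum_insert (by decide),
      Finset.sum_insert (by decide), Finset.sum_insert (by decide), Finset.sum_insert (by decide),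
      Finset.sum_insert (by decide), Finset.sum_singleton]
  norm_num [cP, Nat.choose]

/-- Cauchy's formula for the value and the first derivative -/
theorem U14_cauchy {f : ℂ → ℂ} {U : Set ℂ} (hU : IsOpen U) {c : ℂ} (hc : Metric.closedBall c (1/5) ⊆ U)
    (hf : DifferentiableOn ℂ f U) :
    ∫ θ in (0:ℝ)..2 * Real.pi, f (c + 1/5 * exp (θ * I)) * (1 + 26/5 * exp (-(θ * I))) =
      2 * Real.pi * (f c + 26/25 * deriv f c) := by
  have hR : (0:ℝ) < 1/5 := by norm_num
  have hw : c ∈ Metric.ball c (1/5 : ℝ) := Metric.mem_ball_self hR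
  have hpi : (2 * Real.pi * I : ℂ) ≠ 0 := by
    simp [Real.pi_ne_zero]
  have hfc : ContinuousOn f (Metric.sphere c (1/5)) :=
    hf.continuousOn.mono (Metric.sphere_subset_closedBall.trans hc)
  have h1 : (∮ z in C(c, 1/5), (z - c)⁻¹ • f z) = (2 * Real.pi * I : ℂ) • f c :=
    (hf.mono hc).circleIntegral_sub_inv_smul hw
  have h2 : ((2 * Real.pi * I : ℂ)⁻¹ • ∮ z in C(c, 1/5), ((z - c) ^ 2)⁻¹ • f z) = deriv f c :=
    two_pi_I_inv_smul_circleIntegral_sub_sq_inv_smul_of_differentiable hU hc hf hw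
  have e1 : (∮ z in C(c, 1/5), (z - c)⁻¹ • f z) =
      I * ∫ θ in (0:ℝ)..2 * Real.pi, f (c + 1/5 * exp (θ * I)) := by
    rw [circleIntegral, ← intervalIntegral.integral_const_mul]
    apply intervalIntegral.integral_congr
    intro θ _
    simp only [deriv_circleMap, circleMap, smul_eq_mul]
    have h3 : exp ((θ : ℂ) * I) ≠ 0 := exp_ne_zero _
    push_cast
    field_simp
    ring_nf
  have e2 : (∮ z in C(c, 1/5), ((z - c) ^ 2)⁻¹ • f z) =
      5 * I * ∫ θ in (0:ℝ)..2 * Real.pi, f (c + 1/5 * exp (θ * I)) * exp (-(θ * I)) := by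
    rw [circleIntegral, ← intervalIntegral.integral_const_mul]
    apply intervalIntegral.integral_congr
    intro θ _
    simp only [deriv_circleMap, circleMap, smul_eq_mul]
    have h3 : exp ((θ : ℂ) * I) ≠ 0 := exp_ne_zero _
    rw [exp_neg]
    push_cast
    field_simp
    ring_nf
  have hmap : Continuous (fun θ : ℝ => c + 1/5 * exp (θ * I)) := by fun_prop
  have hmem : ∀ θ : ℝ, c + 1/5 * exp (θ * I) ∈ Metric.sphere c (1/5 : ℝ) := by
    intro θ
    rw [mem_sphere_iff_norm]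
    simp [norm_exp_ofReal_mul_I]
  have hcf : Continuous (fun θ : ℝ => f (c + 1/5 * exp (θ * I))) :=
    hfc.comp_continuous hmap hmem
  have i1 : IntervalIntegrable (fun θ : ℝ => f (c + 1/5 * exp (θ * I))) volume 0 (2 * Real.pi) :=
    hcf.intervalIntegrable _ _
  have i2 : IntervalIntegrable (fun θ : ℝ => 26/5 * (f (c + 1/5 * exp (θ * I)) * exp (-(θ * I)))) volume 0
      (2 * Real.pi) := by
    apply Continuous.intervalIntegrable
    have : Continuous (fun θ : ℝ => exp (-((θ : ℂ) * I))) := by fun_prop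
    exact continuous_const.mul (hcf.mul this)
  have e3 : ∫ θ in (0:ℝ)..2 * Real.pi, f (c + 1/5 * exp (θ * I)) * (1 + 26/5 * exp (-(θ * I))) =
      (∫ θ in (0:ℝ)..2 * Real.pi, f (c + 1/5 * exp (θ * I))) +
      26/5 * ∫ θ in (0:ℝ)..2 * Real.pi, f (c + 1/5 * exp (θ * I)) * exp (-(θ * I)) := by
    rw [← intervalIntegral.integral_const_mul, ← intervalIntegral.integral_add i1 i2]
    apply intervalIntegral.integral_congr
    intro θ _
    ring
  rw [e1] at h1
  rw [e2] at h2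
  set A := ∫ θ in (0:ℝ)..2 * Real.pi, f (c + 1/5 * exp (θ * I)) with hA
  set B := ∫ θ in (0:ℝ)..2 * Real.pi, f (c + 1/5 * exp (θ * I)) * exp (-(θ * I)) with hB
  rw [e3]
  have hI : (I : ℂ) ≠ 0 := I_ne_zero
  have h4 : A = 2 * Real.pi * f c := by
    rw [smul_eq_mul] at h1
    apply mul_left_cancel₀ hI
    rw [h1]
    ring
  have h5 : B = 2 * Real.pi / 5 * deriv f c := by
    rw [← h2, smul_eq_mul]
    have : (Real.pi : ℂ) ≠ 0 := by exact_mod_cast Real.pi_ne_zero
    field_simp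
  rw [h4, h5]
  ring

/-- second polynomial in XP, sign e -/
noncomputable def U14_J (e a b : ℂ) : ℂ := cA * (49/100)^2 * (a * b) + e * (49/200 * (a + b)) + cC

/-- numerator of XP -/
noncomputable def U14_N (a b : ℂ) : ℂ := U14_J 1 a b - exp (-(a + b)) * U14_J (-1) a b

/-- its derivative in b -/
noncomputable def U14_Nb (a b : ℂ) : ℂ :=
  (cA * (49/100)^2 * a + 49/200) + exp (-(a + b)) * U14_J (-1) a b -
    exp (-(a + b)) * (cA * (49/100)^2 * a - 49/200)

theorem U14_XP (a b : ℂ) : XP a b = 100/49 * (U14_N a b / (a + b)) := by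
  unfold XP U14_N U14_J
  ring

theorem U14_dJ (e a b : ℂ) : HasDerivAt (fun b : ℂ => U14_J e a b) (cA * (49/100)^2 * a + e * (49/200)) b := by
  have h1 : HasDerivAt (fun b : ℂ => (cA * (49/100)^2 * a + e * (49/200)) * b + (e * (49/200) * a + cC))
      ((cA * (49/100)^2 * a + e * (49/200)) * 1) b := ((hasDerivAt_id b).const_mul _).add_const _
  rw [mul_one] at h1
  refine h1.congr_of_eventuallyEq (Eventually.of_forall fun b => ?_)
  simp only [U14_J]
  ring

theorem U14_dNb' (a b : ℂ) : HasDerivAt (fun b : ℂ => U14_N a b) (U14_Nb a b) b := by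
  have hs : HasDerivAt (fun b : ℂ => a + b) 1 b := by
    simpa using (hasDerivAt_id b).const_add a
  have he : HasDerivAt (fun b : ℂ => exp (-(a + b))) (exp (-(a + b)) * (-1)) b := (hs.neg).cexp
  have h1 := (U14_dJ 1 a b).sub (he.mul (U14_dJ (-1) a b))
  refine h1.congr_deriv ?_
  unfold U14_Nb
  ring

theorem U14_db (a b : ℂ) (h : a + b ≠ 0) : HasDerivAt (fun b => XP a b)
    (100/49 * (U14_Nb a b * (a + b) - U14_N a b) / (a + b) ^ 2) b := by
  have hs : HasDerivAt (fun b : ℂ => a + b) 1 b := by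
    simpa using (hasDerivAt_id b).const_add a
  have hX := ((U14_dNb' a b).fun_div hs h).const_mul (100/49 : ℂ)
  have h2 : HasDerivAt (fun b => XP a b) _ b :=
    hX.congr_of_eventuallyEq (Eventually.of_forall fun b => by
      simp only [U14_XP])
  refine h2.congr_deriv ?_
  ring

theorem U14_Jsymm (e a b : ℂ) : U14_J e a b = U14_J e b a := by
  unfold U14_J
  ring

theorem U14_Nsymm (a b : ℂ) : U14_N a b = U14_N b a := by
  unfold U14_N
  rw [U14_Jsymm 1 a b, U14_Jsymm (-1) a b, add_comm a b]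

/-- the inner value -/
noncomputable def U14_G (a : ℂ) : ℂ :=
  100/49 * (U14_N a (-13/10) / (a - 13/10)) +
    26/25 * (100/49 * (U14_Nb a (-13/10) * (a - 13/10) - U14_N a (-13/10)) / (a - 13/10) ^ 2)

theorem U14_open : IsOpen {z : ℂ | z.re < -1} := isOpen_lt continuous_re continuous_const

theorem U14_ball : Metric.closedBall (-13/10 : ℂ) (1/5) ⊆ {z : ℂ | z.re < -1} := by
  intro z hz
  rw [mem_closedBall_iff_norm] at hz
  have h1 := (abs_re_le_norm (z - -13/10)).trans hz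
  rw [abs_le] at h1
  have h2 : (z - -13/10).re = z.re + 13/10 := by
    have : (z - -13/10 : ℂ) = z + ((13/10 : ℝ) : ℂ) := by push_cast; ring
    rw [this, add_re, ofReal_re]
  rw [h2] at h1
  show z.re < -1
  linarith [h1.2]

theorem U14_ne {a b : ℂ} (ha : a.re < -1) (hb : b.re < -1) : a + b ≠ 0 := by
  intro h
  have := congrArg Complex.re h
  simp at this
  linarith

theorem U14_re : (-13/10 : ℂ).re < -1 := by
  have : (-13/10 : ℂ) = ((-13/10 : ℝ) : ℂ) := by push_cast; ring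
  rw [this, ofReal_re]
  norm_num

theorem U14_inner (a : ℂ) (ha : a.re < -1) :
    ∫ φ in (0:ℝ)..2 * Real.pi, XP a (-13/10 + 1/5 * exp (φ * I)) * (1 + 26/5 * exp (-(φ * I))) =
      2 * Real.pi * U14_G a := by
  have hd : DifferentiableOn ℂ (fun b => XP a b) {z : ℂ | z.re < -1} := fun b hb =>
    (U14_db a b (U14_ne ha hb)).differentiableAt.differentiableWithinAt
  rw [U14_cauchy U14_open U14_ball hd]
  have h2 : a + -13/10 ≠ 0 := U14_ne ha U14_re
  rw [(U14_db a (-13/10) h2).deriv]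
  unfold U14_G
  have e : a + -13/10 = a - 13/10 := by ring
  rw [U14_XP, e]

theorem U14_dN (a b : ℂ) : HasDerivAt (fun a => U14_N a b) (U14_Nb b a) a := by
  have h := U14_dNb' b a
  refine h.congr_of_eventuallyEq (Eventually.of_forall fun x => ?_)
  exact U14_Nsymm x b

/-- mixed derivative of the numerator -/
noncomputable def U14_Nab (a b : ℂ) : ℂ :=
  cA * (49/100)^2 - exp (-(a + b)) * U14_J (-1) a b + exp (-(a + b)) * (cA * (49/100)^2 * b - 49/200) +
    exp (-(a + b)) * (cA * (49/100)^2 * a - 49/200) - exp (-(a + b)) * (cA * (49/100)^2)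

theorem U14_dNb (a b : ℂ) : HasDerivAt (fun a => U14_Nb a b) (U14_Nab a b) a := by
  have he : HasDerivAt (fun a : ℂ => exp (-(a + b))) (exp (-(a + b)) * (-1)) a := by
    have hs : HasDerivAt (fun a : ℂ => a + b) 1 a := by
      simpa using (hasDerivAt_id a).add_const b
    exact (hs.neg).cexp
  have hJ2 : HasDerivAt (fun a : ℂ => U14_J (-1) a b) (cA * (49/100)^2 * b + -1 * (49/200)) a := by
    have h := U14_dJ (-1) b a
    refine h.congr_of_eventuallyEq (Eventually.of_forall fun x => ?_)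
    exact U14_Jsymm (-1) x b
  have hl1 : HasDerivAt (fun a : ℂ => cA * (49/100)^2 * a + 49/200) ((cA : ℂ) * (49/100)^2 * 1) a :=
    ((hasDerivAt_id a).const_mul _).add_const _
  have hl2 : HasDerivAt (fun a : ℂ => cA * (49/100)^2 * a - 49/200) ((cA : ℂ) * (49/100)^2 * 1) a :=
    ((hasDerivAt_id a).const_mul _).sub_const _
  have h1 := (hl1.add (he.mul hJ2)).sub (he.mul hl2)
  refine h1.congr_deriv ?_
  unfold U14_Nab
  ring

theorem U14_dG (a : ℂ) (ha : a - 13/10 ≠ 0) : HasDerivAt U14_G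
    (100/49 * (U14_Nb (-13/10) a / (a - 13/10) - U14_N a (-13/10) / (a - 13/10) ^ 2 +
      26/25 * (U14_Nab a (-13/10) / (a - 13/10) - U14_Nb a (-13/10) / (a - 13/10) ^ 2 -
        U14_Nb (-13/10) a / (a - 13/10) ^ 2 + 2 * U14_N a (-13/10) / (a - 13/10) ^ 3))) a := by
  have hs : HasDerivAt (fun a : ℂ => a - 13/10) 1 a := (hasDerivAt_id a).sub_const (13/10)
  have hs2 : HasDerivAt (fun a : ℂ => (a - 13/10) ^ 2) (2 * (a - 13/10)) a := by
    simpa using hs.fun_pow 2
  have hN := U14_dN a (-13/10)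
  have hNb := U14_dNb a (-13/10)
  have h2 : (a - 13/10) ^ 2 ≠ 0 := pow_ne_zero 2 ha
  have h1 := ((hN.fun_div hs ha).const_mul (100/49 : ℂ)).fun_add
    ((((((hNb.fun_mul hs).fun_sub hN).const_mul (100/49 : ℂ))).fun_div hs2 h2).const_mul (26/25 : ℂ))
  refine h1.congr_deriv ?_
  generalize a - 13/10 = w at ha h2 ⊢
  field_simp
  ring

/-- Cauchy's formula in both variables -/
theorem circ_eval : ((2 * Real.pi : ℝ) : ℂ)⁻¹ ^ 2 * ∫ θ in (0:ℝ)..2 * Real.pi, ∫ φ in (0:ℝ)..2 * Real.pi,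
    XP (-13/10 + 1/5 * exp (θ * I)) (-13/10 + 1/5 * exp (φ * I)) *
      ((1 + 26/5 * exp (-(θ * I))) * (1 + 26/5 * exp (-(φ * I)))) = (D1 : ℂ) := by
  have hre : ∀ θ : ℝ, (-13/10 + 1/5 * exp (θ * I) : ℂ).re < -1 := by
    intro θ
    apply U14_ball
    rw [mem_closedBall_iff_norm]
    simp [norm_exp_ofReal_mul_I]
  have h1 : ∀ θ : ℝ, ∫ φ in (0:ℝ)..2 * Real.pi,
      XP (-13/10 + 1/5 * exp (θ * I)) (-13/10 + 1/5 * exp (φ * I)) *
      ((1 + 26/5 * exp (-(θ * I))) * (1 + 26/5 * exp (-(φ * I)))) =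
      (2 * Real.pi) * (U14_G (-13/10 + 1/5 * exp (θ * I)) * (1 + 26/5 * exp (-(θ * I)))) := by
    intro θ
    have h2 := U14_inner _ (hre θ)
    have h3 : ∀ φ : ℝ, XP (-13/10 + 1/5 * exp (θ * I)) (-13/10 + 1/5 * exp (φ * I)) *
      ((1 + 26/5 * exp (-(θ * I))) * (1 + 26/5 * exp (-(φ * I)))) =
      (1 + 26/5 * exp (-(θ * I))) * (XP (-13/10 + 1/5 * exp (θ * I)) (-13/10 + 1/5 * exp (φ * I)) *
        (1 + 26/5 * exp (-(φ * I)))) := fun φ => by ring
    simp only [h3]
    rw [intervalIntegral.integral_const_mul, h2]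
    ring
  simp only [h1]
  rw [intervalIntegral.integral_const_mul]
  have hd : DifferentiableOn ℂ U14_G {z : ℂ | z.re < -1} := fun a ha => by
    have h2 : a - 13/10 ≠ 0 := by
      have := U14_ne ha U14_re
      intro h
      apply this
      linear_combination h
    exact (U14_dG a h2).differentiableAt.differentiableWithinAt
  rw [U14_cauchy U14_open U14_ball hd, (U14_dG (-13/10) (by norm_num)).deriv]
  have hpi : ((2 * Real.pi : ℝ) : ℂ) ≠ 0 := by
    rw [Ne, ofReal_eq_zero]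
    exact (mul_pos two_pos Real.pi_pos).ne'
  have e1 : ((2 * Real.pi : ℝ) : ℂ) = 2 * Real.pi := by push_cast; ring
  rw [← e1]
  have e4 : exp (-(-13/10 + -13/10) : ℂ) = ((Real.exp (13/5) : ℝ) : ℂ) := by
    rw [ofReal_exp]
    congr 1
    push_cast
    norm_num
  have e5 : ∀ z : ℂ, ((2 * Real.pi : ℝ) : ℂ)⁻¹ ^ 2 * (((2 * Real.pi : ℝ) : ℂ) * (((2 * Real.pi : ℝ) : ℂ) * z)) = z := by
    intro z
    field_simp
  rw [e5]
  unfold U14_G U14_Nab U14_Nb U14_N U14_J D1 cA cC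
  rw [e4]
  push_cast
  ring

theorem XP_c1 : XP (-3/4) (-3/4) = (c1 : ℂ) := by
  have e4 : exp (-(-3/4 + -3/4) : ℂ) = ((Real.exp (3/2) : ℝ) : ℂ) := by
    rw [ofReal_exp]
    congr 1
    push_cast
    norm_num
  unfold XP c1 cA cC
  rw [e4]
  push_cast
  ring

/-- numerics: log D1 = 0.8739..., log(1+(c1-1)/11) = 0.4834...; 0.6722 + 0.3223 < 1 -/
theorem num : 1 < D1 ∧ 1 < c1 ∧ Real.log D1 / (13/10) + Real.log (1 + (c1 - 1) / 11) / (3/2) < 1 := by
  have h1 := Real.exp_one_gt_d9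
  have h2 := Real.exp_one_lt_d9
  have u1 : Real.exp (13/5) < 13464/1000 := by
    apply lt_of_pow_lt_pow_left₀ 5 (by norm_num)
    have e2 : Real.exp (13/5) ^ 5 = Real.exp 1 ^ 13 := by
      rw [← Real.exp_nat_mul, ← Real.exp_nat_mul]
      norm_num
    rw [e2]
    calc Real.exp 1 ^ 13 < 2.7182818286 ^ 13 := pow_lt_pow_left₀ h2 (Real.exp_pos _).le (by norm_num)
      _ < _ := by norm_num
  have l1 : 13463/1000 < Real.exp (13/5) := by
    apply lt_of_pow_lt_pow_left₀ 5 (Real.exp_pos _).le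
    have e2 : Real.exp (13/5) ^ 5 = Real.exp 1 ^ 13 := by
      rw [← Real.exp_nat_mul, ← Real.exp_nat_mul]
      norm_num
    rw [e2]
    calc (13463/1000 : ℝ) ^ 5 < 2.7182818283 ^ 13 := by norm_num
      _ < _ := pow_lt_pow_left₀ h1 (by norm_num) (by norm_num)
  have u2 : Real.exp (3/2) < 4482/1000 := by
    apply lt_of_pow_lt_pow_left₀ 2 (by norm_num)
    have e2 : Real.exp (3/2) ^ 2 = Real.exp 1 ^ 3 := by
      rw [← Real.exp_nat_mul, ← Real.exp_nat_mul]
      norm_num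
    rw [e2]
    calc Real.exp 1 ^ 3 < 2.7182818286 ^ 3 := pow_lt_pow_left₀ h2 (Real.exp_pos _).le (by norm_num)
      _ < _ := by norm_num
  have l2 : 4481/1000 < Real.exp (3/2) := by
    apply lt_of_pow_lt_pow_left₀ 2 (Real.exp_pos _).le
    have e2 : Real.exp (3/2) ^ 2 = Real.exp 1 ^ 3 := by
      rw [← Real.exp_nat_mul, ← Real.exp_nat_mul]
      norm_num
    rw [e2]
    calc (4481/1000 : ℝ) ^ 2 < 2.7182818283 ^ 3 := by norm_num
      _ < _ := pow_lt_pow_left₀ h1 (by norm_num) (by norm_num)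
  have d1 : 1 < D1 := by
    unfold D1
    linarith
  have d2 : D1 < 2.3966 := by
    unfold D1
    linarith
  have d3 : 1 < c1 := by
    unfold c1
    linarith
  have d4 : 1 + (c1 - 1) / 11 < 1.622 := by
    unfold c1
    linarith
  have d5 : 1 < 1 + (c1 - 1) / 11 := by
    linarith
  have k1 : Real.log D1 < 7/8 := by
    rw [Real.log_lt_iff_lt_exp (by linarith)]
    apply lt_of_pow_lt_pow_left₀ 8 (Real.exp_pos _).le
    have e2 : Real.exp (7/8) ^ 8 = Real.exp 1 ^ 7 := by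
      rw [← Real.exp_nat_mul, ← Real.exp_nat_mul]
      norm_num
    rw [e2]
    calc D1 ^ 8 < 2.3966 ^ 8 := pow_lt_pow_left₀ d2 (by linarith) (by norm_num)
      _ < 2.7182818283 ^ 7 := by norm_num
      _ < _ := pow_lt_pow_left₀ h1 (by norm_num) (by norm_num)
  have k2 : Real.log (1 + (c1 - 1) / 11) < 97/200 := by
    rw [Real.log_lt_iff_lt_exp (by linarith)]
    apply lt_of_pow_lt_pow_left₀ 200 (Real.exp_pos _).le
    have e2 : Real.exp (97/200) ^ 200 = Real.exp 1 ^ 97 := by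
      rw [← Real.exp_nat_mul, ← Real.exp_nat_mul]
      norm_num
    rw [e2]
    calc (1 + (c1 - 1) / 11) ^ 200 < 1.622 ^ 200 := pow_lt_pow_left₀ d4 (by linarith) (by norm_num)
      _ < 2.7182818283 ^ 97 := by norm_num
      _ < _ := pow_lt_pow_left₀ h1 (by norm_num) (by norm_num)
  refine ⟨d1, d3, ?_⟩
  rw [div_add_div _ _ (by norm_num) (by norm_num), div_lt_one (by norm_num)]
  linarith

end LU
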