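import Pool.Agent.Lib.MP_0f5a55_nt.U.U12
import Pool.Agent.Lib.MP_0f5a55_nt.U.U14
import Pool.Agent.Lib.MP_0f5a55_nt.V.V17
import Pool.Agent.Lib.MP_0f5a55_nt.V.V43
import Pool.Agent.Lib.MP_0f5a55_nt.V.V49
import Mathlib.Analysis.Complex.LocallyUniformLimit

open Complex MeasureTheory Set Filter Topology
open scoped ComplexConjugate

namespace LU

open LZ (nS EE ER)

/-- Cauchy's formula for the value and the first derivative -/
private theorem U15_cauchy {f : ℂ → ℂ} {U : Set ℂ} (hU : IsOpen U) {c : ℂ} (hc : Metric.closedBall c (1/5) ⊆ U)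
    (hf : DifferentiableOn ℂ f U) :
    ∫ θ in (0:ℝ)..2 * Real.pi, f (c + 1/5 * exp (θ * I)) * (1 + 26/5 * exp (-(θ * I))) =
      2 * Real.pi * (f c + 26/25 * deriv f c) := by
  have hR : (0:ℝ) < 1/5 := by norm_num
  have hw : c ∈ Metric.ball c (1/5 : ℝ) := Metric.mem_ball_self hR
  have hpi : (2 * Real.pi * I : ℂ) ≠ 0 := by
    simp [Real.pi_ne_zero]
  have hfc : ContinuousOn f (Metric.sphere c (1/5)) :=
    hf.continuousOn.mono (Metric.sphere_subset_closedBall.trans hc)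
  have h1 : (∮ z in C(c, 1/5), (z - c)⁻¹ • f z) = (2 * Real.pi * I : ℂ) • f c :=
    (hf.mono hc).circleIntegral_sub_inv_smul hw
  have h2 : ((2 * Real.pi * I : ℂ)⁻¹ • ∮ z in C(c, 1/5), ((z - c) ^ 2)⁻¹ • f z) = deriv f c :=
    two_pi_I_inv_smul_circleIntegral_sub_sq_inv_smul_of_differentiable hU hc hf hw
  have e1 : (∮ z in C(c, 1/5), (z - c)⁻¹ • f z) =
      I * ∫ θ in (0:ℝ)..2 * Real.pi, f (c + 1/5 * exp (θ * I)) := by
    rw [circleIntegral, ← intervalIntegral.integral_const_mul]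
    apply intervalIntegral.integral_congr
    intro θ _
    simp only [deriv_circleMap, circleMap, smul_eq_mul]
    have h3 : exp ((θ : ℂ) * I) ≠ 0 := exp_ne_zero _
    push_cast
    field_simp
    ring_nf
  have e2 : (∮ z in C(c, 1/5), ((z - c) ^ 2)⁻¹ • f z) =
      5 * I * ∫ θ in (0:ℝ)..2 * Real.pi, f (c + 1/5 * exp (θ * I)) * exp (-(θ * I)) := by
    rw [circleIntegral, ← intervalIntegral.integral_const_mul]
    apply intervalIntegral.integral_congr
    intro θ _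
    simp only [deriv_circleMap, circleMap, smul_eq_mul]
    have h3 : exp ((θ : ℂ) * I) ≠ 0 := exp_ne_zero _
    rw [exp_neg]
    push_cast
    field_simp
    ring_nf
  have hmap : Continuous (fun θ : ℝ => c + 1/5 * exp (θ * I)) := by fun_prop
  have hmem : ∀ θ : ℝ, c + 1/5 * exp (θ * I) ∈ Metric.sphere c (1/5 : ℝ) := by
    intro θ
    rw [mem_sphere_iff_norm]
    simp [norm_exp_ofReal_mul_I]
  have hcf : Continuous (fun θ : ℝ => f (c + 1/5 * exp (θ * I))) :=
    hfc.comp_continuous hmap hmem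
  have i1 : IntervalIntegrable (fun θ : ℝ => f (c + 1/5 * exp (θ * I))) volume 0 (2 * Real.pi) :=
    hcf.intervalIntegrable _ _
  have i2 : IntervalIntegrable (fun θ : ℝ => 26/5 * (f (c + 1/5 * exp (θ * I)) * exp (-(θ * I)))) volume 0
      (2 * Real.pi) := by
    apply Continuous.intervalIntegrable
    have : Continuous (fun θ : ℝ => exp (-((θ : ℂ) * I))) := by fun_prop
    exact continuous_const.mul (hcf.mul this)
  have e3 : ∫ θ in (0:ℝ)..2 * Real.pi, f (c + 1/5 * exp (θ * I)) * (1 + 26/5 * exp (-(θ * I))) =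
      (∫ θ in (0:ℝ)..2 * Real.pi, f (c + 1/5 * exp (θ * I))) +
      26/5 * ∫ θ in (0:ℝ)..2 * Real.pi, f (c + 1/5 * exp (θ * I)) * exp (-(θ * I)) := by
    rw [← intervalIntegral.integral_const_mul, ← intervalIntegral.integral_add i1 i2]
    apply intervalIntegral.integral_congr
    intro θ _
    ring
  rw [e1] at h1
  rw [e2] at h2
  set A := ∫ θ in (0:ℝ)..2 * Real.pi, f (c + 1/5 * exp (θ * I)) with hA
  set B := ∫ θ in (0:ℝ)..2 * Real.pi, f (c + 1/5 * exp (θ * I)) * exp (-(θ * I)) with hB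
  rw [e3]
  have hI : (I : ℂ) ≠ 0 := I_ne_zero
  have h4 : A = 2 * Real.pi * f c := by
    rw [smul_eq_mul] at h1
    apply mul_left_cancel₀ hI
    rw [h1]
    ring
  have h5 : B = 2 * Real.pi / 5 * deriv f c := by
    rw [← h2, smul_eq_mul]
    have : (Real.pi : ℂ) ≠ 0 := by exact_mod_cast Real.pi_ne_zero
    field_simp
  rw [h4, h5]
  ring

private theorem U15_open : IsOpen {z : ℂ | z.re < -1} := isOpen_lt continuous_re continuous_const

private theorem U15_ball : Metric.closedBall (-13/10 : ℂ) (1/5) ⊆ {z : ℂ | z.re < -1} := by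
  intro z hz
  rw [mem_closedBall_iff_norm] at hz
  have h1 := (abs_re_le_norm (z - -13/10)).trans hz
  have h2 := (abs_le.mp h1).2
  have h3 : (z - -13/10 : ℂ).re = z.re + 13/10 := by
    rw [sub_re]
    have : (-13/10 : ℂ).re = -13/10 := by norm_num
    rw [this]
    ring
  rw [h3] at h2
  simp only [Set.mem_ofPred_eq]
  linarith

/-- the mollifier of the trivial character -/
private noncomputable def U15_M (l : ℝ) (s : ℂ) : ℂ := MP (1 : DirichletCharacter ℂ 1) l s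

/-- the integrand -/
private noncomputable def U15_X (l : ℝ) (α β : ℂ) (t : ℝ) : ℂ :=
  riemannZeta (1/2 + α + t * I) * riemannZeta (1/2 + β - t * I) * (U15_M l (1/2 + t * I) * U15_M l (1/2 - t * I))

/-- point of the circle -/
private noncomputable def U15_a (θ : ℝ) : ℂ := -13/10 + 1/5 * exp (θ * I)

/-- Cauchy weight -/
private noncomputable def U15_w (θ : ℝ) : ℂ := 1 + 26/5 * exp (-(θ * I))

private theorem U15_a_cont : Continuous U15_a := by
  unfold U15_a
  fun_prop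

private theorem U15_w_cont : Continuous U15_w := by
  unfold U15_w
  fun_prop

private theorem U15_a_norm (θ : ℝ) : ‖U15_a θ + 13/10‖ ≤ 1/5 := by
  have h : U15_a θ + 13/10 = 1/5 * exp (θ * I) := by
    unfold U15_a
    ring
  rw [h, norm_mul, norm_exp_ofReal_mul_I]
  norm_num

private theorem U15_a_re (θ : ℝ) : |(U15_a θ).re + 13/10| ≤ 1/5 := by
  have h := (abs_re_le_norm (U15_a θ + 13/10)).trans (U15_a_norm θ)
  have e : (U15_a θ + 13/10 : ℂ).re = (U15_a θ).re + 13/10 := by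
    rw [add_re]
    norm_num
  rwa [e] at h

private theorem U15_a_im (θ : ℝ) : |(U15_a θ).im| ≤ 1/5 := by
  have h := (abs_im_le_norm (U15_a θ + 13/10)).trans (U15_a_norm θ)
  have e : (U15_a θ + 13/10 : ℂ).im = (U15_a θ).im := by
    rw [add_im]
    norm_num
  rwa [e] at h

private theorem U15_a_le (θ : ℝ) : ‖U15_a θ‖ ≤ 3/2 := by
  have h : U15_a θ = (U15_a θ + 13/10) - 13/10 := by ring
  rw [h]
  refine (norm_sub_le _ _).trans ?_
  have h1 := U15_a_norm θ
  have h2 : ‖(13/10 : ℂ)‖ = 13/10 := by norm_num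
  rw [h2]
  linarith

private theorem U15_w_norm (θ : ℝ) : ‖U15_w θ‖ ≤ 31/5 := by
  unfold U15_w
  have h1 : ‖exp (-((θ : ℂ) * I))‖ = 1 := by
    have h2 : -((θ : ℂ) * I) = ((-θ : ℝ) : ℂ) * I := by
      push_cast
      ring
    rw [h2, norm_exp_ofReal_mul_I]
  refine (norm_add_le _ _).trans ?_
  rw [norm_mul, h1]
  norm_num

/-- the shifted point has real part < 1/2 -/
private theorem U15_re (L θ : ℝ) (t : ℝ) :
    (1/2 + U15_a θ / L + t * I : ℂ).re = 1/2 + (U15_a θ).re / L := by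
  have h1 : (U15_a θ / (L : ℂ)).re = (U15_a θ).re / L := by
    rw [div_ofReal_re]
  simp [h1]

private theorem U15_im (L θ : ℝ) (t : ℝ) :
    (1/2 + U15_a θ / L + t * I : ℂ).im = (U15_a θ).im / L + t := by
  have h1 : (U15_a θ / (L : ℂ)).im = (U15_a θ).im / L := by
    rw [div_ofReal_im]
  simp [h1]

private theorem U15_lt {L : ℝ} (hL : 0 < L) (θ : ℝ) (t : ℝ) :
    (1/2 + U15_a θ / L + t * I : ℂ).re < 1/2 := by
  rw [U15_re L]
  have h2 := (abs_le.mp (U15_a_re θ)).2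
  have h3 : (U15_a θ).re / L < 0 := div_neg_of_neg_of_pos (by linarith) hL
  linarith

private theorem U15_ne {L : ℝ} (hL : 0 < L) (θ : ℝ) (t : ℝ) :
    (1/2 + U15_a θ / L + t * I : ℂ) ≠ 1 := by
  intro h
  have := U15_lt hL θ t
  rw [h] at this
  norm_num at this

/-- Cauchy: V as a circle integral -/
private theorem U15_V {T : ℝ} (hT : 1 < T) (t : ℝ) :
    LS.VV (26/25) T (1/2 - 13/10 / Real.log T + t * I) = ((2 * Real.pi : ℝ) : ℂ)⁻¹ *
      ∫ θ in (0:ℝ)..2 * Real.pi, riemannZeta (1/2 + U15_a θ / Real.log T + t * I) * U15_w θ := by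
  set L := Real.log T with hLdef
  have hL : 0 < L := Real.log_pos hT
  have hLc : (L : ℂ) ≠ 0 := by exact_mod_cast hL.ne'
  set U : Set ℂ := {z : ℂ | z.re < -1} with hU
  have hUo : IsOpen U := U15_open
  have hne : ∀ w ∈ U, (1/2 + w / L + t * I : ℂ) ≠ 1 := by
    intro w hw h
    have h1 : (1/2 + w / L + t * I : ℂ).re = 1/2 + w.re / L := by
      have h1 : (w / (L : ℂ)).re = w.re / L := by rw [div_ofReal_re]
      simp [h1]
    rw [h] at h1
    have h2 : w.re / L < 0 := div_neg_of_neg_of_pos (by have := hw; simp only [hU, Set.mem_ofPred_eq] at this; linarith) hL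
    simp at h1
    linarith
  have hd : ∀ w : ℂ, HasDerivAt (fun w : ℂ => (1/2 + w / L + t * I : ℂ)) ((L : ℂ)⁻¹) w := by
    intro w
    have h1 : HasDerivAt (fun w : ℂ => w / (L : ℂ)) ((L : ℂ)⁻¹) w := by
      have := (hasDerivAt_id w).div_const (L : ℂ)
      simpa [one_div] using this
    exact (h1.const_add (1/2 : ℂ)).add_const (t * I : ℂ)
  have hdz : ∀ w ∈ U, HasDerivAt (fun w : ℂ => riemannZeta (1/2 + w / L + t * I))
      (deriv riemannZeta (1/2 + w / L + t * I) * (L : ℂ)⁻¹) w := by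
    intro w hw
    exact (differentiableAt_riemannZeta (hne w hw)).hasDerivAt.comp w (hd w)
  have hdiff : DifferentiableOn ℂ (fun w : ℂ => riemannZeta (1/2 + w / L + t * I)) U := fun w hw =>
    (hdz w hw).differentiableAt.differentiableWithinAt
  have hcau := U15_cauchy hUo U15_ball hdiff
  have hm2 : (-13/10 : ℂ) ∈ U := U15_ball (Metric.mem_closedBall_self (by norm_num))
  rw [(hdz _ hm2).deriv] at hcau
  have e1 : (∫ θ in (0:ℝ)..2 * Real.pi, riemannZeta (1/2 + U15_a θ / L + t * I) * U15_w θ) =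
      2 * Real.pi * (riemannZeta (1/2 + (-13/10) / L + t * I) +
        26/25 * (deriv riemannZeta (1/2 + (-13/10) / L + t * I) * (L : ℂ)⁻¹)) := hcau
  rw [e1]
  have e2 : (1/2 - 13/10 / (L : ℂ) + t * I : ℂ) = 1/2 + (-13/10) / L + t * I := by ring
  unfold LS.VV
  rw [← hLdef, e2]
  have hpi : (Real.pi : ℂ) ≠ 0 := by exact_mod_cast Real.pi_ne_zero
  push_cast
  field_simp

/-- conjugation of V -/
private theorem U15_conjV (T : ℝ) (s : ℂ) : conj (LS.VV (26/25) T s) = LS.VV (26/25) T (conj s) := by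
  have h1 : deriv riemannZeta (conj s) = conj (deriv riemannZeta s) := by
    have h2 : (conj ∘ riemannZeta ∘ conj : ℂ → ℂ) = riemannZeta := by
      funext z
      simp [riemannZeta_conj]
    have h3 := congrFun (deriv_conj_conj (f := riemannZeta)) (conj s)
    rw [h2] at h3
    simpa using h3
  unfold LS.VV
  rw [map_add, map_mul, conj_ofReal, h1, riemannZeta_conj]

private theorem U15_nS_pos {z : ℕ} {S : Finset ℕ} (hS : S ∈ (LX.PQ 1 z).powerset) : 1 ≤ nS S := by
  unfold LZ.nS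
  refine Finset.one_le_prod' fun p hp => ?_
  have h1 := Finset.mem_powerset.mp hS hp
  have h2 := (Finset.mem_filter.mp (Finset.mem_filter.mp h1).1).2
  exact h2.one_lt.le

private theorem U15_one (a : ZMod 1) : (1 : DirichletCharacter ℂ 1) a = 1 := by
  rw [Subsingleton.elim a 1, map_one]

private theorem U15_mo_cont (i : ℕ) (l : ℝ) : Continuous fun s : ℂ => Mo (1 : DirichletCharacter ℂ 1) i l s := by
  unfold Mo
  refine continuous_finsetSum _ fun S hS => ?_
  refine continuous_const.mul (continuous_const.mul ?_)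
  have h3 := U15_nS_pos hS
  have h4 : (nS S : ℂ) ≠ 0 := by
    have : nS S ≠ 0 := by omega
    exact_mod_cast this
  exact (continuous_neg).const_cpow (Or.inl h4)

private theorem U15_mo (i : ℕ) (l : ℝ) : ∃ M : ℝ, 0 < M ∧ ∀ s : ℂ, 0 ≤ s.re →
    ‖Mo (1 : DirichletCharacter ℂ 1) i l s‖ ≤ M := by
  refine ⟨∑ S ∈ (LX.PQ 1 ⌊Real.exp l⌋₊).powerset, |cf i l S| + 1, ?_, fun s hs => ?_⟩
  · have : 0 ≤ ∑ S ∈ (LX.PQ 1 ⌊Real.exp l⌋₊).powerset, |cf i l S| := Finset.sum_nonneg fun _ _ => abs_nonneg _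
    linarith
  unfold Mo
  refine (norm_sum_le _ _).trans ?_
  have h2 : ∑ S ∈ (LX.PQ 1 ⌊Real.exp l⌋₊).powerset, ‖(cf i l S : ℂ) *
      ((1 : DirichletCharacter ℂ 1) (nS S : ℕ) * (nS S : ℂ) ^ (-s))‖ ≤
      ∑ S ∈ (LX.PQ 1 ⌊Real.exp l⌋₊).powerset, |cf i l S| := by
    refine Finset.sum_le_sum fun S hS => ?_
    rw [norm_mul, Complex.norm_real, Real.norm_eq_abs, U15_one, one_mul]
    have h3 := U15_nS_pos hS
    have h4 : ‖(nS S : ℂ) ^ (-s)‖ ≤ 1 := by
      rw [Complex.norm_natCast_cpow_of_pos (by omega)]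
      apply Real.rpow_le_one_of_one_le_of_nonpos
      · exact_mod_cast h3
      · simpa using hs
    exact mul_le_of_le_one_right (abs_nonneg _) h4
  linarith

private theorem U15_mo_conj (i : ℕ) (l : ℝ) (s : ℂ) :
    conj (Mo (1 : DirichletCharacter ℂ 1) i l s) = Mo (1 : DirichletCharacter ℂ 1) i l (conj s) := by
  unfold Mo
  rw [map_sum]
  refine Finset.sum_congr rfl fun S hS => ?_
  rw [map_mul, conj_ofReal, U15_one, one_mul, one_mul]
  have h3 := U15_nS_pos hS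
  have h5 : ((nS S : ℕ) : ℂ).arg ≠ Real.pi := by
    rw [natCast_arg]
    exact Real.pi_ne_zero.symm
  congr 1
  have h6 := cpow_conj ((nS S : ℕ) : ℂ) (-s) h5
  rw [map_neg, conj_natCast] at h6
  exact h6.symm

private theorem U15_M_cont (l : ℝ) : Continuous fun s : ℂ => U15_M l s := by
  unfold U15_M MP
  exact continuous_finsetSum _ fun j _ => continuous_const.mul (U15_mo_cont j l)

private theorem U15_M_conj (l : ℝ) (s : ℂ) : conj (U15_M l s) = U15_M l (conj s) := by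
  unfold U15_M MP
  rw [map_sum]
  refine Finset.sum_congr rfl fun j _ => ?_
  rw [map_mul, conj_ofReal, U15_mo_conj]

private theorem U15_M_bd (l : ℝ) : ∃ M : ℝ, 0 < M ∧ ∀ s : ℂ, 0 ≤ s.re → ‖U15_M l s‖ ≤ M := by
  choose B hB hb using fun j : ℕ => U15_mo j l
  refine ⟨∑ j ∈ Finset.Icc 2 9, ‖(cP j : ℂ)‖ * B j + 1, ?_, fun s hs => ?_⟩
  · have : 0 ≤ ∑ j ∈ Finset.Icc 2 9, ‖(cP j : ℂ)‖ * B j :=
      Finset.sum_nonneg fun j _ => mul_nonneg (norm_nonneg _) (hB j).le
    linarith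
  unfold U15_M MP
  refine (norm_sum_le _ _).trans ?_
  have h2 : ∑ j ∈ Finset.Icc 2 9, ‖(cP j : ℂ) * Mo (1 : DirichletCharacter ℂ 1) j l s‖ ≤
      ∑ j ∈ Finset.Icc 2 9, ‖(cP j : ℂ)‖ * B j := by
    refine Finset.sum_le_sum fun j _ => ?_
    rw [norm_mul]
    exact mul_le_mul_of_nonneg_left (hb j s hs) (norm_nonneg _)
  linarith

/-- the identity |V Mo|^2 = double circle integral -/
private theorem U15_point {T : ℝ} (hT : 1 < T) (t : ℝ) :
    ((‖LS.VV (26/25) T (1/2 - 13/10 / Real.log T + t * I) * U15_M (49/100 * Real.log T) (1/2 + t * I)‖ ^ 2 : ℝ) : ℂ) =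
      ((2 * Real.pi : ℝ) : ℂ)⁻¹ ^ 2 * ∫ θ in (0:ℝ)..2 * Real.pi, ∫ φ in (0:ℝ)..2 * Real.pi,
        U15_X (49/100 * Real.log T) (U15_a θ / Real.log T) (U15_a φ / Real.log T) t * (U15_w θ * U15_w φ) := by
  set L := Real.log T with hLdef
  set M1 := U15_M (49/100 * L) (1/2 + t * I) with hM1
  set M2 := U15_M (49/100 * L) (1/2 - t * I) with hM2
  have hM : conj M1 = M2 := by
    rw [hM1, U15_M_conj, hM2]
    congr 1
    simp only [map_add, map_mul, conj_ofReal, conj_I, map_div₀, map_one, map_ofNat]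
    ring
  have hV := U15_V hT t
  have hV' := U15_V hT (-t)
  rw [← hLdef] at hV hV'
  have hVc : conj (LS.VV (26/25) T (1/2 - 13/10 / L + t * I)) =
      LS.VV (26/25) T (1/2 - 13/10 / L + ((-t : ℝ) : ℂ) * I) := by
    rw [U15_conjV]
    congr 1
    simp only [map_add, map_sub, map_mul, conj_ofReal, conj_I, map_div₀, map_one, map_ofNat, ofReal_neg]
    ring
  have e0 : ((‖LS.VV (26/25) T (1/2 - 13/10 / L + t * I) * M1‖ ^ 2 : ℝ) : ℂ) =
      (LS.VV (26/25) T (1/2 - 13/10 / L + t * I) * LS.VV (26/25) T (1/2 - 13/10 / L + ((-t : ℝ) : ℂ) * I)) *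
        (M1 * M2) := by
    rw [← hVc, ← hM, ofReal_pow, ← mul_conj', map_mul]
    ring
  rw [e0, hV, hV']
  set A := fun θ : ℝ => riemannZeta (1/2 + U15_a θ / L + t * I) * U15_w θ with hA
  set B := fun φ : ℝ => riemannZeta (1/2 + U15_a φ / L + ((-t : ℝ) : ℂ) * I) * U15_w φ with hB
  have e1 : (∫ θ in (0:ℝ)..2 * Real.pi, ∫ φ in (0:ℝ)..2 * Real.pi,
        U15_X (49/100 * L) (U15_a θ / L) (U15_a φ / L) t * (U15_w θ * U15_w φ)) =
      ∫ θ in (0:ℝ)..2 * Real.pi, ∫ φ in (0:ℝ)..2 * Real.pi, A θ * (B φ * (M1 * M2)) := by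
    apply intervalIntegral.integral_congr
    intro θ _
    apply intervalIntegral.integral_congr
    intro φ _
    simp only [U15_X, hA, hB]
    have h1 : (1/2 + U15_a φ / L + ((-t : ℝ) : ℂ) * I : ℂ) = 1/2 + U15_a φ / L - t * I := by
      push_cast
      ring
    rw [h1]
    ring
  rw [e1]
  have e2 : ∀ θ : ℝ, (∫ φ in (0:ℝ)..2 * Real.pi, A θ * (B φ * (M1 * M2))) =
      A θ * ((∫ φ in (0:ℝ)..2 * Real.pi, B φ) * (M1 * M2)) := by
    intro θ
    rw [intervalIntegral.integral_const_mul, intervalIntegral.integral_mul_const]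
  simp_rw [e2]
  rw [intervalIntegral.integral_mul_const]
  ring

/-- measure of the circle -/
private noncomputable abbrev U15_m : Measure ℝ := volume.restrict (Ioc 0 (2 * Real.pi))

private theorem U15_ii (f : ℝ → ℂ) : (∫ θ in (0:ℝ)..2 * Real.pi, f θ) = ∫ θ, f θ ∂U15_m :=
  intervalIntegral.integral_of_le (by positivity)

/-- integrand with weights -/
private noncomputable def U15_H (L r : ℝ) (p : (ℝ × ℝ) × ℝ) : ℂ :=
  U15_X (49/100 * L) (U15_a p.1.1 / L) (U15_a p.1.2 / L) p.2 * (U15_w p.1.1 * U15_w p.1.2) *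
    (Real.exp (-p.2 / r) : ℂ)

private theorem U15_zcont {X : Type*} [TopologicalSpace X] {L : ℝ} (hL : 0 < L) {f g : X → ℝ}
    (hf : Continuous f) (hg : Continuous g) :
    Continuous fun x => riemannZeta (1/2 + U15_a (f x) / L + g x * I) := by
  rw [continuous_iff_continuousAt]
  intro x
  have h1 := U15_ne hL (f x) (g x)
  have h2 : Continuous fun x => (1/2 + U15_a (f x) / L + g x * I : ℂ) := by
    have := U15_a_cont.comp hf
    have h3 : Continuous fun x => U15_a (f x) := this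
    fun_prop
  exact (differentiableAt_riemannZeta h1).continuousAt.comp
    (f := fun x => (1/2 + U15_a (f x) / L + g x * I : ℂ)) h2.continuousAt

private theorem U15_zcont' {X : Type*} [TopologicalSpace X] {L : ℝ} (hL : 0 < L) {g h : X → ℝ}
    (hg : Continuous g) (hh : Continuous h) :
    Continuous fun x => riemannZeta (1/2 + U15_a (g x) / L - h x * I) := by
  have h2 := U15_zcont hL hg hh.neg
  refine h2.congr fun x => ?_
  have e : (1/2 + U15_a (g x) / L + ((-h) x : ℝ) * I : ℂ) = 1/2 + U15_a (g x) / L - h x * I := by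
    rw [Pi.neg_apply, ofReal_neg]
    ring
  rw [e]

private theorem U15_X_cont {X : Type*} [TopologicalSpace X] {L : ℝ} (hL : 0 < L) {f g h : X → ℝ}
    (hf : Continuous f) (hg : Continuous g) (hh : Continuous h) :
    Continuous fun x => U15_X (49/100 * L) (U15_a (f x) / L) (U15_a (g x) / L) (h x) := by
  unfold U15_X
  have h3 : Continuous fun x => U15_M (49/100 * L) (1/2 + h x * I) := (U15_M_cont _).comp (by fun_prop)
  have h4 : Continuous fun x => U15_M (49/100 * L) (1/2 - h x * I) := (U15_M_cont _).comp (by fun_prop)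
  exact ((U15_zcont hL hf hh).mul (U15_zcont' hL hg hh)).mul (h3.mul h4)

private theorem U15_H_cont {L : ℝ} (hL : 0 < L) (r : ℝ) : Continuous (U15_H L r) := by
  unfold U15_H
  have h1 : Continuous fun p : (ℝ × ℝ) × ℝ =>
      U15_X (49/100 * L) (U15_a p.1.1 / L) (U15_a p.1.2 / L) p.2 :=
    U15_X_cont hL (by fun_prop) (by fun_prop) (by fun_prop)
  have h2 : Continuous fun p : (ℝ × ℝ) × ℝ => U15_w p.1.1 := U15_w_cont.comp (by fun_prop)
  have h3 : Continuous fun p : (ℝ × ℝ) × ℝ => U15_w p.1.2 := U15_w_cont.comp (by fun_prop)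
  have h4 : Continuous fun p : (ℝ × ℝ) × ℝ => (Real.exp (-p.2 / r) : ℂ) := by fun_prop
  exact (h1.mul (h2.mul h3)).mul h4

/-- pointwise bound of zeta -/
private theorem U15_zb : ∃ Z : ℝ, 0 < Z ∧ ∀ L : ℝ, 40 ≤ L → ∀ θ t : ℝ,
    ‖riemannZeta (1/2 + U15_a θ / L + t * I)‖ ≤ Z * (1 + |t|) := by
  obtain ⟨Z, hZ, hz⟩ := LZ.zeta_pol
  refine ⟨2 * Z, by positivity, fun L hL θ t => ?_⟩
  have hL0 : 0 < L := by linarith
  have h1 := U15_lt hL0 θ t
  have h2 : 5/16 ≤ (1/2 + U15_a θ / L + t * I : ℂ).re := by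
    rw [U15_re]
    have h3 := (abs_le.mp (U15_a_re θ)).1
    have h4 : -(1/16) ≤ (U15_a θ).re / L := by
      rw [le_div_iff₀ hL0]
      linarith
    linarith
  have h5 : 1/4 ≤ ‖(1/2 + U15_a θ / L + t * I : ℂ) - 1‖ := by
    refine le_trans ?_ (abs_re_le_norm _)
    rw [sub_re, one_re, abs_of_nonpos (by linarith)]
    linarith
  refine (hz _ h2 h5).trans ?_
  have h6 : |(1/2 + U15_a θ / L + t * I : ℂ).im| ≤ 1 + |t| := by
    rw [U15_im]
    refine (abs_add_le _ _).trans (add_le_add ?_ le_rfl)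
    rw [abs_div, abs_of_pos hL0, div_le_iff₀ hL0]
    have := U15_a_im θ
    linarith
  have h7 := abs_nonneg t
  have h8 : Z * (1 + |(1/2 + U15_a θ / L + t * I : ℂ).im|) ≤ Z * (1 + (1 + |t|)) :=
    mul_le_mul_of_nonneg_left (by linarith) hZ.le
  refine h8.trans ?_
  have h9 : 0 ≤ Z * |t| := by positivity
  linarith

private theorem U15_H_int {L r : ℝ} (hL : 40 ≤ L) (hr : 0 < r) :
    Integrable (U15_H L r) ((U15_m.prod U15_m).prod (volume.restrict (Ioi 0))) := by
  have hL0 : 0 < L := by linarith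
  obtain ⟨Z, hZ, hz⟩ := U15_zb
  obtain ⟨M, hM, hm⟩ := U15_M_bd (49/100 * L)
  have hg : Integrable (fun t : ℝ => (Z ^ 2 * M ^ 2 * (31/5) ^ 2) * ((1 + |t|) ^ 2 * Real.exp (-t / r)))
      (volume.restrict (Ioi 0)) := (LZ.M06_intg hr).const_mul _
  refine (hg.comp_snd (U15_m.prod U15_m)).mono' (U15_H_cont hL0 r).aestronglyMeasurable
    (Filter.Eventually.of_forall fun p => ?_)
  obtain ⟨⟨θ, φ⟩, t⟩ := p
  simp only [U15_H, U15_X]
  have e1 : (1/2 + U15_a φ / L - t * I : ℂ) = 1/2 + U15_a φ / L + ((-t : ℝ) : ℂ) * I := by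
    push_cast
    ring
  have h1 := hz L hL θ t
  have h2 := hz L hL φ (-t)
  rw [abs_neg] at h2
  have h3 := hm (1/2 + t * I) (by simp)
  have h4 := hm (1/2 - t * I) (by simp)
  have h5 := U15_w_norm θ
  have h6 := U15_w_norm φ
  rw [e1, norm_mul, norm_mul, norm_mul, norm_mul, norm_mul, norm_mul, norm_real, Real.norm_eq_abs,
    abs_of_pos (Real.exp_pos _)]
  have h7 : 0 ≤ 1 + |t| := by positivity
  calc _ ≤ (Z * (1 + |t|)) * (Z * (1 + |t|)) * (M * M) * ((31/5) * (31/5)) * Real.exp (-t / r) := by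
        gcongr
    _ = _ := by ring

/-- the sum over the exponents -/
private theorem U15_X_sum (l : ℝ) (α β : ℂ) (t : ℝ) : U15_X l α β t =
    ∑ i ∈ Finset.Icc 2 9, ∑ j ∈ Finset.Icc 2 9, (cP i : ℂ) * (cP j : ℂ) *
      XI (1 : DirichletCharacter ℂ 1) (1 : DirichletCharacter ℂ 1) i j l α β t := by
  unfold U15_X U15_M MP XI
  rw [LZ.A22_Lf, Finset.sum_mul_sum, Finset.mul_sum]
  refine Finset.sum_congr rfl fun i _ => ?_
  rw [Finset.mul_sum]
  refine Finset.sum_congr rfl fun j _ => ?_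
  ring

private theorem U15_XI_int {L r : ℝ} (hL : 40 ≤ L) (hr : 0 < r) (θ φ : ℝ) (i j : ℕ) :
    Integrable (fun t : ℝ => XI (1 : DirichletCharacter ℂ 1) (1 : DirichletCharacter ℂ 1) i j (49/100 * L)
      (U15_a θ / L) (U15_a φ / L) t * (Real.exp (-t / r) : ℂ)) (volume.restrict (Ioi 0)) := by
  have hL0 : 0 < L := by linarith
  obtain ⟨Z, hZ, hz⟩ := U15_zb
  obtain ⟨M, hM, hm⟩ := U15_mo i (49/100 * L)
  obtain ⟨M', hM', hm'⟩ := U15_mo j (49/100 * L)
  have hg : Integrable (fun t : ℝ => (Z ^ 2 * (M * M')) * ((1 + |t|) ^ 2 * Real.exp (-t / r)))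
      (volume.restrict (Ioi 0)) := (LZ.M06_intg hr).const_mul _
  have hc : Continuous fun t : ℝ => XI (1 : DirichletCharacter ℂ 1) (1 : DirichletCharacter ℂ 1) i j (49/100 * L)
      (U15_a θ / L) (U15_a φ / L) t * (Real.exp (-t / r) : ℂ) := by
    unfold XI
    rw [LZ.A22_Lf]
    have h3 : Continuous fun t : ℝ => Mo (1 : DirichletCharacter ℂ 1) i (49/100 * L) (1/2 + t * I) :=
      (U15_mo_cont _ _).comp (by fun_prop)
    have h4 : Continuous fun t : ℝ => Mo (1 : DirichletCharacter ℂ 1) j (49/100 * L) (1/2 - t * I) :=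
      (U15_mo_cont _ _).comp (by fun_prop)
    have h5 : Continuous fun t : ℝ => (Real.exp (-t / r) : ℂ) := by fun_prop
    have h6 : Continuous fun t : ℝ => riemannZeta (1/2 + U15_a θ / L + t * I) :=
      U15_zcont (X := ℝ) hL0 (f := fun _ => θ) (g := fun t => t) continuous_const continuous_id
    have h7 : Continuous fun t : ℝ => riemannZeta (1/2 + U15_a φ / L - t * I) :=
      U15_zcont' (X := ℝ) hL0 (g := fun _ => φ) (h := fun t => t) continuous_const continuous_id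
    exact ((h6.mul h7).mul (h3.mul h4)).mul h5
  refine hg.mono' hc.aestronglyMeasurable (Filter.Eventually.of_forall fun t => ?_)
  simp only [XI]
  rw [LZ.A22_Lf]
  have e1 : (1/2 + U15_a φ / L - t * I : ℂ) = 1/2 + U15_a φ / L + ((-t : ℝ) : ℂ) * I := by
    push_cast
    ring
  have h1 := hz L hL θ t
  have h2 := hz L hL φ (-t)
  rw [abs_neg] at h2
  have h3 := hm (1/2 + t * I) (by simp)
  have h4 := hm' (1/2 - t * I) (by simp)
  rw [e1, norm_mul, norm_mul, norm_mul, norm_mul, norm_real, Real.norm_eq_abs, abs_of_pos (Real.exp_pos _)]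
  have h7 : 0 ≤ 1 + |t| := by positivity
  calc _ ≤ (Z * (1 + |t|)) * (Z * (1 + |t|)) * (M * M') * Real.exp (-t / r) := by
        gcongr
    _ = _ := by ring

/-- EE is linear -/
private theorem U15_EE {L r : ℝ} (hL : 40 ≤ L) (hr : 0 < r) (θ φ : ℝ) :
    EE r (U15_X (49/100 * L) (U15_a θ / L) (U15_a φ / L)) =
    ∑ i ∈ Finset.Icc 2 9, ∑ j ∈ Finset.Icc 2 9, (cP i : ℂ) * (cP j : ℂ) *
      EE r (XI (1 : DirichletCharacter ℂ 1) (1 : DirichletCharacter ℂ 1) i j (49/100 * L)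
        (U15_a θ / L) (U15_a φ / L)) := by
  unfold LZ.EE
  have e : ∀ t : ℝ, U15_X (49/100 * L) (U15_a θ / L) (U15_a φ / L) t * (Real.exp (-t / r) : ℂ) =
      ∑ i ∈ Finset.Icc 2 9, ∑ j ∈ Finset.Icc 2 9, (cP i : ℂ) * (cP j : ℂ) *
        (XI (1 : DirichletCharacter ℂ 1) (1 : DirichletCharacter ℂ 1) i j (49/100 * L)
        (U15_a θ / L) (U15_a φ / L) t * (Real.exp (-t / r) : ℂ)) := by
    intro t
    rw [U15_X_sum, Finset.sum_mul]
    refine Finset.sum_congr rfl fun i _ => ?_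
    rw [Finset.sum_mul]
    refine Finset.sum_congr rfl fun j _ => ?_
    ring
  simp_rw [e]
  rw [integral_finsetSum _ fun i _ => integrable_finsetSum _ fun j _ =>
    (U15_XI_int hL hr θ φ i j).const_mul _, Finset.mul_sum]
  refine Finset.sum_congr rfl fun i _ => ?_
  rw [integral_finsetSum _ fun j _ => (U15_XI_int hL hr θ φ i j).const_mul _, Finset.mul_sum]
  refine Finset.sum_congr rfl fun j _ => ?_
  rw [integral_const_mul]
  ring

private theorem U15_hab (θ φ : ℝ) : 2 ≤ ‖U15_a θ + U15_a φ‖ := by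
  have h1 := (abs_le.mp (U15_a_re θ)).2
  have h2 := (abs_le.mp (U15_a_re φ)).2
  refine le_trans ?_ (abs_re_le_norm _)
  rw [add_re, abs_of_nonpos (by linarith)]
  linarith

private theorem U15_hab' (θ φ : ℝ) : U15_a θ + U15_a φ ≠ 0 := by
  intro h
  have h1 := U15_hab θ φ
  rw [h, norm_zero] at h1
  linarith

/-- mean_lim for the whole mollifier -/
private theorem U15_lim (κ : ℝ) (hκ : 1 ≤ κ) (θ φ : ℝ) :
    Tendsto (fun T : ℝ => EE (T / κ) (U15_X (49/100 * Real.log T) (U15_a θ / Real.log T) (U15_a φ / Real.log T)))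
      atTop (𝓝 (XP (U15_a θ) (U15_a φ))) := by
  have hκ0 : 0 < κ := by linarith
  have h1 : Tendsto (fun T : ℝ => ∑ i ∈ Finset.Icc 2 9, ∑ j ∈ Finset.Icc 2 9, (cP i : ℂ) * (cP j : ℂ) *
      EE (T / κ) (XI (1 : DirichletCharacter ℂ 1) (1 : DirichletCharacter ℂ 1) i j (49/100 * Real.log T)
        (U15_a θ / Real.log T) (U15_a φ / Real.log T))) atTop
      (𝓝 (∑ i ∈ Finset.Icc 2 9, ∑ j ∈ Finset.Icc 2 9, (cP i : ℂ) * (cP j : ℂ) * XL i j (U15_a θ) (U15_a φ))) := by
    refine tendsto_finsetSum _ fun i hi => tendsto_finsetSum _ fun j hj => ?_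
    rw [Finset.mem_Icc] at hi hj
    exact (mean_lim_diag 1 1 (one_mul 1) i j hi.1 hj.1 κ hκ _ _ (U15_a_le θ) (U15_a_le φ)
      (U15_hab' θ φ)).const_mul _
  rw [XL_sum _ _ (U15_hab' θ φ)] at h1
  refine h1.congr' ?_
  filter_upwards [Real.tendsto_log_atTop.eventually_ge_atTop 40, eventually_gt_atTop 0] with T h2 h3
  exact (U15_EE h2 (by positivity) θ φ).symm

/-- mean_bdd for the whole mollifier -/
private theorem U15_bdd (κ : ℝ) (hκ : 1 ≤ κ) : ∃ C : ℝ, 0 ≤ C ∧ ∀ᶠ T : ℝ in atTop, ∀ θ φ : ℝ,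
    ‖EE (T / κ) (U15_X (49/100 * Real.log T) (U15_a θ / Real.log T) (U15_a φ / Real.log T))‖ ≤ C := by
  have hκ0 : 0 < κ := by linarith
  have h1 : ∀ i j : ℕ, ∃ C : ℝ, 0 < C ∧ (2 ≤ i → 2 ≤ j → ∀ᶠ T : ℝ in atTop, ∀ θ φ : ℝ,
      ‖EE (T / κ) (XI (1 : DirichletCharacter ℂ 1) (1 : DirichletCharacter ℂ 1) i j (49/100 * Real.log T)
        (U15_a θ / Real.log T) (U15_a φ / Real.log T))‖ ≤ C) := by
    intro i j
    by_cases h : 2 ≤ i ∧ 2 ≤ j
    · obtain ⟨C, T0, hC, hT0, hb⟩ := mean_bdd_diag (1 : DirichletCharacter ℂ 1) 1 (one_mul 1) i j h.1 h.2 κ hκ 2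
        (by norm_num)
      refine ⟨C, hC, fun _ _ => ?_⟩
      filter_upwards [eventually_ge_atTop T0] with T hT θ φ
      exact hb T hT _ _ (U15_a_le θ) (U15_a_le φ) (U15_hab θ φ)
    · exact ⟨1, one_pos, fun h1 h2 => absurd ⟨h1, h2⟩ h⟩
  choose C hC hb using h1
  refine ⟨∑ i ∈ Finset.Icc 2 9, ∑ j ∈ Finset.Icc 2 9, ‖(cP i : ℂ) * (cP j : ℂ)‖ * C i j,
    Finset.sum_nonneg fun i _ => Finset.sum_nonneg fun j _ => mul_nonneg (norm_nonneg _) (hC i j).le, ?_⟩
  have h2 : ∀ᶠ T : ℝ in atTop, ∀ i ∈ Finset.Icc 2 9, ∀ j ∈ Finset.Icc 2 9, ∀ θ φ : ℝ,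
      ‖EE (T / κ) (XI (1 : DirichletCharacter ℂ 1) (1 : DirichletCharacter ℂ 1) i j (49/100 * Real.log T)
        (U15_a θ / Real.log T) (U15_a φ / Real.log T))‖ ≤ C i j := by
    rw [Finset.eventually_all]
    intro i hi
    rw [Finset.eventually_all]
    intro j hj
    rw [Finset.mem_Icc] at hi hj
    exact hb i j hi.1 hj.1
  filter_upwards [h2, Real.tendsto_log_atTop.eventually_ge_atTop 40, eventually_gt_atTop 0] with T h3 h4 h5 θ φ
  rw [U15_EE h4 (by positivity) θ φ]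
  refine (norm_sum_le _ _).trans (Finset.sum_le_sum fun i hi => ?_)
  refine (norm_sum_le _ _).trans (Finset.sum_le_sum fun j hj => ?_)
  rw [norm_mul]
  exact mul_le_mul_of_nonneg_left (h3 i hi j hj θ φ) (norm_nonneg _)

/-- Fubini -/
private theorem U15_fub {T r : ℝ} (hT : 1 < T) (hL : 40 ≤ Real.log T) (hr : 0 < r) :
    ((LZ.ER r (fun t => ‖LS.VV (26/25) T (1/2 - 13/10 / Real.log T + t * I) *
      U15_M (49/100 * Real.log T) (1/2 + t * I)‖ ^ 2) : ℝ) : ℂ) =
      ((2 * Real.pi : ℝ) : ℂ)⁻¹ ^ 2 * ∫ q : ℝ × ℝ,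
        EE r (U15_X (49/100 * Real.log T) (U15_a q.1 / Real.log T) (U15_a q.2 / Real.log T)) *
          (U15_w q.1 * U15_w q.2) ∂(U15_m.prod U15_m) := by
  set L := Real.log T with hLdef
  have hL0 : 0 < L := by linarith
  have hint := U15_H_int hL hr
  set c : ℂ := ((2 * Real.pi : ℝ) : ℂ)⁻¹ ^ 2 with hc
  have hfin : ∀ t : ℝ, Integrable (fun q : ℝ × ℝ => U15_X (49/100 * L) (U15_a q.1 / L) (U15_a q.2 / L) t *
      (U15_w q.1 * U15_w q.2)) (U15_m.prod U15_m) := by
    intro t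
    have hcont : Continuous (fun q : ℝ × ℝ => U15_X (49/100 * L) (U15_a q.1 / L) (U15_a q.2 / L) t *
      (U15_w q.1 * U15_w q.2)) := by
      have h1 : Continuous fun q : ℝ × ℝ => U15_X (49/100 * L) (U15_a q.1 / L) (U15_a q.2 / L) t :=
        U15_X_cont hL0 continuous_fst continuous_snd continuous_const
      exact h1.mul ((U15_w_cont.comp continuous_fst).mul (U15_w_cont.comp continuous_snd))
    have hi : IntegrableOn (fun q : ℝ × ℝ => U15_X (49/100 * L) (U15_a q.1 / L) (U15_a q.2 / L) t *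
      (U15_w q.1 * U15_w q.2)) (Icc 0 (2 * Real.pi) ×ˢ Icc 0 (2 * Real.pi)) (volume.prod volume) :=
      hcont.continuousOn.integrableOn_compact (isCompact_Icc.prod isCompact_Icc)
    have h2 := hi.mono_set (prod_mono Ioc_subset_Icc_self Ioc_subset_Icc_self :
      Ioc 0 (2 * Real.pi) ×ˢ Ioc 0 (2 * Real.pi) ⊆ Icc 0 (2 * Real.pi) ×ˢ Icc 0 (2 * Real.pi))
    rw [IntegrableOn, ← Measure.prod_restrict] at h2
    exact h2
  have e1 : ((LZ.ER r (fun t => ‖LS.VV (26/25) T (1/2 - 13/10 / L + t * I) *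
      U15_M (49/100 * L) (1/2 + t * I)‖ ^ 2) : ℝ) : ℂ) =
      (r : ℂ)⁻¹ * ∫ t in Ioi (0:ℝ), c * ∫ q, U15_H L r (q, t) ∂(U15_m.prod U15_m) := by
    unfold LZ.ER
    rw [ofReal_mul, ofReal_inv, ← integral_complex_ofReal]
    congr 1
    refine integral_congr_ae (Filter.Eventually.of_forall fun t => ?_)
    simp only
    rw [ofReal_mul, U15_point hT t, ← hLdef]
    simp_rw [U15_ii]
    rw [← integral_prod (fun q : ℝ × ℝ => U15_X (49/100 * L) (U15_a q.1 / L) (U15_a q.2 / L) t *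
      (U15_w q.1 * U15_w q.2)) (hfin t), mul_assoc, ← integral_mul_const]
    rfl
  rw [e1, integral_const_mul, integral_integral_swap (f := fun t q => U15_H L r (q, t)) hint.swap,
    mul_left_comm, ← integral_const_mul]
  congr 1
  refine integral_congr_ae (Filter.Eventually.of_forall fun q => ?_)
  simp only [U15_H, EE]
  have e2 : ∀ t : ℝ, U15_X (49/100 * L) (U15_a q.1 / L) (U15_a q.2 / L) t * (U15_w q.1 * U15_w q.2) *
      (Real.exp (-t / r) : ℂ) = (U15_X (49/100 * L) (U15_a q.1 / L) (U15_a q.2 / L) t *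
      (Real.exp (-t / r) : ℂ)) * (U15_w q.1 * U15_w q.2) := fun t => by ring
  simp_rw [e2]
  rw [integral_mul_const]
  ring

private theorem U15_XL_cont : Continuous fun q : ℝ × ℝ => XP (U15_a q.1) (U15_a q.2) * (U15_w q.1 * U15_w q.2) := by
  have h1 : Continuous fun q : ℝ × ℝ => U15_a q.1 := U15_a_cont.comp continuous_fst
  have h2 : Continuous fun q : ℝ × ℝ => U15_a q.2 := U15_a_cont.comp continuous_snd
  have h3 : Continuous fun q : ℝ × ℝ => U15_w q.1 := U15_w_cont.comp continuous_fst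
  have h4 : Continuous fun q : ℝ × ℝ => U15_w q.2 := U15_w_cont.comp continuous_snd
  have h5 : ∀ q : ℝ × ℝ, U15_a q.1 + U15_a q.2 ≠ 0 := fun q => U15_hab' q.1 q.2
  unfold XP
  refine Continuous.mul ?_ (h3.mul h4)
  refine Continuous.mul (continuous_const.div (h1.add h2) h5) ?_
  fun_prop

private theorem U15_int_of_cont {f : ℝ × ℝ → ℂ} (hcont : Continuous f) : Integrable f (U15_m.prod U15_m) := by
  have hi : IntegrableOn f (Icc 0 (2 * Real.pi) ×ˢ Icc 0 (2 * Real.pi)) (volume.prod volume) :=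
    hcont.continuousOn.integrableOn_compact (isCompact_Icc.prod isCompact_Icc)
  have h2 := hi.mono_set (prod_mono Ioc_subset_Icc_self Ioc_subset_Icc_self :
    Ioc 0 (2 * Real.pi) ×ˢ Ioc 0 (2 * Real.pi) ⊆ Icc 0 (2 * Real.pi) ×ˢ Icc 0 (2 * Real.pi))
  rw [IntegrableOn, ← Measure.prod_restrict] at h2
  exact h2

private theorem U15_val : ((2 * Real.pi : ℝ) : ℂ)⁻¹ ^ 2 * ∫ q : ℝ × ℝ,
    XP (U15_a q.1) (U15_a q.2) * (U15_w q.1 * U15_w q.2) ∂(U15_m.prod U15_m) = (D1 : ℂ) := by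
  rw [integral_prod _ (U15_int_of_cont U15_XL_cont), ← circ_eval]
  simp_rw [U15_ii]
  rfl

private theorem U15_meas {L r : ℝ} (hL : 40 ≤ L) (hr : 0 < r) :
    AEStronglyMeasurable (fun q : ℝ × ℝ =>
      EE r (U15_X (49/100 * L) (U15_a q.1 / L) (U15_a q.2 / L)) * (U15_w q.1 * U15_w q.2)) (U15_m.prod U15_m) := by
  have h1 := (U15_H_int hL hr).integral_prod_left.aestronglyMeasurable.const_mul ((r : ℂ)⁻¹)
  refine h1.congr (Filter.Eventually.of_forall fun q => ?_)
  simp only [U15_H, EE]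
  have e2 : ∀ t : ℝ, U15_X (49/100 * L) (U15_a q.1 / L) (U15_a q.2 / L) t * (U15_w q.1 * U15_w q.2) *
      (Real.exp (-t / r) : ℂ) = (U15_X (49/100 * L) (U15_a q.1 / L) (U15_a q.2 / L) t *
      (Real.exp (-t / r) : ℂ)) * (U15_w q.1 * U15_w q.2) := fun t => by ring
  simp_rw [e2]
  rw [integral_mul_const]
  ring

/-- as LS.V_mean (N = 1) -/
theorem V_mean (κ : ℝ) (hκ : 1 ≤ κ) :
    Tendsto (fun T : ℝ => ER (T / κ) (fun t => ‖LS.VV (26/25) T (1/2 - 13/10 / Real.log T + t * I) *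
      MP (1 : DirichletCharacter ℂ 1) (49/100 * Real.log T) (1/2 + t * I)‖ ^ 2)) atTop (𝓝 D1) := by
  obtain ⟨C, hC, hb⟩ := U15_bdd κ hκ
  have hκ0 : 0 < κ := by linarith
  have hlog : ∀ᶠ T : ℝ in atTop, 40 ≤ Real.log T := Real.tendsto_log_atTop.eventually_ge_atTop 40
  have hT1 : ∀ᶠ T : ℝ in atTop, 1 < T := eventually_gt_atTop 1
  have : IsFiniteMeasure (U15_m.prod U15_m) := by infer_instance
  have hlim : Tendsto (fun T : ℝ => ∫ q : ℝ × ℝ,
      EE (T / κ) (U15_X (49/100 * Real.log T) (U15_a q.1 / Real.log T) (U15_a q.2 / Real.log T)) *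
        (U15_w q.1 * U15_w q.2) ∂(U15_m.prod U15_m)) atTop
      (𝓝 (∫ q : ℝ × ℝ, XP (U15_a q.1) (U15_a q.2) * (U15_w q.1 * U15_w q.2) ∂(U15_m.prod U15_m))) := by
    refine tendsto_integral_filter_of_dominated_convergence (fun _ => C * ((31/5) * (31/5))) ?_ ?_ ?_ ?_
    · filter_upwards [hlog, hT1] with T h1 h2
      exact U15_meas h1 (by positivity)
    · filter_upwards [hb] with T h1
      refine Filter.Eventually.of_forall fun q => ?_
      rw [norm_mul, norm_mul]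
      have h3 := h1 q.1 q.2
      have h5 := U15_w_norm q.1
      have h6 := U15_w_norm q.2
      gcongr
    · exact integrable_const _
    · refine Filter.Eventually.of_forall fun q => ?_
      exact (U15_lim κ hκ q.1 q.2).mul_const _
  have h2 := hlim.const_mul (((2 * Real.pi : ℝ) : ℂ)⁻¹ ^ 2)
  rw [U15_val] at h2
  have h3 := (Complex.continuous_re.tendsto _).comp h2
  rw [ofReal_re] at h3
  refine h3.congr' ?_
  filter_upwards [hlog, hT1] with T h4 h5
  simp only [Function.comp]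
  rw [← U15_fub h5 h4 (by positivity), ofReal_re]
  rfl

end LU
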