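import Pool.Agent.Lib.MP_0f5a55_nt.V.V96
import Pool.Agent.Lib.MP_0f5a55_nt.V.V97
import Pool.Agent.Lib.MP_0f5a55_nt.S.D3
import Pool.Agent.Lib.MP_0f5a55_nt.U.U14
import Pool.Agent.Lib.MP_0f5a55_nt.U.U15
import Mathlib.Analysis.Real.Pi.Leibniz

open Complex MeasureTheory Set Filter Topology
open scoped ComplexConjugate

namespace LU

open LZ (nS)

/-- the mollifier for the trivial character -/
private noncomputable def U16_M (l : ℝ) (s : ℂ) : ℂ := MP (1 : DirichletCharacter ℂ 1) l s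

private theorem U16_Mo (i : ℕ) (l : ℝ) (s : ℂ) : Mo (1 : DirichletCharacter ℂ 1) i l s =
    ∑ S ∈ (LX.PQ 1 ⌊Real.exp l⌋₊).powerset, (cf i l S : ℂ) * (nS S : ℂ) ^ (-s) := by
  unfold Mo
  refine Finset.sum_congr rfl fun S _ => ?_
  rw [MulChar.one_apply (isUnit_of_subsingleton _), one_mul]

private theorem U16_sub {z : ℕ} {S : Finset ℕ} (hS : S ∈ (LX.PQ 1 z).powerset) :
    S ∈ (LZ.PP z).powerset := by
  rw [Finset.mem_powerset] at hS ⊢
  exact hS.trans (Finset.filter_subset _ _)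

private theorem U16_nS_ne {z : ℕ} {S : Finset ℕ} (hS : S ∈ (LX.PQ 1 z).powerset) : (nS S : ℂ) ≠ 0 := by
  have := LS.D3.Mo_pos (U16_sub hS)
  exact_mod_cast (by omega : LZ.nS S ≠ 0)

private theorem U16_Mo_diff (i : ℕ) (l : ℝ) : Differentiable ℂ (Mo (1 : DirichletCharacter ℂ 1) i l) := by
  have h : Mo (1 : DirichletCharacter ℂ 1) i l = fun s =>
      ∑ S ∈ (LX.PQ 1 ⌊Real.exp l⌋₊).powerset, (cf i l S : ℂ) * (nS S : ℂ) ^ (-s) := by
    funext s
    exact U16_Mo i l s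
  rw [h]
  refine Differentiable.fun_sum fun S hS => ?_
  refine (differentiable_const _).mul fun s => ?_
  exact DifferentiableAt.const_cpow (by fun_prop) (Or.inl (U16_nS_ne hS))

private theorem U16_M_diff (l : ℝ) : Differentiable ℂ (U16_M l) := by
  unfold U16_M MP
  exact Differentiable.fun_sum fun j _ => (differentiable_const _).mul (U16_Mo_diff j l)

private theorem U16_Mo_conj (i : ℕ) (l : ℝ) (s : ℂ) :
    Mo (1 : DirichletCharacter ℂ 1) i l (conj s) = conj (Mo (1 : DirichletCharacter ℂ 1) i l s) := by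
  rw [U16_Mo, U16_Mo, map_sum]
  refine Finset.sum_congr rfl fun S _ => ?_
  rw [map_mul, conj_ofReal]
  congr 1
  have h := cpow_conj ((nS S : ℕ) : ℂ) (-s) (by
    rw [natCast_arg]
    exact Real.pi_pos.ne)
  rw [map_neg, conj_natCast] at h
  exact h

private theorem U16_M_conj (l : ℝ) (s : ℂ) : U16_M l (conj s) = conj (U16_M l s) := by
  unfold U16_M MP
  rw [map_sum]
  refine Finset.sum_congr rfl fun j _ => ?_
  rw [map_mul, conj_ofReal, U16_Mo_conj]

private theorem U16_cf (i : ℕ) {l : ℝ} (hl : 0 < l) (S : Finset ℕ) : |cf i l S| ≤ 1 := by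
  unfold cf LS.wn
  rw [abs_mul, abs_pow, abs_neg, abs_one, one_pow, one_mul, abs_pow, abs_of_nonneg (le_max_left _ _)]
  refine pow_le_one₀ (le_max_left _ _) (max_le zero_le_one ?_)
  have : 0 ≤ Real.log (LZ.nS S) / l := div_nonneg (Real.log_natCast_nonneg _) hl.le
  linarith

private theorem U16_Mo_bd (i : ℕ) (l : ℝ) :
    ∃ C : ℝ, 0 < C ∧ ∀ s : ℂ, 0 ≤ s.re → ‖Mo (1 : DirichletCharacter ℂ 1) i l s‖ ≤ C := by
  refine ⟨(∑ S ∈ (LX.PQ 1 ⌊Real.exp l⌋₊).powerset, |cf i l S|) + 1, ?_, fun s hs => ?_⟩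
  · have : 0 ≤ ∑ S ∈ (LX.PQ 1 ⌊Real.exp l⌋₊).powerset, |cf i l S| :=
      Finset.sum_nonneg fun _ _ => abs_nonneg _
    linarith
  rw [U16_Mo]
  refine (norm_sum_le _ _).trans ?_
  have : ∑ S ∈ (LX.PQ 1 ⌊Real.exp l⌋₊).powerset, ‖(cf i l S : ℂ) * (LZ.nS S : ℂ) ^ (-s)‖ ≤
      ∑ S ∈ (LX.PQ 1 ⌊Real.exp l⌋₊).powerset, |cf i l S| := by
    refine Finset.sum_le_sum fun S hS => ?_
    have h1 := LS.D3.Mo_pos (U16_sub hS)
    rw [norm_mul, Complex.norm_real, Real.norm_eq_abs, Complex.norm_natCast_cpow_of_pos (by omega), neg_re]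
    have h2 : (LZ.nS S : ℝ) ^ (-s.re) ≤ 1 :=
      Real.rpow_le_one_of_one_le_of_nonpos (by exact_mod_cast h1) (by linarith)
    exact mul_le_of_le_one_right (abs_nonneg _) h2
  linarith

private theorem U16_M_bd (l : ℝ) : ∃ C : ℝ, 0 < C ∧ ∀ s : ℂ, 0 ≤ s.re → ‖U16_M l s‖ ≤ C := by
  choose C hC h using fun j => U16_Mo_bd j l
  refine ⟨(∑ j ∈ Finset.Icc 2 9, |cP j| * C j) + 1, ?_, fun s hs => ?_⟩
  · have : 0 ≤ ∑ j ∈ Finset.Icc 2 9, |cP j| * C j :=
      Finset.sum_nonneg fun j _ => mul_nonneg (abs_nonneg _) (hC j).le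
    linarith
  · unfold U16_M MP
    refine (norm_sum_le _ _).trans ?_
    have : ∑ j ∈ Finset.Icc 2 9, ‖(cP j : ℂ) * Mo (1 : DirichletCharacter ℂ 1) j l s‖ ≤
        ∑ j ∈ Finset.Icc 2 9, |cP j| * C j := by
      refine Finset.sum_le_sum fun j _ => ?_
      rw [norm_mul, Complex.norm_real, Real.norm_eq_abs]
      exact mul_le_mul_of_nonneg_left (h j s hs) (abs_nonneg _)
    linarith

private theorem U16_Mo_near (i : ℕ) {l : ℝ} (hl : 0 < l) {s : ℂ} (hs : 3 ≤ s.re) :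
    ‖Mo (1 : DirichletCharacter ℂ 1) i l s - 1‖ ≤ 4 * (2 : ℝ) ^ (-s.re) := by
  classical
  rw [U16_Mo]
  set P := (LX.PQ 1 ⌊Real.exp l⌋₊).powerset with hP
  have h0 : (∅ : Finset ℕ) ∈ P := Finset.empty_mem_powerset _
  rw [← Finset.add_sum_erase P _ h0]
  have h1 : (cf i l ∅ : ℂ) * ((LZ.nS ∅ : ℕ) : ℂ) ^ (-s) = 1 := by
    simp [cf, LZ.nS, LS.wn]
  rw [h1, add_sub_cancel_left]
  refine (norm_sum_le _ _).trans ?_
  have h2 : ∀ S ∈ P.erase ∅, ‖(cf i l S : ℂ) * ((LZ.nS S : ℕ) : ℂ) ^ (-s)‖ ≤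
      (((LZ.nS S - 2 : ℕ) : ℝ) + 2) ^ (-s.re) := by
    intro S hS
    have hS1 := Finset.mem_erase.1 hS
    have h3 := LS.D3.Mo_ge (U16_sub hS1.2) hS1.1
    have h4 : ((LZ.nS S - 2 : ℕ) : ℝ) + 2 = (LZ.nS S : ℝ) := by
      rw [Nat.cast_sub h3]
      push_cast
      ring
    rw [h4, norm_mul, Complex.norm_natCast_cpow_of_pos (by omega), neg_re]
    have h5 : ‖(cf i l S : ℂ)‖ ≤ 1 := by
      rw [Complex.norm_real]
      exact U16_cf i hl S
    have h7 : 0 ≤ (LZ.nS S : ℝ) ^ (-s.re) := by positivity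
    calc _ ≤ 1 * (LZ.nS S : ℝ) ^ (-s.re) := by gcongr
      _ = _ := by ring
  refine (Finset.sum_le_sum h2).trans ?_
  have h8 : ∑ S ∈ P.erase ∅, (((LZ.nS S - 2 : ℕ) : ℝ) + 2) ^ (-s.re) =
      ∑ n ∈ (P.erase ∅).image (fun S => LZ.nS S - 2), ((n : ℝ) + 2) ^ (-s.re) := by
    rw [Finset.sum_image]
    intro S hS S' hS' h
    have hS1 := Finset.mem_erase.1 (Finset.mem_coe.1 hS)
    have hS2 := Finset.mem_erase.1 (Finset.mem_coe.1 hS')
    have h3 := LS.D3.Mo_ge (U16_sub hS1.2) hS1.1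
    have h4 := LS.D3.Mo_ge (U16_sub hS2.2) hS2.1
    refine LS.D3.Mo_inj (U16_sub hS1.2) (U16_sub hS2.2) ?_
    simp only at h
    omega
  rw [h8]
  exact ((LS.D3.tail_summable hs).sum_le_tsum _ (fun n _ => by positivity)).trans (LS.D3.tail_tsum hs)

private theorem U16_cP_abs : ∑ j ∈ Finset.Icc 2 9, |cP j| ≤ 256 := by
  have h : ∀ j ∈ Finset.Icc 2 9, |cP j| ≤ (Nat.choose 8 (j - 1) : ℝ) := by
    intro j hj
    unfold cP
    rw [if_pos (Finset.mem_Icc.1 hj), abs_mul, abs_pow, abs_neg, abs_one, one_pow, one_mul, Nat.abs_cast]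
  refine (Finset.sum_le_sum h).trans ?_
  rw [← Nat.cast_sum]
  have : ∑ j ∈ Finset.Icc 2 9, Nat.choose 8 (j - 1) ≤ 256 := by decide
  exact_mod_cast this

private theorem U16_M_near {l : ℝ} (hl : 0 < l) {s : ℂ} (hs : 3 ≤ s.re) :
    ‖U16_M l s - 1‖ ≤ 1024 * (2 : ℝ) ^ (-s.re) := by
  have h1 : (1 : ℂ) = ∑ j ∈ Finset.Icc 2 9, (cP j : ℂ) := by
    rw [← Complex.ofReal_sum, cP_sum, Complex.ofReal_one]
  have h2 : U16_M l s - 1 = ∑ j ∈ Finset.Icc 2 9, (cP j : ℂ) * (Mo (1 : DirichletCharacter ℂ 1) j l s - 1) := by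
    unfold U16_M MP
    conv_lhs => rw [h1]
    rw [← Finset.sum_sub_distrib]
    exact Finset.sum_congr rfl fun j _ => by ring
  rw [h2]
  refine (norm_sum_le _ _).trans ?_
  have h3 : ∑ j ∈ Finset.Icc 2 9, ‖(cP j : ℂ) * (Mo (1 : DirichletCharacter ℂ 1) j l s - 1)‖ ≤
      ∑ j ∈ Finset.Icc 2 9, |cP j| * (4 * (2 : ℝ) ^ (-s.re)) := by
    refine Finset.sum_le_sum fun j _ => ?_
    rw [norm_mul, Complex.norm_real, Real.norm_eq_abs]
    exact mul_le_mul_of_nonneg_left (U16_Mo_near j hl hs) (abs_nonneg _)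
  refine h3.trans ?_
  rw [← Finset.sum_mul]
  have h4 : 0 ≤ 4 * (2 : ℝ) ^ (-s.re) := by positivity
  calc _ ≤ 256 * (4 * (2 : ℝ) ^ (-s.re)) := mul_le_mul_of_nonneg_right U16_cP_abs h4
    _ = _ := by ring

/-- the integrand -/
private noncomputable def U16_G (T t : ℝ) : ℝ :=
  ‖LS.VV (26/25) T (1/2 - 13/10 / Real.log T + t * I) *
    MP (1 : DirichletCharacter ℂ 1) (49/100 * Real.log T) (1/2 + t * I)‖ ^ 2

private theorem U16_G_cont {T : ℝ} (hT : 2 ≤ T) : Continuous (U16_G T) := by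
  unfold U16_G
  have hlog : 0 < Real.log T := Real.log_pos (by linarith)
  have h1 : Continuous fun t : ℝ => LS.VV (26/25) T (1/2 - 13/10 / Real.log T + t * I) := by
    rw [continuous_iff_continuousAt]
    intro t
    have hne : (1/2 - 13/10 / Real.log T + t * I : ℂ) ≠ 1 := by
      intro h
      have h2 := congrArg Complex.re h
      have h3 : (1/2 - 13/10 / Real.log T + t * I : ℂ) = ((1/2 - 13/10 / Real.log T : ℝ) : ℂ) + t * I := by
        push_cast
        ring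
      rw [h3] at h2
      simp at h2
      have h4 : 0 < 13 / 10 / Real.log T := by positivity
      linarith
    have hc : Continuous fun t : ℝ => (1/2 - 13/10 / Real.log T + t * I : ℂ) := by fun_prop
    have hv : ContinuousAt (LS.VV (26/25) T) (1/2 - 13/10 / Real.log T + t * I : ℂ) := by
      rw [LS.D3.VV_eq]
      exact (LS.D3.VF_an _ hne).continuousAt
    exact ContinuousAt.comp (f := fun t : ℝ => (1/2 - 13/10 / Real.log T + t * I : ℂ))
      (g := LS.VV (26/25) T) hv hc.continuousAt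
  have h2 : Continuous fun t : ℝ => MP (1 : DirichletCharacter ℂ 1) (49/100 * Real.log T) (1/2 + t * I) :=
    (U16_M_diff _).continuous.comp (by fun_prop : Continuous fun t : ℝ => (1/2 + t * I : ℂ))
  exact ((h1.mul h2).norm).pow 2

private theorem U16_G_even (T t : ℝ) : U16_G T (-t) = U16_G T t := by
  unfold U16_G
  have h2 : conj (2 : ℂ) = 2 := Complex.conj_ofNat 2
  have h13 : conj (13 : ℂ) = 13 := Complex.conj_ofNat 13
  have h10 : conj (10 : ℂ) = 10 := Complex.conj_ofNat 10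
  have e1 : (1/2 - 13/10 / Real.log T + (-t : ℝ) * I : ℂ) = conj (1/2 - 13/10 / Real.log T + t * I) := by
    simp only [map_add, map_sub, map_mul, map_div₀, map_one, h2, h13, h10, conj_ofReal, conj_I]
    push_cast
    ring
  have e2 : (1/2 + (-t : ℝ) * I : ℂ) = conj (1/2 + t * I) := by
    simp only [map_add, map_mul, map_div₀, map_one, h2, conj_ofReal, conj_I]
    push_cast
    ring
  have e3 : MP (1 : DirichletCharacter ℂ 1) (49/100 * Real.log T) (conj (1/2 + t * I)) =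
      conj (MP (1 : DirichletCharacter ℂ 1) (49/100 * Real.log T) (1/2 + t * I)) :=
    U16_M_conj _ _
  rw [e1, e2, LS.D3.VV_eq, LS.D3.VF_conj, e3, ← map_mul, norm_conj]

/-- pointwise bound -/
private theorem U16_cosh (K : ℕ) {x : ℝ} (hx : 0 < x) :
    (Real.cosh x)⁻¹ ≤ 2 * ∑ k ∈ Finset.range (2 * K + 1), (-1 : ℝ) ^ k * Real.exp (-((2 * k + 1) * x)) := by
  set q : ℝ := Real.exp (-(2 * x)) with hq
  have hq0 : 0 < q := Real.exp_pos _
  have h1 : ∀ k : ℕ, (-1 : ℝ) ^ k * Real.exp (-((2 * k + 1) * x)) = Real.exp (-x) * (-q) ^ k := by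
    intro k
    rw [neg_pow q k, hq, ← Real.exp_nat_mul]
    rw [show -((2 * (k:ℝ) + 1) * x) = -x + k * (-(2 * x)) by ring, Real.exp_add]
    ring
  have h2 : ∑ k ∈ Finset.range (2 * K + 1), (-1 : ℝ) ^ k * Real.exp (-((2 * k + 1) * x)) =
      Real.exp (-x) * ((1 + q ^ (2 * K + 1)) / (1 + q)) := by
    rw [Finset.sum_congr rfl fun k _ => h1 k, ← Finset.mul_sum, geom_sum_eq (by linarith)]
    congr 1
    rw [Odd.neg_pow ⟨K, rfl⟩]
    rw [div_eq_div_iff (by linarith) (by linarith)]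
    ring
  rw [h2, Real.cosh_eq]
  have h3 : (Real.exp x + Real.exp (-x)) / 2 = Real.exp x * (1 + q) / 2 := by
    rw [hq, mul_add, mul_one, ← Real.exp_add]
    ring_nf
  rw [h3]
  have h4 : (Real.exp x * (1 + q) / 2)⁻¹ = 2 * (Real.exp (-x) * (1 / (1 + q))) := by
    rw [Real.exp_neg]
    have := Real.exp_pos x
    field_simp
  rw [h4]
  gcongr
  have := pow_pos hq0 (2 * K + 1)
  linarith

/-- abstract form -/
private theorem U16_main (K : ℕ) {T : ℝ} (hT : 0 < T) {G : ℝ → ℝ} (hG : Continuous G) (hG0 : ∀ t, 0 ≤ G t)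
    (he : ∀ t, G (-t) = G t)
    (hint : ∀ k ∈ Finset.range (2 * K + 1),
      IntegrableOn (fun t => G t * Real.exp (-t / (T / (2 * (k:ℝ) + 1)))) (Ioi 0)) :
    Integrable (fun u : ℝ => G (Real.pi * T * u) * LW.sw u) ∧
    ∫ u : ℝ, G (Real.pi * T * u) * LW.sw u ≤
      4 / Real.pi * ∑ k ∈ Finset.range (2 * K + 1), (-1 : ℝ) ^ k / (2 * k + 1) *
        LZ.ER (T / (2 * (k:ℝ) + 1)) G := by
  have hpi := Real.pi_pos
  have harg : ∀ (k : ℕ) (t : ℝ), -t / (T / (2 * (k:ℝ) + 1)) = -((2 * k + 1) * (t / T)) := by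
    intro k t
    have : (2 * (k:ℝ) + 1) ≠ 0 := by positivity
    field_simp
  set F : ℝ → ℝ := fun t => G t * (Real.cosh (t / T))⁻¹ with hF
  have hFc : Continuous F :=
    hG.mul ((Real.continuous_cosh.comp (continuous_id.div_const T)).inv₀ fun t => (Real.cosh_pos _).ne')
  have hFe : ∀ t, F (-t) = F t := by
    intro t
    simp only [hF]
    rw [he, neg_div, Real.cosh_neg]
  have hF0 : ∀ t, 0 ≤ F t := fun t => mul_nonneg (hG0 t) (inv_nonneg.2 (Real.cosh_pos _).le)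
  -- integrability on the half line
  have hb : IntegrableOn (fun t => 2 * ∑ k ∈ Finset.range (2 * K + 1), (-1 : ℝ) ^ k *
      (G t * Real.exp (-t / (T / (2 * (k:ℝ) + 1))))) (Ioi 0) := by
    refine Integrable.const_mul ?_ 2
    exact integrable_finsetSum _ fun k hk => (hint k hk).const_mul _
  have hle : ∀ t ∈ Ioi (0:ℝ), F t ≤ 2 * ∑ k ∈ Finset.range (2 * K + 1), (-1 : ℝ) ^ k *
      (G t * Real.exp (-t / (T / (2 * (k:ℝ) + 1)))) := by
    intro t ht
    have h1 := U16_cosh K (x := t / T) (div_pos ht hT)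
    have h2 := mul_le_mul_of_nonneg_left h1 (hG0 t)
    refine h2.trans (le_of_eq ?_)
    rw [mul_left_comm, Finset.mul_sum]
    congr 1
    refine Finset.sum_congr rfl fun k _ => ?_
    rw [harg]
    ring
  have hFI : IntegrableOn F (Ioi 0) := by
    refine hb.mono' hFc.aestronglyMeasurable ?_
    refine (ae_restrict_iff' measurableSet_Ioi).2 (Eventually.of_forall fun t ht => ?_)
    rw [Real.norm_of_nonneg (hF0 t)]
    exact hle t ht
  have hFint : Integrable F := by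
    have h1 : IntegrableOn F (Iic 0) := by
      have h2 := (Measure.measurePreserving_neg (volume : Measure ℝ)).integrableOn_comp_preimage
        (MeasurableEquiv.neg ℝ).measurableEmbedding (f := F) (s := Ici 0)
      have h3 : F ∘ Neg.neg = F := by
        funext t
        exact hFe t
      rw [h3] at h2
      have h4 : (Neg.neg ⁻¹' Ici (0:ℝ)) = Iic 0 := by
        ext t
        simp
      rw [h4] at h2
      exact h2.2 (Iff.mpr integrableOn_Ici_iff_integrableOn_Ioi hFI)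
    have h5 : IntegrableOn F (Iic 0 ∪ Ioi 0) := h1.union hFI
    rwa [Iic_union_Ioi, integrableOn_univ] at h5
  have hFtot : ∫ t, F t = 2 * ∫ t in Ioi (0:ℝ), F t := by
    rw [← integral_comp_abs]
    refine integral_congr_ae (Eventually.of_forall fun t => ?_)
    rcases abs_choice t with h | h
    · simp only [h]
    · simp only [h]
      exact (hFe t).symm
  -- scaling
  have hsc : ∀ u : ℝ, G (Real.pi * T * u) * LW.sw u = F (Real.pi * T * u) := by
    intro u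
    simp only [hF, LW.sw]
    congr 3
    field_simp
  have hne : Real.pi * T ≠ 0 := by positivity
  refine ⟨?_, ?_⟩
  · simp_rw [hsc]
    exact (integrable_comp_mul_left_iff F hne).2 hFint
  · simp_rw [hsc]
    rw [Measure.integral_comp_mul_left F (Real.pi * T), hFtot]
    have h1 : ∫ t in Ioi (0:ℝ), F t ≤ ∫ t in Ioi (0:ℝ), 2 * ∑ k ∈ Finset.range (2 * K + 1), (-1 : ℝ) ^ k *
      (G t * Real.exp (-t / (T / (2 * (k:ℝ) + 1)))) :=
      setIntegral_mono_on hFI hb measurableSet_Ioi hle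
    have h2 : ∫ t in Ioi (0:ℝ), 2 * ∑ k ∈ Finset.range (2 * K + 1), (-1 : ℝ) ^ k *
      (G t * Real.exp (-t / (T / (2 * (k:ℝ) + 1)))) =
      2 * ∑ k ∈ Finset.range (2 * K + 1), (-1 : ℝ) ^ k *
        ((T / (2 * (k:ℝ) + 1)) * LZ.ER (T / (2 * (k:ℝ) + 1)) G) := by
      rw [integral_const_mul, integral_finsetSum _ fun k hk => (hint k hk).const_mul _]
      congr 1
      refine Finset.sum_congr rfl fun k _ => ?_
      rw [integral_const_mul]
      congr 1
      unfold LZ.ER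
      have h3 : (T / (2 * (k:ℝ) + 1)) ≠ 0 := by positivity
      rw [← mul_assoc, mul_inv_cancel₀ h3, one_mul]
    rw [h2] at h1
    rw [abs_inv, abs_of_pos (by positivity : 0 < Real.pi * T), smul_eq_mul]
    calc (Real.pi * T)⁻¹ * (2 * ∫ t in Ioi (0:ℝ), F t)
        ≤ (Real.pi * T)⁻¹ * (2 * (2 * ∑ k ∈ Finset.range (2 * K + 1), (-1 : ℝ) ^ k *
        ((T / (2 * (k:ℝ) + 1)) * LZ.ER (T / (2 * (k:ℝ) + 1)) G))) := by gcongr
      _ = 4 / Real.pi * ∑ k ∈ Finset.range (2 * K + 1), (-1 : ℝ) ^ k / (2 * k + 1) *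
        LZ.ER (T / (2 * (k:ℝ) + 1)) G := by
        rw [← mul_assoc, ← mul_assoc, Finset.mul_sum, Finset.mul_sum]
        refine Finset.sum_congr rfl fun k _ => ?_
        have h3 : (2 * (k:ℝ) + 1) ≠ 0 := by positivity
        field_simp
        ring


private theorem U16_D1 : 1 < D1 := num.1

/-- as LS.sech_mean -/
theorem sech_mean (ε : ℝ) (hε : 0 < ε) : ∃ T0 : ℝ, 2 ≤ T0 ∧ ∀ T : ℝ, T0 ≤ T →
    Integrable (fun u : ℝ => ‖LS.VV (26/25) T (1/2 - 13/10 / Real.log T + (Real.pi * T * u : ℝ) * I) *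
      MP (1 : DirichletCharacter ℂ 1) (49/100 * Real.log T) (1/2 + (Real.pi * T * u : ℝ) * I)‖ ^ 2 * LW.sw u) ∧
    ∫ u : ℝ, ‖LS.VV (26/25) T (1/2 - 13/10 / Real.log T + (Real.pi * T * u : ℝ) * I) *
      MP (1 : DirichletCharacter ℂ 1) (49/100 * Real.log T) (1/2 + (Real.pi * T * u : ℝ) * I)‖ ^ 2 * LW.sw u ≤ D1 + ε := by
  have hpi := Real.pi_pos
  have hD1 : 1 < D1 := U16_D1
  -- choice of K
  obtain ⟨K, hK⟩ : ∃ K : ℕ, 4 / Real.pi * (∑ k ∈ Finset.range (2 * K + 1), (-1 : ℝ) ^ k / (2 * k + 1)) * D1 <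
      D1 + ε := by
    have h1 := (Real.tendsto_sum_pi_div_four.const_mul (4 / Real.pi)).mul_const D1
    have h2 : 4 / Real.pi * (Real.pi / 4) * D1 < D1 + ε := by
      have : 4 / Real.pi * (Real.pi / 4) = 1 := by field_simp
      rw [this]
      linarith
    have h3 := h1.eventually_lt_const h2
    have h4 : Tendsto (fun K : ℕ => 2 * K + 1) atTop atTop :=
      tendsto_atTop_mono (fun K => by show K ≤ 2 * K + 1; omega) tendsto_id
    obtain ⟨K, hK⟩ := (h4.eventually h3).exists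
    exact ⟨K, hK⟩
  -- limit of the finite sum
  have hlim : ∀ k : ℕ, Tendsto (fun T : ℝ => LZ.ER (T / (2 * (k:ℝ) + 1)) (U16_G T)) atTop (𝓝 D1) := fun k =>
    V_mean (2 * (k:ℝ) + 1) (by linarith [Nat.cast_nonneg (α := ℝ) k])
  have hsum : Tendsto (fun T : ℝ => 4 / Real.pi * ∑ k ∈ Finset.range (2 * K + 1), (-1 : ℝ) ^ k / (2 * k + 1) *
        LZ.ER (T / (2 * (k:ℝ) + 1)) (U16_G T)) atTop
      (𝓝 (4 / Real.pi * ∑ k ∈ Finset.range (2 * K + 1), (-1 : ℝ) ^ k / (2 * k + 1) * D1)) := by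
    refine Tendsto.const_mul _ ?_
    exact tendsto_finsetSum _ fun k _ => (hlim k).const_mul _
  have hK' : 4 / Real.pi * ∑ k ∈ Finset.range (2 * K + 1), (-1 : ℝ) ^ k / (2 * k + 1) * D1 < D1 + ε := by
    rw [← Finset.sum_mul, ← mul_assoc]
    exact hK
  have hev1 := hsum.eventually_lt_const hK'
  have hev2 : ∀ᶠ T : ℝ in atTop, ∀ k ∈ Finset.range (2 * K + 1),
      0 < LZ.ER (T / (2 * (k:ℝ) + 1)) (U16_G T) := by
    rw [Filter.eventually_all_finset]
    intro k _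
    exact (hlim k).eventually_const_lt (by linarith)
  obtain ⟨T1, hT1⟩ := eventually_atTop.1 (hev1.and hev2)
  refine ⟨max T1 2, le_max_right _ _, fun T hT => ?_⟩
  obtain ⟨h1, h2⟩ := hT1 T ((le_max_left _ _).trans hT)
  have hT2 : 2 ≤ T := (le_max_right _ _).trans hT
  have hint : ∀ k ∈ Finset.range (2 * K + 1),
      IntegrableOn (fun t => U16_G T t * Real.exp (-t / (T / (2 * (k:ℝ) + 1)))) (Ioi 0) := by
    intro k hk
    by_contra hcon
    have h3 := h2 k hk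
    unfold LZ.ER at h3
    rw [integral_undef hcon, mul_zero] at h3
    exact lt_irrefl _ h3
  obtain ⟨h4, h5⟩ := U16_main K (by linarith : 0 < T) (U16_G_cont hT2) (fun t => sq_nonneg _) (U16_G_even T) hint
  exact ⟨h4, h5.trans h1.le⟩


open LW in
/-- as LS.V_zeros (LS.D3.core) -/
theorem V_zeros (ε : ℝ) (hε : 0 < ε) : ∃ T0 : ℝ, 2 ≤ T0 ∧ ∀ T : ℝ, T0 ≤ T → ∀ A : Finset ℂ,
    (∀ ρ ∈ A, LS.VV (26/25) T ρ = 0 ∧ 1/2 ≤ ρ.re ∧ 0 < ρ.im) →
    ∑ ρ ∈ A, (analyticOrderNatAt (LS.VV (26/25) T) ρ : ℝ) * (Real.cosh (ρ.im / T))⁻¹ ≤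
      T * Real.log T / 8 * ((Real.log D1 + ε) / (13/10)) := by
  have hp := Real.pi_gt_three
  have hD1p : 0 < D1 := by linarith [U16_D1]
  -- c slightly larger than D1
  obtain ⟨ε1, hε1, hlog⟩ : ∃ ε1 : ℝ, 0 < ε1 ∧ Real.log (D1 + ε1) ≤ Real.log D1 + ε / 2 := by
    refine ⟨D1 * (Real.exp (ε / 2) - 1), ?_, ?_⟩
    · have h1 : 1 < Real.exp (ε / 2) := Real.one_lt_exp_iff.2 (by linarith)
      exact mul_pos hD1p (by linarith)
    · have h1 : D1 + D1 * (Real.exp (ε / 2) - 1) = D1 * Real.exp (ε / 2) := by ring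
      rw [h1, Real.log_mul hD1p.ne' (Real.exp_ne_zero _), Real.log_exp]
  obtain ⟨T1, hT1, hmean⟩ := sech_mean ε1 hε1
  set c : ℝ := D1 + ε1 with hc
  have hc0 : 0 < c := by linarith
  have hε2 : 0 < ε / 2 := by linarith
  -- the error terms
  set D : ℝ := 13324 with hD
  have hDp : 0 < D := by positivity
  have t1 : Tendsto (fun T : ℝ => D * (2 : ℝ) ^ (-T)) atTop (𝓝 0) := by
    have h1 : Tendsto (fun T : ℝ => (2 : ℝ) ^ (-T)) atTop (𝓝 0) := by
      have h2 : Tendsto (fun T : ℝ => Real.exp (-(Real.log 2 * T))) atTop (𝓝 0) := by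
        refine Real.tendsto_exp_neg_atTop_nhds_zero.comp ?_
        exact tendsto_id.const_mul_atTop (Real.log_pos one_lt_two)
      refine h2.congr fun T => ?_
      rw [Real.rpow_def_of_pos two_pos]
      congr 1
      ring
    simpa using h1.const_mul D
  have t2 : Tendsto (fun T : ℝ => 2 / T) atTop (𝓝 0) := tendsto_const_nhds.div_atTop tendsto_id
  have t3 : Tendsto (fun T : ℝ => 13/10 / Real.log T) atTop (𝓝 0) :=
    tendsto_const_nhds.div_atTop Real.tendsto_log_atTop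
  have t4 : Tendsto (fun T : ℝ => (26/25) / Real.log T) atTop (𝓝 0) :=
    tendsto_const_nhds.div_atTop Real.tendsto_log_atTop
  have t5 : Tendsto (fun T : ℝ => 4 * (Real.log (1 + D * (2 : ℝ) ^ (-T)) -
      Real.log ((1 - 2 / T) ^ 2 * (1 - D * (2 : ℝ) ^ (-T)))) +
      (13/10 / Real.log T / T) ^ 2 * (Real.log c + ε / 2)) atTop (𝓝 0) := by
    have h1 : Tendsto (fun T : ℝ => 1 + D * (2 : ℝ) ^ (-T)) atTop (𝓝 1) := by
      simpa using t1.const_add 1
    have h2 : Tendsto (fun T : ℝ => 1 - D * (2 : ℝ) ^ (-T)) atTop (𝓝 1) := by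
      simpa using t1.const_sub 1
    have h3 : Tendsto (fun T : ℝ => 1 - 2 / T) atTop (𝓝 1) := by
      simpa using t2.const_sub 1
    have h4 : Tendsto (fun T : ℝ => (1 - 2 / T) ^ 2 * (1 - D * (2 : ℝ) ^ (-T))) atTop (𝓝 1) := by
      simpa using (h3.pow 2).mul h2
    have h5 : Tendsto (fun T : ℝ => Real.log (1 + D * (2 : ℝ) ^ (-T))) atTop (𝓝 0) := by
      simpa using h1.log one_ne_zero
    have h6 : Tendsto (fun T : ℝ => Real.log ((1 - 2 / T) ^ 2 * (1 - D * (2 : ℝ) ^ (-T)))) atTop (𝓝 0) := by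
      simpa using h4.log one_ne_zero
    have h7 : Tendsto (fun T : ℝ => 13/10 / Real.log T / T) atTop (𝓝 0) := t3.div_atTop tendsto_id
    have h8 := ((h5.sub h6).const_mul 4).add ((h7.pow 2).mul_const (Real.log c + ε / 2))
    simpa using h8
  have ev : ∀ᶠ T : ℝ in atTop, 5 ≤ T ∧ D * (2 : ℝ) ^ (-T) < 1 ∧ 13/10 / Real.log T < 1/16 ∧
      (26/25) / Real.log T < 1 ∧ 1 < Real.log T ∧
      4 * (Real.log (1 + D * (2 : ℝ) ^ (-T)) -
      Real.log ((1 - 2 / T) ^ 2 * (1 - D * (2 : ℝ) ^ (-T)))) +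
      (13/10 / Real.log T / T) ^ 2 * (Real.log c + ε / 2) < ε / 2 := by
    filter_upwards [eventually_ge_atTop (5 : ℝ), t1.eventually (gt_mem_nhds one_pos),
      t3.eventually (gt_mem_nhds (by norm_num : (0:ℝ) < 1/16)), t4.eventually (gt_mem_nhds one_pos),
      Real.tendsto_log_atTop.eventually_gt_atTop 1, t5.eventually (gt_mem_nhds hε2)] with T a1 a2 a3 a4 a5 a6
    exact ⟨a1, a2, a3, a4, a5, a6⟩
  obtain ⟨T0, hT0⟩ := eventually_atTop.1 ev
  refine ⟨max 2 (max T0 T1), le_max_left _ _, fun T hT A hA => ?_⟩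
  have hTT0 : T0 ≤ T := ((le_max_left _ _).trans (le_max_right _ _)).trans hT
  have hTT1 : T1 ≤ T := ((le_max_right _ _).trans (le_max_right _ _)).trans hT
  obtain ⟨a1, a2, a3, a4, a5, a6⟩ := hT0 T hTT0
  have hTp : 0 < T := by linarith
  have hL : 0 < Real.log T := by linarith
  set L : ℝ := Real.log T with hLdef
  set m : ℝ := (26/25) / L with hm
  have hm0 : 0 ≤ m := by positivity
  set a : ℝ := 1/2 - 13/10 / L with ha
  set δ : ℝ := D * (2 : ℝ) ^ (-T) with hδ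
  have hRL : 0 < 13/10 / L := by positivity
  set l : ℝ := 49/100 * L with hl
  have hl0 : 0 < l := by positivity
  set M : ℂ → ℂ := fun s => U16_M l (s + ((13/10 / L : ℝ) : ℂ)) with hMdef
  have hM : Differentiable ℂ M := (U16_M_diff l).comp (by fun_prop)
  have hsh : ∀ s : ℂ, (s + ((13/10 / L : ℝ) : ℂ)).re = s.re + 13/10 / L := fun s => by
    rw [Complex.add_re, Complex.ofReal_re]
  have hMb : ∃ C : ℝ, 0 < C ∧ ∀ s : ℂ, 0 ≤ s.re → ‖M s‖ ≤ C := by
    obtain ⟨C, hC, h⟩ := U16_M_bd l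
    exact ⟨C, hC, fun s hs => h _ (by rw [hsh]; linarith)⟩
  have hδs : ∀ s : ℂ, T ≤ s.re → ‖LS.D3.VF m s * M s - 1‖ ≤ δ := by
    intro s hs
    have h2 := LS.D3.V_near hm0 a4.le (s := s) (by linarith)
    have h3 : ‖M s - 1‖ ≤ 1024 * (2 : ℝ) ^ (-s.re) := by
      refine (U16_M_near hl0 (s := s + ((13/10 / L : ℝ) : ℂ)) (by rw [hsh]; linarith)).trans ?_
      rw [hsh]
      have h4 : (2 : ℝ) ^ (-(s.re + 13/10 / L)) ≤ (2 : ℝ) ^ (-s.re) :=
        Real.rpow_le_rpow_of_exponent_le (by norm_num) (by linarith)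
      gcongr
    have hv : ‖LS.D3.VF m s - 1‖ ≤ 12 * (2 : ℝ) ^ (-s.re) := h2
    set v := LS.D3.VF m s
    set w := M s
    have hpp : (0 : ℝ) < (2 : ℝ) ^ (-s.re) := by positivity
    have hp1 : (2 : ℝ) ^ (-s.re) ≤ 1 := Real.rpow_le_one_of_one_le_of_nonpos (by norm_num) (by linarith)
    have hpT : (2 : ℝ) ^ (-s.re) ≤ (2 : ℝ) ^ (-T) :=
      Real.rpow_le_rpow_of_exponent_le (by norm_num) (by linarith)
    have e : v * w - 1 = (v - 1) * (w - 1) + (v - 1) + (w - 1) := by ring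
    rw [e]
    calc ‖(v - 1) * (w - 1) + (v - 1) + (w - 1)‖ ≤ ‖v - 1‖ * ‖w - 1‖ + ‖v - 1‖ + ‖w - 1‖ := by
          refine (norm_add₃_le).trans ?_
          rw [norm_mul]
      _ ≤ (12 * (2 : ℝ) ^ (-s.re)) * (1024 * (2 : ℝ) ^ (-s.re)) + 12 * (2 : ℝ) ^ (-s.re) +
            1024 * (2 : ℝ) ^ (-s.re) := by
          gcongr
      _ = 1036 * (2 : ℝ) ^ (-s.re) + 12288 * (2 : ℝ) ^ (-s.re) * (2 : ℝ) ^ (-s.re) := by ring
      _ ≤ 1036 * (2 : ℝ) ^ (-s.re) + 12288 * (2 : ℝ) ^ (-s.re) * 1 := by gcongr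
      _ = D * (2 : ℝ) ^ (-s.re) := by
          rw [hD]
          ring
      _ ≤ D * (2 : ℝ) ^ (-T) := by gcongr
  have hmean2 : ∫ u : ℝ, ‖LS.D3.VF m (a + (Real.pi * T * u : ℝ) * I) * M (a + (Real.pi * T * u : ℝ) * I)‖ ^ 2 * sw u ≤ c := by
    refine le_trans (le_of_eq ?_) (hmean T hTT1).2
    congr 1
    funext u
    have e1 : ((a : ℝ) : ℂ) + ((Real.pi * T * u : ℝ) : ℂ) * I =
        1/2 - 13/10 / (L : ℂ) + ((Real.pi * T * u : ℝ) : ℂ) * I := by
      rw [ha]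
      push_cast
      ring
    have e2 : M ((a : ℂ) + ((Real.pi * T * u : ℝ) : ℂ) * I) = U16_M l (1/2 + ((Real.pi * T * u : ℝ) : ℂ) * I) := by
      rw [hMdef]
      simp only
      congr 1
      rw [ha]
      push_cast
      ring
    rw [e2, e1, LS.D3.VV_eq, hl, ← hLdef]
    unfold U16_M
    push_cast
    rfl
  have hcore := LS.D3.core (a := a) (T := T) (m := m) (c := c) (δ := δ) (M := M) hM hMb (by linarith) (by linarith) a1
    hm0 a4.le hc0 hmean2 hδs a2 A hA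
  have hx : (1/2 - a) / T = 13/10 / L / T := by
    rw [ha]
    ring
  rw [hx] at hcore
  set x : ℝ := 13/10 / L / T with hxdef
  have hx0 : 0 < x := by positivity
  have hx3 : x < 1/16 := by
    have h1 : x ≤ 13/10 / L := by
      rw [hxdef]
      exact div_le_self hRL.le (by linarith)
    linarith
  set S : ℝ := ∑ z ∈ A, (analyticOrderNatAt (LS.D3.VF m) z : ℝ) * (Real.cosh (z.im / T))⁻¹ with hS
  have hS0 : 0 ≤ S := Finset.sum_nonneg fun z _ => mul_nonneg (Nat.cast_nonneg _) (inv_nonneg.2 (Real.cosh_pos _).le)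
  have hsin : x * (1 - x ^ 2) ≤ Real.sin x := by
    have h1 := Real.sin_gt_sub_cube hx0
    have h2 : 0 ≤ x ^ 3 := by positivity
    have h3 : x * (1 - x ^ 2) = x - x ^ 3 := by ring
    rw [h3]
    linarith
  have h1 : 4 * (x * (1 - x ^ 2) * S) ≤ Real.log c / 2 + 2 * Real.log (1 + δ) -
      2 * Real.log ((1 - 2 / T) ^ 2 * (1 - δ)) := by
    refine le_trans ?_ hcore
    have := mul_le_mul_of_nonneg_right hsin hS0
    linarith
  have h2 : 8 * (x * (1 - x ^ 2) * S) ≤ (Real.log c + ε / 2) * (1 - x ^ 2) := by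
    nlinarith
  have hx2 : 0 < 1 - x ^ 2 := by nlinarith
  have h3 : 8 * (x * S) ≤ Real.log c + ε / 2 := by
    have h4 : (8 * (x * S)) * (1 - x ^ 2) ≤ (Real.log c + ε / 2) * (1 - x ^ 2) := by
      calc (8 * (x * S)) * (1 - x ^ 2) = 8 * (x * (1 - x ^ 2) * S) := by ring
        _ ≤ _ := h2
    exact le_of_mul_le_mul_right h4 hx2
  have h4 : 8 * (x * S) ≤ Real.log D1 + ε := by linarith
  have h5 : S = T * L / 8 * ((8 * (x * S)) / (13/10)) := by
    rw [hxdef]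
    field_simp
  have h6 : S ≤ T * L / 8 * ((Real.log D1 + ε) / (13/10)) := by
    rw [h5]
    refine mul_le_mul_of_nonneg_left ?_ (by positivity)
    exact div_le_div_of_nonneg_right h4 (by norm_num)
  exact h6

end LU
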