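import Pool.Agent.Lib.MP_0f5a55_nt.S.Arg
import Pool.Agent.Lib.MP_0f5a55_nt.U.U16

open Complex MeasureTheory Set Filter Topology
open scoped ComplexConjugate

namespace LU

private lemma U17_deriv (x : ℝ) :
    HasDerivAt (fun x : ℝ => Real.arctan (Real.sinh x)) (Real.cosh x)⁻¹ x := by
  have h := (Real.hasDerivAt_sinh x).arctan
  have e : 1 / (1 + Real.sinh x ^ 2) * Real.cosh x = (Real.cosh x)⁻¹ := by
    have h1 : 1 + Real.sinh x ^ 2 = Real.cosh x ^ 2 := by rw [Real.cosh_sq]; ring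
    have h2 : Real.cosh x ≠ 0 := (Real.cosh_pos x).ne'
    rw [h1]
    field_simp
  rw [e] at h
  exact h

private lemma U17_cosh_mono {x y : ℝ} (hx : 0 ≤ x) (hxy : x ≤ y) : Real.cosh x ≤ Real.cosh y := by
  rw [Real.cosh_le_cosh, abs_of_nonneg hx, abs_of_nonneg (hx.trans hxy)]
  exact hxy

private lemma U17_mvt {a b : ℝ} (ha : 0 ≤ a) (hab : a ≤ b) :
    Real.arctan (Real.sinh b) - Real.arctan (Real.sinh a) ≤ (Real.cosh a)⁻¹ * (b - a) := by
  refine Convex.image_sub_le_mul_sub_of_deriv_le (f := fun x : ℝ => Real.arctan (Real.sinh x))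
    (convex_Icc a b) ?_ ?_ ?_ a ⟨le_rfl, hab⟩ b ⟨hab, le_rfl⟩ hab
  · exact fun x _ => (U17_deriv x).continuousAt.continuousWithinAt
  · exact fun x _ => (U17_deriv x).differentiableAt.differentiableWithinAt
  · intro x hx
    rw [(U17_deriv x).deriv]
    have h1 := interior_subset hx
    exact inv_anti₀ (Real.cosh_pos a) (U17_cosh_mono ha h1.1)

/-- Riemann sums of sech -/
private lemma U17_part (e : ℝ) (he : 0 < e) : ∃ δ : ℝ, 0 < δ ∧ ∃ J : ℕ, 1 ≤ ((J : ℝ) + 1) * δ ∧
    Real.pi / 2 - e ≤ ∑ j ∈ Finset.range J, (Real.cosh (((j : ℝ) + 2) * δ))⁻¹ * δ := by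
  refine ⟨e / 4, by positivity, ?_⟩
  set δ := e / 4 with hδ
  have hδ0 : 0 < δ := by positivity
  have t0 : Tendsto (fun J : ℕ => ((J : ℝ) + 1) * δ) atTop atTop :=
    (tendsto_atTop_add_const_right _ _ tendsto_natCast_atTop_atTop).atTop_mul_const hδ0
  have t0' : Tendsto (fun J : ℕ => ((J : ℝ) + 2) * δ) atTop atTop :=
    (tendsto_atTop_add_const_right _ _ tendsto_natCast_atTop_atTop).atTop_mul_const hδ0
  have t1 : Tendsto (fun J : ℕ => Real.sinh (((J : ℝ) + 2) * δ)) atTop atTop := by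
    refine tendsto_atTop_mono (fun J => ?_) t0'
    exact Real.self_le_sinh_iff.2 (by positivity)
  have t2 : Tendsto (fun J : ℕ => Real.arctan (Real.sinh (((J : ℝ) + 2) * δ))) atTop (𝓝 (Real.pi / 2)) :=
    (Real.tendsto_arctan_atTop.comp t1).mono_right nhdsWithin_le_nhds
  have h1 : ∀ᶠ J : ℕ in atTop, Real.pi / 2 - e / 2 < Real.arctan (Real.sinh (((J : ℝ) + 2) * δ)) :=
    t2.eventually_const_lt (by linarith)
  have h2 : ∀ᶠ J : ℕ in atTop, 1 ≤ ((J : ℝ) + 1) * δ := t0.eventually_ge_atTop 1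
  obtain ⟨J, hJ1, hJ2⟩ := (h1.and h2).exists
  refine ⟨J, hJ2, ?_⟩
  have tel : ∑ j ∈ Finset.range J, (Real.arctan (Real.sinh ((((j + 1 : ℕ) : ℝ) + 2) * δ)) -
      Real.arctan (Real.sinh (((j : ℝ) + 2) * δ))) =
      Real.arctan (Real.sinh (((J : ℝ) + 2) * δ)) - Real.arctan (Real.sinh (2 * δ)) := by
    rw [Finset.sum_range_sub (fun j : ℕ => Real.arctan (Real.sinh (((j : ℝ) + 2) * δ)))]
    simp
  have hle : ∑ j ∈ Finset.range J, (Real.arctan (Real.sinh ((((j + 1 : ℕ) : ℝ) + 2) * δ)) -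
      Real.arctan (Real.sinh (((j : ℝ) + 2) * δ))) ≤ ∑ j ∈ Finset.range J, (Real.cosh (((j : ℝ) + 2) * δ))⁻¹ * δ := by
    refine Finset.sum_le_sum fun j _ => ?_
    have h3 := U17_mvt (a := ((j : ℝ) + 2) * δ) (b := (((j + 1 : ℕ) : ℝ) + 2) * δ) (by positivity)
      (by push_cast; nlinarith)
    have e1 : (((j + 1 : ℕ) : ℝ) + 2) * δ - ((j : ℝ) + 2) * δ = δ := by push_cast; ring
    rw [e1] at h3
    exact h3
  have h4 : Real.arctan (Real.sinh (2 * δ)) ≤ 2 * δ := by
    have h5 := U17_mvt (a := 0) (b := 2 * δ) le_rfl (by positivity)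
    simp only [Real.sinh_zero, Real.arctan_zero, sub_zero, Real.cosh_zero, inv_one, one_mul] at h5
    exact h5
  rw [tel] at hle
  have h6 : 2 * δ = e / 2 := by rw [hδ]; ring
  linarith

/-- as LS.simple_count (E1), weighted form -/
theorem simple_weight (ε : ℝ) (hε : 0 < ε) : ∃ K T0 : ℝ, 1 ≤ K ∧ 2 ≤ T0 ∧ ∀ T : ℝ, T0 ≤ T → ∃ Y : Finset ℝ,
    (∀ g ∈ Y, 0 < g ∧ g ≤ K * T ∧ riemannZeta (1/2 + g * I) = 0 ∧ deriv riemannZeta (1/2 + g * I) ≠ 0) ∧
    T * Real.log T / 4 * (1 - Real.log D1 / (13/10) - ε) ≤ ∑ g ∈ Y, (Real.cosh (g / T))⁻¹ := by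
  obtain ⟨δ, hδ, J, hK, hW⟩ := U17_part (ε / 8) (by positivity)
  obtain ⟨C, Ta, hC, hTa, hblock⟩ := LS.block_fin (26/25) (((J : ℝ) + 1) * δ) (by norm_num) (by norm_num) hK
  obtain ⟨Tb, hTb, hVz⟩ := V_zeros (ε / 4) (by positivity)
  set W : ℝ := ∑ j ∈ Finset.range J, (Real.cosh (((j : ℝ) + 2) * δ))⁻¹ * δ with hWdef
  have hW0 : 0 ≤ W := Finset.sum_nonneg fun j _ => by
    have := Real.cosh_pos (((j : ℝ) + 2) * δ)
    positivity
  set M : ℝ := |Real.log (δ / (2 * Real.pi))| with hM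
  have hpi := Real.pi_pos
  refine ⟨((J : ℝ) + 1) * δ, max (max Ta Tb) (max (1 / δ ^ 2) (max (Real.exp (16 / ε * (W * M / (2 * Real.pi)))) (16 / ε * (J * C)))),
    hK, hTa.trans ((le_max_left _ _).trans (le_max_left _ _)), fun T hT => ?_⟩
  have hT1 : Ta ≤ T := ((le_max_left _ _).trans (le_max_left _ _)).trans hT
  have hT2 : Tb ≤ T := ((le_max_right _ _).trans (le_max_left _ _)).trans hT
  have hT3 : 1 / δ ^ 2 ≤ T := ((le_max_left _ _).trans (le_max_right _ _)).trans hT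
  have hT4 : Real.exp (16 / ε * (W * M / (2 * Real.pi))) ≤ T :=
    (((le_max_left _ _).trans (le_max_right _ _)).trans (le_max_right _ _)).trans hT
  have hT5 : 16 / ε * (J * C) ≤ T :=
    (((le_max_right _ _).trans (le_max_right _ _)).trans (le_max_right _ _)).trans hT
  have hTpos : 0 < T := by linarith
  have hlog0 : 0 ≤ Real.log T := Real.log_nonneg (by linarith)
  have hsq : Real.sqrt T ≤ δ * T := by
    rw [Real.sqrt_le_left (by positivity)]
    have h1 : 1 ≤ δ ^ 2 * T := by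
      rw [div_le_iff₀ (by positivity)] at hT3
      linarith
    nlinarith
  -- blocks
  have hbl : ∀ j : ℕ, ∃ A : Finset ℂ, ∃ Y : Finset ℝ, j < J →
      ((∀ z ∈ A, LS.VV (26/25) T z = 0 ∧ 1/2 ≤ z.re ∧ ((j : ℝ) + 1) * δ * T < z.im ∧ z.im < ((j : ℝ) + 2) * δ * T) ∧
      (∀ g ∈ Y, ((j : ℝ) + 1) * δ * T < g ∧ g < ((j : ℝ) + 2) * δ * T ∧ riemannZeta (1/2 + g * I) = 0 ∧
        deriv riemannZeta (1/2 + g * I) ≠ 0) ∧
      δ * T / (2 * Real.pi) * Real.log (((j : ℝ) + 1) * δ * T / (2 * Real.pi)) -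
        2 * ∑ z ∈ A, (analyticOrderNatAt (LS.VV (26/25) T) z : ℝ) - C * Real.log T ≤ Y.card) := by
    intro j
    by_cases hj : j < J
    · have hj' : (j : ℝ) + 1 ≤ J := by exact_mod_cast hj
      have hj0 : (0 : ℝ) ≤ j := Nat.cast_nonneg j
      have hδT : 0 < δ * T := by positivity
      obtain ⟨A, Y, h1, h2, h3⟩ := hblock T hT1 (((j : ℝ) + 1) * δ * T) (((j : ℝ) + 2) * δ * T)
        (hsq.trans (by nlinarith)) (by nlinarith) (by nlinarith)
      refine ⟨A, Y, fun _ => ⟨h1, h2, ?_⟩⟩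
      have e : ((j : ℝ) + 2) * δ * T - ((j : ℝ) + 1) * δ * T = δ * T := by ring
      rw [e] at h3
      exact h3
    · exact ⟨∅, ∅, fun h => absurd h hj⟩
  choose A Y hAY using hbl
  have hdisjY : ((Finset.range J : Finset ℕ) : Set ℕ).PairwiseDisjoint Y := by
    intro i hi j hj hij
    have hi' : i < J := by simpa using hi
    have hj' : j < J := by simpa using hj
    rw [Function.onFun, Finset.disjoint_left]
    intro g hgi hgj
    have h1 := (hAY i hi').2.1 g hgi
    have h2 := (hAY j hj').2.1 g hgj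
    have hδT : 0 < δ * T := by positivity
    rcases lt_or_gt_of_ne hij with h | h
    · have h3 : (i : ℝ) + 1 ≤ j := by exact_mod_cast h
      nlinarith [h1.2.1, h2.1]
    · have h3 : (j : ℝ) + 1 ≤ i := by exact_mod_cast h
      nlinarith [h2.2.1, h1.1]
  have hdisjA : ((Finset.range J : Finset ℕ) : Set ℕ).PairwiseDisjoint A := by
    intro i hi j hj hij
    have hi' : i < J := by simpa using hi
    have hj' : j < J := by simpa using hj
    rw [Function.onFun, Finset.disjoint_left]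
    intro g hgi hgj
    have h1 := (hAY i hi').1 g hgi
    have h2 := (hAY j hj').1 g hgj
    have hδT : 0 < δ * T := by positivity
    rcases lt_or_gt_of_ne hij with h | h
    · have h3 : (i : ℝ) + 1 ≤ j := by exact_mod_cast h
      nlinarith [h1.2.2.2, h2.2.2.1]
    · have h3 : (j : ℝ) + 1 ≤ i := by exact_mod_cast h
      nlinarith [h2.2.2.2, h1.2.2.1]
  have hVA := hVz T hT2 ((Finset.range J).biUnion A) (by
    intro ρ hρ
    rw [Finset.mem_biUnion] at hρ
    obtain ⟨j, hj, hρj⟩ := hρ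
    have h1 := (hAY j (Finset.mem_range.1 hj)).1 ρ hρj
    refine ⟨h1.1, h1.2.1, lt_trans ?_ h1.2.2.1⟩
    positivity)
  rw [Finset.sum_biUnion hdisjA] at hVA
  refine ⟨(Finset.range J).biUnion Y, ?_, ?_⟩
  · intro g hg
    rw [Finset.mem_biUnion] at hg
    obtain ⟨j, hj, hgj⟩ := hg
    have hj' := Finset.mem_range.1 hj
    have h1 := (hAY j hj').2.1 g hgj
    have hj1 : (j : ℝ) + 1 ≤ J := by exact_mod_cast hj'
    have hδT : 0 < δ * T := by positivity
    refine ⟨lt_trans ?_ h1.1, h1.2.1.le.trans ?_, h1.2.2⟩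
    · positivity
    · nlinarith
  rw [Finset.sum_biUnion hdisjY]
  -- one block
  have hone : ∀ j ∈ Finset.range J, (Real.cosh (((j : ℝ) + 2) * δ))⁻¹ * δ * (T / (2 * Real.pi) * (Real.log T - M)) -
      C * Real.log T - 2 * ∑ z ∈ A j, (analyticOrderNatAt (LS.VV (26/25) T) z : ℝ) * (Real.cosh (z.im / T))⁻¹ ≤
      ∑ g ∈ Y j, (Real.cosh (g / T))⁻¹ := by
    intro j hj
    have hj' := Finset.mem_range.1 hj
    obtain ⟨hA, hY, hc⟩ := hAY j hj'
    set w : ℝ := (Real.cosh (((j : ℝ) + 2) * δ))⁻¹ with hw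
    have hw0 : 0 < w := by
      have := Real.cosh_pos (((j : ℝ) + 2) * δ)
      positivity
    have hw1 : w ≤ 1 := by
      rw [hw]
      exact inv_le_one_of_one_le₀ (Real.one_le_cosh _)
    have hj0 : (0 : ℝ) ≤ j := Nat.cast_nonneg j
    have hwt : ∀ y : ℝ, 0 < y → y < ((j : ℝ) + 2) * δ * T → w ≤ (Real.cosh (y / T))⁻¹ := by
      intro y hy0 hy
      refine inv_anti₀ (Real.cosh_pos _) (U17_cosh_mono (by positivity) ?_)
      rw [div_le_iff₀ hTpos]
      exact hy.le
    have hpos1 : 0 < ((j : ℝ) + 1) * δ * T := by positivity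
    have s1 : w * (Y j).card ≤ ∑ g ∈ Y j, (Real.cosh (g / T))⁻¹ := by
      have : ∑ g ∈ Y j, w ≤ ∑ g ∈ Y j, (Real.cosh (g / T))⁻¹ :=
        Finset.sum_le_sum fun g hg => hwt g (hpos1.trans (hY g hg).1) (hY g hg).2.1
      rw [Finset.sum_const, nsmul_eq_mul] at this
      linarith
    have s2 : w * ∑ z ∈ A j, (analyticOrderNatAt (LS.VV (26/25) T) z : ℝ) ≤
        ∑ z ∈ A j, (analyticOrderNatAt (LS.VV (26/25) T) z : ℝ) * (Real.cosh (z.im / T))⁻¹ := by
      rw [Finset.mul_sum]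
      refine Finset.sum_le_sum fun z hz => ?_
      rw [mul_comm]
      exact mul_le_mul_of_nonneg_left (hwt z.im (hpos1.trans (hA z hz).2.2.1) (hA z hz).2.2.2) (Nat.cast_nonneg _)
    have s3 : Real.log T - M ≤ Real.log (((j : ℝ) + 1) * δ * T / (2 * Real.pi)) := by
      have e1 : ((j : ℝ) + 1) * δ * T / (2 * Real.pi) = ((j : ℝ) + 1) * (T * (δ / (2 * Real.pi))) := by ring
      have h1 : 0 < δ / (2 * Real.pi) := by positivity
      rw [e1, Real.log_mul (by positivity) (by positivity), Real.log_mul hTpos.ne' h1.ne']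
      have h2 : 0 ≤ Real.log ((j : ℝ) + 1) := Real.log_nonneg (by linarith)
      have h3 := neg_abs_le (Real.log (δ / (2 * Real.pi)))
      rw [← hM] at h3
      linarith
    have s4 : w * (δ * T / (2 * Real.pi) * (Real.log T - M)) ≤
        w * (δ * T / (2 * Real.pi) * Real.log (((j : ℝ) + 1) * δ * T / (2 * Real.pi))) := by
      refine mul_le_mul_of_nonneg_left (mul_le_mul_of_nonneg_left s3 ?_) hw0.le
      positivity
    have s5 : w * (C * Real.log T) ≤ C * Real.log T := by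
      have : 0 ≤ C * Real.log T := by positivity
      nlinarith
    have s6 := mul_le_mul_of_nonneg_left hc hw0.le
    have e2 : w * (δ * T / (2 * Real.pi) * Real.log (((j : ℝ) + 1) * δ * T / (2 * Real.pi)) -
        2 * ∑ z ∈ A j, (analyticOrderNatAt (LS.VV (26/25) T) z : ℝ) - C * Real.log T) =
        w * (δ * T / (2 * Real.pi) * Real.log (((j : ℝ) + 1) * δ * T / (2 * Real.pi))) -
        2 * (w * ∑ z ∈ A j, (analyticOrderNatAt (LS.VV (26/25) T) z : ℝ)) - w * (C * Real.log T) := by ring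
    rw [e2] at s6
    have e3 : w * δ * (T / (2 * Real.pi) * (Real.log T - M)) = w * (δ * T / (2 * Real.pi) * (Real.log T - M)) := by
      ring
    rw [e3]
    linarith
  refine le_trans ?_ (Finset.sum_le_sum hone)
  rw [Finset.sum_sub_distrib, Finset.sum_sub_distrib, ← Finset.sum_mul, ← hWdef,
    Finset.sum_const, Finset.card_range, nsmul_eq_mul, ← Finset.mul_sum]
  -- numerics
  have n1 : W * (T / (2 * Real.pi) * M) ≤ ε / 16 * (T * Real.log T) := by
    have h1 : 16 / ε * (W * M / (2 * Real.pi)) ≤ Real.log T := by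
      rwa [Real.le_log_iff_exp_le hTpos]
    have h2 : W * M / (2 * Real.pi) ≤ ε / 16 * Real.log T := by
      have e4 : 16 / ε * (W * M / (2 * Real.pi)) = (W * M / (2 * Real.pi)) / (ε / 16) := by
        field_simp
      rw [e4, div_le_iff₀ (by positivity)] at h1
      linarith
    have h3 := mul_le_mul_of_nonneg_right h2 hTpos.le
    calc W * (T / (2 * Real.pi) * M) = W * M / (2 * Real.pi) * T := by ring
      _ ≤ _ := h3
      _ = _ := by ring
  have n2 : (J : ℝ) * (C * Real.log T) ≤ ε / 16 * (T * Real.log T) := by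
    have h2 : (J : ℝ) * C ≤ ε / 16 * T := by
      have e4 : 16 / ε * ((J : ℝ) * C) = ((J : ℝ) * C) / (ε / 16) := by
        field_simp
      rw [e4, div_le_iff₀ (by positivity)] at hT5
      linarith
    have h3 := mul_le_mul_of_nonneg_right h2 hlog0
    calc (J : ℝ) * (C * Real.log T) = (J : ℝ) * C * Real.log T := by ring
      _ ≤ _ := h3
      _ = _ := by ring
  have hTL : 0 ≤ T * Real.log T := by positivity
  have n3 : (Real.pi / 2 - ε / 8) * (T / (2 * Real.pi) * Real.log T) ≤ W * (T / (2 * Real.pi) * Real.log T) :=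
    mul_le_mul_of_nonneg_right hW (by positivity)
  have n4 : (1/4 - ε / 48) * (T * Real.log T) ≤ (Real.pi / 2 - ε / 8) * (T / (2 * Real.pi) * Real.log T) := by
    have e5 : (Real.pi / 2 - ε / 8) * (T / (2 * Real.pi) * Real.log T) =
        (1/4 - ε / (16 * Real.pi)) * (T * Real.log T) := by
      field_simp
      ring
    rw [e5]
    refine mul_le_mul_of_nonneg_right ?_ hTL
    have h1 : ε / (16 * Real.pi) ≤ ε / 48 := by
      apply div_le_div_of_nonneg_left hε.le (by norm_num)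
      have := Real.pi_gt_three
      linarith
    linarith
  have n5 : 2 * ∑ j ∈ Finset.range J, ∑ z ∈ A j, (analyticOrderNatAt (LS.VV (26/25) T) z : ℝ) *
      (Real.cosh (z.im / T))⁻¹ ≤ T * Real.log T / 4 * ((Real.log D1 + ε / 4) / (13/10)) := by
    calc _ ≤ 2 * (T * Real.log T / 8 * ((Real.log D1 + ε / 4) / (13/10))) := by linarith
      _ = _ := by ring
  have e6 : W * (T / (2 * Real.pi) * (Real.log T - M)) =
      W * (T / (2 * Real.pi) * Real.log T) - W * (T / (2 * Real.pi) * M) := by ring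
  rw [e6]
  have fin : T * Real.log T / 4 * (1 - Real.log D1 / (13/10) - ε) ≤
      (1/4 - ε / 48) * (T * Real.log T) - ε / 16 * (T * Real.log T) - ε / 16 * (T * Real.log T) -
        T * Real.log T / 4 * ((Real.log D1 + ε / 4) / (13/10)) := by
    have h1 : (1/4 - ε / 48) * (T * Real.log T) - ε / 16 * (T * Real.log T) - ε / 16 * (T * Real.log T) -
        T * Real.log T / 4 * ((Real.log D1 + ε / 4) / (13/10)) -
        T * Real.log T / 4 * (1 - Real.log D1 / (13/10) - ε) = (1/4 - 1/48 - 1/8 - 1/16/(13/10)) * ε * (T * Real.log T) := by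
      ring
    have h2 : 0 ≤ (1/4 - 1/48 - 1/8 - 1/16/(13/10)) * ε * (T * Real.log T) := by
      have : (0 : ℝ) ≤ 1/4 - 1/48 - 1/8 - 1/16/(13/10) := by norm_num
      positivity
    linarith
  linarith

end LU
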