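import Pool.Agent.Lib.MP_0f5a55_nt.U.U12
import Pool.Agent.Lib.MP_0f5a55_nt.U.U13
import Pool.Agent.Lib.MP_0f5a55_nt.U.U14
import Pool.Agent.Lib.MP_0f5a55_nt.V.V11
import Pool.Agent.Lib.MP_0f5a55_nt.V.V18
import Pool.Agent.Lib.MP_0f5a55_nt.V.V56

open Complex MeasureTheory Set Filter Topology
open scoped ComplexConjugate

namespace LU

open LZ (nS EE ER)

variable {N : ℕ} [NeZero N]

private lemma U18_Mo_conj (χ : DirichletCharacter ℂ N) (i : ℕ) (l : ℝ) (s : ℂ) :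
    Mo χ⁻¹ i l (conj s) = conj (Mo χ i l s) := by
  unfold Mo
  rw [map_sum]
  refine Finset.sum_congr rfl fun S hS => ?_
  rw [map_mul, map_mul, Complex.conj_ofReal, LX.inv_apply]
  congr 2
  have hn := LX.nS_pos' hS
  rw [← map_neg]
  have h := Complex.cpow_conj (nS S : ℂ) (-s) (by
    rw [Complex.natCast_arg]
    exact Real.pi_pos.ne)
  rw [Complex.conj_natCast] at h
  rw [h]

private lemma U18_Mo_bound (χ : DirichletCharacter ℂ N) (i : ℕ) (l : ℝ) : ∃ M : ℝ, 0 ≤ M ∧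
    ∀ s : ℂ, 0 ≤ s.re → ‖Mo χ i l s‖ ≤ M := by
  refine ⟨∑ S ∈ (LX.PQ N ⌊Real.exp l⌋₊).powerset, |cf i l S|, Finset.sum_nonneg fun S _ => abs_nonneg _,
    fun s hs => ?_⟩
  unfold Mo
  refine (norm_sum_le _ _).trans (Finset.sum_le_sum fun S hS => ?_)
  rw [norm_mul, norm_mul, Complex.norm_real, Real.norm_eq_abs]
  have hn := LX.nS_pos' hS
  have h1 : ‖(nS S : ℂ) ^ (-s)‖ ≤ 1 := by
    rw [Complex.norm_natCast_cpow_of_pos hn]
    exact Real.rpow_le_one_of_one_le_of_nonpos (by exact_mod_cast hn) (by rw [neg_re]; linarith)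
  calc |cf i l S| * (‖χ (nS S : ℕ)‖ * ‖(nS S : ℂ) ^ (-s)‖) ≤ |cf i l S| * (1 * 1) := by
        gcongr
        exact LX.norm_char_le χ _
    _ = |cf i l S| := by ring

private lemma U18_Mo_cont (χ : DirichletCharacter ℂ N) (i : ℕ) (l : ℝ) : Continuous (Mo χ i l) := by
  unfold Mo
  refine continuous_finsetSum _ fun S hS => ?_
  have hn := LX.nS_pos' hS
  have h0 : (nS S : ℂ) ≠ 0 := by exact_mod_cast hn.ne'
  exact continuous_const.mul (continuous_const.mul (Continuous.const_cpow continuous_neg (Or.inl h0)))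

/-- the shift -/
private noncomputable def U18_al (L : ℝ) : ℂ := (-3/4 : ℂ) / L

private lemma U18_re (L : ℝ) (t : ℝ) : (1/2 + U18_al L + t * I : ℂ).re = 1/2 - 3/4 / L := by
  have h1 : (U18_al L).re = -3/4 / L := by
    unfold U18_al
    rw [div_ofReal_re]
    norm_num
  simp only [add_re, mul_re, ofReal_re, I_re, ofReal_im, I_im, h1]
  have h2 : (1 / 2 : ℂ).re = 1/2 := by norm_num
  rw [h2]
  ring

private lemma U18_re' (L : ℝ) (t : ℝ) : (1/2 + U18_al L - t * I : ℂ).re = 1/2 - 3/4 / L := by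
  have h := U18_re L (-t)
  have e : (1/2 + U18_al L + ((-t : ℝ) : ℂ) * I) = 1/2 + U18_al L - t * I := by push_cast; ring
  rwa [e] at h

private lemma U18_im (L : ℝ) (t : ℝ) : (1/2 + U18_al L + t * I : ℂ).im = t := by
  have h1 : (U18_al L).im = 0 := by
    unfold U18_al
    rw [div_ofReal_im]
    norm_num
  simp only [add_im, mul_im, ofReal_re, I_re, ofReal_im, I_im, h1]
  have h2 : (1 / 2 : ℂ).im = 0 := by norm_num
  rw [h2]
  ring

private lemma U18_conj (L : ℝ) (t : ℝ) : conj (1/2 + U18_al L + t * I : ℂ) = 1/2 + U18_al L - t * I := by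
  have h2 : conj (2 : ℂ) = 2 := Complex.conj_ofNat 2
  have h3 : conj (3 : ℂ) = 3 := Complex.conj_ofNat 3
  have h4 : conj (4 : ℂ) = 4 := Complex.conj_ofNat 4
  unfold U18_al
  simp only [map_add, map_mul, map_div₀, map_neg, map_one, h2, h3, h4, conj_ofReal, conj_I]
  ring

private lemma U18_sm {L : ℝ} (hL : 1500 ≤ L) : 0 ≤ 3/4 / L ∧ 3/4 / L ≤ 1/1000 := by
  have hL0 : 0 < L := by linarith
  refine ⟨by positivity, ?_⟩
  rw [div_le_iff₀ hL0]
  linarith

private lemma U18_ne {s : ℂ} (hs : s.re ≤ 1/2) : s ≠ 1 := by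
  rintro rfl
  rw [one_re] at hs
  linarith

private lemma U18_far {s : ℂ} (hs : s.re ≤ 1/2) : 1/4 ≤ ‖s - 1‖ := by
  have h1 : |(s - 1).re| ≤ ‖s - 1‖ := abs_re_le_norm _
  rw [sub_re, one_re, abs_of_nonpos (by linarith)] at h1
  linarith

private lemma U18_Lf_cont (χ : DirichletCharacter ℂ N) {g : ℝ → ℂ} (hg : Continuous g) (h : ∀ t, (g t).re ≤ 1/2) :
    Continuous fun t => LX.Lf χ (g t) := by
  rw [continuous_iff_continuousAt]
  intro t
  exact ContinuousAt.comp (g := LX.Lf χ) (f := g)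
    (DirichletCharacter.differentiableAt_LFunction χ (g t) (Or.inl (U18_ne (h t)))).continuousAt hg.continuousAt

private lemma U18_int (χ ψ : DirichletCharacter ℂ N) (i j : ℕ) (l L T : ℝ) (hL : 1500 ≤ L) (hT : 0 < T) :
    IntegrableOn (fun t : ℝ => XI χ ψ i j l (U18_al L) (U18_al L) t * (Real.exp (-t / T) : ℂ)) (Ioi (0:ℝ)) := by
  obtain ⟨hs0, hs1⟩ := U18_sm hL
  obtain ⟨C1, hC1, hz1⟩ := LP.per_pol (fun a => χ a)
  obtain ⟨C2, hC2, hz2⟩ := LP.per_pol (fun a => ψ a)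
  obtain ⟨M1, hM1, hm1⟩ := U18_Mo_bound χ i l
  obtain ⟨M2, hM2, hm2⟩ := U18_Mo_bound ψ j l
  have hcont : Continuous (fun t : ℝ => XI χ ψ i j l (U18_al L) (U18_al L) t * (Real.exp (-t / T) : ℂ)) := by
    unfold XI
    have c1 := U18_Lf_cont χ (g := fun t : ℝ => 1/2 + U18_al L + t * I) (by fun_prop)
      (fun t => by rw [U18_re]; linarith)
    have c2 := U18_Lf_cont ψ (g := fun t : ℝ => 1/2 + U18_al L - t * I) (by fun_prop)
      (fun t => by rw [U18_re']; linarith)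
    have c3 : Continuous (fun t : ℝ => Mo χ i l (1/2 + t * I)) := (U18_Mo_cont χ i l).comp (by fun_prop)
    have c4 : Continuous (fun t : ℝ => Mo ψ j l (1/2 - t * I)) := (U18_Mo_cont ψ j l).comp (by fun_prop)
    have c5 : Continuous (fun t : ℝ => (Real.exp (-t / T) : ℂ)) := by fun_prop
    exact ((c1.mul c2).mul (c3.mul c4)).mul c5
  have hdom : IntegrableOn (fun t : ℝ => (C1 * (1 + 4 * T)) * (C2 * (1 + 4 * T)) * (M1 * M2) *
      Real.exp (-(1 / (2 * T)) * t)) (Ioi (0:ℝ)) :=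
    (exp_neg_integrableOn_Ioi 0 (by positivity)).const_mul _
  refine Integrable.mono' hdom hcont.aestronglyMeasurable ?_
  filter_upwards [ae_restrict_mem measurableSet_Ioi] with t ht
  have ht0 : (0:ℝ) < t := ht
  have hb1 : ‖LX.Lf χ (1/2 + U18_al L + t * I)‖ ≤ C1 * (1 + t) := by
    have h := hz1 (1/2 + U18_al L + t * I) (by rw [U18_re]; linarith) (U18_far (by rw [U18_re]; linarith))
    rw [U18_im, abs_of_pos ht0] at h
    exact h
  have hb2 : ‖LX.Lf ψ (1/2 + U18_al L - t * I)‖ ≤ C2 * (1 + t) := by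
    have e : (1/2 + U18_al L + ((-t : ℝ) : ℂ) * I) = 1/2 + U18_al L - t * I := by push_cast; ring
    have h := hz2 (1/2 + U18_al L + ((-t : ℝ) : ℂ) * I) (by rw [U18_re]; linarith)
      (U18_far (by rw [U18_re]; linarith))
    rw [U18_im, abs_neg, abs_of_pos ht0, e] at h
    exact h
  have hb3 : ‖Mo χ i l (1/2 + t * I)‖ ≤ M1 := hm1 _ (by simp)
  have hb4 : ‖Mo ψ j l (1/2 - t * I)‖ ≤ M2 := hm2 _ (by simp)
  have hlin : 1 + t ≤ (1 + 4 * T) * Real.exp (t / (4 * T)) := by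
    have h1 : t / (4 * T) + 1 ≤ Real.exp (t / (4 * T)) := Real.add_one_le_exp _
    have h2 : (1 + 4 * T) * (t / (4 * T) + 1) ≤ (1 + 4 * T) * Real.exp (t / (4 * T)) :=
      mul_le_mul_of_nonneg_left h1 (by positivity)
    have h3 : 1 + t ≤ (1 + 4 * T) * (t / (4 * T) + 1) := by
      have h4 : (1 + 4 * T) * (t / (4 * T) + 1) = 1 + 4 * T + t / (4 * T) + t := by
        field_simp
        ring
      rw [h4]
      have : 0 ≤ t / (4 * T) := by positivity
      linarith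
    linarith
  unfold XI
  rw [norm_mul, norm_mul, norm_mul, norm_mul]
  have n3 : ‖((Real.exp (-t / T) : ℝ) : ℂ)‖ = Real.exp (-t / T) := by
    rw [Complex.norm_real, Real.norm_eq_abs, abs_of_pos (Real.exp_pos _)]
  rw [n3]
  calc ‖LX.Lf χ (1/2 + U18_al L + t * I)‖ * ‖LX.Lf ψ (1/2 + U18_al L - t * I)‖ *
        (‖Mo χ i l (1/2 + t * I)‖ * ‖Mo ψ j l (1/2 - t * I)‖) * Real.exp (-t / T)
      ≤ (C1 * ((1 + 4 * T) * Real.exp (t / (4 * T)))) * (C2 * ((1 + 4 * T) * Real.exp (t / (4 * T)))) *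
        (M1 * M2) * Real.exp (-t / T) := by
        gcongr
        · exact hb1.trans (mul_le_mul_of_nonneg_left hlin hC1.le)
        · exact hb2.trans (mul_le_mul_of_nonneg_left hlin hC2.le)
    _ = (C1 * (1 + 4 * T)) * (C2 * (1 + 4 * T)) * (M1 * M2) *
        (Real.exp (t / (4 * T)) * Real.exp (t / (4 * T)) * Real.exp (-t / T)) := by ring
    _ = _ := by
        rw [← Real.exp_add, ← Real.exp_add]
        congr 2
        field_simp
        ring

/-- the expansion of the square -/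
private lemma U18_exp {m : ℕ} (X : Fin m → DirichletCharacter ℂ N) (hr : ∀ j, (X j)⁻¹ = X j) (L l : ℝ)
    (hL : 1500 ≤ L) (t : ℝ) :
    ((‖(m : ℂ)⁻¹ * ∑ j, LX.Lf (X j) (1/2 - 3/4 / L + t * I) * MP (X j) l (1/2 + t * I)‖ ^ 2 : ℝ) : ℂ) =
      ∑ p ∈ (Finset.univ : Finset (Fin m × Fin m)) ×ˢ (Finset.Icc 2 9 ×ˢ Finset.Icc 2 9),
        ((m : ℂ)⁻¹ ^ 2 * ((cP p.2.1 : ℂ) * (cP p.2.2 : ℂ))) *
          XI (X p.1.1) (X p.1.2) p.2.1 p.2.2 l (U18_al L) (U18_al L) t := by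
  obtain ⟨hs0, hs1⟩ := U18_sm hL
  have e1 : (1/2 - 3/4 / L + t * I : ℂ) = 1/2 + U18_al L + t * I := by
    unfold U18_al
    ring
  rw [e1]
  set z : ℂ := (m : ℂ)⁻¹ * ∑ j, LX.Lf (X j) (1/2 + U18_al L + t * I) * MP (X j) l (1/2 + t * I) with hz
  have hzz : ((‖z‖ ^ 2 : ℝ) : ℂ) = z * conj z := by
    rw [Complex.mul_conj, Complex.normSq_eq_norm_sq]
  have h2 : conj (2 : ℂ) = 2 := Complex.conj_ofNat 2
  have hcz : conj z = (m : ℂ)⁻¹ * ∑ k, LX.Lf (X k) (1/2 + U18_al L - t * I) *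
      ∑ i ∈ Finset.Icc 2 9, (cP i : ℂ) * Mo (X k) i l (1/2 - t * I) := by
    rw [hz, map_mul, map_inv₀, Complex.conj_natCast, map_sum]
    congr 1
    refine Finset.sum_congr rfl fun k _ => ?_
    have hne : (1/2 + U18_al L + t * I : ℂ) ≠ 1 := U18_ne (by rw [U18_re]; linarith)
    rw [map_mul, ← (LP.conj_facts (X k) (X k)).1 _ hne, U18_conj, hr k]
    congr 1
    unfold MP
    rw [map_sum]
    refine Finset.sum_congr rfl fun i _ => ?_
    rw [map_mul, Complex.conj_ofReal, ← U18_Mo_conj, hr k]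
    congr 2
    simp only [map_add, map_mul, map_div₀, map_one, h2, conj_ofReal, conj_I]
    ring
  rw [hzz, hcz, hz]
  unfold MP XI
  simp only [Finset.mul_sum, Finset.sum_mul]
  rw [Finset.sum_product]
  simp only [Finset.sum_product, Fintype.sum_prod_type]
  refine Eq.trans ?_ Finset.sum_comm
  refine Finset.sum_congr rfl fun k _ => ?_
  rw [Finset.sum_comm]
  refine Finset.sum_congr rfl fun j _ => ?_
  rw [Finset.sum_comm]
  refine Finset.sum_congr rfl fun i _ => Finset.sum_congr rfl fun i' _ => ?_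
  ring

/-- linearity of EE -/
private lemma U18_EE {ι : Type*} (P : Finset ι) (c : ι → ℂ) (f : ι → ℝ → ℂ) (T : ℝ)
    (hf : ∀ p ∈ P, IntegrableOn (fun t : ℝ => f p t * (Real.exp (-t / T) : ℂ)) (Ioi (0:ℝ))) :
    EE T (fun t => ∑ p ∈ P, c p * f p t) = ∑ p ∈ P, c p * EE T (f p) := by
  unfold EE
  have h1 : (fun t : ℝ => (∑ p ∈ P, c p * f p t) * (Real.exp (-t / T) : ℂ)) =
      fun t : ℝ => ∑ p ∈ P, c p * (f p t * (Real.exp (-t / T) : ℂ)) := by
    funext t
    rw [Finset.sum_mul]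
    exact Finset.sum_congr rfl fun p _ => by ring
  rw [h1, integral_finsetSum _ (fun p hp => (hf p hp).const_mul (c p)), Finset.mul_sum]
  refine Finset.sum_congr rfl fun p _ => ?_
  rw [integral_const_mul]
  ring

private lemma U18_ER (T : ℝ) (f : ℝ → ℝ) : ((ER T f : ℝ) : ℂ) = EE T (fun t => (f t : ℂ)) := by
  unfold ER EE
  rw [ofReal_mul, ofReal_inv, ← integral_complex_ofReal]
  congr 2
  funext t
  push_cast
  rfl

/-- mean square of the average of m mollified L-functions of distinct real characters mod N -/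
theorem avg_mean {m : ℕ} (hm : 1 ≤ m) (X : Fin m → DirichletCharacter ℂ N) (hX : Function.Injective X)
    (hr : ∀ j, (X j)⁻¹ = X j) (κ : ℝ) (hκ : 1 ≤ κ) :
    Tendsto (fun T : ℝ => ER (T / κ) (fun t => ‖(m : ℂ)⁻¹ * ∑ j, LX.Lf (X j) (1/2 - 3/4 / Real.log T + t * I) *
      MP (X j) (49/100 * Real.log T) (1/2 + t * I)‖ ^ 2)) atTop (𝓝 (1 + (c1 - 1) / m)) := by
  have hk0 : 0 < κ := by linarith
  have hm0 : (m : ℂ) ≠ 0 := by exact_mod_cast (by omega : m ≠ 0)
  set P := (Finset.univ : Finset (Fin m × Fin m)) ×ˢ (Finset.Icc 2 9 ×ˢ Finset.Icc 2 9) with hP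
  set lim : (Fin m × Fin m) × (ℕ × ℕ) → ℂ := fun p =>
    if p.1.1 = p.1.2 then XL p.2.1 p.2.2 (-3/4) (-3/4) else 1 with hlim
  have h34 : ‖(-3/4 : ℂ)‖ ≤ 3/2 := by norm_num
  have h34' : (-3/4 : ℂ) + -3/4 ≠ 0 := by norm_num
  have hT : ∀ p ∈ P, Tendsto (fun T : ℝ => EE (T / κ) (XI (X p.1.1) (X p.1.2) p.2.1 p.2.2
      (49/100 * Real.log T) (U18_al (Real.log T)) (U18_al (Real.log T)))) atTop (𝓝 (lim p)) := by
    rintro ⟨⟨j, k⟩, ⟨i, i'⟩⟩ hp
    rw [hP, Finset.mem_product, Finset.mem_product, Finset.mem_Icc, Finset.mem_Icc] at hp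
    obtain ⟨-, ⟨hi, -⟩, ⟨hi', -⟩⟩ := hp
    simp only at hi hi'
    by_cases hjk : j = k
    · have h1 : X j * X k = 1 := by
        rw [← hjk]
        nth_rewrite 2 [← hr j]
        exact mul_inv_cancel _
      have h2 := mean_lim_diag (X j) (X k) h1 i i' hi hi' κ hκ (-3/4) (-3/4) h34 h34 h34'
      simp only [hlim, hjk, if_true]
      rw [hjk] at h2
      exact h2
    · have h1 : X j * X k ≠ 1 := by
        intro h
        apply hjk
        apply hX
        rw [← hr k]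
        exact eq_inv_of_mul_eq_one_left h
      have h2 := mean_lim_off (X j) (X k) h1 i i' hi hi' κ hκ (-3/4) (-3/4) h34 h34 h34'
      simp only [hlim, hjk, if_false]
      exact h2
  have hsum : Tendsto (fun T : ℝ => ∑ p ∈ P, ((m : ℂ)⁻¹ ^ 2 * ((cP p.2.1 : ℂ) * (cP p.2.2 : ℂ))) *
      EE (T / κ) (XI (X p.1.1) (X p.1.2) p.2.1 p.2.2
      (49/100 * Real.log T) (U18_al (Real.log T)) (U18_al (Real.log T)))) atTop
      (𝓝 (∑ p ∈ P, ((m : ℂ)⁻¹ ^ 2 * ((cP p.2.1 : ℂ) * (cP p.2.2 : ℂ))) * lim p)) :=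
    tendsto_finsetSum _ fun p hp => (hT p hp).const_mul _
  have hval : ∑ p ∈ P, ((m : ℂ)⁻¹ ^ 2 * ((cP p.2.1 : ℂ) * (cP p.2.2 : ℂ))) * lim p =
      ((1 + (c1 - 1) / m : ℝ) : ℂ) := by
    have h1 : ∀ q : Fin m × Fin m, ∑ r ∈ Finset.Icc 2 9 ×ˢ Finset.Icc 2 9,
        ((m : ℂ)⁻¹ ^ 2 * ((cP r.1 : ℂ) * (cP r.2 : ℂ))) * lim (q, r) =
        (m : ℂ)⁻¹ ^ 2 * (1 + if q.1 = q.2 then (c1 : ℂ) - 1 else 0) := by
      intro q
      by_cases hq : q.1 = q.2
      · simp only [hlim, hq, if_true]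
        rw [Finset.sum_product]
        have h2 := XL_sum (-3/4) (-3/4) h34'
        rw [XP_c1] at h2
        rw [add_sub_cancel, ← h2, Finset.mul_sum]
        refine Finset.sum_congr rfl fun i _ => ?_
        rw [Finset.mul_sum]
        exact Finset.sum_congr rfl fun i' _ => by ring
      · simp only [hlim, hq, if_false]
        rw [Finset.sum_product, add_zero]
        have h2 : (∑ j ∈ Finset.Icc 2 9, (cP j : ℂ)) = 1 := by
          have := congrArg (fun x : ℝ => (x : ℂ)) cP_sum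
          push_cast at this
          exact this
        have h3 : (m : ℂ)⁻¹ ^ 2 * 1 = (m : ℂ)⁻¹ ^ 2 * ((∑ j ∈ Finset.Icc 2 9, (cP j : ℂ)) *
            ∑ j ∈ Finset.Icc 2 9, (cP j : ℂ)) := by rw [h2, one_mul]
        rw [h3, Finset.sum_mul_sum, Finset.mul_sum]
        refine Finset.sum_congr rfl fun i _ => ?_
        rw [Finset.mul_sum]
        exact Finset.sum_congr rfl fun i' _ => by ring
    rw [hP, Finset.sum_product]
    rw [Finset.sum_congr rfl (fun q _ => h1 q), ← Finset.mul_sum, Finset.sum_add_distrib, Fintype.sum_prod_type,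
      Fintype.sum_prod_type]
    simp only [Finset.sum_ite_eq, Finset.mem_univ, if_true, Finset.sum_const, Finset.card_univ, Fintype.card_fin,
      nsmul_eq_mul, mul_one]
    push_cast
    field_simp
  rw [hval] at hsum
  have hcx : Tendsto (fun T : ℝ => ((ER (T / κ) (fun t => ‖(m : ℂ)⁻¹ * ∑ j,
      LX.Lf (X j) (1/2 - 3/4 / Real.log T + t * I) *
      MP (X j) (49/100 * Real.log T) (1/2 + t * I)‖ ^ 2) : ℝ) : ℂ)) atTop (𝓝 ((1 + (c1 - 1) / m : ℝ) : ℂ)) := by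
    refine hsum.congr' ?_
    filter_upwards [eventually_ge_atTop (Real.exp 1500)] with T hTe
    have hT0 : 0 < T := (Real.exp_pos _).trans_le hTe
    have hL : 1500 ≤ Real.log T := by
      rw [← Real.log_exp 1500]
      exact Real.log_le_log (Real.exp_pos _) hTe
    rw [U18_ER]
    have h1 : (fun t : ℝ => ((‖(m : ℂ)⁻¹ * ∑ j, LX.Lf (X j) (1/2 - 3/4 / Real.log T + t * I) *
        MP (X j) (49/100 * Real.log T) (1/2 + t * I)‖ ^ 2 : ℝ) : ℂ)) = fun t : ℝ =>
        ∑ p ∈ P, ((m : ℂ)⁻¹ ^ 2 * ((cP p.2.1 : ℂ) * (cP p.2.2 : ℂ))) *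
          XI (X p.1.1) (X p.1.2) p.2.1 p.2.2 (49/100 * Real.log T) (U18_al (Real.log T)) (U18_al (Real.log T)) t := by
      funext t
      exact U18_exp X hr (Real.log T) (49/100 * Real.log T) hL t
    rw [h1]
    exact (U18_EE P (fun p => (m : ℂ)⁻¹ ^ 2 * ((cP p.2.1 : ℂ) * (cP p.2.2 : ℂ)))
      (fun p => XI (X p.1.1) (X p.1.2) p.2.1 p.2.2 (49/100 * Real.log T) (U18_al (Real.log T))
        (U18_al (Real.log T))) (T / κ) (fun p _ => U18_int _ _ _ _ _ _ _ hL (by positivity))).symm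
  have hre := (continuous_re.tendsto _).comp hcx
  simpa only [Function.comp_def, ofReal_re] using hre

end LU
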