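import Pool.Agent.Lib.MP_0f5a55_nt.U.U18
import Pool.Agent.Lib.MP_0f5a55_nt.V.V94
import Pool.Agent.Lib.MP_0f5a55_nt.V.V06
import Pool.Agent.Lib.MP_0f5a55_nt.V.V56
import Mathlib.Analysis.Real.Pi.Leibniz

open Complex MeasureTheory Set Filter Topology
open scoped ComplexConjugate

namespace LU

open LZ (nS EE ER)

variable {N : ℕ} [NeZero N]

/-- the integrand -/
private noncomputable def U19_G {m : ℕ} (X : Fin m → DirichletCharacter ℂ N) (T t : ℝ) : ℝ :=
  ‖(m : ℂ)⁻¹ * ∑ j, LX.Lf (X j) (1/2 - 3/4 / Real.log T + t * I) *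
      MP (X j) (49/100 * Real.log T) (1/2 + t * I)‖ ^ 2

private theorem U19_nS_ne {z : ℕ} {S : Finset ℕ} (hS : S ∈ (LX.PQ N z).powerset) : (nS S : ℂ) ≠ 0 := by
  rw [Finset.mem_powerset] at hS
  unfold nS
  rw [Nat.cast_ne_zero, Finset.prod_ne_zero_iff]
  intro p hp
  have h := hS hp
  unfold LX.PQ at h
  have h2 := (Finset.mem_filter.1 h).1
  unfold LZ.PP at h2
  exact (Finset.mem_filter.1 h2).2.ne_zero

private theorem U19_Mo_cont (χ : DirichletCharacter ℂ N) (i : ℕ) (l : ℝ) : Continuous (Mo χ i l) := by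
  unfold Mo
  refine continuous_finsetSum _ fun S hS => ?_
  refine continuous_const.mul (continuous_const.mul ?_)
  have h := U19_nS_ne hS
  exact continuous_neg.const_cpow (Or.inl h)

private theorem U19_Mo_conj (χ : DirichletCharacter ℂ N) (i : ℕ) (l : ℝ) (s : ℂ) :
    Mo χ⁻¹ i l (conj s) = conj (Mo χ i l s) := by
  unfold Mo
  rw [map_sum]
  refine Finset.sum_congr rfl fun S _ => ?_
  rw [map_mul, map_mul, conj_ofReal, LX.inv_apply]
  congr 2
  have h := cpow_conj ((nS S : ℕ) : ℂ) (-s) (by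
    rw [natCast_arg]
    exact Real.pi_pos.ne)
  rw [map_neg, conj_natCast] at h
  exact h

private theorem U19_MP_cont (χ : DirichletCharacter ℂ N) (l : ℝ) : Continuous (MP χ l) := by
  unfold MP
  exact continuous_finsetSum _ fun j _ => continuous_const.mul (U19_Mo_cont χ j l)

private theorem U19_MP_conj (χ : DirichletCharacter ℂ N) (l : ℝ) (s : ℂ) :
    MP χ⁻¹ l (conj s) = conj (MP χ l s) := by
  unfold MP
  rw [map_sum]
  refine Finset.sum_congr rfl fun j _ => ?_
  rw [map_mul, conj_ofReal, U19_Mo_conj]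

private theorem U19_ne {T : ℝ} (hT : 2 ≤ T) (t : ℝ) : (1/2 - 3/4 / Real.log T + t * I : ℂ) ≠ 1 := by
  have hlog : 0 < Real.log T := Real.log_pos (by linarith)
  intro h
  have h2 := congrArg Complex.re h
  have h3 : (1/2 - 3/4 / Real.log T + t * I : ℂ) = ((1/2 - 3/4 / Real.log T : ℝ) : ℂ) + t * I := by
    push_cast
    ring
  rw [h3] at h2
  simp at h2
  have h4 : 0 < 3/4 / Real.log T := by positivity
  linarith

private theorem U19_G_cont {m : ℕ} (X : Fin m → DirichletCharacter ℂ N) {T : ℝ} (hT : 2 ≤ T) :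
    Continuous (U19_G X T) := by
  unfold U19_G
  have h1 : ∀ j, Continuous fun t : ℝ => LX.Lf (X j) (1/2 - 3/4 / Real.log T + t * I) := by
    intro j
    rw [continuous_iff_continuousAt]
    intro t
    have hc : Continuous fun t : ℝ => (1/2 - 3/4 / Real.log T + t * I : ℂ) := by fun_prop
    exact ContinuousAt.comp (f := fun t : ℝ => (1/2 - 3/4 / Real.log T + t * I : ℂ))
      (g := LX.Lf (X j)) (DirichletCharacter.differentiableAt_LFunction (X j) _ (Or.inl (U19_ne hT t))).continuousAt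
      hc.continuousAt
  have h2 : ∀ j, Continuous fun t : ℝ => MP (X j) (49/100 * Real.log T) (1/2 + t * I) := fun j =>
    (U19_MP_cont _ _).comp (by fun_prop)
  have h3 : Continuous fun t : ℝ => ∑ j, LX.Lf (X j) (1/2 - 3/4 / Real.log T + t * I) *
      MP (X j) (49/100 * Real.log T) (1/2 + t * I) := continuous_finsetSum _ fun j _ => (h1 j).mul (h2 j)
  exact ((continuous_const.mul h3).norm).pow 2

private theorem U19_G_even {m : ℕ} (X : Fin m → DirichletCharacter ℂ N) (hr : ∀ j, (X j)⁻¹ = X j) {T : ℝ}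
    (hT : 2 ≤ T) (t : ℝ) : U19_G X T (-t) = U19_G X T t := by
  unfold U19_G
  have h2 : conj (2 : ℂ) = 2 := Complex.conj_ofNat 2
  have h3 : conj (3 : ℂ) = 3 := Complex.conj_ofNat 3
  have h4 : conj (4 : ℂ) = 4 := Complex.conj_ofNat 4
  have e1 : (1/2 - 3/4 / Real.log T + (-t : ℝ) * I : ℂ) = conj (1/2 - 3/4 / Real.log T + t * I) := by
    simp only [map_add, map_sub, map_mul, map_div₀, map_one, h2, h3, h4, conj_ofReal, conj_I]
    push_cast
    ring
  have e2 : (1/2 + (-t : ℝ) * I : ℂ) = conj (1/2 + t * I) := by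
    simp only [map_add, map_mul, map_div₀, map_one, h2, conj_ofReal, conj_I]
    push_cast
    ring
  have e3 : (m : ℂ)⁻¹ * ∑ j, LX.Lf (X j) (1/2 - 3/4 / Real.log T + (-t : ℝ) * I) *
      MP (X j) (49/100 * Real.log T) (1/2 + (-t : ℝ) * I) =
      conj ((m : ℂ)⁻¹ * ∑ j, LX.Lf (X j) (1/2 - 3/4 / Real.log T + t * I) *
      MP (X j) (49/100 * Real.log T) (1/2 + t * I)) := by
    rw [map_mul, map_inv₀, conj_natCast, map_sum]
    congr 1
    refine Finset.sum_congr rfl fun j _ => ?_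
    rw [e1, e2, map_mul, ← U19_MP_conj, ← (LP.conj_facts (X j) (X j)).1 _ (U19_ne hT t), hr]
  rw [e3, norm_conj]

/-- pointwise bound -/
private theorem U19_cosh (K : ℕ) {x : ℝ} (hx : 0 < x) :
    (Real.cosh x)⁻¹ ≤ 2 * ∑ k ∈ Finset.range (2 * K + 1), (-1 : ℝ) ^ k * Real.exp (-((2 * k + 1) * x)) := by
  set q : ℝ := Real.exp (-(2 * x)) with hq
  have hq0 : 0 < q := Real.exp_pos _
  have h1 : ∀ k : ℕ, (-1 : ℝ) ^ k * Real.exp (-((2 * k + 1) * x)) = Real.exp (-x) * (-q) ^ k := by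
    intro k
    rw [neg_pow q k, hq, ← Real.exp_nat_mul]
    rw [show -((2 * (k:ℝ) + 1) * x) = -x + k * (-(2 * x)) by ring, Real.exp_add]
    ring
  have h2 : ∑ k ∈ Finset.range (2 * K + 1), (-1 : ℝ) ^ k * Real.exp (-((2 * k + 1) * x)) =
      Real.exp (-x) * ((1 + q ^ (2 * K + 1)) / (1 + q)) := by
    rw [Finset.sum_congr rfl fun k _ => h1 k, ← Finset.mul_sum, geom_sum_eq (by linarith)]
    congr 1
    rw [Odd.neg_pow ⟨K, rfl⟩]
    rw [div_eq_div_iff (by linarith) (by linarith)]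
    ring
  rw [h2, Real.cosh_eq]
  have h3 : (Real.exp x + Real.exp (-x)) / 2 = Real.exp x * (1 + q) / 2 := by
    rw [hq, mul_add, mul_one, ← Real.exp_add]
    ring_nf
  rw [h3]
  have h4 : (Real.exp x * (1 + q) / 2)⁻¹ = 2 * (Real.exp (-x) * (1 / (1 + q))) := by
    rw [Real.exp_neg]
    have := Real.exp_pos x
    field_simp
  rw [h4]
  gcongr
  have := pow_pos hq0 (2 * K + 1)
  linarith

/-- abstract form -/
private theorem U19_main (K : ℕ) {T : ℝ} (hT : 0 < T) {G : ℝ → ℝ} (hG : Continuous G) (hG0 : ∀ t, 0 ≤ G t)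
    (he : ∀ t, G (-t) = G t)
    (hint : ∀ k ∈ Finset.range (2 * K + 1),
      IntegrableOn (fun t => G t * Real.exp (-t / (T / (2 * (k:ℝ) + 1)))) (Ioi 0)) :
    Integrable (fun u : ℝ => G (Real.pi * T * u) * LW.sw u) ∧
    ∫ u : ℝ, G (Real.pi * T * u) * LW.sw u ≤
      4 / Real.pi * ∑ k ∈ Finset.range (2 * K + 1), (-1 : ℝ) ^ k / (2 * k + 1) *
        LZ.ER (T / (2 * (k:ℝ) + 1)) G := by
  have hpi := Real.pi_pos
  have harg : ∀ (k : ℕ) (t : ℝ), -t / (T / (2 * (k:ℝ) + 1)) = -((2 * k + 1) * (t / T)) := by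
    intro k t
    have : (2 * (k:ℝ) + 1) ≠ 0 := by positivity
    field_simp
  set F : ℝ → ℝ := fun t => G t * (Real.cosh (t / T))⁻¹ with hF
  have hFc : Continuous F :=
    hG.mul ((Real.continuous_cosh.comp (continuous_id.div_const T)).inv₀ fun t => (Real.cosh_pos _).ne')
  have hFe : ∀ t, F (-t) = F t := by
    intro t
    simp only [hF]
    rw [he, neg_div, Real.cosh_neg]
  have hF0 : ∀ t, 0 ≤ F t := fun t => mul_nonneg (hG0 t) (inv_nonneg.2 (Real.cosh_pos _).le)
  -- integrability on the half line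
  have hb : IntegrableOn (fun t => 2 * ∑ k ∈ Finset.range (2 * K + 1), (-1 : ℝ) ^ k *
      (G t * Real.exp (-t / (T / (2 * (k:ℝ) + 1))))) (Ioi 0) := by
    refine Integrable.const_mul ?_ 2
    exact integrable_finsetSum _ fun k hk => (hint k hk).const_mul _
  have hle : ∀ t ∈ Ioi (0:ℝ), F t ≤ 2 * ∑ k ∈ Finset.range (2 * K + 1), (-1 : ℝ) ^ k *
      (G t * Real.exp (-t / (T / (2 * (k:ℝ) + 1)))) := by
    intro t ht
    have h1 := U19_cosh K (x := t / T) (div_pos ht hT)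
    have h2 := mul_le_mul_of_nonneg_left h1 (hG0 t)
    refine h2.trans (le_of_eq ?_)
    rw [mul_left_comm, Finset.mul_sum]
    congr 1
    refine Finset.sum_congr rfl fun k _ => ?_
    rw [harg]
    ring
  have hFI : IntegrableOn F (Ioi 0) := by
    refine hb.mono' hFc.aestronglyMeasurable ?_
    refine (ae_restrict_iff' measurableSet_Ioi).2 (Eventually.of_forall fun t ht => ?_)
    rw [Real.norm_of_nonneg (hF0 t)]
    exact hle t ht
  have hFint : Integrable F := by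
    have h1 : IntegrableOn F (Iic 0) := by
      have h2 := (Measure.measurePreserving_neg (volume : Measure ℝ)).integrableOn_comp_preimage
        (MeasurableEquiv.neg ℝ).measurableEmbedding (f := F) (s := Ici 0)
      have h3 : F ∘ Neg.neg = F := by
        funext t
        exact hFe t
      rw [h3] at h2
      have h4 : (Neg.neg ⁻¹' Ici (0:ℝ)) = Iic 0 := by
        ext t
        simp
      rw [h4] at h2
      exact h2.2 (Iff.mpr integrableOn_Ici_iff_integrableOn_Ioi hFI)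
    have h5 : IntegrableOn F (Iic 0 ∪ Ioi 0) := h1.union hFI
    rwa [Iic_union_Ioi, integrableOn_univ] at h5
  have hFtot : ∫ t, F t = 2 * ∫ t in Ioi (0:ℝ), F t := by
    rw [← integral_comp_abs]
    refine integral_congr_ae (Eventually.of_forall fun t => ?_)
    rcases abs_choice t with h | h
    · simp only [h]
    · simp only [h]
      exact (hFe t).symm
  -- scaling
  have hsc : ∀ u : ℝ, G (Real.pi * T * u) * LW.sw u = F (Real.pi * T * u) := by
    intro u
    simp only [hF, LW.sw]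
    congr 3
    field_simp
  have hne : Real.pi * T ≠ 0 := by positivity
  refine ⟨?_, ?_⟩
  · simp_rw [hsc]
    exact (integrable_comp_mul_left_iff F hne).2 hFint
  · simp_rw [hsc]
    rw [Measure.integral_comp_mul_left F (Real.pi * T), hFtot]
    have h1 : ∫ t in Ioi (0:ℝ), F t ≤ ∫ t in Ioi (0:ℝ), 2 * ∑ k ∈ Finset.range (2 * K + 1), (-1 : ℝ) ^ k *
      (G t * Real.exp (-t / (T / (2 * (k:ℝ) + 1)))) :=
      setIntegral_mono_on hFI hb measurableSet_Ioi hle
    have h2 : ∫ t in Ioi (0:ℝ), 2 * ∑ k ∈ Finset.range (2 * K + 1), (-1 : ℝ) ^ k *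
      (G t * Real.exp (-t / (T / (2 * (k:ℝ) + 1)))) =
      2 * ∑ k ∈ Finset.range (2 * K + 1), (-1 : ℝ) ^ k *
        ((T / (2 * (k:ℝ) + 1)) * LZ.ER (T / (2 * (k:ℝ) + 1)) G) := by
      rw [integral_const_mul, integral_finsetSum _ fun k hk => (hint k hk).const_mul _]
      congr 1
      refine Finset.sum_congr rfl fun k _ => ?_
      rw [integral_const_mul]
      congr 1
      unfold LZ.ER
      have h3 : (T / (2 * (k:ℝ) + 1)) ≠ 0 := by positivity
      rw [← mul_assoc, mul_inv_cancel₀ h3, one_mul]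
    rw [h2] at h1
    rw [abs_inv, abs_of_pos (by positivity : 0 < Real.pi * T), smul_eq_mul]
    calc (Real.pi * T)⁻¹ * (2 * ∫ t in Ioi (0:ℝ), F t)
        ≤ (Real.pi * T)⁻¹ * (2 * (2 * ∑ k ∈ Finset.range (2 * K + 1), (-1 : ℝ) ^ k *
        ((T / (2 * (k:ℝ) + 1)) * LZ.ER (T / (2 * (k:ℝ) + 1)) G))) := by gcongr
      _ = 4 / Real.pi * ∑ k ∈ Finset.range (2 * K + 1), (-1 : ℝ) ^ k / (2 * k + 1) *
        LZ.ER (T / (2 * (k:ℝ) + 1)) G := by
        rw [← mul_assoc, ← mul_assoc, Finset.mul_sum, Finset.mul_sum]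
        refine Finset.sum_congr rfl fun k _ => ?_
        have h3 : (2 * (k:ℝ) + 1) ≠ 0 := by positivity
        field_simp
        ring

/-- as LS.sech_mean, real characters: symmetric under t -> -t -/
theorem avg_sech {m : ℕ} (hm : 1 ≤ m) (X : Fin m → DirichletCharacter ℂ N) (hX : Function.Injective X)
    (hr : ∀ j, (X j)⁻¹ = X j) (ε : ℝ) (hε : 0 < ε) : ∃ T0 : ℝ, 2 ≤ T0 ∧ ∀ T : ℝ, T0 ≤ T →
    ∫ u : ℝ, ‖(m : ℂ)⁻¹ * ∑ j, LX.Lf (X j) (1/2 - 3/4 / Real.log T + (Real.pi * T * u : ℝ) * I) *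
      MP (X j) (49/100 * Real.log T) (1/2 + (Real.pi * T * u : ℝ) * I)‖ ^ 2 * LW.sw u ≤ 1 + (c1 - 1) / m + ε := by
  have hpi := Real.pi_pos
  set D : ℝ := 1 + (c1 - 1) / m with hD
  have hD0 : 0 < D := by
    have h1 : 1 < c1 := num.2.1
    have h2 : (0:ℝ) < m := by exact_mod_cast hm
    have h3 : 0 < (c1 - 1) / m := div_pos (by linarith) h2
    rw [hD]
    linarith
  -- choice of K
  obtain ⟨K, hK⟩ : ∃ K : ℕ, 4 / Real.pi * (∑ k ∈ Finset.range (2 * K + 1), (-1 : ℝ) ^ k / (2 * k + 1)) * D <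
      D + ε := by
    have h1 := (Real.tendsto_sum_pi_div_four.const_mul (4 / Real.pi)).mul_const D
    have h2 : 4 / Real.pi * (Real.pi / 4) * D < D + ε := by
      have : 4 / Real.pi * (Real.pi / 4) = 1 := by field_simp
      rw [this]
      linarith
    have h3 := h1.eventually_lt_const h2
    have h4 : Tendsto (fun K : ℕ => 2 * K + 1) atTop atTop :=
      tendsto_atTop_mono (fun K => by show K ≤ 2 * K + 1; omega) tendsto_id
    obtain ⟨K, hK⟩ := (h4.eventually h3).exists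
    exact ⟨K, hK⟩
  -- limit of the finite sum
  have hlim : ∀ k : ℕ, Tendsto (fun T : ℝ => LZ.ER (T / (2 * (k:ℝ) + 1)) (U19_G X T)) atTop (𝓝 D) := fun k =>
    avg_mean hm X hX hr (2 * (k:ℝ) + 1) (by linarith [Nat.cast_nonneg (α := ℝ) k])
  have hsum : Tendsto (fun T : ℝ => 4 / Real.pi * ∑ k ∈ Finset.range (2 * K + 1), (-1 : ℝ) ^ k / (2 * k + 1) *
        LZ.ER (T / (2 * (k:ℝ) + 1)) (U19_G X T)) atTop
      (𝓝 (4 / Real.pi * ∑ k ∈ Finset.range (2 * K + 1), (-1 : ℝ) ^ k / (2 * k + 1) * D)) := by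
    refine Tendsto.const_mul _ ?_
    exact tendsto_finsetSum _ fun k _ => (hlim k).const_mul _
  have hK' : 4 / Real.pi * ∑ k ∈ Finset.range (2 * K + 1), (-1 : ℝ) ^ k / (2 * k + 1) * D < D + ε := by
    rw [← Finset.sum_mul, ← mul_assoc]
    exact hK
  have hev1 := hsum.eventually_lt_const hK'
  have hev2 : ∀ᶠ T : ℝ in atTop, ∀ k ∈ Finset.range (2 * K + 1),
      0 < LZ.ER (T / (2 * (k:ℝ) + 1)) (U19_G X T) := by
    rw [Filter.eventually_all_finset]
    intro k _
    exact (hlim k).eventually_const_lt hD0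
  obtain ⟨T1, hT1⟩ := eventually_atTop.1 (hev1.and hev2)
  refine ⟨max T1 2, le_max_right _ _, fun T hT => ?_⟩
  obtain ⟨h1, h2⟩ := hT1 T ((le_max_left _ _).trans hT)
  have hT2 : 2 ≤ T := (le_max_right _ _).trans hT
  have hint : ∀ k ∈ Finset.range (2 * K + 1),
      IntegrableOn (fun t => U19_G X T t * Real.exp (-t / (T / (2 * (k:ℝ) + 1)))) (Ioi 0) := by
    intro k hk
    by_contra hcon
    have h3 := h2 k hk
    unfold LZ.ER at h3
    rw [integral_undef hcon, mul_zero] at h3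
    exact lt_irrefl _ h3
  obtain ⟨h4, h5⟩ := U19_main K (by linarith : 0 < T) (U19_G_cont X hT2) (fun t => sq_nonneg _)
    (U19_G_even X hr hT2) hint
  exact h5.trans h1.le

end LU
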