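import Pool.Agent.Lib.MP_0f5a55_nt.V.V18
import Pool.Agent.Lib.MP_0f5a55_nt.V.V56
import Pool.Agent.Lib.MP_0f5a55_nt.V.V96
import Pool.Agent.Lib.MP_0f5a55_nt.V.V97
import Pool.Agent.Lib.MP_0f5a55_nt.S.D2
import Pool.Agent.Lib.MP_0f5a55_nt.S.D3
import Pool.Agent.Lib.MP_0f5a55_nt.U.U14
import Pool.Agent.Lib.MP_0f5a55_nt.U.U19

open Complex MeasureTheory Set Filter Topology
open scoped ComplexConjugate

namespace LU

open LZ (nS EE ER)
open LW (sw sw_pos sw_cont sw_mass D2_sz D2_int_left W07_diff W07_int strip_kappa order_affine)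
open LS.D3 (aff aff_re aff_im phi aff_phi phi_re phi_im sz_phi quot_le den_ne tail_summable tail_tsum)

/-! abstract Jensen on the strip -/

/-- the function with the pole removed -/
noncomputable def U20_F (E : ℂ → ℂ) (s : ℂ) : ℂ := E s / (s + 1)

/-- the function on the strip -/
noncomputable def U20_f (E : ℂ → ℂ) (a T : ℝ) (z : ℂ) : ℂ := U20_F E (aff a T z)

theorem U20_F_diff {E : ℂ → ℂ} (hE : Differentiable ℂ E) {s : ℂ} (hs : -1 < s.re) :
    DifferentiableAt ℂ (U20_F E) s := by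
  unfold U20_F
  exact (hE s).div (by fun_prop) (den_ne hs)

theorem U20_F_eq {E G : ℂ → ℂ} (hEG : ∀ s, s ≠ 1 → E s = (s - 1) * G s) {s : ℂ} (hs : s ≠ 1) :
    U20_F E s = ((s - 1) / (s + 1)) * G s := by
  unfold U20_F
  rw [hEG s hs]
  ring

theorem U20_F_le {E G : ℂ → ℂ} (hEG : ∀ s, s ≠ 1 → E s = (s - 1) * G s) {s : ℂ} (hs : s ≠ 1) (h0 : 0 ≤ s.re) :
    ‖U20_F E s‖ ≤ ‖G s‖ := by
  rw [U20_F_eq hEG hs, norm_mul]
  exact mul_le_of_le_one_left (norm_nonneg _) (quot_le h0)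

theorem U20_f_diff {E : ℂ → ℂ} {a T : ℝ} (hE : Differentiable ℂ E) (ha : 7/16 ≤ a) (hT : 5 ≤ T) :
    DifferentiableOn ℂ (U20_f E a T) {z : ℂ | -(1 / (4 * Real.pi * T)) < z.re ∧ z.re < 1 + 1 / (4 * Real.pi * T)} := by
  intro z hz
  have hp := Real.pi_pos
  have hpT : 0 < Real.pi * T := by positivity
  have h1 : -1 < (aff a T z).re := by
    rw [aff_re]
    have h2 := mul_lt_mul_of_pos_left hz.1 hpT
    have h3 : Real.pi * T * -(1 / (4 * Real.pi * T)) = -(1/4) := by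
      field_simp
    rw [h3] at h2
    linarith
  have h2 : DifferentiableAt ℂ (aff a T) z := by
    unfold aff
    fun_prop
  exact ((U20_F_diff hE h1).comp z h2).differentiableWithinAt

theorem U20_f_growth {E : ℂ → ℂ} {a T : ℝ} (hg : ∃ C : ℝ, 0 < C ∧ ∀ s : ℂ, 3/8 ≤ s.re → ‖U20_F E s‖ ≤ C * (1 + |s.im|))
    (ha : 7/16 ≤ a) (hT : 5 ≤ T) :
    ∃ K : ℝ, 0 < K ∧ ∀ z : ℂ, 0 ≤ z.re → z.re ≤ 1 → ‖U20_f E a T z‖ ≤ K * Real.exp (|z.im| / 2) := by
  obtain ⟨C, hC, h⟩ := hg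
  have hp := Real.pi_pos
  have hpT : 0 < Real.pi * T := by positivity
  refine ⟨C * (1 + Real.pi * T) * 2, by positivity, fun z h0 h1 => ?_⟩
  have h2 : 3/8 ≤ (aff a T z).re := by
    rw [aff_re]
    have : 0 ≤ Real.pi * T * z.re := by positivity
    linarith
  have h3 := h _ h2
  rw [aff_im, abs_mul, abs_of_pos hpT] at h3
  have hx := abs_nonneg z.im
  have h4 : 1 + Real.pi * T * |z.im| ≤ (1 + Real.pi * T) * (1 + |z.im|) := by nlinarith
  have h5 : 1 + |z.im| ≤ 2 * Real.exp (|z.im| / 2) := by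
    have := Real.add_one_le_exp (|z.im| / 2)
    linarith
  calc ‖U20_f E a T z‖ ≤ C * (1 + Real.pi * T * |z.im|) := h3
    _ ≤ C * ((1 + Real.pi * T) * (1 + |z.im|)) := by gcongr
    _ ≤ C * ((1 + Real.pi * T) * (2 * Real.exp (|z.im| / 2))) := by gcongr
    _ = _ := by ring

/-- left side of the strip -/
theorem U20_f_left {E G : ℂ → ℂ} {a T c : ℝ} (hE : Differentiable ℂ E) (hEG : ∀ s, s ≠ 1 → E s = (s - 1) * G s)
    (hg : ∃ C : ℝ, 0 < C ∧ ∀ s : ℂ, 3/8 ≤ s.re → ‖U20_F E s‖ ≤ C * (1 + |s.im|)) (ha : 7/16 ≤ a) (ha1 : a < 1)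
    (hT : 5 ≤ T) (hmean : ∫ u : ℝ, ‖G (a + (Real.pi * T * u : ℝ) * I)‖ ^ 2 * sw u ≤ c) :
    ∫ u : ℝ, ‖U20_f E a T (u * I)‖ ^ 2 * sw u ≤ c := by
  have hp := Real.pi_pos
  have hpT : 0 < Real.pi * T := by positivity
  obtain ⟨K, hK, hgr⟩ := U20_f_growth hg ha hT
  have hη : 0 < 1 / (4 * Real.pi * T) := by positivity
  have hd := W07_diff hη (U20_f_diff hE ha hT)
  have i0 := D2_int_left hd hgr
  set H : ℝ → ℝ := fun t => ‖G (a + t * I)‖ ^ 2 with hH
  have hs1 : ∀ t : ℝ, (a : ℂ) + t * I ≠ 1 := by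
    intro t h
    have h2 := congrArg Complex.re h
    simp at h2
    linarith
  have haff : ∀ u : ℝ, aff a T (u * I) = (a : ℂ) + ((Real.pi * T * u : ℝ) : ℂ) * I := by
    intro u
    unfold aff
    push_cast
    ring
  have hHc : Continuous H := by
    have e : H = fun t : ℝ => ‖E (a + t * I) / ((a : ℂ) + t * I - 1)‖ ^ 2 := by
      funext t
      rw [hH]
      simp only
      rw [hEG _ (hs1 t), mul_div_cancel_left₀ _ (sub_ne_zero.2 (hs1 t))]
    rw [e]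
    refine (Continuous.norm ?_).pow 2
    refine Continuous.div (hE.continuous.comp (by fun_prop)) (by fun_prop) fun t => sub_ne_zero.2 (hs1 t)
  have hle : ∀ u : ℝ, ‖U20_f E a T (u * I)‖ ^ 2 ≤ H (Real.pi * T * u) := by
    intro u
    have h1 : ‖U20_f E a T (u * I)‖ ≤ ‖G (a + ((Real.pi * T * u : ℝ) : ℂ) * I)‖ := by
      unfold U20_f
      rw [haff]
      exact U20_F_le hEG (hs1 _) (by simp; linarith)
    exact pow_le_pow_left₀ (norm_nonneg _) h1 2
  set D : ℝ := 1 + 2 / (1 - a) with hD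
  have h1a : 0 < 1 - a := by linarith
  have hge : ∀ u : ℝ, H (Real.pi * T * u) ≤ D ^ 2 * ‖U20_f E a T (u * I)‖ ^ 2 := by
    intro u
    set s : ℂ := (a : ℂ) + ((Real.pi * T * u : ℝ) : ℂ) * I with hs
    have e1 : ‖U20_f E a T (u * I)‖ = ‖(s - 1) / (s + 1)‖ * ‖G s‖ := by
      unfold U20_f
      rw [haff, ← hs, U20_F_eq hEG (hs1 _), norm_mul]
    have hre : s.re = a := by
      rw [hs]
      simp
    have h2 : 1 - a ≤ ‖s - 1‖ := by
      have h3 : |(s - 1).re| ≤ ‖s - 1‖ := Complex.abs_re_le_norm _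
      rw [Complex.sub_re, hre, Complex.one_re, abs_of_neg (by linarith)] at h3
      linarith
    have hpos : 0 < ‖s - 1‖ := by linarith
    have h3 : ‖s + 1‖ ≤ D * ‖s - 1‖ := by
      have h4 : s + 1 = (s - 1) + 2 := by ring
      have h5 : ‖s + 1‖ ≤ ‖s - 1‖ + 2 := by
        rw [h4]
        refine (norm_add_le _ _).trans ?_
        simp
      have h6 : 2 ≤ 2 / (1 - a) * ‖s - 1‖ := by
        calc (2 : ℝ) = 2 / (1 - a) * (1 - a) := by field_simp
          _ ≤ 2 / (1 - a) * ‖s - 1‖ := by gcongr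
      rw [hD]
      linarith
    have hpos' : 0 < ‖s + 1‖ := norm_pos_iff.2 (den_ne (by rw [hre]; linarith))
    have hD0 : 0 < D := by positivity
    have h4 : 1 ≤ D * ‖(s - 1) / (s + 1)‖ := by
      rw [norm_div, mul_div_assoc', le_div_iff₀ hpos', one_mul]
      exact h3
    have h6 : ‖G s‖ ≤ D * ‖U20_f E a T (u * I)‖ := by
      rw [e1]
      calc ‖G s‖ ≤ (D * ‖(s - 1) / (s + 1)‖) * ‖G s‖ := le_mul_of_one_le_left (norm_nonneg _) h4
        _ = _ := by ring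
    calc H (Real.pi * T * u) = ‖G s‖ ^ 2 := rfl
      _ ≤ (D * ‖U20_f E a T (u * I)‖) ^ 2 := by gcongr
      _ = _ := by ring
  have hHi : Integrable (fun u : ℝ => H (Real.pi * T * u) * sw u) := by
    refine (i0.const_mul (D ^ 2)).mono' ?_ (Eventually.of_forall fun u => ?_)
    · exact ((hHc.comp (continuous_const.mul continuous_id)).mul sw_cont).aestronglyMeasurable
    · have h0 : 0 ≤ H (Real.pi * T * u) := by
        rw [hH]
        positivity
      rw [Real.norm_of_nonneg (mul_nonneg h0 (sw_pos u).le), ← mul_assoc]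
      exact mul_le_mul_of_nonneg_right (hge u) (sw_pos u).le
  have h1 : ∫ u : ℝ, ‖U20_f E a T (u * I)‖ ^ 2 * sw u ≤ ∫ u : ℝ, H (Real.pi * T * u) * sw u := by
    refine integral_mono_of_nonneg (Eventually.of_forall fun u => ?_) hHi (Eventually.of_forall fun u => ?_)
    · exact mul_nonneg (by positivity) (sw_pos u).le
    · exact mul_le_mul_of_nonneg_right (hle u) (sw_pos u).le
  exact h1.trans hmean

/-- right side of the strip -/
theorem U20_f_right {E G : ℂ → ℂ} {a T δ : ℝ} (hEG : ∀ s, s ≠ 1 → E s = (s - 1) * G s) (ha : 7/16 ≤ a) (ha1 : a < 1)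
    (hT : 5 ≤ T) (hδ : ∀ s : ℂ, T ≤ s.re → ‖G s - 1‖ ≤ δ) :
    ∫ u : ℝ, ‖U20_f E a T (1 + u * I)‖ ^ 2 * sw u ≤ (1 + δ) ^ 2 := by
  have hp := Real.pi_gt_three
  have h1 : ∀ u : ℝ, ‖U20_f E a T (1 + u * I)‖ ^ 2 ≤ (1 + δ) ^ 2 := by
    intro u
    have hre : (aff a T (1 + u * I)).re = a + Real.pi * T := by
      rw [aff_re]
      simp
    have hT1 : T ≤ (aff a T (1 + u * I)).re := by
      rw [hre]
      nlinarith
    have hs1 : aff a T (1 + u * I) ≠ 1 := by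
      intro h
      rw [h, Complex.one_re] at hT1
      linarith
    have h2 := hδ _ hT1
    have h3 := U20_F_le hEG hs1 (by linarith)
    have h4 : ‖G (aff a T (1 + u * I))‖ ≤ 1 + δ := by
      have e : G (aff a T (1 + u * I)) = 1 + (G (aff a T (1 + u * I)) - 1) := by ring
      rw [e]
      refine (norm_add_le _ _).trans ?_
      rw [norm_one]
      linarith
    exact pow_le_pow_left₀ (norm_nonneg _) (h3.trans h4) 2
  have hsw : Integrable sw := by
    have h1 := W07_int (φ := fun _ : ℝ => (1 : ℝ)) (C := 1) continuous_const (fun u => by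
      rw [norm_one, one_mul]
      exact Real.one_le_exp (abs_nonneg u))
    simpa using h1
  calc ∫ u : ℝ, ‖U20_f E a T (1 + u * I)‖ ^ 2 * sw u ≤ ∫ u : ℝ, (1 + δ) ^ 2 * sw u := by
        refine integral_mono_of_nonneg (Eventually.of_forall fun u => ?_) (hsw.const_mul _)
          (Eventually.of_forall fun u => ?_)
        · exact mul_nonneg (by positivity) (sw_pos u).le
        · exact mul_le_mul_of_nonneg_right (h1 u) (sw_pos u).le
    _ = (1 + δ) ^ 2 := by rw [integral_const_mul, sw_mass, mul_one]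

/-- the centre of the strip -/
theorem U20_f_mid {E G : ℂ → ℂ} {a T δ : ℝ} (hEG : ∀ s, s ≠ 1 → E s = (s - 1) * G s) (ha : 7/16 ≤ a) (hT : 5 ≤ T)
    (hδ : ∀ s : ℂ, T ≤ s.re → ‖G s - 1‖ ≤ δ) (hδ1 : δ ≤ 1) :
    (1 - 2 / T) * (1 - δ) ≤ ‖U20_f E a T (1/2)‖ := by
  have hp := Real.pi_gt_three
  have hre : (aff a T (1/2)).re = a + Real.pi * T / 2 := by
    rw [aff_re]
    norm_num
    ring
  set s := aff a T (1/2) with hs
  have hT1 : T ≤ s.re := by
    rw [hre]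
    nlinarith
  have hs1 : s ≠ 1 := by
    intro h
    rw [h, Complex.one_re] at hT1
    linarith
  have h2 := hδ _ hT1
  have h3 : 1 - δ ≤ ‖G s‖ := by
    have h4 := norm_sub_norm_le (1 : ℂ) (1 - G s)
    rw [norm_one, sub_sub_cancel, norm_sub_rev] at h4
    linarith
  have hT2 : T ≤ ‖s + 1‖ := by
    have h4 : (s + 1).re ≤ ‖s + 1‖ := Complex.re_le_norm _
    rw [add_re, one_re] at h4
    linarith
  have h5 : 1 - 2 / T ≤ ‖(s - 1) / (s + 1)‖ := by
    have hne : s + 1 ≠ 0 := den_ne (by linarith)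
    have e : (s - 1) / (s + 1) = 1 - 2 / (s + 1) := by
      field_simp
      ring
    rw [e]
    have h4 := norm_sub_norm_le (1 : ℂ) (2 / (s + 1))
    rw [norm_one] at h4
    have h6 : ‖2 / (s + 1)‖ ≤ 2 / T := by
      rw [norm_div]
      simp only [Complex.norm_ofNat]
      gcongr
    linarith
  unfold U20_f
  rw [← hs, U20_F_eq hEG hs1, norm_mul]
  exact mul_le_mul h5 h3 (by linarith) (norm_nonneg _)

/-- Jensen for fixed T -/
theorem U20_core {E G : ℂ → ℂ} {a T c δ : ℝ} (hE : Differentiable ℂ E) (hEG : ∀ s, s ≠ 1 → E s = (s - 1) * G s)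
    (hg : ∃ C : ℝ, 0 < C ∧ ∀ s : ℂ, 3/8 ≤ s.re → ‖U20_F E s‖ ≤ C * (1 + |s.im|)) (ha : 7/16 ≤ a) (ha1 : a < 1/2)
    (hT : 5 ≤ T) (hc : 0 < c) (hmean : ∫ u : ℝ, ‖G (a + (Real.pi * T * u : ℝ) * I)‖ ^ 2 * sw u ≤ c)
    (hδ : ∀ s : ℂ, T ≤ s.re → ‖G s - 1‖ ≤ δ) (hδ1 : δ < 1)
    (B : Finset ℝ) (hB : ∀ g ∈ B, 0 < g ∧ G (1/2 + g * I) = 0 ∧ G (1/2 - g * I) = 0) :
    4 * (Real.sin ((1/2 - a) / T) * ∑ g ∈ B, (Real.cosh (g / T))⁻¹) ≤
      Real.log c / 2 + 2 * Real.log (1 + δ) - 2 * Real.log ((1 - 2 / T) * (1 - δ)) := by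
  classical
  have hp := Real.pi_gt_three
  have hT0 : 0 < T := by linarith
  have hpT : 0 < Real.pi * T := by positivity
  have hδ0 : 0 ≤ δ := (norm_nonneg _).trans (hδ (T : ℂ) (by simp))
  obtain ⟨K, hK, hgr⟩ := U20_f_growth hg ha hT
  have hη : 0 < 1 / (4 * Real.pi * T) := by positivity
  have hfd := U20_f_diff hE ha hT
  have hhalf : (1/2 : ℂ) = ((1/2 : ℝ) : ℂ) := by norm_num
  have hpre : ∀ g : ℝ, ((1/2 : ℂ) + g * I).re = 1/2 := fun g => by
    rw [hhalf]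
    simp
  have hpim : ∀ g : ℝ, ((1/2 : ℂ) + g * I).im = g := fun g => by
    rw [hhalf]
    simp
  have hmre : ∀ g : ℝ, ((1/2 : ℂ) - g * I).re = 1/2 := fun g => by
    rw [hhalf]
    simp
  have hmim : ∀ g : ℝ, ((1/2 : ℂ) - g * I).im = -g := fun g => by
    rw [hhalf]
    simp
  -- the zeros in the strip
  set A1 : Finset ℂ := B.image (fun g : ℝ => phi a T (1/2 + g * I)) with hA1
  set A2 : Finset ℂ := B.image (fun g : ℝ => phi a T (1/2 - g * I)) with hA2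
  have hinj0 : Function.Injective (phi a T) := by
    intro z w h
    have h2 := congrArg (aff a T) h
    rwa [aff_phi hT0, aff_phi hT0] at h2
  have hinj1 : Function.Injective (fun g : ℝ => phi a T (1/2 + g * I)) := by
    intro z w h
    have h2 := congrArg Complex.im (hinj0 h)
    rwa [hpim, hpim] at h2
  have hinj2 : Function.Injective (fun g : ℝ => phi a T (1/2 - g * I)) := by
    intro z w h
    have h2 := congrArg Complex.im (hinj0 h)
    rw [hmim, hmim] at h2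
    linarith
  have hdisj : Disjoint A1 A2 := by
    rw [Finset.disjoint_left]
    intro ρ h1 h2
    obtain ⟨z, hz, rfl⟩ := Finset.mem_image.1 h1
    obtain ⟨w, hw, h3⟩ := Finset.mem_image.1 h2
    have h4 := congrArg Complex.im (hinj0 h3)
    have h5 := (hB z hz).1
    have h6 := (hB w hw).1
    rw [hpim, hmim] at h4
    linarith
  have hstrip : 0 < (1/2 - a) / (Real.pi * T) ∧ (1/2 - a) / (Real.pi * T) < 1 := by
    constructor
    · apply div_pos _ hpT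
      linarith
    · rw [div_lt_one hpT]
      nlinarith
  have hAs : ∀ ρ ∈ A1 ∪ A2, 0 < ρ.re ∧ ρ.re < 1 := by
    intro ρ hρ
    rcases Finset.mem_union.1 hρ with h | h
    · obtain ⟨z, hz, rfl⟩ := Finset.mem_image.1 h
      rw [phi_re, hpre]
      exact hstrip
    · obtain ⟨z, hz, rfl⟩ := Finset.mem_image.1 h
      rw [phi_re, hmre]
      exact hstrip
  have hord1 : ∀ w : ℂ, w.re = 1/2 → G w = 0 → ((1 : ℕ) : ℕ∞) ≤ analyticOrderAt (U20_f E a T) (phi a T w) := by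
    intro w hw hw0
    have hw1 : w ≠ 1 := by
      intro h
      rw [h, Complex.one_re] at hw
      norm_num at hw
    have h1 : U20_F E w = 0 := by
      rw [U20_F_eq hEG hw1, hw0, mul_zero]
    have h2 : AnalyticAt ℂ (U20_F E) w := by
      have ho : IsOpen {z : ℂ | -1 < z.re} := isOpen_lt continuous_const Complex.continuous_re
      have h1 : DifferentiableOn ℂ (U20_F E) {z : ℂ | -1 < z.re} := fun z hz =>
        (U20_F_diff hE hz).differentiableWithinAt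
      exact h1.analyticAt (ho.mem_nhds (by
        rw [Set.mem_ofPred_eq, hw]
        norm_num))
    have h3 : ((1 : ℕ) : ℕ∞) ≤ analyticOrderAt (U20_F E) w := by
      have h4 : analyticOrderAt (U20_F E) w ≠ 0 := by
        intro h
        exact ((h2.analyticOrderAt_eq_zero).1 h) h1
      rw [Nat.cast_one]
      exact Order.one_le_iff_ne_zero.2 h4
    have e1 : (a : ℂ) + ((Real.pi * T : ℝ) : ℂ) * phi a T w = w := aff_phi hT0 w
    exact order_affine (f := U20_F E) (a := Real.pi * T) hpT (a : ℂ) (phi a T w)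
      (k := 1) (by rw [e1]; exact h2) (by rw [e1]; exact h3)
  have hord : ∀ ρ ∈ A1 ∪ A2, (((fun _ : ℂ => (1 : ℕ)) ρ : ℕ) : ℕ∞) ≤ analyticOrderAt (U20_f E a T) ρ := by
    intro ρ hρ
    rcases Finset.mem_union.1 hρ with h | h
    · obtain ⟨z, hz, rfl⟩ := Finset.mem_image.1 h
      exact hord1 _ (hpre z) (hB z hz).2.1
    · obtain ⟨z, hz, rfl⟩ := Finset.mem_image.1 h
      exact hord1 _ (hmre z) (hB z hz).2.2
  have key := strip_kappa (Real.log c / 2) hη hfd hgr (A1 ∪ A2) (fun _ => 1) hAs hord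
  -- the right side
  have hI0 := U20_f_left hE hEG hg ha (by linarith) hT hmean
  have hI1 := U20_f_right (E := E) (G := G) (a := a) hEG ha (by linarith) hT hδ
  have hmid := U20_f_mid (E := E) (G := G) (a := a) hEG ha hT hδ hδ1.le
  set q : ℝ := (1 - 2 / T) * (1 - δ) with hq
  have hq0 : 0 < q := by
    have h1 : 2 / T < 1 := by
      rw [div_lt_one hT0]
      linarith
    have h2 : 0 < 1 - 2 / T := by linarith
    have h3 : 0 < 1 - δ := by linarith
    positivity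
  set S : ℝ := ∑ ρ ∈ A1 ∪ A2, (((fun _ : ℂ => (1 : ℕ)) ρ : ℕ) : ℝ) * D2_sz ρ with hS
  have hR : 2⁻¹ * (Real.exp (-(Real.log c / 2)) * (∫ u : ℝ, ‖U20_f E a T (u * I)‖ ^ 2 * sw u) +
      Real.exp (Real.log c / 2) * (∫ u : ℝ, ‖U20_f E a T (1 + u * I)‖ ^ 2 * sw u)) ≤
      Real.exp (Real.log c / 2) * (1 + δ) ^ 2 := by
    have h1 : Real.exp (-(Real.log c / 2)) * (∫ u : ℝ, ‖U20_f E a T (u * I)‖ ^ 2 * sw u) ≤
        Real.exp (Real.log c / 2) := by
      calc Real.exp (-(Real.log c / 2)) * (∫ u : ℝ, ‖U20_f E a T (u * I)‖ ^ 2 * sw u)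
          ≤ Real.exp (-(Real.log c / 2)) * c := by gcongr
        _ = Real.exp (-(Real.log c / 2)) * Real.exp (Real.log c) := by rw [Real.exp_log hc]
        _ = Real.exp (Real.log c / 2) := by
            rw [← Real.exp_add]
            congr 1
            ring
    have h2 : Real.exp (Real.log c / 2) * (∫ u : ℝ, ‖U20_f E a T (1 + u * I)‖ ^ 2 * sw u) ≤
        Real.exp (Real.log c / 2) * (1 + δ) ^ 2 := by gcongr
    have h3 : Real.exp (Real.log c / 2) ≤ Real.exp (Real.log c / 2) * (1 + δ) ^ 2 :=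
      le_mul_of_one_le_right (Real.exp_pos _).le (one_le_pow₀ (by linarith))
    linarith
  have h1 : q ^ 2 * Real.exp (2 * S) ≤ Real.exp (Real.log c / 2) * (1 + δ) ^ 2 := by
    refine le_trans ?_ (key.trans hR)
    exact mul_le_mul_of_nonneg_right (pow_le_pow_left₀ hq0.le hmid 2) (Real.exp_pos _).le
  have h2 : 2 * Real.log q + 2 * S ≤ Real.log c / 2 + 2 * Real.log (1 + δ) := by
    have h3 := Real.log_le_log (by positivity) h1
    rw [Real.log_mul (by positivity) (Real.exp_ne_zero _), Real.log_pow, Real.log_exp,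
      Real.log_mul (Real.exp_ne_zero _) (by positivity), Real.log_exp, Real.log_pow] at h3
    push_cast at h3
    exact h3
  -- the sum over the zeros
  have hS2 : S = 2 * (Real.sin ((1/2 - a) / T) * ∑ g ∈ B, (Real.cosh (g / T))⁻¹) := by
    have e1 : ∑ ρ ∈ A1, (((fun _ : ℂ => (1 : ℕ)) ρ : ℕ) : ℝ) * D2_sz ρ =
        ∑ g ∈ B, Real.sin ((1/2 - a) / T) * (Real.cosh (g / T))⁻¹ := by
      rw [hA1, Finset.sum_image (fun x _ y _ h => hinj1 h)]
      refine Finset.sum_congr rfl fun z _ => ?_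
      rw [sz_phi hT0, hpre, hpim, Nat.cast_one, one_mul, div_eq_mul_inv]
    have e2 : ∑ ρ ∈ A2, (((fun _ : ℂ => (1 : ℕ)) ρ : ℕ) : ℝ) * D2_sz ρ =
        ∑ g ∈ B, Real.sin ((1/2 - a) / T) * (Real.cosh (g / T))⁻¹ := by
      rw [hA2, Finset.sum_image (fun x _ y _ h => hinj2 h)]
      refine Finset.sum_congr rfl fun z _ => ?_
      rw [sz_phi hT0, hmre, hmim, neg_div, Real.cosh_neg, Nat.cast_one, one_mul, div_eq_mul_inv]
    rw [hS, Finset.sum_union hdisj, e1, e2, Finset.mul_sum]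
    ring
  rw [hS2] at h2
  linarith

/-! L-functions near the right -/

variable {N : ℕ} [NeZero N]

theorem U20_Lf_near (χ : DirichletCharacter ℂ N) {s : ℂ} (hs : 3 ≤ s.re) :
    ‖LX.Lf χ s - 1‖ ≤ 4 * (2 : ℝ) ^ (-s.re) := by
  unfold LX.Lf
  have hs1 : 1 < s.re := by linarith
  rw [DirichletCharacter.LFunction_eq_LSeries χ hs1]
  have hsum : Summable (LSeries.term (fun n : ℕ => χ n) s) := DirichletCharacter.LSeriesSummable_of_one_lt_re χ hs1
  have h1 := hsum.sum_add_tsum_nat_add 2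
  unfold LSeries
  rw [← h1]
  have h2 : ∑ i ∈ Finset.range 2, LSeries.term (fun n : ℕ => χ n) s i = 1 := by
    simp [Finset.sum_range_succ, LSeries.term]
  rw [h2]
  have h3 : ∀ n : ℕ, ‖LSeries.term (fun n : ℕ => χ n) s (n + 2)‖ ≤ ((n : ℝ) + 2) ^ (-s.re) := by
    intro n
    rw [LSeries.norm_term_eq, if_neg (by omega)]
    have h4 : ‖χ ((n + 2 : ℕ) : ZMod N)‖ ≤ 1 := DirichletCharacter.norm_le_one χ _
    have h5 : ((n : ℝ) + 2) ^ (-s.re) = 1 / (((n + 2 : ℕ) : ℝ) ^ s.re) := by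
      rw [Real.rpow_neg (by positivity), one_div]
      push_cast
      rfl
    rw [h5]
    gcongr
  have h6 : ‖∑' n : ℕ, LSeries.term (fun n : ℕ => χ n) s (n + 2)‖ ≤ ∑' n : ℕ, ((n : ℝ) + 2) ^ (-s.re) :=
    tsum_of_norm_bounded (tail_summable hs).hasSum h3
  have e : (1 : ℂ) + ∑' n : ℕ, LSeries.term (fun n : ℕ => χ n) s (n + 2) - 1 =
      ∑' n : ℕ, LSeries.term (fun n : ℕ => χ n) s (n + 2) := by ring
  rw [e]
  exact h6.trans (tail_tsum hs)

theorem U20_prime {q z : ℕ} {S : Finset ℕ} (hS : S ∈ (LX.PQ q z).powerset) : ∀ p ∈ S, p.Prime := by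
  intro p hp
  have := Finset.mem_powerset.1 hS hp
  unfold LX.PQ LZ.PP at this
  exact (Finset.mem_filter.1 (Finset.mem_filter.1 this).1).2

theorem U20_inj {q z : ℕ} {S S' : Finset ℕ} (hS : S ∈ (LX.PQ q z).powerset)
    (hS' : S' ∈ (LX.PQ q z).powerset) (h : LZ.nS S = LZ.nS S') : S = S' := by
  have h1 := Nat.primeFactors_prod (U20_prime hS)
  have h2 := Nat.primeFactors_prod (U20_prime hS')
  unfold LZ.nS at h
  rw [← h1, ← h2, h]

theorem U20_ge {q z : ℕ} {S : Finset ℕ} (hS : S ∈ (LX.PQ q z).powerset) (h0 : S ≠ ∅) : 2 ≤ LZ.nS S := by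
  obtain ⟨p, hp⟩ := Finset.nonempty_iff_ne_empty.2 h0
  have h1 : p ∣ LZ.nS S := Finset.dvd_prod_of_mem _ hp
  have h2 : 0 < LZ.nS S := Finset.prod_pos fun r hr => (U20_prime hS r hr).pos
  exact (U20_prime hS p hp).two_le.trans (Nat.le_of_dvd h2 h1)

theorem U20_pos {q z : ℕ} {S : Finset ℕ} (hS : S ∈ (LX.PQ q z).powerset) : 1 ≤ LZ.nS S :=
  Finset.prod_pos fun r hr => (U20_prime hS r hr).pos

theorem U20_cf {l : ℝ} (hl : 0 < l) (i : ℕ) (S : Finset ℕ) : |cf i l S| ≤ 1 := by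
  unfold cf LS.wn
  rw [abs_mul, abs_pow, abs_neg, abs_one, one_pow, one_mul, abs_pow, abs_of_nonneg (le_max_left _ _)]
  refine pow_le_one₀ (le_max_left _ _) (max_le zero_le_one ?_)
  have : 0 ≤ Real.log (LZ.nS S) / l := div_nonneg (Real.log_natCast_nonneg _) hl.le
  linarith

omit [NeZero N] in
theorem U20_Mo_diff (χ : DirichletCharacter ℂ N) (i : ℕ) (l : ℝ) : Differentiable ℂ (Mo χ i l) := by
  unfold Mo
  refine Differentiable.fun_sum fun S hS => ?_
  refine (differentiable_const _).mul ((differentiable_const _).mul fun s => ?_)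
  refine DifferentiableAt.const_cpow (by fun_prop) (Or.inl ?_)
  have := U20_pos hS
  exact_mod_cast (by omega : LZ.nS S ≠ 0)

omit [NeZero N] in
theorem U20_Mo_bd (χ : DirichletCharacter ℂ N) (i : ℕ) {l : ℝ} (hl : 0 < l) :
    ∃ C : ℝ, 0 ≤ C ∧ ∀ s : ℂ, 0 ≤ s.re → ‖Mo χ i l s‖ ≤ C := by
  refine ⟨∑ S ∈ (LX.PQ N ⌊Real.exp l⌋₊).powerset, (1 : ℝ), Finset.sum_nonneg fun _ _ => zero_le_one, fun s hs => ?_⟩
  unfold Mo
  refine (norm_sum_le _ _).trans (Finset.sum_le_sum fun S hS => ?_)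
  have h1 := U20_pos hS
  rw [norm_mul, norm_mul, Complex.norm_real, Real.norm_eq_abs]
  have h2 : ‖((LZ.nS S : ℕ) : ℂ) ^ (-s)‖ ≤ 1 := by
    rw [Complex.norm_natCast_cpow_of_pos (by omega), neg_re]
    exact Real.rpow_le_one_of_one_le_of_nonpos (by exact_mod_cast h1) (by linarith)
  have h3 : ‖χ ((LZ.nS S : ℕ) : ZMod N)‖ ≤ 1 := DirichletCharacter.norm_le_one χ _
  have h4 := U20_cf hl i S
  calc |cf i l S| * (‖χ ((LZ.nS S : ℕ) : ZMod N)‖ * ‖((LZ.nS S : ℕ) : ℂ) ^ (-s)‖)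
      ≤ 1 * (1 * 1) := by gcongr
    _ = 1 := by ring

omit [NeZero N] in
theorem U20_Mo_near {l : ℝ} (hl : 0 < l) (χ : DirichletCharacter ℂ N) (i : ℕ) {s : ℂ} (hs : 3 ≤ s.re) :
    ‖Mo χ i l s - 1‖ ≤ 4 * (2 : ℝ) ^ (-s.re) := by
  classical
  unfold Mo
  set P := (LX.PQ N ⌊Real.exp l⌋₊).powerset with hP
  have h0 : (∅ : Finset ℕ) ∈ P := Finset.empty_mem_powerset _
  rw [← Finset.add_sum_erase P _ h0]
  have h1 : (cf i l ∅ : ℂ) * (χ ((LZ.nS ∅ : ℕ) : ZMod N) * ((LZ.nS ∅ : ℕ) : ℂ) ^ (-s)) = 1 := by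
    simp [cf, LZ.nS, LS.wn]
  rw [h1, add_sub_cancel_left]
  refine (norm_sum_le _ _).trans ?_
  have h2 : ∀ S ∈ P.erase ∅, ‖(cf i l S : ℂ) * (χ ((LZ.nS S : ℕ) : ZMod N) * ((LZ.nS S : ℕ) : ℂ) ^ (-s))‖ ≤
      (((LZ.nS S - 2 : ℕ) : ℝ) + 2) ^ (-s.re) := by
    intro S hS
    have hS1 := Finset.mem_erase.1 hS
    have h3 := U20_ge hS1.2 hS1.1
    have h4 : ((LZ.nS S - 2 : ℕ) : ℝ) + 2 = (LZ.nS S : ℝ) := by
      rw [Nat.cast_sub h3]
      push_cast
      ring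
    rw [h4, norm_mul, norm_mul, Complex.norm_natCast_cpow_of_pos (by omega), neg_re]
    have h5 : ‖(cf i l S : ℂ)‖ ≤ 1 := by
      rw [Complex.norm_real]
      exact U20_cf hl i S
    have h6 : ‖χ ((LZ.nS S : ℕ) : ZMod N)‖ ≤ 1 := DirichletCharacter.norm_le_one χ _
    have h7 : 0 ≤ (LZ.nS S : ℝ) ^ (-s.re) := by positivity
    calc _ ≤ 1 * (1 * (LZ.nS S : ℝ) ^ (-s.re)) := by gcongr
      _ = _ := by ring
  refine (Finset.sum_le_sum h2).trans ?_
  have h8 : ∑ S ∈ P.erase ∅, (((LZ.nS S - 2 : ℕ) : ℝ) + 2) ^ (-s.re) =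
      ∑ n ∈ (P.erase ∅).image (fun S => LZ.nS S - 2), ((n : ℝ) + 2) ^ (-s.re) := by
    rw [Finset.sum_image]
    intro S hS S' hS' h
    have hS1 := Finset.mem_erase.1 (Finset.mem_coe.1 hS)
    have hS2 := Finset.mem_erase.1 (Finset.mem_coe.1 hS')
    have h3 := U20_ge hS1.2 hS1.1
    have h4 := U20_ge hS2.2 hS2.1
    refine U20_inj hS1.2 hS2.2 ?_
    simp only at h
    omega
  rw [h8]
  exact ((tail_summable hs).sum_le_tsum _ (fun n _ => by positivity)).trans (tail_tsum hs)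

theorem U20_cP (j : ℕ) : |cP j| ≤ 70 := by
  unfold cP
  split_ifs with h
  · obtain ⟨h1, h2⟩ := h
    rw [abs_mul, abs_pow, abs_neg, abs_one, one_pow, one_mul, Nat.abs_cast]
    interval_cases j <;> norm_num [Nat.choose]
  · norm_num

omit [NeZero N] in
theorem U20_MP_diff (χ : DirichletCharacter ℂ N) (l : ℝ) : Differentiable ℂ (MP χ l) := by
  unfold MP
  refine Differentiable.fun_sum fun j _ => ?_
  exact (U20_Mo_diff χ j l).const_mul _

omit [NeZero N] in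
theorem U20_MP_bd (χ : DirichletCharacter ℂ N) {l : ℝ} (hl : 0 < l) :
    ∃ C : ℝ, 0 ≤ C ∧ ∀ s : ℂ, 0 ≤ s.re → ‖MP χ l s‖ ≤ C := by
  choose C hC h using fun j : ℕ => U20_Mo_bd χ j hl
  refine ⟨∑ j ∈ Finset.Icc 2 9, 70 * C j, Finset.sum_nonneg fun j _ => by have := hC j; positivity, fun s hs => ?_⟩
  unfold MP
  refine (norm_sum_le _ _).trans (Finset.sum_le_sum fun j _ => ?_)
  rw [norm_mul, Complex.norm_real, Real.norm_eq_abs]
  exact mul_le_mul (U20_cP j) (h j s hs) (norm_nonneg _) (by norm_num)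

omit [NeZero N] in
theorem U20_MP_near {l : ℝ} (hl : 0 < l) (χ : DirichletCharacter ℂ N) {s : ℂ} (hs : 3 ≤ s.re) :
    ‖MP χ l s - 1‖ ≤ 2240 * (2 : ℝ) ^ (-s.re) := by
  have h1 : (1 : ℂ) = ∑ j ∈ Finset.Icc 2 9, (cP j : ℂ) := by
    rw [← Complex.ofReal_sum, cP_sum, Complex.ofReal_one]
  have h2 : MP χ l s - 1 = ∑ j ∈ Finset.Icc 2 9, (cP j : ℂ) * (Mo χ j l s - 1) := by
    nth_rewrite 1 [h1]
    unfold MP
    rw [← Finset.sum_sub_distrib]
    refine Finset.sum_congr rfl fun j _ => ?_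
    ring
  rw [h2]
  refine (norm_sum_le _ _).trans ?_
  have h3 : ∀ j ∈ Finset.Icc 2 9, ‖(cP j : ℂ) * (Mo χ j l s - 1)‖ ≤ 280 * (2 : ℝ) ^ (-s.re) := by
    intro j _
    rw [norm_mul, Complex.norm_real, Real.norm_eq_abs]
    calc |cP j| * ‖Mo χ j l s - 1‖ ≤ 70 * (4 * (2 : ℝ) ^ (-s.re)) :=
          mul_le_mul (U20_cP j) (U20_Mo_near hl χ j hs) (norm_nonneg _) (by norm_num)
      _ = _ := by ring
  refine (Finset.sum_le_sum h3).trans (le_of_eq ?_)
  rw [Finset.sum_const, Nat.card_Icc, nsmul_eq_mul]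
  norm_num
  ring

theorem U20_prod_near {l r : ℝ} (hl : 0 < l) (hr : 0 ≤ r) (χ : DirichletCharacter ℂ N) {s : ℂ} (hs : 3 ≤ s.re) :
    ‖LX.Lf χ s * MP χ l (s + r) - 1‖ ≤ 11204 * (2 : ℝ) ^ (-s.re) := by
  have hre : (s + (r : ℂ)).re = s.re + r := by
    rw [Complex.add_re, Complex.ofReal_re]
  have hv := U20_Lf_near χ hs
  have hw : ‖MP χ l (s + r) - 1‖ ≤ 2240 * (2 : ℝ) ^ (-s.re) := by
    refine (U20_MP_near hl χ (s := s + r) (by rw [hre]; linarith)).trans ?_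
    rw [hre]
    have h4 : (2 : ℝ) ^ (-(s.re + r)) ≤ (2 : ℝ) ^ (-s.re) :=
      Real.rpow_le_rpow_of_exponent_le (by norm_num) (by linarith)
    gcongr
  set v := LX.Lf χ s
  set w := MP χ l (s + r)
  have hpp : (0 : ℝ) < (2 : ℝ) ^ (-s.re) := by positivity
  have hp1 : (2 : ℝ) ^ (-s.re) ≤ 1 := Real.rpow_le_one_of_one_le_of_nonpos (by norm_num) (by linarith)
  have e : v * w - 1 = (v - 1) * (w - 1) + (v - 1) + (w - 1) := by ring
  rw [e]
  calc ‖(v - 1) * (w - 1) + (v - 1) + (w - 1)‖ ≤ ‖v - 1‖ * ‖w - 1‖ + ‖v - 1‖ + ‖w - 1‖ := by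
        refine (norm_add₃_le).trans ?_
        rw [norm_mul]
    _ ≤ (4 * (2 : ℝ) ^ (-s.re)) * (2240 * (2 : ℝ) ^ (-s.re)) + 4 * (2 : ℝ) ^ (-s.re) + 2240 * (2 : ℝ) ^ (-s.re) := by
        gcongr
    _ = 2244 * (2 : ℝ) ^ (-s.re) + 8960 * (2 : ℝ) ^ (-s.re) * (2 : ℝ) ^ (-s.re) := by ring
    _ ≤ 2244 * (2 : ℝ) ^ (-s.re) + 8960 * (2 : ℝ) ^ (-s.re) * 1 := by gcongr
    _ = _ := by ring

theorem U20_El (χ : DirichletCharacter ℂ N) : ∃ C : ℝ, 0 < C ∧ ∀ w : ℂ, 3/8 ≤ w.re →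
    ‖LW.El χ w / (w + 1)‖ ≤ C * (1 + |w.im|) := by
  obtain ⟨C, hC, hz⟩ := LP.per_pol (N := N) (fun a => χ a)
  have hK : IsCompact (Metric.closedBall (1 : ℂ) (1/4)) := isCompact_closedBall _ _
  obtain ⟨B, hB⟩ := hK.exists_bound_of_continuousOn (LW.El_diff χ).continuous.continuousOn
  refine ⟨C + |B|, by positivity, fun w hw => ?_⟩
  have hone : (1 : ℝ) ≤ 1 + |w.im| := by linarith [abs_nonneg w.im]
  have hnn : (0 : ℝ) ≤ 1 + |w.im| := by linarith
  have h1 : 1 ≤ ‖w + 1‖ := by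
    have h2 : (w + 1).re ≤ ‖w + 1‖ := Complex.re_le_norm _
    rw [add_re, one_re] at h2
    linarith
  by_cases h : 1/4 ≤ ‖w - 1‖
  · have hw1 : w ≠ 1 := by
      rintro rfl
      rw [sub_self, norm_zero] at h
      norm_num at h
    have e : LW.El χ w / (w + 1) = ((w - 1) / (w + 1)) * LX.Lf χ w := by
      rw [LW.El_eq χ hw1]
      ring
    rw [e, norm_mul]
    have h2 : ‖LX.Lf χ w‖ ≤ C * (1 + |w.im|) := hz w (by linarith) h
    calc ‖(w - 1) / (w + 1)‖ * ‖LX.Lf χ w‖ ≤ 1 * (C * (1 + |w.im|)) :=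
          mul_le_mul (quot_le (by linarith)) h2 (norm_nonneg _) zero_le_one
      _ ≤ (C + |B|) * (1 + |w.im|) := by
          rw [one_mul]
          exact mul_le_mul_of_nonneg_right (by linarith [abs_nonneg B]) hnn
  · push Not at h
    have h2 : ‖LW.El χ w‖ ≤ B := hB w (by rw [Metric.mem_closedBall, dist_eq_norm]; exact h.le)
    rw [norm_div]
    calc ‖LW.El χ w‖ / ‖w + 1‖ ≤ ‖LW.El χ w‖ := div_le_self (norm_nonneg _) h1
      _ ≤ |B| := h2.trans (le_abs_self B)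
      _ ≤ C + |B| := by linarith
      _ ≤ (C + |B|) * (1 + |w.im|) := le_mul_of_one_le_right (by positivity) hone

/-! the average -/

/-- the average with the pole removed -/
noncomputable def U20_E {m : ℕ} (X : Fin m → DirichletCharacter ℂ N) (l r : ℝ) (s : ℂ) : ℂ :=
  (m : ℂ)⁻¹ * ∑ j, LW.El (X j) s * MP (X j) l (s + r)

/-- the average -/
noncomputable def U20_G {m : ℕ} (X : Fin m → DirichletCharacter ℂ N) (l r : ℝ) (s : ℂ) : ℂ :=
  (m : ℂ)⁻¹ * ∑ j, LX.Lf (X j) s * MP (X j) l (s + r)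

theorem U20_E_diff {m : ℕ} (X : Fin m → DirichletCharacter ℂ N) (l r : ℝ) : Differentiable ℂ (U20_E X l r) := by
  unfold U20_E
  refine Differentiable.const_mul (Differentiable.fun_sum fun j _ => ?_) _
  refine (LW.El_diff (X j)).mul ?_
  exact (U20_MP_diff (X j) l).comp (by fun_prop)

theorem U20_EG {m : ℕ} (X : Fin m → DirichletCharacter ℂ N) (l r : ℝ) (s : ℂ) (hs : s ≠ 1) :
    U20_E X l r s = (s - 1) * U20_G X l r s := by
  unfold U20_E U20_G
  have h1 : ∑ j, LW.El (X j) s * MP (X j) l (s + r) = (s - 1) * ∑ j, LX.Lf (X j) s * MP (X j) l (s + r) := by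
    rw [Finset.mul_sum]
    refine Finset.sum_congr rfl fun j _ => ?_
    rw [LW.El_eq _ hs]
    ring
  rw [h1]
  ring

theorem U20_inv_le (m : ℕ) : ‖(m : ℂ)⁻¹‖ ≤ 1 := by
  rw [norm_inv, Complex.norm_natCast]
  rcases Nat.eq_zero_or_pos m with h | h
  · rw [h]
    simp
  · exact inv_le_one_of_one_le₀ (by exact_mod_cast h)

theorem U20_E_growth {m : ℕ} (X : Fin m → DirichletCharacter ℂ N) {l r : ℝ} (hl : 0 < l) (hr : 0 ≤ r) :
    ∃ C : ℝ, 0 < C ∧ ∀ s : ℂ, 3/8 ≤ s.re → ‖U20_F (U20_E X l r) s‖ ≤ C * (1 + |s.im|) := by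
  choose C hC hz using fun j : Fin m => U20_El (N := N) (X j)
  choose M hM hMol using fun j : Fin m => U20_MP_bd (X j) hl
  have hS0 : 0 ≤ ∑ j, C j * M j := Finset.sum_nonneg fun j _ => by
    have := (hC j).le
    have := hM j
    positivity
  refine ⟨(∑ j, C j * M j) + 1, by linarith, fun s hs => ?_⟩
  have hnn : (0 : ℝ) ≤ 1 + |s.im| := by positivity
  have e : U20_F (U20_E X l r) s = (m : ℂ)⁻¹ * ∑ j, (LW.El (X j) s / (s + 1)) * MP (X j) l (s + r) := by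
    unfold U20_F U20_E
    rw [mul_div_assoc, Finset.sum_div]
    congr 1
    refine Finset.sum_congr rfl fun j _ => ?_
    ring
  rw [e, norm_mul]
  have hj : ∀ j ∈ (Finset.univ : Finset (Fin m)), ‖(LW.El (X j) s / (s + 1)) * MP (X j) l (s + r)‖ ≤
      C j * M j * (1 + |s.im|) := by
    intro j _
    rw [norm_mul]
    have a1 := hz j s hs
    have a2 := hMol j (s + r) (by rw [Complex.add_re, Complex.ofReal_re]; linarith)
    have hCj := (hC j).le
    calc ‖LW.El (X j) s / (s + 1)‖ * ‖MP (X j) l (s + r)‖ ≤ (C j * (1 + |s.im|)) * M j :=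
          mul_le_mul a1 a2 (norm_nonneg _) (by positivity)
      _ = _ := by ring
  calc ‖(m : ℂ)⁻¹‖ * ‖∑ j, (LW.El (X j) s / (s + 1)) * MP (X j) l (s + r)‖
      ≤ 1 * ((∑ j, C j * M j) * (1 + |s.im|)) := by
        refine mul_le_mul (U20_inv_le m) ?_ (norm_nonneg _) zero_le_one
        refine (norm_sum_le _ _).trans ((Finset.sum_le_sum hj).trans ?_)
        rw [Finset.sum_mul]
    _ ≤ ((∑ j, C j * M j) + 1) * (1 + |s.im|) := by
        rw [one_mul]
        exact mul_le_mul_of_nonneg_right (by linarith) hnn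

theorem U20_G_near {m : ℕ} (hm : 1 ≤ m) (X : Fin m → DirichletCharacter ℂ N) {l r : ℝ} (hl : 0 < l) (hr : 0 ≤ r)
    {s : ℂ} (hs : 3 ≤ s.re) : ‖U20_G X l r s - 1‖ ≤ 11204 * (2 : ℝ) ^ (-s.re) := by
  have hm0 : (m : ℂ) ≠ 0 := by exact_mod_cast (by omega : m ≠ 0)
  have hm1 : (0 : ℝ) < m := by exact_mod_cast hm
  have e : U20_G X l r s - 1 = (m : ℂ)⁻¹ * ∑ j, (LX.Lf (X j) s * MP (X j) l (s + r) - 1) := by
    unfold U20_G
    rw [Finset.sum_sub_distrib, Finset.sum_const, Finset.card_univ, Fintype.card_fin, nsmul_eq_mul, mul_one, mul_sub,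
      inv_mul_cancel₀ hm0]
  rw [e, norm_mul, norm_inv, Complex.norm_natCast]
  have h1 : ‖∑ j, (LX.Lf (X j) s * MP (X j) l (s + r) - 1)‖ ≤ m * (11204 * (2 : ℝ) ^ (-s.re)) := by
    refine (norm_sum_le _ _).trans ((Finset.sum_le_sum fun j _ => U20_prod_near hl hr (X j) hs).trans (le_of_eq ?_))
    rw [Finset.sum_const, Finset.card_univ, Fintype.card_fin, nsmul_eq_mul]
  calc (m : ℝ)⁻¹ * ‖∑ j, (LX.Lf (X j) s * MP (X j) l (s + r) - 1)‖ ≤ (m : ℝ)⁻¹ * (m * (11204 * (2 : ℝ) ^ (-s.re))) := by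
        gcongr
    _ = _ := by
        rw [← mul_assoc, inv_mul_cancel₀ hm1.ne', one_mul]

/-- Jensen (LW.strip_sharp) for f z = (s-1)/(s+1) (1/m) sum_j Lf (X j) s MP (X j) (s + (3/4)/L), s = 1/2 - (3/4)/L + pi T z,
zeros 1/2 + ig and 1/2 - ig, g in B -/
theorem common_weight {m : ℕ} (hm : 1 ≤ m) (X : Fin m → DirichletCharacter ℂ N) (hX : Function.Injective X)
    (hr : ∀ j, (X j)⁻¹ = X j) (ε : ℝ) (hε : 0 < ε) : ∃ T0 : ℝ, 2 ≤ T0 ∧ ∀ T : ℝ, T0 ≤ T → ∀ B : Finset ℝ,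
    (∀ g ∈ B, 0 < g ∧ ∀ j, LX.Lf (X j) (1/2 + g * I) = 0) →
    ∑ g ∈ B, (Real.cosh (g / T))⁻¹ ≤ T * Real.log T / 4 * (Real.log (1 + (c1 - 1) / m) / (3/2) + ε) := by
  have hp := Real.pi_gt_three
  have hm1 : (0 : ℝ) < m := by exact_mod_cast hm
  set c0 : ℝ := 1 + (c1 - 1) / m with hc0def
  have hc0 : 0 < c0 := by
    have h1 : 1 < c1 := num.2.1
    have h2 : 0 < (c1 - 1) / m := div_pos (by linarith) hm1
    linarith
  -- c slightly larger than c0
  obtain ⟨ε1, hε1, hlog⟩ : ∃ ε1 : ℝ, 0 < ε1 ∧ Real.log (c0 + ε1) ≤ Real.log c0 + ε / 2 := by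
    refine ⟨c0 * (Real.exp (ε / 2) - 1), ?_, ?_⟩
    · have h1 : 1 < Real.exp (ε / 2) := Real.one_lt_exp_iff.2 (by linarith)
      exact mul_pos hc0 (by linarith)
    · have h1 : c0 + c0 * (Real.exp (ε / 2) - 1) = c0 * Real.exp (ε / 2) := by ring
      rw [h1, Real.log_mul hc0.ne' (Real.exp_ne_zero _), Real.log_exp]
  obtain ⟨T1, hT1, hmean⟩ := avg_sech hm X hX hr ε1 hε1
  set c : ℝ := c0 + ε1 with hc
  have hcp : 0 < c := by linarith
  have hε2 : 0 < ε / 2 := by linarith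
  -- the error terms
  set D : ℝ := 11204 with hD
  have hDp : 0 < D := by
    rw [hD]
    norm_num
  have t1 : Tendsto (fun T : ℝ => D * (2 : ℝ) ^ (-T)) atTop (𝓝 0) := by
    have h1 : Tendsto (fun T : ℝ => (2 : ℝ) ^ (-T)) atTop (𝓝 0) := by
      have h2 : Tendsto (fun T : ℝ => Real.exp (-(Real.log 2 * T))) atTop (𝓝 0) := by
        refine Real.tendsto_exp_neg_atTop_nhds_zero.comp ?_
        exact tendsto_id.const_mul_atTop (Real.log_pos one_lt_two)
      refine h2.congr fun T => ?_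
      rw [Real.rpow_def_of_pos two_pos]
      congr 1
      ring
    simpa using h1.const_mul D
  have t2 : Tendsto (fun T : ℝ => 2 / T) atTop (𝓝 0) := tendsto_const_nhds.div_atTop tendsto_id
  have t3 : Tendsto (fun T : ℝ => 3/4 / Real.log T) atTop (𝓝 0) :=
    tendsto_const_nhds.div_atTop Real.tendsto_log_atTop
  have t5 : Tendsto (fun T : ℝ => 4 * (Real.log (1 + D * (2 : ℝ) ^ (-T)) -
      Real.log ((1 - 2 / T) * (1 - D * (2 : ℝ) ^ (-T)))) +
      (3/4 / Real.log T / T) ^ 2 * (Real.log c + ε / 2)) atTop (𝓝 0) := by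
    have h1 : Tendsto (fun T : ℝ => 1 + D * (2 : ℝ) ^ (-T)) atTop (𝓝 1) := by
      simpa using t1.const_add 1
    have h2 : Tendsto (fun T : ℝ => 1 - D * (2 : ℝ) ^ (-T)) atTop (𝓝 1) := by
      simpa using t1.const_sub 1
    have h3 : Tendsto (fun T : ℝ => 1 - 2 / T) atTop (𝓝 1) := by
      simpa using t2.const_sub 1
    have h4 : Tendsto (fun T : ℝ => (1 - 2 / T) * (1 - D * (2 : ℝ) ^ (-T))) atTop (𝓝 1) := by
      simpa using h3.mul h2
    have h5 : Tendsto (fun T : ℝ => Real.log (1 + D * (2 : ℝ) ^ (-T))) atTop (𝓝 0) := by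
      simpa using h1.log one_ne_zero
    have h6 : Tendsto (fun T : ℝ => Real.log ((1 - 2 / T) * (1 - D * (2 : ℝ) ^ (-T)))) atTop (𝓝 0) := by
      simpa using h4.log one_ne_zero
    have h7 : Tendsto (fun T : ℝ => 3/4 / Real.log T / T) atTop (𝓝 0) := t3.div_atTop tendsto_id
    have h8 := ((h5.sub h6).const_mul 4).add ((h7.pow 2).mul_const (Real.log c + ε / 2))
    simpa using h8
  have ev : ∀ᶠ T : ℝ in atTop, 5 ≤ T ∧ D * (2 : ℝ) ^ (-T) < 1 ∧ 3/4 / Real.log T < 1/16 ∧ 1 < Real.log T ∧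
      4 * (Real.log (1 + D * (2 : ℝ) ^ (-T)) -
      Real.log ((1 - 2 / T) * (1 - D * (2 : ℝ) ^ (-T)))) +
      (3/4 / Real.log T / T) ^ 2 * (Real.log c + ε / 2) < ε / 2 := by
    filter_upwards [eventually_ge_atTop (5 : ℝ), t1.eventually (gt_mem_nhds one_pos),
      t3.eventually (gt_mem_nhds (by norm_num : (0:ℝ) < 1/16)),
      Real.tendsto_log_atTop.eventually_gt_atTop 1, t5.eventually (gt_mem_nhds hε2)] with T a1 a2 a3 a5 a6
    exact ⟨a1, a2, a3, a5, a6⟩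
  obtain ⟨T0, hT0⟩ := eventually_atTop.1 ev
  refine ⟨max 2 (max T0 T1), le_max_left _ _, fun T hT B hB => ?_⟩
  have hTT0 : T0 ≤ T := ((le_max_left _ _).trans (le_max_right _ _)).trans hT
  have hTT1 : T1 ≤ T := ((le_max_right _ _).trans (le_max_right _ _)).trans hT
  obtain ⟨a1, a2, a3, a5, a6⟩ := hT0 T hTT0
  have hmeanT := hmean T hTT1
  have hTp : 0 < T := by linarith
  have hL : 0 < Real.log T := by linarith
  set L : ℝ := Real.log T with hLdef
  set a : ℝ := 1/2 - 3/4 / L with ha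
  set δ : ℝ := D * (2 : ℝ) ^ (-T) with hδ
  have hRL : 0 < 3/4 / L := by positivity
  set l : ℝ := 49/100 * L with hl
  have hl0 : 0 < l := by positivity
  have hδs : ∀ s : ℂ, T ≤ s.re → ‖U20_G X l (3/4 / L) s - 1‖ ≤ δ := by
    intro s hs
    refine (U20_G_near hm X hl0 hRL.le (s := s) (by linarith)).trans ?_
    rw [hδ]
    have hpT : (2 : ℝ) ^ (-s.re) ≤ (2 : ℝ) ^ (-T) :=
      Real.rpow_le_rpow_of_exponent_le (by norm_num) (by linarith)
    gcongr
  have hmean2 : ∫ u : ℝ, ‖U20_G X l (3/4 / L) (a + (Real.pi * T * u : ℝ) * I)‖ ^ 2 * sw u ≤ c := by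
    refine le_trans (le_of_eq ?_) hmeanT
    congr 1
    funext u
    congr 2
    unfold U20_G
    congr 2
    refine Finset.sum_congr rfl fun j _ => ?_
    have e1 : ((a : ℝ) : ℂ) + ((Real.pi * T * u : ℝ) : ℂ) * I =
        1/2 - 3/4 / (L : ℂ) + ((Real.pi * T * u : ℝ) : ℂ) * I := by
      rw [ha]
      push_cast
      ring
    have e2 : ((a : ℝ) : ℂ) + ((Real.pi * T * u : ℝ) : ℂ) * I + ((3/4 / L : ℝ) : ℂ) =
        1/2 + ((Real.pi * T * u : ℝ) : ℂ) * I := by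
      rw [ha]
      push_cast
      ring
    rw [e2, e1]
  have hz : ∀ g ∈ B, 0 < g ∧ U20_G X l (3/4 / L) (1/2 + g * I) = 0 ∧ U20_G X l (3/4 / L) (1/2 - g * I) = 0 := by
    intro g hg
    obtain ⟨hg0, hgz⟩ := hB g hg
    refine ⟨hg0, ?_, ?_⟩
    · unfold U20_G
      rw [Finset.sum_eq_zero fun j _ => ?_, mul_zero]
      rw [hgz j, zero_mul]
    · unfold U20_G
      rw [Finset.sum_eq_zero fun j _ => ?_, mul_zero]
      have hne : (1/2 + g * I : ℂ) ≠ 1 := by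
        intro h
        have h2 := congrArg Complex.im h
        have hhalf : (1/2 : ℂ) = ((1/2 : ℝ) : ℂ) := by norm_num
        rw [hhalf] at h2
        simp at h2
        linarith
      have h1 := (LP.conj_facts (X j) (X j)).1 (1/2 + g * I) hne
      have h2 : conj (1/2 + g * I : ℂ) = 1/2 - g * I := by
        rw [map_add, map_mul, conj_ofReal, conj_I]
        have hhalf : (1/2 : ℂ) = ((1/2 : ℝ) : ℂ) := by norm_num
        rw [hhalf, conj_ofReal]
        ring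
      rw [h2, hr j, hgz j, map_zero] at h1
      rw [h1, zero_mul]
  have hcore := U20_core (U20_E_diff X l (3/4 / L)) (U20_EG X l (3/4 / L)) (U20_E_growth X hl0 hRL.le)
    (a := a) (T := T) (c := c) (δ := δ) (by linarith) (by linarith) a1 hcp hmean2 hδs a2 B hz
  have hx : (1/2 - a) / T = 3/4 / L / T := by
    rw [ha]
    ring
  rw [hx] at hcore
  set x : ℝ := 3/4 / L / T with hxdef
  have hx0 : 0 < x := by positivity
  have hx3 : x < 1/16 := by
    have h1 : x ≤ 3/4 / L := by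
      rw [hxdef]
      exact div_le_self hRL.le (by linarith)
    linarith
  set S : ℝ := ∑ g ∈ B, (Real.cosh (g / T))⁻¹ with hS
  have hS0 : 0 ≤ S := Finset.sum_nonneg fun z _ => inv_nonneg.2 (Real.cosh_pos _).le
  have hsin : x * (1 - x ^ 2) ≤ Real.sin x := by
    have h1 := Real.sin_gt_sub_cube hx0
    have h2 : 0 ≤ x ^ 3 := by positivity
    have h3 : x * (1 - x ^ 2) = x - x ^ 3 := by ring
    rw [h3]
    linarith
  have h1 : 4 * (x * (1 - x ^ 2) * S) ≤ Real.log c / 2 + 2 * Real.log (1 + δ) -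
      2 * Real.log ((1 - 2 / T) * (1 - δ)) := by
    refine le_trans ?_ hcore
    have := mul_le_mul_of_nonneg_right hsin hS0
    linarith
  have h2 : 8 * (x * (1 - x ^ 2) * S) ≤ (Real.log c + ε / 2) * (1 - x ^ 2) := by
    nlinarith
  have hx2 : 0 < 1 - x ^ 2 := by nlinarith
  have h3 : 8 * (x * S) ≤ Real.log c + ε / 2 := by
    have h4 : (8 * (x * S)) * (1 - x ^ 2) ≤ (Real.log c + ε / 2) * (1 - x ^ 2) := by
      calc (8 * (x * S)) * (1 - x ^ 2) = 8 * (x * (1 - x ^ 2) * S) := by ring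
        _ ≤ _ := h2
    exact le_of_mul_le_mul_right h4 hx2
  have h4 : 8 * (x * S) ≤ 3/2 * (Real.log c0 / (3/2) + ε) := by
    have h5 : 3/2 * (Real.log c0 / (3/2) + ε) = Real.log c0 + 3/2 * ε := by ring
    rw [h5]
    linarith
  have h5 : S = T * L / 4 * (2/3 * (8 * (x * S))) := by
    rw [hxdef]
    field_simp
    ring
  rw [h5]
  have h6 : 2/3 * (8 * (x * S)) ≤ Real.log c0 / (3/2) + ε := by linarith
  exact mul_le_mul_of_nonneg_left h6 (by positivity)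

end LU
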